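import Mathlib

namespace H11.Asp

def A (a b c : ℕ) : ℕ := min ((a + b + c) / 2) (min (a + b) (min (a + c) (b + c)))

def Cond (N m0 m1 m2 m3 m4 m5 m6 m7 m8 m9 m10 m11 m12 : ℕ) : Prop :=
  N ≤ 13 ∧ (m0 ≠ 0 → 21 ≤ N + 2 * m0 + A m1 m3 m9 + A m12 m2 m8 + A m10 m11 m6 + A m4 m5 m7) ∧
  m0 + m1 + m3 + m9 + 7 ≤ N ∧ m1 + m2 + m4 + m10 + 7 ≤ N ∧ m2 + m3 + m5 + m11 + 7 ≤ N ∧ m3 + m4 + m6 + m12 + 7 ≤ N ∧ m4 + m5 + m7 + m0 + 7 ≤ N ∧ m5 + m6 + m8 + m1 + 7 ≤ N ∧ m6 + m7 + m9 + m2 + 7 ≤ N ∧ m7 + m8 + m10 + m3 + 7 ≤ N ∧ m8 + m9 + m11 + m4 + 7 ≤ N ∧ m9 + m10 + m12 + m5 + 7 ≤ N ∧ m10 + m11 + m0 + m6 + 7 ≤ N ∧ m11 + m12 + m1 + m7 + 7 ≤ N ∧ m12 + m0 + m2 + m8 + 7 ≤ N ∧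
  (m1 ≠ 0 → 21 ≤ N + 2 * m1 + A m2 m4 m10 + A m0 m3 m9 + A m11 m12 m7 + A m5 m6 m8) ∧
  (m2 ≠ 0 → 21 ≤ N + 2 * m2 + A m3 m5 m11 + A m1 m4 m10 + A m12 m0 m8 + A m6 m7 m9) ∧
  (m3 ≠ 0 → 21 ≤ N + 2 * m3 + A m4 m6 m12 + A m2 m5 m11 + A m0 m1 m9 + A m7 m8 m10) ∧
  (m4 ≠ 0 → 21 ≤ N + 2 * m4 + A m5 m7 m0 + A m3 m6 m12 + A m1 m2 m10 + A m8 m9 m11) ∧
  (m5 ≠ 0 → 21 ≤ N + 2 * m5 + A m6 m8 m1 + A m4 m7 m0 + A m2 m3 m11 + A m9 m10 m12) ∧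
  (m6 ≠ 0 → 21 ≤ N + 2 * m6 + A m7 m9 m2 + A m5 m8 m1 + A m3 m4 m12 + A m10 m11 m0) ∧
  (m7 ≠ 0 → 21 ≤ N + 2 * m7 + A m8 m10 m3 + A m6 m9 m2 + A m4 m5 m0 + A m11 m12 m1) ∧
  (m8 ≠ 0 → 21 ≤ N + 2 * m8 + A m9 m11 m4 + A m7 m10 m3 + A m5 m6 m1 + A m12 m0 m2) ∧
  (m9 ≠ 0 → 21 ≤ N + 2 * m9 + A m10 m12 m5 + A m8 m11 m4 + A m6 m7 m2 + A m0 m1 m3) ∧
  (m10 ≠ 0 → 21 ≤ N + 2 * m10 + A m11 m0 m6 + A m9 m12 m5 + A m7 m8 m3 + A m1 m2 m4) ∧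
  (m11 ≠ 0 → 21 ≤ N + 2 * m11 + A m12 m1 m7 + A m10 m0 m6 + A m8 m9 m4 + A m2 m3 m5) ∧
  (m12 ≠ 0 → 21 ≤ N + 2 * m12 + A m0 m2 m8 + A m11 m1 m7 + A m9 m10 m5 + A m3 m4 m6)

def ok (m a b c : ℕ) : Prop :=
  m + a + b + c ≤ 6 ∧ (a = 0 ∨ m ≤ a) ∧ (b = 0 ∨ m ≤ b) ∧ (c = 0 ∨ m ≤ c) ∧
    a + b + c + 3 ≤ 2 * A a b c + 3 * m

instance (m a b c : ℕ) : Decidable (ok m a b c) := by unfold ok; infer_instance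

def T : ℕ → List (ℕ × ℕ × ℕ)
  | 1 => [(0,0,0),(1,1,0),(1,0,1),(0,1,1),(2,2,0),(2,0,2),(0,2,2),(2,1,1),(1,2,1),(1,1,2)]
  | 2 => [(0,0,0),(2,0,0),(0,2,0),(0,0,2),(3,0,0),(0,3,0),(0,0,3),(2,2,0),(2,0,2),(0,2,2)]
  | _ => [(0,0,0),(3,0,0),(0,3,0),(0,0,3)]

theorem memT : ∀ m0 : Fin 4, m0.val ≠ 0 → ∀ a b c : Fin 4, ok m0 a b c →
    (a.val, b.val, c.val) ∈ T m0 := by decide +kernel

def Ab (a b c : ℕ) : ℕ :=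
  cond (Nat.ble (b + c) a) (b + c) (cond (Nat.ble (a + c) b) (a + c)
    (cond (Nat.ble (a + b) c) (a + b) ((a + b + c) / 2)))

theorem A_eq (a b c : ℕ) : A a b c = Ab a b c := by
  unfold A Ab
  rcases h1 : Nat.ble (b + c) a <;> rcases h2 : Nat.ble (a + c) b <;>
    rcases h3 : Nat.ble (a + b) c <;>
    simp only [← Bool.not_eq_true, Nat.ble_eq, cond_true, cond_false] at * <;> omega

def condb (N m0 m1 m2 m3 m4 m5 m6 m7 m8 m9 m10 m11 m12 : ℕ) : Bool :=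
  Nat.ble N 13 && ((Nat.beq m0 0 || Nat.ble 21 (N + 2 * m0 + Ab m1 m3 m9 + Ab m12 m2 m8 + Ab m10 m11 m6 + Ab m4 m5 m7)) && (
  Nat.ble (m0 + m1 + m3 + m9 + 7) N && (Nat.ble (m1 + m2 + m4 + m10 + 7) N && (Nat.ble (m2 + m3 + m5 + m11 + 7) N && (Nat.ble (m3 + m4 + m6 + m12 + 7) N && (Nat.ble (m4 + m5 + m7 + m0 + 7) N && (Nat.ble (m5 + m6 + m8 + m1 + 7) N && (Nat.ble (m6 + m7 + m9 + m2 + 7) N && (Nat.ble (m7 + m8 + m10 + m3 + 7) N && (Nat.ble (m8 + m9 + m11 + m4 + 7) N && (Nat.ble (m9 + m10 + m12 + m5 + 7) N && (Nat.ble (m10 + m11 + m0 + m6 + 7) N && (Nat.ble (m11 + m12 + m1 + m7 + 7) N && (Nat.ble (m12 + m0 + m2 + m8 + 7) N && (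
  (Nat.beq m1 0 || Nat.ble 21 (N + 2 * m1 + Ab m2 m4 m10 + Ab m0 m3 m9 + Ab m11 m12 m7 + Ab m5 m6 m8)) && (
  (Nat.beq m2 0 || Nat.ble 21 (N + 2 * m2 + Ab m3 m5 m11 + Ab m1 m4 m10 + Ab m12 m0 m8 + Ab m6 m7 m9)) && (
  (Nat.beq m3 0 || Nat.ble 21 (N + 2 * m3 + Ab m4 m6 m12 + Ab m2 m5 m11 + Ab m0 m1 m9 + Ab m7 m8 m10)) && (
  (Nat.beq m4 0 || Nat.ble 21 (N + 2 * m4 + Ab m5 m7 m0 + Ab m3 m6 m12 + Ab m1 m2 m10 + Ab m8 m9 m11)) && (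
  (Nat.beq m5 0 || Nat.ble 21 (N + 2 * m5 + Ab m6 m8 m1 + Ab m4 m7 m0 + Ab m2 m3 m11 + Ab m9 m10 m12)) && (
  (Nat.beq m6 0 || Nat.ble 21 (N + 2 * m6 + Ab m7 m9 m2 + Ab m5 m8 m1 + Ab m3 m4 m12 + Ab m10 m11 m0)) && (
  (Nat.beq m7 0 || Nat.ble 21 (N + 2 * m7 + Ab m8 m10 m3 + Ab m6 m9 m2 + Ab m4 m5 m0 + Ab m11 m12 m1)) && (
  (Nat.beq m8 0 || Nat.ble 21 (N + 2 * m8 + Ab m9 m11 m4 + Ab m7 m10 m3 + Ab m5 m6 m1 + Ab m12 m0 m2)) && (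
  (Nat.beq m9 0 || Nat.ble 21 (N + 2 * m9 + Ab m10 m12 m5 + Ab m8 m11 m4 + Ab m6 m7 m2 + Ab m0 m1 m3)) && (
  (Nat.beq m10 0 || Nat.ble 21 (N + 2 * m10 + Ab m11 m0 m6 + Ab m9 m12 m5 + Ab m7 m8 m3 + Ab m1 m2 m4)) && (
  (Nat.beq m11 0 || Nat.ble 21 (N + 2 * m11 + Ab m12 m1 m7 + Ab m10 m0 m6 + Ab m8 m9 m4 + Ab m2 m3 m5)) && (
  (Nat.beq m12 0 || Nat.ble 21 (N + 2 * m12 + Ab m0 m2 m8 + Ab m11 m1 m7 + Ab m9 m10 m5 + Ab m3 m4 m6))))))))))))))))))))))))))))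

theorem condb_of (N m0 m1 m2 m3 m4 m5 m6 m7 m8 m9 m10 m11 m12 : ℕ) (h : Cond N m0 m1 m2 m3 m4 m5 m6 m7 m8 m9 m10 m11 m12) : condb N m0 m1 m2 m3 m4 m5 m6 m7 m8 m9 m10 m11 m12 = true := by
  unfold Cond at h
  simp only [A_eq] at h
  simp only [condb, Bool.and_eq_true, Bool.or_eq_true, Nat.ble_eq, Nat.beq_eq,
    or_iff_not_imp_left]
  exact h

def chk (m0 : ℕ) : Bool :=
  (T m0).all fun (m1, m3, m9) => (T m0).all fun (m12, m2, m8) =>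
    (T m0).all fun (m10, m11, m6) => (T m0).all fun (m4, m5, m7) =>
      !condb (m0 + m1 + m2 + m3 + m4 + m5 + m6 + m7 + m8 + m9 + m10 + m11 + m12) m0 m1 m2 m3 m4 m5 m6 m7 m8 m9 m10 m11 m12

theorem chk1 : chk 1 = true := by decide +kernel
theorem chk2 : chk 2 = true := by decide +kernel
theorem chk3 : chk 3 = true := by decide +kernel

theorem fin_check : ∀ m0 : Fin 4, m0.val ≠ 0 → ∀ m1 m3 m9 : Fin 4, ok m0 m1 m3 m9 →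
    ∀ m12 m2 m8 : Fin 4, ok m0 m12 m2 m8 → ∀ m10 m11 m6 : Fin 4, ok m0 m10 m11 m6 →
    ∀ m4 m5 m7 : Fin 4, ok m0 m4 m5 m7 →
    ¬ Cond (m0.val + m1.val + m2.val + m3.val + m4.val + m5.val + m6.val + m7.val + m8.val + m9.val + m10.val + m11.val + m12.val) m0 m1 m2 m3 m4 m5 m6 m7 m8 m9 m10 m11 m12 := by
  intro m0 h0 m1 m3 m9 k1 m12 m2 m8 k2 m10 m11 m6 k3 m4 m5 m7 k4 hc
  have hk : chk m0 = true := by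
    have : m0.val = 1 ∨ m0.val = 2 ∨ m0.val = 3 := by have := m0.2; omega
    rcases this with h | h | h <;> rw [h]
    exacts [chk1, chk2, chk3]
  simp only [chk, List.all_eq_true] at hk
  have := hk _ (memT m0 h0 _ _ _ k1) _ (memT m0 h0 _ _ _ k2) _ (memT m0 h0 _ _ _ k3) _
    (memT m0 h0 _ _ _ k4)
  rw [condb_of _ _ _ _ _ _ _ _ _ _ _ _ _ _ hc] at this
  exact absurd this (by decide)

theorem A_le (a b c : ℕ) : 2 * A a b c ≤ a + b + c ∧ A a b c ≤ a + b ∧ A a b c ≤ a + c ∧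
    A a b c ≤ b + c := by
  unfold A; omega

theorem le_A (P a b c : ℕ) (h1 : 2 * P ≤ a + b + c) (h2 : P ≤ a + b) (h3 : P ≤ a + c)
    (h4 : P ≤ b + c) : P ≤ A a b c := by
  unfold A; omega

theorem nat_check (m0 m1 m2 m3 m4 m5 m6 m7 m8 m9 m10 m11 m12 : ℕ) (h0 : m0 ≠ 0)
    (g1 : m1 = 0 ∨ m0 ≤ m1) (g2 : m2 = 0 ∨ m0 ≤ m2) (g3 : m3 = 0 ∨ m0 ≤ m3) (g4 : m4 = 0 ∨ m0 ≤ m4) (g5 : m5 = 0 ∨ m0 ≤ m5) (g6 : m6 = 0 ∨ m0 ≤ m6) (g7 : m7 = 0 ∨ m0 ≤ m7) (g8 : m8 = 0 ∨ m0 ≤ m8) (g9 : m9 = 0 ∨ m0 ≤ m9) (g10 : m10 = 0 ∨ m0 ≤ m10) (g11 : m11 = 0 ∨ m0 ≤ m11) (g12 : m12 = 0 ∨ m0 ≤ m12)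
    (h : Cond (m0 + m1 + m2 + m3 + m4 + m5 + m6 + m7 + m8 + m9 + m10 + m11 + m12) m0 m1 m2 m3 m4 m5 m6 m7 m8 m9 m10 m11 m12) : False := by
  have h' := h
  obtain ⟨hN, hp, l0, l1, l2, l3, l4, l5, l6, l7, l8, l9, l10, l11, l12, -⟩ := h'
  have hp := hp h0
  have a1 := (A_le m1 m3 m9).1
  have a2 := (A_le m12 m2 m8).1
  have a3 := (A_le m10 m11 m6).1
  have a4 := (A_le m4 m5 m7).1
  have b0 : m0 < 4 := by clear * - hN l0 l12 l10 l4; omega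
  have b1 : m1 < 4 := by clear * - hN l1 l0 l11 l5; omega
  have b2 : m2 < 4 := by clear * - hN l2 l1 l12 l6; omega
  have b3 : m3 < 4 := by clear * - hN l3 l2 l0 l7; omega
  have b4 : m4 < 4 := by clear * - hN l4 l3 l1 l8; omega
  have b5 : m5 < 4 := by clear * - hN l5 l4 l2 l9; omega
  have b6 : m6 < 4 := by clear * - hN l6 l5 l3 l10; omega
  have b7 : m7 < 4 := by clear * - hN l7 l6 l4 l11; omega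
  have b8 : m8 < 4 := by clear * - hN l8 l7 l5 l12; omega
  have b9 : m9 < 4 := by clear * - hN l9 l8 l6 l0; omega
  have b10 : m10 < 4 := by clear * - hN l10 l9 l7 l1; omega
  have b11 : m11 < 4 := by clear * - hN l11 l10 l8 l2; omega
  have b12 : m12 < 4 := by clear * - hN l12 l11 l9 l3; omega
  refine fin_check ⟨m0, b0⟩ h0 ⟨m1, b1⟩ ⟨m3, b3⟩ ⟨m9, b9⟩ ⟨?_, g1, g3, g9, ?_⟩
    ⟨m12, b12⟩ ⟨m2, b2⟩ ⟨m8, b8⟩ ⟨?_, g12, g2, g8, ?_⟩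
    ⟨m10, b10⟩ ⟨m11, b11⟩ ⟨m6, b6⟩ ⟨?_, g10, g11, g6, ?_⟩
    ⟨m4, b4⟩ ⟨m5, b5⟩ ⟨m7, b7⟩ ⟨?_, g4, g5, g7, ?_⟩ h
  all_goals (dsimp only; clear * - hN hp a1 a2 a3 a4 l0 l12 l10 l4; omega)

theorem fun_check (m : Fin 13 → ℕ) (N : ℕ) (hN : N = ∑ x, m x) (h13 : N ≤ 13)
    (hb : ∀ i, m i + m (i + 1) + m (i + 3) + m (i + 9) + 7 ≤ N)
    (hc : ∀ v, m v ≠ 0 → 21 ≤ N + 2 * m v + A (m (v + 1)) (m (v + 3)) (m (v + 9))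
      + A (m (v + 12)) (m (v + 2)) (m (v + 8)) + A (m (v + 10)) (m (v + 11)) (m (v + 6))
      + A (m (v + 4)) (m (v + 5)) (m (v + 7))) : False := by
  have hne : (Finset.univ.filter fun x => m x ≠ 0).Nonempty := by
    by_contra hh
    rw [Finset.not_nonempty_iff_eq_empty, Finset.filter_eq_empty_iff] at hh
    have : N = 0 := by rw [hN]; exact Finset.sum_eq_zero fun x hx => by simpa using hh hx
    have := hb 0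
    omega
  obtain ⟨v, hv, hmin⟩ := Finset.exists_min_image _ m hne
  simp only [Finset.mem_filter, Finset.mem_univ, true_and] at hv hmin
  have hmin' : ∀ x, m (x + v) = 0 ∨ m (0 + v) ≤ m (x + v) := fun x => by
    by_cases hx : m (x + v) = 0
    · exact Or.inl hx
    · right; rw [zero_add]; exact hmin _ hx
  have hN' : N = ∑ x, m (x + v) := by
    rw [hN]; exact (Equiv.sum_comp (Equiv.addRight v) m).symm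
  have hb' : ∀ i, m (i + v) + m (i + 1 + v) + m (i + 3 + v) + m (i + 9 + v) + 7 ≤ N := fun i => by
    have := hb (i + v)
    simpa only [add_right_comm i v] using this
  have hc' : ∀ i, m (i + v) ≠ 0 → 21 ≤ N + 2 * m (i + v)
      + A (m (i + 1 + v)) (m (i + 3 + v)) (m (i + 9 + v))
      + A (m (i + 12 + v)) (m (i + 2 + v)) (m (i + 8 + v))
      + A (m (i + 10 + v)) (m (i + 11 + v)) (m (i + 6 + v))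
      + A (m (i + 4 + v)) (m (i + 5 + v)) (m (i + 7 + v)) := fun i hi => by
    have := hc (i + v) hi
    simpa only [add_right_comm i v] using this
  have hS : N = m (0 + v) + m (1 + v) + m (2 + v) + m (3 + v) + m (4 + v) + m (5 + v) + m (6 + v) + m (7 + v) + m (8 + v) + m (9 + v) + m (10 + v) + m (11 + v) + m (12 + v) := by
    rw [hN']; simp only [Fin.sum_univ_succ, Fin.sum_univ_zero, add_zero, ← add_assoc]; rfl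
  refine nat_check (m (0 + v)) (m (1 + v)) (m (2 + v)) (m (3 + v)) (m (4 + v)) (m (5 + v)) (m (6 + v)) (m (7 + v)) (m (8 + v)) (m (9 + v)) (m (10 + v)) (m (11 + v)) (m (12 + v)) (by rwa [zero_add])
    (hmin' 1) (hmin' 2) (hmin' 3) (hmin' 4) (hmin' 5) (hmin' 6) (hmin' 7) (hmin' 8) (hmin' 9) (hmin' 10) (hmin' 11) (hmin' 12) ?_
  rw [← hS]
  exact ⟨h13, hc' 0, hb' 0, hb' 1, hb' 2, hb' 3, hb' 4, hb' 5, hb' 6, hb' 7, hb' 8, hb' 9, hb' 10, hb' 11, hb' 12, hc' 1, hc' 2, hc' 3, hc' 4, hc' 5, hc' 6, hc' 7, hc' 8, hc' 9, hc' 10, hc' 11, hc' 12⟩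

end H11.Asp
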