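import Mathlib

namespace Pool.Agent.H11.Asym

open scoped symmDiff

def ok : List ℕ → Prop
  | [] => True
  | i :: v => i ≤ v.length ∧ ok v

def Valid (x : List ℕ × Finset ℕ) : Prop :=
  ok x.1 ∧ x.2 ⊆ Finset.range (x.1.length + 1) ∧ (x.1 = [] → x.2 = ∅)

abbrev V := {x : List ℕ × Finset ℕ // Valid x}

def Par (x y : V) : Prop :=
  ∃ i, y.1.1 = i :: x.1.1 ∧ (x.1.1 = [] ∨ (i ∈ x.1.2 ↔ Odd y.1.2.card))

def lev (x : V) : ℕ := x.1.1.length

lemma par_lev {x y : V} (h : Par x y) : lev y = lev x + 1 := by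
  obtain ⟨i, hi, -⟩ := h
  simp [lev, hi]

def G : SimpleGraph V where
  Adj x y := Par x y ∨ Par y x
  symm := ⟨fun _ _ h => h.symm⟩
  loopless := ⟨fun x h => by
    rcases h with h | h <;> have := par_lev h <;> omega⟩

def root : V := ⟨([], ∅), trivial, by simp, fun _ => rfl⟩

lemma eq_root {x : V} (h : lev x = 0) : x = root := by
  obtain ⟨⟨v, B⟩, h1, h2, h3⟩ := x
  have hv : v = [] := List.length_eq_zero_iff.mp h
  have hB : B = ∅ := h3 hv
  subst hv hB
  rfl

lemma exists_par (y : V) (h : lev y ≠ 0) : ∃ x, Par x y := by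
  obtain ⟨⟨w, C⟩, h1, h2, h3⟩ := y
  cases w with
  | nil => exact absurd rfl h
  | cons i v =>
    obtain ⟨hi, hv⟩ := h1
    by_cases hnil : v = []
    · exact ⟨root, i, by simp [root, hnil], Or.inl rfl⟩
    · refine ⟨⟨(v, if Odd C.card then Finset.range (v.length + 1) else ∅), hv, ?_,
        fun h => absurd h hnil⟩, i, rfl, Or.inr ?_⟩
      · dsimp only
        split_ifs <;> simp
      · dsimp only
        split_ifs with ho
        · simp only [Finset.mem_range, ho, iff_true]; omega
        · simp [ho]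

lemma exists_child (x : V) (i : ℕ) (hi : i ≤ lev x) :
    ∃ y : V, y.1.1 = i :: x.1.1 ∧ (i ∈ x.1.2 ↔ Odd y.1.2.card) := by
  refine ⟨⟨(i :: x.1.1, if i ∈ x.1.2 then {0} else ∅), ⟨hi, x.2.1⟩, ?_, fun h => by simp at h⟩,
    rfl, ?_⟩
  · dsimp only
    split_ifs <;> simp
  · dsimp only
    split_ifs with h <;> simp [h]

lemma exists_walk : ∀ (l : ℕ) (y : V), lev y = l → ∃ p : G.Walk root y, p.length = l := by
  intro l
  induction l with
  | zero =>
    intro y hy
    have := eq_root hy
    subst this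
    exact ⟨SimpleGraph.Walk.nil, rfl⟩
  | succ l ih =>
    intro y hy
    obtain ⟨x, hx⟩ := exists_par y (by omega)
    have := par_lev hx
    obtain ⟨p, hp⟩ := ih x (by omega)
    exact ⟨p.concat (Or.inl hx), by simp [hp]⟩

lemma lev_le_walk {x y : V} (p : G.Walk x y) : lev y ≤ lev x + p.length := by
  induction p with
  | nil => simp
  | cons h p ih =>
    rcases h with h | h <;> have := par_lev h <;> simp only [SimpleGraph.Walk.length_cons] <;> omega

lemma dist_root (y : V) : G.dist root y = lev y := by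
  obtain ⟨p, hp⟩ := exists_walk _ y rfl
  apply le_antisymm
  · rw [← hp]; exact SimpleGraph.dist_le p
  · obtain ⟨q, hq⟩ := p.reachable.exists_walk_length_eq_dist
    have := lev_le_walk q
    have h0 : lev root = 0 := rfl
    omega

lemma connected : G.Connected := by
  rw [SimpleGraph.connected_iff_exists_forall_reachable]
  exact ⟨root, fun y => (exists_walk _ y rfl).choose.reachable⟩

lemma locfin (x : V) : (G.neighborSet x).Finite := by
  classical
  have hf : ((((Finset.range (lev x + 1)).image (fun i => i :: x.1.1) ∪ {x.1.1.tail}) ×ˢ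
      (Finset.range (lev x + 2)).powerset : Finset (List ℕ × Finset ℕ)) :
      Set (List ℕ × Finset ℕ)).Finite := Finset.finite_toSet _
  refine (hf.preimage (f := fun y : V => y.1) Subtype.val_injective.injOn).subset ?_
  intro y hy
  simp only [Set.mem_preimage, Finset.mem_coe, Finset.mem_product, Finset.mem_union,
    Finset.mem_image, Finset.mem_range, Finset.mem_singleton, Finset.mem_powerset]
  rcases hy with h | h
  · have hl := par_lev h
    obtain ⟨i, hi, -⟩ := h
    have h1 := y.2.1
    rw [hi] at h1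
    refine ⟨Or.inl ⟨i, Nat.lt_succ_of_le h1.1, hi.symm⟩, ?_⟩
    have h2 := y.2.2.1
    have : y.1.1.length + 1 = lev x + 2 := by unfold lev at hl ⊢; omega
    rwa [this] at h2
  · have hl := par_lev h
    obtain ⟨i, hi, -⟩ := h
    refine ⟨Or.inr (by simp [hi]), y.2.2.1.trans (Finset.range_mono ?_)⟩
    unfold lev at hl ⊢; omega

lemma levfin : ∀ l : ℕ, {y : V | lev y = l}.Finite := by
  intro l
  induction l with
  | zero => exact (Set.finite_singleton root).subset (fun y hy => eq_root hy)
  | succ l ih =>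
    refine (ih.biUnion (fun x _ => locfin x)).subset ?_
    intro y hy
    have hy' : lev y = l + 1 := hy
    obtain ⟨x, hx⟩ := exists_par y (by omega)
    have := par_lev hx
    simp only [Set.mem_iUnion]
    exact ⟨x, by show lev x = l; omega, Or.inl hx⟩

lemma step_down (σ : G ≃g G) (l : ℕ) (h : ∀ y, l + 1 ≤ lev y → σ y = y) :
    ∀ x, l ≤ lev x → σ x = x := by
  intro x hx
  by_cases hx1 : l + 1 ≤ lev x
  · exact h x hx1
  have hxl : lev x = l := by omega
  by_cases hy1 : l + 1 ≤ lev (σ x)
  · exact σ.injective (h _ hy1)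
  have key : ∀ i ≤ lev x, (σ x).1.1 = x.1.1 ∧
      ((σ x).1.1 = [] ∨ (i ∈ (σ x).1.2 ↔ i ∈ x.1.2)) := by
    intro i hi
    obtain ⟨z, hz1, hz2⟩ := exists_child x i hi
    have hp : Par x z := ⟨i, hz1, Or.inr hz2⟩
    have hlz := par_lev hp
    have hadj : G.Adj (σ x) (σ z) := σ.map_adj_iff.mpr (Or.inl hp)
    rw [h z (by omega)] at hadj
    rcases hadj with hq | hq
    · obtain ⟨j, hj1, hj2⟩ := hq
      rw [hz1] at hj1
      obtain ⟨rfl, hv⟩ := List.cons.inj hj1
      refine ⟨hv.symm, hj2.imp id (fun h => h.trans hz2.symm)⟩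
    · have := par_lev hq
      omega
  have h0 := (key 0 (Nat.zero_le _)).1
  apply Subtype.ext
  apply Prod.ext h0
  by_cases hnil : x.1.1 = []
  · rw [x.2.2.2 hnil, (σ x).2.2.2 (h0.trans hnil)]
  · ext i
    by_cases hi : i ≤ lev x
    · exact (key i hi).2.resolve_left (fun h => hnil (h0.symm.trans h))
    · have h1 := x.2.2.1
      have h2 := (σ x).2.2.1
      rw [h0] at h2
      constructor
      · intro hm
        have := Finset.mem_range.mp (h2 hm)
        unfold lev at hi; omega
      · intro hm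
        have := Finset.mem_range.mp (h1 hm)
        unfold lev at hi; omega

lemma motion (σ : G ≃g G) (hσ : σ ≠ SimpleGraph.Iso.refl) : {v | σ v ≠ v}.Infinite := by
  intro hfin
  obtain ⟨L, hL⟩ := (hfin.image lev).bddAbove
  have h1 : ∀ k, ∀ y, L + 1 - k ≤ lev y → σ y = y := by
    intro k
    induction k with
    | zero =>
      intro y hy
      by_contra hne
      have := hL ⟨y, hne, rfl⟩
      omega
    | succ k ih =>
      intro y hy
      refine step_down σ (L + 1 - (k + 1)) (fun z hz => ih z (by omega)) y hy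
  apply hσ
  ext y
  · rw [h1 (L + 1) y (by omega)]; rfl
  · rw [h1 (L + 1) y (by omega)]; rfl

def path (g : List ℕ → ℕ) : ℕ → List ℕ
  | 0 => []
  | l + 1 => g (path g l) :: path g l

lemma path_length (g : List ℕ → ℕ) (l : ℕ) : (path g l).length = l := by
  induction l with
  | zero => rfl
  | succ l ih => simp [path, ih]

lemma path_ok (g : List ℕ → ℕ) (hg : ∀ v, g v ≤ v.length) (l : ℕ) : ok (path g l) := by
  induction l with
  | zero => trivial
  | succ l ih => exact ⟨hg _, ih⟩

def S (g : List ℕ → ℕ) (v : List ℕ) : Finset ℕ :=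
  if v ≠ [] ∧ v = path g v.length then {g v} else ∅

def flip (g : List ℕ → ℕ) (hg : ∀ v, g v ≤ v.length) (x : V) : V :=
  ⟨(x.1.1, x.1.2 ∆ S g x.1.1), x.2.1, by
    intro i hi
    rcases Finset.mem_symmDiff.mp hi with h | h
    · exact x.2.2.1 h.1
    · have h1 := h.1
      unfold S at h1
      split_ifs at h1
      · rw [Finset.mem_singleton.mp h1]
        exact Finset.mem_range.mpr (Nat.lt_succ_of_le (hg _))
      · simp at h1, by
    intro h
    have h' : x.1.1 = [] := h
    simp [S, h', x.2.2.2 h']⟩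

lemma flip_flip (g : List ℕ → ℕ) (hg : ∀ v, g v ≤ v.length) (x : V) :
    flip g hg (flip g hg x) = x := by
  apply Subtype.ext
  apply Prod.ext
  · rfl
  · simp [flip]

lemma odd_symmDiff (C : Finset ℕ) (j : ℕ) : Odd (C ∆ {j}).card ↔ ¬ Odd C.card := by
  by_cases h : j ∈ C
  · have : C ∆ {j} = C.erase j := by
      ext a
      simp only [Finset.mem_symmDiff, Finset.mem_singleton, Finset.mem_erase]
      constructor
      · rintro (h1 | h1)
        · exact ⟨h1.2, h1.1⟩
        · exact absurd (h1.1 ▸ h) h1.2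
      · intro h1; exact Or.inl ⟨h1.2, h1.1⟩
    rw [this, ← Finset.card_erase_add_one h, Nat.odd_add_one, not_not]
  · have : C ∆ {j} = insert j C := by
      ext a
      simp only [Finset.mem_symmDiff, Finset.mem_singleton, Finset.mem_insert]
      constructor
      · rintro (h1 | h1)
        · exact Or.inr h1.1
        · exact Or.inl h1.1
      · rintro (h1 | h1)
        · exact Or.inr ⟨h1, h1 ▸ h⟩
        · exact Or.inl ⟨h1, fun e => h (e ▸ h1)⟩
    rw [this, Finset.card_insert_of_notMem h, Nat.odd_add_one]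

lemma flip_par (g : List ℕ → ℕ) (hg : ∀ v, g v ≤ v.length) {x y : V} (h : Par x y) :
    Par (flip g hg x) (flip g hg y) := by
  obtain ⟨i, hi, h2⟩ := h
  refine ⟨i, hi, ?_⟩
  by_cases hnil : x.1.1 = []
  · exact Or.inl hnil
  right
  have h2 := h2.resolve_left hnil
  show i ∈ x.1.2 ∆ S g x.1.1 ↔ Odd (y.1.2 ∆ S g y.1.1).card
  by_cases hc : y.1.1 = path g y.1.1.length
  · have h3 : S g y.1.1 = {g y.1.1} := by
      unfold S
      rw [if_pos ⟨by simp [hi], hc⟩]
    rw [hi] at hc
    obtain ⟨e1, e2⟩ := List.cons.inj (hc : i :: x.1.1 = g (path g x.1.1.length) :: path g x.1.1.length)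
    have h4 : S g x.1.1 = {i} := by
      unfold S
      rw [if_pos ⟨hnil, e2⟩, e1, ← e2]
    rw [h3, h4, odd_symmDiff, ← h2]
    simp [Finset.mem_symmDiff]
  · have h3 : S g y.1.1 = ∅ := by
      unfold S
      rw [if_neg (fun h => hc h.2)]
    have h4 : i ∉ S g x.1.1 := by
      unfold S
      split_ifs with h5
      · intro h6
        apply hc
        rw [hi]
        show i :: x.1.1 = g (path g x.1.1.length) :: path g x.1.1.length
        rw [← h5.2, Finset.mem_singleton.mp h6]
      · simp
    have h5 : y.1.2 ∆ (∅ : Finset ℕ) = y.1.2 := symmDiff_bot _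
    rw [h3, h5]
    simp [Finset.mem_symmDiff, h4, h2]

def flipIso (g : List ℕ → ℕ) (hg : ∀ v, g v ≤ v.length) : G ≃g G where
  toFun := flip g hg
  invFun := flip g hg
  left_inv := flip_flip g hg
  right_inv := flip_flip g hg
  map_rel_iff' := by
    intro a b
    constructor
    · intro h
      have h' : Par (flip g hg a) (flip g hg b) ∨ Par (flip g hg b) (flip g hg a) := h
      rcases h' with h | h
      · have := flip_par g hg h
        rw [flip_flip, flip_flip] at this
        exact Or.inl this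
      · have := flip_par g hg h
        rw [flip_flip, flip_flip] at this
        exact Or.inr this
    · intro h
      rcases h with h | h
      · exact Or.inl (flip_par g hg h)
      · exact Or.inr (flip_par g hg h)

lemma two_good (red : Set V) (C : ℕ) (hC : ∀ r, ({v | lev v = r} ∩ red).ncard ≤ C) (v : List ℕ) :
    ∃ i j : ℕ, i ≤ v.length ∧ j ≤ v.length ∧ (C + 1 ≤ v.length → i ≠ j ∧
      (∀ y ∈ red, y.1.1 ≠ i :: v) ∧ (∀ y ∈ red, y.1.1 ≠ j :: v)) := by
  classical
  by_cases hv : C + 1 ≤ v.length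
  swap
  · exact ⟨0, 0, Nat.zero_le _, Nat.zero_le _, fun h => absurd h hv⟩
  have hfin : ({y | lev y = v.length + 1} ∩ red).Finite := (levfin _).subset Set.inter_subset_left
  set T : Finset ℕ := hfin.toFinset.image (fun y => y.1.1.headI) with hT
  have hTc : T.card ≤ C := by
    refine Finset.card_image_le.trans ?_
    rw [← Set.ncard_eq_toFinset_card _ hfin]
    exact hC _
  have hcard : 1 < (Finset.range (v.length + 1) \ T).card := by
    have := Finset.le_card_sdiff T (Finset.range (v.length + 1))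
    rw [Finset.card_range] at this
    omega
  obtain ⟨i, hi, j, hj, hij⟩ := Finset.one_lt_card.mp hcard
  have key : ∀ k ∈ Finset.range (v.length + 1) \ T, ∀ y ∈ red, y.1.1 ≠ k :: v := by
    intro k hk y hy he
    apply (Finset.mem_sdiff.mp hk).2
    rw [hT, Finset.mem_image]
    refine ⟨y, ?_, by simp [he]⟩
    rw [Set.Finite.mem_toFinset]
    exact ⟨by show lev y = _; simp [lev, he], hy⟩
  refine ⟨i, j, ?_, ?_, fun _ => ⟨hij, key i hi, key j hj⟩⟩
  · have := Finset.mem_range.mp (Finset.mem_sdiff.mp hi).1; omega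
  · have := Finset.mem_range.mp (Finset.mem_sdiff.mp hj).1; omega

lemma not_asym (red : Set V) (C : ℕ) (hC : ∀ r, ({v | lev v = r} ∩ red).ncard ≤ C) :
    ∃ σ : G ≃g G, (∀ v, σ v ∈ red ↔ v ∈ red) ∧ σ ≠ SimpleGraph.Iso.refl := by
  classical
  choose f1 f2 h1 h2 h3 using two_good red C hC
  set g2 : List ℕ → ℕ := fun v => if v.length = C + 2 then f2 v else f1 v with hg2
  have hg2le : ∀ v, g2 v ≤ v.length := by
    intro v
    simp only [hg2]
    split_ifs
    · exact h2 v
    · exact h1 v
  have hpath : ∀ l, l ≤ C + 2 → path g2 l = path f1 l := by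
    intro l
    induction l with
    | zero => intro _; rfl
    | succ l ih =>
      intro hl
      have e := ih (by omega)
      have e2 : g2 (path f1 l) = f1 (path f1 l) := by
        simp only [hg2, path_length]
        rw [if_neg (by omega)]
      show g2 (path g2 l) :: path g2 l = f1 (path f1 l) :: path f1 l
      rw [e, e2]
  have hgood1 : ∀ y ∈ red, C + 2 ≤ lev y → y.1.1 ≠ path f1 (lev y) := by
    intro y hy hl
    obtain ⟨m, hm⟩ : ∃ m, lev y = m + 1 := ⟨lev y - 1, by omega⟩
    rw [hm]
    exact (h3 _ (by rw [path_length]; omega)).2.1 y hy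
  have hgood2 : ∀ y ∈ red, C + 2 ≤ lev y → y.1.1 ≠ path g2 (lev y) := by
    intro y hy hl
    obtain ⟨m, hm⟩ : ∃ m, lev y = m + 1 := ⟨lev y - 1, by omega⟩
    rw [hm]
    simp only [path, hg2]
    split_ifs
    · exact (h3 _ (by rw [path_length]; omega)).2.2 y hy
    · exact (h3 _ (by rw [path_length]; omega)).2.1 y hy
  set σ : G ≃g G := (flipIso g2 hg2le).trans (flipIso f1 h1) with hσ
  have hσ2 : ∀ y : V, (σ y).1 = (y.1.1, (y.1.2 ∆ S g2 y.1.1) ∆ S f1 y.1.1) := fun y => rfl
  have hfix : ∀ y ∈ red, σ y = y := by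
    intro y hy
    apply Subtype.ext
    rw [hσ2]
    have : S g2 y.1.1 = S f1 y.1.1 := by
      by_cases hl : C + 2 ≤ lev y
      · unfold S
        rw [if_neg (fun h => hgood2 y hy hl h.2), if_neg (fun h => hgood1 y hy hl h.2)]
      · unfold S
        have e : g2 y.1.1 = f1 y.1.1 := by
          simp only [hg2]
          rw [if_neg (by unfold lev at hl; omega)]
        rw [hpath _ (by unfold lev at hl; omega), e]
    rw [this]
    simp
  refine ⟨σ, fun v => ⟨fun h => ?_, fun h => by rw [hfix v h]; exact h⟩, ?_⟩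
  · have := σ.injective (hfix _ h)
    rwa [this] at h
  · intro he
    let a : V := ⟨(path f1 (C + 2), ∅), path_ok f1 h1 _, by simp, fun _ => rfl⟩
    have e := hσ2 a
    rw [he] at e
    have e2 : (∅ : Finset ℕ) = (∅ ∆ S g2 (path f1 (C + 2))) ∆ S f1 (path f1 (C + 2)) :=
      congrArg Prod.snd e
    have hne : path f1 (C + 2) ≠ [] := by simp [path]
    have s1 : S f1 (path f1 (C + 2)) = {f1 (path f1 (C + 2))} := by
      unfold S
      rw [if_pos ⟨hne, by rw [path_length]⟩]
    have s2 : S g2 (path f1 (C + 2)) = {f2 (path f1 (C + 2))} := by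
      unfold S
      rw [if_pos ⟨hne, by rw [path_length, hpath _ le_rfl]⟩]
      simp [hg2, path_length]
    rw [s1, s2] at e2
    have hne2 := (h3 (path f1 (C + 2)) (by rw [path_length]; omega)).1
    have : f1 (path f1 (C + 2)) ∈ (∅ : Finset ℕ) := by
      rw [e2]
      simp [Finset.mem_symmDiff, hne2]
    simp at this

theorem main : ∃ (W : Type) (X : SimpleGraph W) (v₀ : W),
    X.Connected ∧ (∀ v, (X.neighborSet v).Finite) ∧
    (∀ σ : X ≃g X, σ ≠ SimpleGraph.Iso.refl → {v | σ v ≠ v}.Infinite) ∧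
    ∀ red : Set W, (∀ σ : X ≃g X, (∀ v, σ v ∈ red ↔ v ∈ red) → σ = SimpleGraph.Iso.refl) →
      ∀ C : ℕ, ∃ r : ℕ, C < ({v | X.dist v₀ v = r} ∩ red).ncard := by
  refine ⟨V, G, root, connected, locfin, motion, fun red hred C => ?_⟩
  by_contra hcon
  push Not at hcon
  obtain ⟨σ, h1, h2⟩ := not_asym red C (fun r => by simpa only [dist_root] using hcon r)
  exact h2 (hred σ h1)

end Pool.Agent.H11.Asym
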