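import Mathlib
import Pool.Agent.H66.Card1

set_option autoImplicit false

namespace H11.Aut
open Pool.Agent.H66.Card

/-- convolution of a tuple of words: read in parallel, padded with `none` -/
def conv {κ β : Type} [Fintype κ] (t : κ → List β) : List (κ → Option β) :=
  (List.range (Finset.univ.sup fun k => (t k).length)).map fun i k => (t k)[i]?

/-- a binary relation on words is synchronously recognisable -/
def Sync {β : Type} (R : List β → List β → Prop) : Prop :=
  Language.IsRegular {W : List (Fin 2 → Option β) | ∃ u v, R u v ∧ W = conv ![u, v]}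

section conv
variable {κ β : Type} [Fintype κ]

open Classical in
theorem conv_get (t : κ → List β) (i : ℕ) :
    (conv t)[i]? = if ∃ k, i < (t k).length then some (fun k => (t k)[i]?) else none := by
  unfold conv
  have e : (∃ k, i < (t k).length) ↔ i < Finset.univ.sup fun k => (t k).length := by
    rw [Finset.lt_sup_iff]; simp
  by_cases h : i < Finset.univ.sup fun k => (t k).length
  · rw [if_pos (e.2 h)]; simp [h]
  · rw [if_neg (fun h' => h (e.1 h'))]
    exact List.getElem?_eq_none (by simp only [List.length_map, List.length_range]; omega)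

theorem conv_length_le (t : κ → List β) (n : ℕ) :
    (conv t).length ≤ n ↔ ∀ k, (t k).length ≤ n := by
  simp [conv]

theorem le_conv_length (t : κ → List β) (k : κ) : (t k).length ≤ (conv t).length :=
  (conv_length_le t _).1 le_rfl k

theorem conv_take (t : κ → List β) (m : ℕ) :
    (conv t).take m = conv fun k => (t k).take m := by
  apply List.ext_getElem?
  intro i
  rw [List.getElem?_take, conv_get, conv_get]
  by_cases h : i < m
  · simp [h, List.getElem?_take]
  · simp [h]

theorem conv_drop (t : κ → List β) (m : ℕ) :
    (conv t).drop m = conv fun k => (t k).drop m := by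
  apply List.ext_getElem?
  intro i
  rw [List.getElem?_drop, conv_get, conv_get]
  have : (∃ k, m + i < (t k).length) ↔ ∃ k, i < ((t k).drop m).length := by
    simp only [List.length_drop]
    exact exists_congr fun k => by omega
  simp only [this, List.getElem?_drop]

theorem conv_inj {s t : κ → List β} (h : conv s = conv t) : s = t := by
  funext k
  apply List.ext_getElem?
  intro i
  have h1 := conv_get s i
  have h2 := conv_get t i
  rw [h] at h1
  rw [h1] at h2
  by_cases a : ∃ k, i < (s k).length <;> by_cases b : ∃ k, i < (t k).length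
  · rw [if_pos a, if_pos b] at h2
    exact congrFun (Option.some.inj h2) k
  · rw [if_pos a, if_neg b] at h2; cases h2
  · rw [if_neg a, if_pos b] at h2; cases h2
  · push Not at a b
    rw [List.getElem?_eq_none (a k), List.getElem?_eq_none (b k)]

theorem conv_glue (T : List (κ → Option β)) (m : ℕ) (x s : κ → List β)
    (h1 : T.take m = conv x) (h2 : T.drop m = conv s)
    (h3 : ∀ k, (x k).length < m → s k = []) : T = conv fun k => x k ++ s k := by
  have hx : ∀ k, (x k).length ≤ m := fun k => by
    have := le_conv_length x k
    rw [← h1, List.length_take] at this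
    omega
  rw [← List.take_append_drop m T, ← List.take_append_drop m (conv fun k => x k ++ s k),
    conv_take, conv_drop, h1, h2]
  congr 2
  · funext k
    by_cases hk : (x k).length < m
    · rw [h3 k hk]; simp; omega
    · rw [List.take_left']; have := hx k; omega
  · funext k
    by_cases hk : (x k).length < m
    · rw [h3 k hk]; simp; omega
    · rw [List.drop_left']; have := hx k; omega

theorem fs_enc {ι : Type} {P : (ι → List (κ → Option β)) → Prop} (h : FS P) :
    FS fun t : ι × κ → List β => P fun i => conv fun k => t (i, k) := by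
  obtain ⟨σ, _, f, g, h⟩ := h
  refine ⟨σ, inferInstance, fun m x => f m fun i => conv fun k => x (i, k),
    fun q s => g q fun i => conv fun k => s (i, k), fun m t => ?_⟩
  beta_reduce
  rw [h m]
  simp only [conv_take, conv_drop]

theorem fs_dec {ι : Type} [Finite ι] {P : (ι × κ → List β) → Prop} (h : FS P) :
    FS fun T : ι → List (κ → Option β) =>
      ∃ t : ι × κ → List β, (∀ i, T i = conv fun k => t (i, k)) ∧ P t := by
  obtain ⟨σ, _, f, g, h⟩ := h
  refine ⟨Set (σ × (ι × κ → Prop)), inferInstance,
    fun m X => {z | ∃ x : ι × κ → List β, (∀ i, X i = conv fun k => x (i, k)) ∧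
      z = (f m x, fun p => (x p).length < m)},
    fun S Y => ∃ z ∈ S, ∃ s : ι × κ → List β, (∀ i, Y i = conv fun k => s (i, k)) ∧
      (∀ p, z.2 p → s p = []) ∧ g z.1 s, fun m T => ?_⟩
  constructor
  · rintro ⟨t, h1, h2⟩
    refine ⟨_, ⟨fun p => (t p).take m, fun i => by beta_reduce; rw [h1 i, conv_take], rfl⟩,
      fun p => (t p).drop m, fun i => by beta_reduce; rw [h1 i, conv_drop], fun p hp => ?_, (h m t).1 h2⟩
    simp only [List.length_take] at hp
    exact List.drop_of_length_le (by omega)
  · rintro ⟨_, ⟨x, h1, rfl⟩, s, h2, h3, h4⟩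
    have hx : ∀ p, (x p).length ≤ m := fun p => by
      have := le_conv_length (fun k => x (p.1, k)) p.2
      rw [← h1, List.length_take] at this
      exact this.trans (min_le_left _ _)
    refine ⟨fun p => x p ++ s p, fun i => conv_glue _ m _ _ (h1 i) (h2 i) fun k => h3 (i, k), ?_⟩
    rw [h m]
    have a1 : (fun p => (x p ++ s p).take m) = x := by
      funext p
      by_cases hk : (x p).length < m
      · rw [h3 p hk]; simp; omega
      · rw [List.take_left']; have := hx p; omega
    have a2 : (fun p => (x p ++ s p).drop m) = s := by
      funext p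
      by_cases hk : (x p).length < m
      · rw [h3 p hk]; simp; omega
      · rw [List.drop_left']; have := hx p; omega
    rw [a1, a2]
    exact h4

end conv

section reg
variable {β : Type}

theorem fs_of_regular {A : Language β} (h : A.IsRegular) {ι : Type} (i : ι) :
    FS fun t : ι → List β => t i ∈ A := by
  obtain ⟨σ, _, M, rfl⟩ := h
  refine ⟨σ, inferInstance, fun _ x => M.eval (x i), fun q s => M.evalFrom q (s i) ∈ M.accept,
    fun m t => ?_⟩
  beta_reduce
  rw [DFA.mem_accepts]
  simp only [DFA.eval]
  rw [← DFA.evalFrom_of_append, List.take_append_drop]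

theorem regular_of_fs {A : Language β} (h : FS fun t : Unit → List β => t () ∈ A) :
    A.IsRegular := by
  obtain ⟨k, M, hM⟩ := h.regular
  exact ⟨Fin k, inferInstance, M, hM⟩

theorem Sync.fs {R : List β → List β → Prop} (h : Sync R) {ι : Type} (i j : ι) :
    FS fun t : ι → List β => R (t i) (t j) := by
  have h1 := (fs_enc (fs_of_regular h ())).comap (κ := ι) fun p => ![i, j] p.2
  refine h1.congr fun t => ?_
  have e : (fun k : Fin 2 => t (![i, j] k)) = ![t i, t j] := by
    funext k; fin_cases k <;> rfl
  simp only [e]
  constructor
  · intro h; exact ⟨_, _, h, rfl⟩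
  · rintro ⟨u, v, h, h'⟩
    have := conv_inj h'
    have a := congrFun this 0
    have b := congrFun this 1
    simp only [Matrix.cons_val_zero, Matrix.cons_val_one] at a b
    rw [a, b]; exact h

theorem sync_of_fs {R : List β → List β → Prop}
    (h : FS fun t : Fin 2 → List β => R (t 0) (t 1)) : Sync R := by
  have h1 := fs_dec (ι := Unit) (κ := Fin 2) (h.comap (κ := Unit × Fin 2) fun k => ((), k))
  refine regular_of_fs (h1.congr fun T => ?_)
  constructor
  · rintro ⟨u, v, h, h'⟩
    exact ⟨fun p => ![u, v] p.2, fun _ => h', h⟩
  · rintro ⟨t, h1, h2⟩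
    refine ⟨_, _, h2, ?_⟩
    rw [h1 ()]
    congr 1
    funext k; fin_cases k <;> rfl

theorem fs_map {α ι : Type} {P : (ι → List α) → Prop} (h : FS P) (φ : β → α) :
    FS fun t : ι → List β => P fun i => (t i).map φ := by
  obtain ⟨σ, _, f, g, h⟩ := h
  refine ⟨σ, inferInstance, fun m x => f m fun i => (x i).map φ,
    fun q s => g q fun i => (s i).map φ, fun m t => ?_⟩
  beta_reduce
  rw [h m]
  simp only [List.map_take, List.map_drop]

theorem fs_or {ι : Type} {P Q : (ι → List β) → Prop} (h : FS P) (h' : FS Q) :
    FS fun t => P t ∨ Q t := (h.not.imp h').congr fun t => by tauto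

theorem fs_snoc {ι : Type} (i j : ι) (a : β) : FS fun t : ι → List β => t j = t i ++ [a] := by
  refine ⟨Prop × Prop, inferInstance, fun _ x => (x j = x i, x j = x i ++ [a]),
    fun q s => (q.1 ∧ s j = s i ++ [a]) ∨ (q.2 ∧ s j = [] ∧ s i = []), fun m t => ?_⟩
  constructor
  · intro h
    simp only [h]
    by_cases hm : m ≤ (t i).length
    · left
      exact ⟨List.take_append_of_le_length hm, List.drop_append_of_le_length hm⟩
    · right
      refine ⟨?_, ?_, ?_⟩
      · rw [List.take_of_length_le (by simp; omega), List.take_of_length_le (by omega)]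
      · exact List.drop_of_length_le (by simp; omega)
      · exact List.drop_of_length_le (by omega)
  · intro h
    beta_reduce
    rw [← List.take_append_drop m (t i), ← List.take_append_drop m (t j)]
    rcases h with ⟨h1, h2⟩ | ⟨h1, h2, h3⟩
    · simp only at h1 h2; rw [h1, h2, List.append_assoc]
    · simp only at h1 h2 h3; rw [h1, h2, h3]; simp

theorem fs_len {ι : Type} (i j : ι) : FS fun t : ι → List β => (t i).length < (t j).length := by
  refine ⟨Prop × Prop, inferInstance,
    fun _ x => ((x i).length < (x j).length, (x i).length = (x j).length),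
    fun q s => q.1 ∨ (q.2 ∧ (s i).length < (s j).length), fun m t => ?_⟩
  simp only [List.length_take, List.length_drop]
  omega

theorem fs_ex {ι κ : Type} [Finite κ] {P : (ι → List β) → (κ → List β) → Prop}
    (h : FS fun t : ι ⊕ κ → List β => P (fun i => t (.inl i)) fun k => t (.inr k)) :
    FS fun t => ∃ u, P t u := h.proj

theorem fs_all {ι κ : Type} [Finite κ] {P : (ι → List β) → (κ → List β) → Prop}
    (h : FS fun t : ι ⊕ κ → List β => P (fun i => t (.inl i)) fun k => t (.inr k)) :
    FS fun t => ∀ u, P t u :=
  (fs_ex (P := fun t u => ¬ P t u) h.not).not.congr fun t => by simp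

end reg

section rk
variable {β : Type} [Fintype β]

/-- bijective numeration of words -/
noncomputable def rk : List β → ℕ
  | [] => 0
  | a :: u => (Fintype.equivFin β a : ℕ) + 1 + Fintype.card β * rk u

def lo (q : ℕ) : ℕ → ℕ
  | 0 => 0
  | k + 1 => 1 + q * lo q k

theorem lo_succ (q k : ℕ) : lo q (k + 1) = lo q k + q ^ k := by
  induction k with
  | zero => simp [lo]
  | succ k ih =>
    calc lo q (k + 1 + 1) = 1 + q * lo q (k + 1) := rfl
      _ = 1 + q * (lo q k + q ^ k) := by rw [ih]
      _ = (1 + q * lo q k) + q ^ (k + 1) := by ring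
      _ = _ := rfl

theorem lo_mono (q : ℕ) : Monotone (lo q) :=
  monotone_nat_of_le_succ fun k => by rw [lo_succ]; omega

theorem le_lo {q : ℕ} (hq : 0 < q) (k : ℕ) : k ≤ lo q k := by
  induction k with
  | zero => simp
  | succ k ih => rw [lo_succ]; have := pow_pos hq k; omega

theorem rk_bounds (u : List β) :
    lo (Fintype.card β) u.length ≤ rk u ∧ rk u < lo (Fintype.card β) (u.length + 1) := by
  induction u with
  | nil => simp [rk, lo]
  | cons a u ih =>
    have ha := (Fintype.equivFin β a).2
    obtain ⟨h1, h2⟩ := ih
    constructor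
    · show 1 + Fintype.card β * lo _ u.length ≤ _
      have := Nat.mul_le_mul_left (Fintype.card β) h1
      simp only [rk]; omega
    · show _ < 1 + Fintype.card β * lo _ (u.length + 1)
      have := Nat.mul_le_mul_left (Fintype.card β) (Nat.succ_le_of_lt h2)
      simp only [rk]
      rw [Nat.mul_succ] at this
      omega

theorem rk_lt_of_length {u v : List β} (h : u.length < v.length) : rk u < rk v :=
  lt_of_lt_of_le (rk_bounds u).2 ((lo_mono _ h).trans (rk_bounds v).1)

theorem rk_append (u v : List β) : rk (u ++ v) = rk u + Fintype.card β ^ u.length * rk v := by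
  induction u with
  | nil => simp [rk]
  | cons a u ih => simp only [List.cons_append, rk, ih, List.length_cons]; ring

theorem rk_inj : Function.Injective (rk : List β → ℕ) := by
  intro u
  induction u with
  | nil => intro v h; cases v with
    | nil => rfl
    | cons b v => simp only [rk] at h; omega
  | cons a u ih => intro v h; cases v with
    | nil => simp only [rk] at h; omega
    | cons b v =>
      simp only [rk] at h
      have ha := (Fintype.equivFin β a).2
      have hb := (Fintype.equivFin β b).2
      have h1 : rk u = rk v := by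
        rcases lt_trichotomy (rk u) (rk v) with h' | h' | h'
        · have := Nat.mul_le_mul_left (Fintype.card β) (Nat.succ_le_of_lt h')
          rw [Nat.mul_succ] at this; omega
        · exact h'
        · have := Nat.mul_le_mul_left (Fintype.card β) (Nat.succ_le_of_lt h')
          rw [Nat.mul_succ] at this; omega
      rw [h1] at h
      have h2 : Fintype.equivFin β a = Fintype.equivFin β b := Fin.ext (by omega)
      rw [ih h1, (Fintype.equivFin β).injective h2]

theorem rk_surj [Nonempty β] : Function.Surjective (rk : List β → ℕ) := by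
  intro n
  have hq : 0 < Fintype.card β := Fintype.card_pos
  induction n using Nat.strong_induction_on with
  | _ n ih =>
    cases n with
    | zero => exact ⟨[], rfl⟩
    | succ n =>
      obtain ⟨u, hu⟩ := ih (n / Fintype.card β) (Nat.lt_succ_of_le (Nat.div_le_self _ _))
      refine ⟨(Fintype.equivFin β).symm ⟨n % Fintype.card β, Nat.mod_lt _ hq⟩ :: u, ?_⟩
      simp only [rk, hu, Equiv.apply_symm_apply]
      have := Nat.mod_add_div n (Fintype.card β)
      omega

theorem fs_rk {ι : Type} (i j : ι) : FS fun t : ι → List β => rk (t i) < rk (t j) := by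
  have h1 : FS fun t : ι → List β => (t i).length = (t j).length ∧ rk (t i) < rk (t j) := by
    refine ⟨Prop × Prop, inferInstance,
      fun _ x => ((x i).length = (x j).length, rk (x i) < rk (x j)),
      fun q s => q.1 ∧ (s i).length = (s j).length ∧
        (rk (s i) < rk (s j) ∨ (rk (s i) = rk (s j) ∧ q.2)), fun m t => ?_⟩
    have key : ∀ a b c d : List β, a.length = c.length →
        (rk (a ++ b) < rk (c ++ d) ↔ rk b < rk d ∨ (rk b = rk d ∧ rk a < rk c)) := by
      intro a b c d h
      rw [rk_append, rk_append, ← h]
      have ha := rk_bounds a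
      have hc := rk_bounds c
      rw [← h] at hc
      rw [lo_succ] at ha hc
      generalize Fintype.card β ^ a.length = Q at *
      rcases lt_trichotomy (rk b) (rk d) with h' | h' | h'
      · have := Nat.mul_le_mul_left Q (Nat.succ_le_of_lt h')
        rw [Nat.mul_succ] at this
        constructor
        · intro _; exact Or.inl h'
        · intro _; omega
      · rw [h']; simp
      · have := Nat.mul_le_mul_left Q (Nat.succ_le_of_lt h')
        rw [Nat.mul_succ] at this
        constructor
        · intro _; omega
        · intro _; omega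
    constructor
    · rintro ⟨h1, h2⟩
      have e : ((t i).take m).length = ((t j).take m).length := by simp [h1]
      refine ⟨e, by simp [h1], (key _ _ _ _ e).1 ?_⟩
      rwa [List.take_append_drop, List.take_append_drop]
    · rintro ⟨h1, h2, h3⟩
      have := (key _ _ _ _ h1).2 h3
      rw [List.take_append_drop, List.take_append_drop] at this
      refine ⟨?_, this⟩
      simp only [List.length_take, List.length_drop] at h1 h2
      omega
  refine (fs_or (fs_len i j) h1).congr fun t => ?_
  constructor
  · intro h
    rcases lt_trichotomy (t i).length (t j).length with h' | h' | h'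
    · exact Or.inl h'
    · exact Or.inr ⟨h', h⟩
    · exact absurd (rk_lt_of_length h') (by omega)
  · rintro (h | h)
    · exact rk_lt_of_length h
    · exact h.2

theorem fs_rk_succ [Nonempty β] {ι : Type} (i j : ι) :
    FS fun t : ι → List β => rk (t j) = rk (t i) + 1 := by
  have h := (fs_rk (β := β) i j).and (fs_all (ι := ι) (κ := Unit)
    (P := fun t u => ¬ (rk (t i) < rk (u ()) ∧ rk (u ()) < rk (t j)))
    ((fs_rk (Sum.inl i) (Sum.inr ())).and (fs_rk (Sum.inr ()) (Sum.inl j))).not)
  refine h.congr fun t => ⟨fun h => ⟨by omega, fun u => by omega⟩, fun ⟨h1, h2⟩ => ?_⟩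
  obtain ⟨w, hw⟩ := rk_surj (β := β) (rk (t i) + 1)
  have := h2 fun _ => w
  simp only [hw] at this
  omega

end rk

end H11.Aut
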