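import Mathlib

set_option autoImplicit false

namespace H11.Aut
open Relation

theorem chain_num {X : Type} (R : X → X → Prop) (x0 : X) (tot : ∀ x, ∃ y, R x y)
    (fn : ∀ x y y', R x y → R x y' → y = y') (inj : ∀ x x' y, R x y → R x' y → x = x')
    (h0 : ∀ x, ¬ R x x0) (reach : ∀ x, ReflTransGen R x0 x) :
    ∃ ψ : X → ℕ, Function.Bijective ψ ∧ ∀ x y, R x y ↔ ψ y = ψ x + 1 := by
  choose nx hnx using tot
  let e : ℕ → X := fun n => nx^[n] x0
  have es : ∀ n, e (n + 1) = nx (e n) := fun n => Function.iterate_succ_apply' _ _ _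
  have ei : Function.Injective e := by
    intro m
    induction m with
    | zero =>
      intro n h
      cases n with
      | zero => rfl
      | succ n =>
        exfalso
        have := hnx (e n)
        rw [← es, ← h] at this
        exact h0 _ this
    | succ m ih =>
      intro n h
      cases n with
      | zero =>
        exfalso
        have := hnx (e m)
        rw [← es, h] at this
        exact h0 _ this
      | succ n =>
        have a := hnx (e m)
        have b := hnx (e n)
        rw [← es, h] at a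
        rw [← es] at b
        rw [ih (inj _ _ _ a b)]
  have esu : Function.Surjective e := by
    intro x
    induction reach x with
    | refl => exact ⟨0, rfl⟩
    | tail _ h ih =>
      obtain ⟨n, rfl⟩ := ih
      exact ⟨n + 1, by rw [es]; exact fn _ _ _ (hnx _) h⟩
  let E := Equiv.ofBijective e ⟨ei, esu⟩
  refine ⟨E.symm, E.symm.bijective, fun x y => ?_⟩
  obtain ⟨m, rfl⟩ := E.surjective x
  obtain ⟨n, rfl⟩ := E.surjective y
  simp only [Equiv.symm_apply_apply]
  constructor
  · intro h
    apply ei
    rw [es]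
    exact fn _ _ _ h (hnx _)
  · rintro rfl
    show R (e m) (e (m + 1))
    rw [es]; exact hnx _

section glue
variable {N : Type} (G : N → N → Prop) (pos : N → ℕ)

def Start (s : N) : Prop := ∀ t, ¬ G t s

def Nx : Bool × N → Bool × N → Prop
  | (true, t), (true, t') => G t t'
  | (true, t), (false, t') => t' = t ∧ ∀ z, ¬ G t z
  | (false, t), (false, t') => G t' t
  | (false, t), (true, t') => Start G t ∧ Start G t' ∧ pos t < pos t' ∧
      ∀ z, Start G z → ¬ (pos t < pos z ∧ pos z < pos t')

theorem glue (hp : Function.Injective pos) (fn : ∀ x y y', G x y → G x y' → y = y')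
    (inj : ∀ x x' y, G x y → G x' y → x = x') (wF : WellFounded fun a b => G b a)
    (wB : WellFounded G) (unb : ∀ n, ∃ s, Start G s ∧ n < pos s) :
    ∃ ψ : Bool × N → ℕ, Function.Bijective ψ ∧ (∀ x y, Nx G pos x y ↔ ψ y = ψ x + 1) ∧
      ∀ s s' t, Start G s → Start G s' → pos s < pos s' → ReflTransGen G s' t →
        ψ (false, s) < ψ (false, t) := by
  classical
  have A : ∀ t, ReflTransGen (Nx G pos) (true, t) (false, t) := by
    intro t
    induction t using wF.induction with
    | _ t ih =>
      by_cases h : ∃ z, G t z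
      · obtain ⟨z, hz⟩ := h
        exact (ReflTransGen.head (b := (true, z)) hz (ih z hz)).tail hz
      · exact ReflTransGen.single ⟨rfl, fun z hz => h ⟨z, hz⟩⟩
  have B : ∀ s t, ReflTransGen G s t → ReflTransGen (Nx G pos) (true, s) (true, t) := by
    intro s t h
    induction h with
    | refl => exact .refl
    | tail _ h ih => exact ih.tail h
  have B' : ∀ t, ∃ s, Start G s ∧ ReflTransGen G s t := by
    intro t
    induction t using wB.induction with
    | _ t ih =>
      by_cases h : ∃ z, G z t
      · obtain ⟨z, hz⟩ := h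
        obtain ⟨s, h1, h2⟩ := ih z hz
        exact ⟨s, h1, h2.tail hz⟩
      · exact ⟨t, fun z hz => h ⟨z, hz⟩, .refl⟩
  have C : ∀ n s', pos s' = n → ∀ s, Start G s → Start G s' → pos s < pos s' →
      ReflTransGen (Nx G pos) (false, s) (true, s') := by
    intro n
    induction n using Nat.strong_induction_on with
    | _ n ih =>
      intro s' hn s hs hs' hlt
      have hne : ∃ k, ∃ p, Start G p ∧ pos p < pos s' ∧ pos s' - pos p = k :=
        ⟨_, s, hs, hlt, rfl⟩
      obtain ⟨p, hp1, hp2, hp3⟩ := Nat.find_spec hne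
      have hmin : ∀ z, Start G z → pos z < pos s' → pos z ≤ pos p := fun z h1 h2 => by
        have := Nat.find_min' hne ⟨z, h1, h2, rfl⟩
        omega
      have step : Nx G pos (false, p) (true, s') :=
        ⟨hp1, hs', hp2, fun z h1 h2 => by have := hmin z h1 h2.2; omega⟩
      rcases (hmin s hs hlt).eq_or_lt with h | h
      · rw [hp h]; exact .single step
      · exact ((ih (pos p) (by omega) p rfl s hs hp1 h).trans (A p)).tail step
  have hne : ∃ k, ∃ p, Start G p ∧ pos p = k := by
    obtain ⟨s, h, -⟩ := unb 0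
    exact ⟨_, s, h, rfl⟩
  obtain ⟨s0, hs0, hs0'⟩ := Nat.find_spec hne
  have hmin : ∀ z, Start G z → pos s0 ≤ pos z := fun z h1 => by
    have := Nat.find_min' hne ⟨z, h1, rfl⟩
    omega
  have RT : ∀ t, ReflTransGen (Nx G pos) (true, s0) (true, t) := by
    intro t
    obtain ⟨s, h1, h2⟩ := B' t
    refine ReflTransGen.trans ?_ (B _ _ h2)
    rcases (hmin s h1).eq_or_lt with h | h
    · rw [hp h]
    · exact (A s0).trans (C _ _ rfl _ hs0 h1 h)
  obtain ⟨ψ, h1, h2⟩ := chain_num (Nx G pos) (true, s0) (by
      rintro ⟨b, t⟩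
      cases b
      · by_cases h : ∃ z, G z t
        · obtain ⟨z, hz⟩ := h
          exact ⟨(false, z), hz⟩
        · have hne : ∃ k, ∃ p, Start G p ∧ pos t < pos p ∧ pos p = k := by
            obtain ⟨s, h, h'⟩ := unb (pos t)
            exact ⟨_, s, h, h', rfl⟩
          obtain ⟨p, hp1, hp2, hp3⟩ := Nat.find_spec hne
          refine ⟨(true, p), fun z hz => h ⟨z, hz⟩, hp1, hp2, fun z h1 h2 => ?_⟩
          have := Nat.find_min' hne ⟨z, h1, h2.1, rfl⟩
          omega
      · by_cases h : ∃ z, G t z
        · obtain ⟨z, hz⟩ := h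
          exact ⟨(true, z), hz⟩
        · exact ⟨(false, t), rfl, fun z hz => h ⟨z, hz⟩⟩)
    (by
      rintro ⟨b, t⟩ ⟨c, u⟩ ⟨d, v⟩ h h'
      cases b <;> cases c <;> cases d <;> simp only [Nx] at h h'
      · rw [inj _ _ _ h h']
      · exact absurd h (h'.1 _)
      · exact absurd h' (h.1 _)
      · have a := h.2.2.2 v h'.2.1
        have b := h'.2.2.2 u h.2.1
        have c := h.2.2.1
        have d := h'.2.2.1
        rw [hp (show pos u = pos v by omega)]
      · rw [h.1, h'.1]
      · exact absurd h' (h.2 _)
      · exact absurd h (h'.2 _)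
      · rw [fn _ _ _ h h'])
    (by
      rintro ⟨b, t⟩ ⟨c, u⟩ ⟨d, v⟩ h h'
      cases b <;> cases c <;> cases d <;> simp only [Nx] at h h'
      · rw [fn _ _ _ h h']
      · have a := h.2.2.2 u h'.1
        have b := h'.2.2.2 t h.1
        have c := h.2.2.1
        have d := h'.2.2.1
        rw [hp (show pos t = pos u by omega)]
      · rw [h'.1] at h; exact absurd h (h'.2 _)
      · exact absurd h' (h.2.1 _)
      · rw [h.1] at h'; exact absurd h' (h.2 _)
      · exact absurd h (h'.2.1 _)
      · rw [← h.1, ← h'.1]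
      · rw [inj _ _ _ h h'])
    (by
      rintro ⟨b, t⟩ h
      cases b <;> simp only [Nx] at h
      · have := hmin t h.1
        omega
      · exact hs0 _ h)
    (by
      rintro ⟨b, t⟩
      cases b
      · exact (RT t).trans (A t)
      · exact RT t)
  have mono : ∀ x y, ReflTransGen (Nx G pos) x y → ψ x ≤ ψ y := by
    intro x y h
    induction h with
    | refl => exact le_rfl
    | tail _ h ih => rw [(h2 _ _).1 h]; omega
  refine ⟨ψ, h1, h2, fun s s' t hs hs' hlt hr => ?_⟩
  have a := mono _ _ (C _ _ rfl _ hs hs' hlt)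
  have b := mono _ _ ((B _ _ hr).trans (A t))
  have c : ψ (false, s) ≠ ψ (true, s') := fun h => by simpa using h1.1 h
  omega

end glue

end H11.Aut
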