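import Mathlib
import Pool.Agent.H11.Aut1
import Pool.Agent.H11.Aut2

set_option autoImplicit false

namespace H11.Aut
open Pool.Agent.H66.Card Relation

def T : ℕ → ℕ
  | 0 => 1
  | n + 1 => 2 ^ T n

section core
variable {β : Type} [Fintype β] (x0 : β) (L : List β → Prop) (ψ : List β → ℕ)

def NF (w : List β) : Prop := L w ∧ ∀ v, L v → ψ v = ψ w → rk w ≤ rk v

def Gr (t t' : Fin 4 → List β) : Prop :=
  (t 0 = [] ∧ t' 0 = [] ∧ t' 1 = t 1 ∧ t 2 = t' 2 ++ [x0] ∧ rk (t' 3) = rk (t 3) + 1) ∨
  (t 0 = [] ∧ t' 0 = [] ∧ t' 1 = t 1 ++ [x0] ∧ t 2 = [] ∧ t 3 = t' 2 ++ [x0] ++ [x0] ∧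
    t' 3 = []) ∨
  (t 0 = t 2 ++ [x0] ++ [x0] ∧ t' 0 = [] ∧ t 1 = [] ∧ t' 1 = [] ∧ t' 2 = t 2 ∧ t 3 = [] ∧
    t' 3 = []) ∨
  (t 0 = [x0] ∧ t' 0 = [x0] ∧ t' 1 = t 1 ∧ t' 2 = t 2 ++ [x0] ∧ NF L ψ (t 3) ∧ NF L ψ (t' 3) ∧
    ψ (t 3) = ψ (t' 3) + 1)

noncomputable def pos (t : Fin 4 → List β) : ℕ := rk (conv t)

theorem pos_inj : Function.Injective (pos : (Fin 4 → List β) → ℕ) :=
  fun _ _ h => conv_inj (rk_inj h)

theorem nf_unique {u v : List β} (hu : NF L ψ u) (hv : NF L ψ v) (h : ψ u = ψ v) : u = v :=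
  rk_inj (le_antisymm (hu.2 v hv.1 h.symm) (hv.2 u hu.1 h))

theorem nf_exists {v : List β} (hv : L v) : ∃ u, NF L ψ u ∧ ψ u = ψ v ∧ u.length ≤ v.length := by
  classical
  have hne : ∃ k, ∃ u, L u ∧ ψ u = ψ v ∧ rk u = k := ⟨_, v, hv, rfl, rfl⟩
  obtain ⟨u, h1, h2, h3⟩ := Nat.find_spec hne
  have hm : ∀ w, L w → ψ w = ψ u → rk u ≤ rk w := fun w a b => by
    have := Nat.find_min' hne ⟨w, a, b.trans h2, rfl⟩
    omega
  refine ⟨u, ⟨h1, hm⟩, h2, ?_⟩
  by_contra h
  have := rk_lt_of_length (not_le.1 h)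
  have := hm v hv h2.symm
  omega

theorem ext4 {s t : Fin 4 → List β} (h0 : s 0 = t 0) (h1 : s 1 = t 1) (h2 : s 2 = t 2)
    (h3 : s 3 = t 3) : s = t := by
  funext k; fin_cases k <;> assumption

theorem rk_nil_lt {u v : List β} (h : rk u = rk v + 1) : u ≠ [] := by
  rintro rfl; simp [rk] at h

theorem gr_fn (x y y' : Fin 4 → List β) (h : Gr x0 L ψ x y) (h' : Gr x0 L ψ x y') : y = y' := by
  rcases h with h | h | h | h <;> rcases h' with h' | h' | h' | h'
  · obtain ⟨a, b, c, d, e⟩ := h
    obtain ⟨a', b', c', d', e'⟩ := h'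
    exact ext4 (b.trans b'.symm) (c.trans c'.symm) (List.append_cancel_right (d.symm.trans d'))
      (rk_inj (e.trans e'.symm))
  · have := h.2.2.2.1.symm.trans h'.2.2.2.1; simp at this
  · have := h.1.symm.trans h'.1; simp at this
  · have := h.1.symm.trans h'.1; simp at this
  · have := h'.2.2.2.1.symm.trans h.2.2.2.1; simp at this
  · obtain ⟨a, b, c, d, e, f⟩ := h
    obtain ⟨a', b', c', d', e', f'⟩ := h'
    exact ext4 (b.trans b'.symm) (c.trans c'.symm)
      (List.append_cancel_right (List.append_cancel_right (e.symm.trans e'))) (f.trans f'.symm)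
  · have := h.1.symm.trans h'.1; simp at this
  · have := h.1.symm.trans h'.1; simp at this
  · have := h.1.symm.trans h'.1; simp at this
  · have := h.1.symm.trans h'.1; simp at this
  · obtain ⟨a, b, c, d, e, f, g⟩ := h
    obtain ⟨a', b', c', d', e', f', g'⟩ := h'
    exact ext4 (b.trans b'.symm) (d.trans d'.symm) (e.trans e'.symm) (g.trans g'.symm)
  · have := congrArg List.length (h.1.symm.trans h'.1); simp at this
  · have := h.1.symm.trans h'.1; simp at this
  · have := h.1.symm.trans h'.1; simp at this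
  · have := congrArg List.length (h.1.symm.trans h'.1); simp at this
  · obtain ⟨a, b, c, d, e, f, g⟩ := h
    obtain ⟨a', b', c', d', e', f', g'⟩ := h'
    exact ext4 (b.trans b'.symm) (c.trans c'.symm) (d.trans d'.symm)
      (nf_unique L ψ f f' (by omega))

theorem gr_inj (x x' y : Fin 4 → List β) (h : Gr x0 L ψ x y) (h' : Gr x0 L ψ x' y) : x = x' := by
  rcases h with h | h | h | h <;> rcases h' with h' | h' | h' | h'
  · obtain ⟨a, b, c, d, e⟩ := h
    obtain ⟨a', b', c', d', e'⟩ := h'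
    exact ext4 (a.trans a'.symm) (c.symm.trans c') (d.trans d'.symm) (rk_inj (by omega))
  · exact absurd h'.2.2.2.2.2 (rk_nil_lt h.2.2.2.2)
  · exact absurd h'.2.2.2.2.2.2 (rk_nil_lt h.2.2.2.2)
  · have := h.2.1.symm.trans h'.2.1; simp at this
  · exact absurd h.2.2.2.2.2 (rk_nil_lt h'.2.2.2.2)
  · obtain ⟨a, b, c, d, e, f⟩ := h
    obtain ⟨a', b', c', d', e', f'⟩ := h'
    exact ext4 (a.trans a'.symm) (List.append_cancel_right (c.symm.trans c')) (d.trans d'.symm)
      (e.trans e'.symm)
  · have := h.2.2.1.symm.trans h'.2.2.2.1; simp at this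
  · have := h.2.1.symm.trans h'.2.1; simp at this
  · exact absurd h.2.2.2.2.2.2 (rk_nil_lt h'.2.2.2.2)
  · have := h'.2.2.1.symm.trans h.2.2.2.1; simp at this
  · obtain ⟨a, b, c, d, e, f, g⟩ := h
    obtain ⟨a', b', c', d', e', f', g'⟩ := h'
    have := e.symm.trans e'
    exact ext4 (by rw [a, a', this]) (c.trans c'.symm) this (f.trans f'.symm)
  · have := h.2.1.symm.trans h'.2.1; simp at this
  · have := h.2.1.symm.trans h'.2.1; simp at this
  · have := h.2.1.symm.trans h'.2.1; simp at this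
  · have := h.2.1.symm.trans h'.2.1; simp at this
  · obtain ⟨a, b, c, d, e, f, g⟩ := h
    obtain ⟨a', b', c', d', e', f', g'⟩ := h'
    exact ext4 (a.trans a'.symm) (c.symm.trans c') (List.append_cancel_right (d.symm.trans d'))
      (nf_unique L ψ e e' (by omega))

theorem wf3 {N : Type} (R : N → N → Prop) (a b c : N → ℕ)
    (h : ∀ x y, R x y → a x < a y ∨ (a x = a y ∧ (b x < b y ∨ (b x = b y ∧ c x < c y)))) :
    WellFounded R := by
  refine Subrelation.wf (r := InvImage (· < ·) fun x => (toLex (a x, toLex (b x, c x)) :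
    ℕ ×ₗ ℕ ×ₗ ℕ)) ?_ (InvImage.wf _ wellFounded_lt)
  intro x y hxy
  simp only [InvImage, Prod.Lex.toLex_lt_toLex, EmbeddingLike.apply_eq_iff_eq]
  exact h x y hxy

theorem length_le_rk (u : List β) : u.length ≤ rk u := by
  cases u with
  | nil => simp
  | cons a u =>
    haveI : Nonempty β := ⟨a⟩
    exact (le_lo Fintype.card_pos _).trans (rk_bounds _).1

theorem gr_wF : WellFounded fun a b => Gr x0 L ψ b a := by
  classical
  refine wf3 _ (fun t => (t 0).length)
    (fun t => if t 0 = [] then (t 2).length + rk (t 3) else ψ (t 3)) (fun t => (t 2).length) ?_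
  rintro y x (h | h | h | h)
  · obtain ⟨a, b, c, d, e⟩ := h
    simp only [a, b, d, e, if_true, List.length_append, List.length_singleton]
    right; refine ⟨trivial, Or.inr ⟨by omega, by omega⟩⟩
  · obtain ⟨a, b, c, d, e, f⟩ := h
    have := length_le_rk (x 3)
    have h2 := congrArg List.length e
    simp only [List.length_append, List.length_singleton] at h2
    simp only [a, b, d, f, if_true, rk, List.length_nil]
    right; refine ⟨trivial, Or.inl (by omega)⟩
  · left; simp [h.1, h.2.1]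
  · obtain ⟨a, b, c, d, e, f, g⟩ := h
    right; simp [a, b, g]

theorem gr_wB : WellFounded (Gr x0 L ψ) := by
  classical
  refine wf3 _ (fun t => if t 0 = [] then 1 else 0) (fun t => (t 1).length)
    (fun t => if t 0 = [] then rk (t 3) else (t 2).length) ?_
  rintro x y (h | h | h | h)
  · obtain ⟨a, b, c, d, e⟩ := h
    simp [a, b, c, e]
  · obtain ⟨a, b, c, d, e, f⟩ := h
    simp [a, b, c]
  · left; simp [h.1, h.2.1]
  · obtain ⟨a, b, c, d, e, f, g⟩ := h
    simp [a, b, c, d]

def nA (c : List β) : Fin 4 → List β := ![c ++ [x0] ++ [x0], [], c, []]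

theorem start_nA (c : List β) : Start (Gr x0 L ψ) (nA x0 c) := by
  rintro t (h | h | h | h)
  · have := h.2.1; simp [nA] at this
  · have := h.2.1; simp [nA] at this
  · have := h.2.1; simp [nA] at this
  · have := congrArg List.length h.2.1; simp [nA] at this

theorem len_nA (c : List β) : c.length + 2 ≤ (conv (nA x0 c)).length := by
  have := le_conv_length (nA x0 c) 0
  simpa [nA] using this

theorem gr_unb (n : ℕ) : ∃ s, Start (Gr x0 L ψ) s ∧ n < pos s := by
  refine ⟨_, start_nA x0 L ψ (List.replicate n x0), ?_⟩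
  have a := len_nA x0 (List.replicate n x0)
  have b := length_le_rk (conv (nA x0 (List.replicate n x0)))
  simp only [List.length_replicate] at a
  unfold pos; omega

theorem count_down (d : List β) (k : ℕ) : ∀ b w : List β, rk w = rk b + k →
    ReflTransGen (Gr x0 L ψ) ![[], d, List.replicate k x0, b] ![[], d, [], w] := by
  haveI : Nonempty β := ⟨x0⟩
  induction k with
  | zero => intro b w h; rw [rk_inj h]; exact .refl
  | succ k ih =>
    intro b w h
    obtain ⟨b', hb⟩ := rk_surj (β := β) (rk b + 1)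
    refine ReflTransGen.head ?_ (ih b' w (by omega))
    exact Or.inl ⟨rfl, rfl, rfl, List.replicate_succ', hb⟩

noncomputable def mm : ℕ → ℕ
  | 0 => 0
  | n + 1 => rk (List.replicate (mm n) x0 ++ [x0] ++ [x0])

theorem tower (n : ℕ) : ∀ j, ReflTransGen (Gr x0 L ψ)
    ![[], List.replicate j x0, List.replicate (mm x0 n) x0, []]
    ![[], List.replicate (j + n) x0, [], []] := by
  induction n with
  | zero => intro j; exact .refl
  | succ n ih =>
    intro j
    have a := count_down x0 L ψ (List.replicate j x0) (mm x0 (n + 1)) []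
      (List.replicate (mm x0 n) x0 ++ [x0] ++ [x0]) (by simp [mm, rk])
    have b := ih (j + 1)
    rw [show j + 1 + n = j + (n + 1) by ring] at b
    refine a.trans (ReflTransGen.head ?_ b)
    exact Or.inr (Or.inl ⟨rfl, rfl, List.replicate_succ', rfl, rfl, rfl⟩)

theorem T_le (hq : 2 ≤ Fintype.card β) (n : ℕ) : T n ≤ mm x0 n + 1 := by
  induction n with
  | zero => simp [T, mm]
  | succ n ih =>
    have a := (rk_bounds (List.replicate (mm x0 n) x0 ++ [x0] ++ [x0])).1
    simp only [List.length_append, List.length_replicate, List.length_singleton] at a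
    rw [lo_succ] at a
    have b : 2 ^ T n ≤ Fintype.card β ^ (mm x0 n + 1) :=
      (Nat.pow_le_pow_right (by norm_num) ih).trans (Nat.pow_le_pow_left hq _)
    simp only [T, mm]
    omega

theorem core (hq : 2 ≤ Fintype.card β) (hs : ∀ x, ∃ u, L u ∧ ψ u = x) :
    ∃ φ : Bool × (Fin 4 → List β) → ℕ, Function.Bijective φ ∧
      (∀ x y, Nx (Gr x0 L ψ) pos x y ↔ φ y = φ x + 1) ∧
      ∀ n v, L v → ψ v = φ (false, ![[], List.replicate n x0, [], []]) → T n ≤ v.length := by
  obtain ⟨φ, h1, h2, h3⟩ := glue (Gr x0 L ψ) pos pos_inj (gr_fn x0 L ψ) (gr_inj x0 L ψ)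
    (gr_wF x0 L ψ) (gr_wB x0 L ψ) (gr_unb x0 L ψ)
  refine ⟨φ, h1, h2, fun n v hv hv' => ?_⟩
  have U : ∀ x u c, NF L ψ u → ψ u = x → x ≤ φ (false, ![[x0], [], c, u]) := by
    intro x
    induction x with
    | zero => intros; exact Nat.zero_le _
    | succ x ih =>
      intro u c hu hx
      obtain ⟨w, hw, hw'⟩ := hs x
      obtain ⟨u', a, b, -⟩ := nf_exists L ψ hw
      have := ih u' (c ++ [x0]) a (b.trans hw')
      have e := (h2 (false, ![[x0], [], c ++ [x0], u']) (false, ![[x0], [], c, u])).1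
        (Or.inr (Or.inr (Or.inr ⟨rfl, rfl, rfl, rfl, hu, a, by
          show ψ u = ψ u' + 1
          omega⟩)))
      omega
  by_contra hlt
  have hT := T_le x0 hq n
  obtain ⟨u, a, b, c⟩ := nf_exists L ψ hv
  have h4 := U _ u [] a rfl
  have h5 := h3 ![[x0], [], [], u] (nA x0 (List.replicate (mm x0 n) x0))
    ![[], List.replicate n x0, [], []] (by
      rintro t (h | h | h | h)
      · have := h.2.1; simp at this
      · have := h.2.1; simp at this
      · have := h.2.1; simp at this
      · have := h.2.2.2.1; simp at this) (start_nA x0 L ψ _) (by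
      apply rk_lt_of_length
      have a := len_nA x0 (List.replicate (mm x0 n) x0)
      simp only [List.length_replicate] at a
      have : (conv ![[x0], [], [], u]).length ≤ mm x0 n + 1 := by
        rw [conv_length_le]
        intro k
        fin_cases k <;> simp
        omega
      omega) (by
      have := tower x0 L ψ n 0
      rw [zero_add] at this
      refine ReflTransGen.head ?_ this
      exact Or.inr (Or.inr (Or.inl ⟨rfl, rfl, rfl, rfl, rfl, rfl, rfl⟩)))
  omega

end core

end H11.Aut
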