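import Mathlib
import Pool.Agent.H11.Aut3

set_option autoImplicit false

namespace H11.Aut
open Pool.Agent.H66.Card Relation

section fsc
variable {β : Type} [Fintype β] (x0 : β) (L : List β → Prop) (ψ : List β → ℕ)

theorem fs_snoc2 {ι : Type} (i j : ι) :
    FS fun t : ι → List β => t j = t i ++ [x0] ++ [x0] := by
  have h := fs_ex (ι := ι) (κ := Unit)
    (P := fun t u => u () = t i ++ [x0] ∧ t j = u () ++ [x0])
    ((fs_snoc (Sum.inl i) (Sum.inr ()) x0).and (fs_snoc (Sum.inr ()) (Sum.inl j) x0))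
  refine h.congr fun t => ⟨fun h => ⟨fun _ => t i ++ [x0], rfl, h⟩, ?_⟩
  rintro ⟨u, h1, h2⟩
  rw [h2, h1]

theorem fs_pos {ι : Type} (a b : Fin 4 → ι) :
    FS fun t : ι → List β => pos (fun k => t (a k)) < pos fun k => t (b k) :=
  ((fs_enc (fs_rk (β := Fin 4 → Option β) false true)).comap
    (κ := ι) fun p => cond p.1 (b p.2) (a p.2)).congr fun _ => Iff.rfl

variable (he : ∀ (ι : Type) (i j : ι),
    FS fun t : ι → List β => L (t i) ∧ L (t j) ∧ ψ (t i) = ψ (t j))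
  (hs : ∀ (ι : Type) (i j : ι),
    FS fun t : ι → List β => L (t i) ∧ L (t j) ∧ ψ (t j) = ψ (t i) + 1)

include he in
theorem fs_nf {ι : Type} (i : ι) : FS fun t : ι → List β => NF L ψ (t i) := by
  have h := (he ι i i).and (fs_all (ι := ι) (κ := Unit)
    (P := fun t u => (L (u ()) ∧ L (t i) ∧ ψ (u ()) = ψ (t i)) → ¬ rk (u ()) < rk (t i))
    ((he _ (Sum.inr ()) (Sum.inl i)).imp (fs_rk (Sum.inr ()) (Sum.inl i)).not))
  refine h.congr fun t => ⟨fun h => ⟨⟨h.1, h.1, rfl⟩, fun u hu => not_lt.2 (h.2 _ hu.1 hu.2.2)⟩,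
    fun h => ⟨h.1.1, fun v h1 h2 => not_lt.1 (h.2 (fun _ => v) ⟨h1, h.1.1, h2⟩)⟩⟩

include he hs in
theorem fs_gr {ι : Type} (a b : Fin 4 → ι) :
    FS fun t : ι → List β => Gr x0 L ψ (fun k => t (a k)) fun k => t (b k) := by
  haveI : Nonempty β := ⟨x0⟩
  have h4 : FS fun t : ι → List β => NF L ψ (t (a 3)) ∧ NF L ψ (t (b 3)) ∧
      ψ (t (a 3)) = ψ (t (b 3)) + 1 :=
    ((fs_nf L ψ he (a 3)).and ((fs_nf L ψ he (b 3)).and (hs ι (b 3) (a 3)))).congr fun t =>
      ⟨fun h => ⟨h.1, h.2.1, h.2.1.1, h.1.1, h.2.2⟩, fun h => ⟨h.1, h.2.1, h.2.2.2.2⟩⟩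
  exact fs_or
    ((FS.eqc _ _).and ((FS.eqc _ _).and ((FS.eq _ _).and ((fs_snoc (b 2) (a 2) x0).and
      (fs_rk_succ (a 3) (b 3))))))
    (fs_or ((FS.eqc _ _).and ((FS.eqc _ _).and ((fs_snoc (a 1) (b 1) x0).and ((FS.eqc _ _).and
      ((fs_snoc2 x0 (b 2) (a 3)).and (FS.eqc _ _))))))
    (fs_or ((fs_snoc2 x0 (a 2) (a 0)).and ((FS.eqc _ _).and ((FS.eqc _ _).and ((FS.eqc _ _).and
      ((FS.eq _ _).and ((FS.eqc _ _).and (FS.eqc _ _)))))))
    ((FS.eqc _ _).and ((FS.eqc _ _).and ((FS.eq _ _).and ((fs_snoc (a 2) (b 2) x0).and h4))))))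

include he hs in
theorem fs_start {ι : Type} (a : Fin 4 → ι) :
    FS fun t : ι → List β => Start (Gr x0 L ψ) fun k => t (a k) :=
  fs_all (ι := ι) (κ := Fin 4) (P := fun t u => ¬ Gr x0 L ψ u fun k => t (a k))
    (fs_gr x0 L ψ he hs Sum.inr fun k => Sum.inl (a k)).not

include he hs in
theorem fs_nx {ι : Type} (p q : Bool) (a b : Fin 4 → ι) :
    FS fun t : ι → List β =>
      Nx (Gr x0 L ψ) pos (p, fun k => t (a k)) (q, fun k => t (b k)) := by
  cases p <;> cases q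
  · exact fs_gr x0 L ψ he hs b a
  · exact (fs_start x0 L ψ he hs a).and ((fs_start x0 L ψ he hs b).and ((fs_pos a b).and
      (fs_all (ι := ι) (κ := Fin 4) (P := fun t u => Start (Gr x0 L ψ) u →
        ¬ (pos (fun k => t (a k)) < pos u ∧ pos u < pos fun k => t (b k)))
        ((fs_start x0 L ψ he hs Sum.inr).imp ((fs_pos (fun k => Sum.inl (a k)) Sum.inr).and
          (fs_pos Sum.inr fun k => Sum.inl (b k))).not))))
  · exact ((FS.all fun k => FS.eq (b k) (a k)).congr fun t => funext_iff).and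
      (fs_all (ι := ι) (κ := Fin 4) (P := fun t u => ¬ Gr x0 L ψ (fun k => t (a k)) u)
        (fs_gr x0 L ψ he hs (fun k => Sum.inl (a k)) Sum.inr).not)
  · exact fs_gr x0 L ψ he hs a b

end fsc

section names
variable {β : Type} (x0 : β)

def enc (x : Bool × (Fin 4 → List β)) : Option (Fin 4) → List β :=
  fun o => o.elim (cond x.1 [x0] []) x.2

def name (x : Bool × (Fin 4 → List β)) : List (Option (Fin 4) → Option β) := conv (enc x0 x)

theorem name_inj : Function.Injective (name x0) := by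
  rintro ⟨b, s⟩ ⟨c, t⟩ h
  have h1 := conv_inj h
  have h2 : s = t := funext fun k => congrFun h1 (some k)
  have h3 := congrFun h1 none
  cases b <;> cases c <;> simp_all [enc]

theorem sync_name {Q : Bool × (Fin 4 → List β) → Bool × (Fin 4 → List β) → Prop}
    (h : ∀ (p q : Bool) (a b : Fin 4 → Fin 2 × Option (Fin 4)),
      FS fun t : Fin 2 × Option (Fin 4) → List β =>
        Q (p, fun k => t (a k)) (q, fun k => t (b k))) :
    Sync fun W W' => ∃ x y, W = name x0 x ∧ W' = name x0 y ∧ Q x y := by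
  have h1 := fs_dec (ι := Fin 2) (κ := Option (Fin 4)) (FS.ex (κ := Bool × Bool) fun z =>
    (FS.eqc (0, none) (cond z.1 [x0] [])).and ((FS.eqc (1, none) (cond z.2 [x0] [])).and
      (h z.1 z.2 (fun k => (0, some k)) fun k => (1, some k))))
  refine sync_of_fs (h1.congr fun T => ?_)
  constructor
  · rintro ⟨x, y, a, b, c⟩
    refine ⟨fun p => ![enc x0 x, enc x0 y] p.1 p.2, fun i => ?_, (x.1, y.1), rfl, rfl, c⟩
    fin_cases i
    · exact a
    · exact b
  · rintro ⟨t, a, z, b, c, d⟩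
    refine ⟨_, _, ?_, ?_, d⟩
    · rw [a 0, name]; congr 1
      funext o; cases o
      · exact b
      · rfl
    · rw [a 1, name]; congr 1
      funext o; cases o
      · exact c
      · rfl

end names

end H11.Aut
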