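import Mathlib

set_option autoImplicit false

namespace H11.Aut

section sm
variable {G : Type} [AddCommGroup G]

/-- `n`-fold sumset -/
def Sm (A : Set G) : ℕ → Set G
  | 0 => {0}
  | n + 1 => {x | ∃ a ∈ A, ∃ y ∈ Sm A n, x = a + y}

theorem sm_add {A : Set G} {n m : ℕ} {x y : G} (hx : x ∈ Sm A n) (hy : y ∈ Sm A m) :
    x + y ∈ Sm A (n + m) := by
  induction n generalizing x with
  | zero => rw [show x = 0 from hx]; simpa using hy
  | succ n ih =>
    obtain ⟨a, ha, z, hz, rfl⟩ := hx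
    rw [Nat.succ_add]
    exact ⟨a, ha, z + y, ih hz, add_assoc _ _ _⟩

theorem sm_split {A : Set G} {n m : ℕ} {x : G} (hx : x ∈ Sm A (n + m)) :
    ∃ y ∈ Sm A n, ∃ z ∈ Sm A m, x = y + z := by
  induction n generalizing x with
  | zero => exact ⟨0, rfl, x, by simpa using hx, by simp⟩
  | succ n ih =>
    rw [Nat.succ_add] at hx
    obtain ⟨a, ha, z, hz, rfl⟩ := hx
    obtain ⟨y, hy, w, hw, rfl⟩ := ih hz
    exact ⟨a + y, ⟨a, ha, y, hy, rfl⟩, w, hw, (add_assoc _ _ _).symm⟩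

theorem sm_one {A : Set G} {a : G} (h : a ∈ A) : a ∈ Sm A 1 := ⟨a, h, 0, rfl, by simp⟩

theorem sm_zero {A : Set G} (h : (0 : G) ∈ A) (n : ℕ) : (0 : G) ∈ Sm A n := by
  induction n with
  | zero => rfl
  | succ n ih => exact ⟨0, h, 0, ih, by simp⟩

theorem sm_mono {A : Set G} (h : (0 : G) ∈ A) {n m : ℕ} (hnm : n ≤ m) {x : G}
    (hx : x ∈ Sm A n) : x ∈ Sm A m := by
  obtain ⟨k, rfl⟩ := Nat.exists_eq_add_of_le hnm
  simpa using sm_add hx (sm_zero h k)

theorem sm_neg {A : Set G} (h : ∀ a ∈ A, -a ∈ A) {n : ℕ} {x : G} (hx : x ∈ Sm A n) :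
    -x ∈ Sm A n := by
  induction n generalizing x with
  | zero => rw [show x = 0 from hx]; simp [Sm]
  | succ n ih =>
    obtain ⟨a, ha, z, hz, rfl⟩ := hx
    exact ⟨-a, h a ha, -z, ih hz, neg_add _ _⟩

theorem sm_ind {H : Type} [AddCommGroup H] {A : Set G} (φ : G →+ H) (Q : ℕ → Set H) (p : ℕ)
    (h0 : 0 ∈ Q 0) (ha : ∀ a b x y, x ∈ Q a → y ∈ Q b → x + y ∈ Q (a + b))
    (hp : ∀ a ∈ A, φ a ∈ Q p) {n : ℕ} {x : G} (hx : x ∈ Sm A n) : φ x ∈ Q (n * p) := by
  induction n generalizing x with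
  | zero => rw [show x = 0 from hx]; simpa using h0
  | succ n ih =>
    obtain ⟨a, h1, z, hz, rfl⟩ := hx
    rw [map_add, show (n + 1) * p = p + n * p by ring]
    exact ha _ _ _ _ (hp a h1) (ih hz)

theorem sm_finite {A : Set G} (h : A.Finite) (n : ℕ) : (Sm A n).Finite := by
  induction n with
  | zero => exact Set.finite_singleton _
  | succ n ih =>
    refine ((h.prod ih).image fun p => p.1 + p.2).subset ?_
    rintro _ ⟨a, ha, y, hy, rfl⟩
    exact ⟨(a, y), ⟨ha, hy⟩, rfl⟩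

theorem sm_sum {A : Set G} (p r : ℕ) (y : ℕ → G) (h : ∀ i < r, y i ∈ Sm A p) :
    ∑ i ∈ Finset.range r, y i ∈ Sm A (r * p) := by
  induction r with
  | zero => simp [Sm]
  | succ r ih =>
    rw [Finset.sum_range_succ, Nat.succ_mul]
    exact sm_add (ih fun i hi => h i (by omega)) (h r (by omega))

end sm

section add
variable (S : ℕ → Finset ℤ) (C K : ℕ)

def Birth (j k n : ℕ) : Prop :=
  ∃ x ∈ S (n + 1), ∀ i : ℕ, 1 ≤ i → i ≤ j → (i : ℤ) * x ∉ Sm (S n : Set ℤ) k

def Model (r m s N : ℕ) : Prop :=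
  ∃ (G : Type) (_ : AddCommGroup G) (φ : G →+ ℤ) (d : ℕ → G →+ ℤ) (e : ℕ → G) (Ω : Set G),
    Ω.Finite ∧ (0 : G) ∈ Ω ∧ (∀ c ∈ Ω, -c ∈ Ω) ∧
    (∀ i < r, e i ∈ Ω ∧ φ (e i) ∈ S m ∧ d i (e i) = 1 ∧ ∀ j < i, d j (e i) = 0) ∧
    Sm {c | c ∈ Ω ∧ φ c ∈ S (m + s)} N ⊆ Ω

variable (h0 : ∀ n, (0 : ℤ) ∈ S n) (hs : ∀ n, ∀ x ∈ S n, -x ∈ S n) (hm : Monotone S)
  (ha : ∀ n, ∀ x ∈ S n, ∀ y ∈ S n, x + y ∈ S (n + C))
  (hK : ∀ n, (S (n + 1)).card ≤ K * (S n).card)

include h0 hm ha hK in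
theorem pack {ι : Type} (I : Finset ι) (w : ι → ℤ) (n s : ℕ) (h1 : ∀ i ∈ I, w i ∈ S (n + s))
    (h2 : ∀ i ∈ I, ∀ i' ∈ I, ∀ a ∈ S n, ∀ b ∈ S n, w i + a = w i' + b → i = i') :
    I.card ≤ K ^ (s + C) := by
  have g : ∀ t, (S (n + t)).card ≤ K ^ t * (S n).card := by
    intro t
    induction t with
    | zero => simp
    | succ t ih =>
      calc _ ≤ K * (S (n + t)).card := hK _
        _ ≤ K * (K ^ t * (S n).card) := Nat.mul_le_mul_left _ ih
        _ = _ := by ring
  have c : (I ×ˢ S n).card ≤ (S (n + (s + C))).card := by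
    refine Finset.card_le_card_of_injOn (fun p => w p.1 + p.2) ?_ ?_
    · rintro ⟨i, a⟩ hp
      simp only [Finset.coe_product, Set.mem_prod, Finset.mem_coe] at hp
      rw [← add_assoc]
      exact ha _ _ (h1 i hp.1) _ (hm (Nat.le_add_right _ _) hp.2)
    · rintro ⟨i, a⟩ hp ⟨i', b⟩ hq h
      simp only [Finset.coe_product, Set.mem_prod, Finset.mem_coe] at hp hq h
      have := h2 i hp.1 i' hq.1 a hp.2 b hq.2 h
      subst this
      rw [add_left_cancel h]
  rw [Finset.card_product] at c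
  exact Nat.le_of_mul_le_mul_right (c.trans (g _)) (Finset.card_pos.2 ⟨0, h0 n⟩)

def sq (N : ℕ) : ℕ → ℕ
  | 0 => 1
  | u + 1 => (N + 1) * (sq N u + 1)

theorem sq_mono (N : ℕ) : Monotone (sq N) :=
  monotone_nat_of_le_succ fun u => by simp only [sq]; nlinarith

include h0 hs hm ha hK in
theorem model_step
    (hsyn : ∀ j k, ∃ π, ∀ n, ∃ n', n ≤ n' ∧ n' ≤ n + π ∧ Birth S j k n')
    (r : ℕ) (ih : ∀ s N, ∃ m, Model S r m s N) (s N : ℕ) : ∃ m, Model S (r + 1) m s N := by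
  classical
  set U := K ^ (1 + s + C) with hU
  set M := sq N (U + 1) with hM
  obtain ⟨π, hπ⟩ := hsyn (M + M) (2 + (M + M) * 2)
  obtain ⟨m, G, _, φ, d, e, Ω, hf, hz, hn, he, hc⟩ := ih (π + C) (M + M)
  obtain ⟨m1, a1, a2, x, hx, hb⟩ := hπ m
  let Λ : Set G := {c | c ∈ Ω ∧ ∃ a ∈ S m1, ∃ b ∈ S m1, φ c = a + b}
  have Λ0 : (0 : G) ∈ Λ := ⟨hz, 0, h0 _, 0, h0 _, by simp⟩
  have Λn : ∀ c ∈ Λ, -c ∈ Λ := by
    rintro c ⟨h1, a, h2, b, h3, h4⟩
    exact ⟨hn c h1, -a, hs _ _ h2, -b, hs _ _ h3, by rw [map_neg, h4, neg_add]⟩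
  have ΛΩ : Sm Λ (M + M) ⊆ Ω := fun c h => hc (by
    have := sm_ind (A := Λ) (AddMonoidHom.id G)
      (Sm {c | c ∈ Ω ∧ φ c ∈ S (m + (π + C))}) 1 rfl (fun _ _ _ _ => sm_add) (by
        rintro c ⟨h1, a, h2, b, h3, h4⟩
        refine sm_one ⟨h1, ?_⟩
        show φ c ∈ _
        rw [h4]
        exact hm (by omega) (ha _ _ h2 _ h3)) h
    simpa using this)
  have ΛS : ∀ n c, c ∈ Sm Λ n → φ c ∈ Sm (S m1 : Set ℤ) (n * 2) := fun n c h =>
    sm_ind φ (Sm (S m1 : Set ℤ)) 2 rfl (fun _ _ _ _ => sm_add) (by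
      rintro c ⟨h1, a, h2, b, h3, h4⟩
      rw [h4]
      exact sm_add (sm_one h2) (sm_one h3)) h
  let B : ℕ → Set (G × ℤ) := fun n => {v | v.1 ∈ Sm Λ n ∧ |v.2| ≤ n}
  have Bm : ∀ a b, a ≤ b → ∀ v ∈ B a, v ∈ B b := fun a b h v hv =>
    ⟨sm_mono Λ0 h hv.1, hv.2.trans (by exact_mod_cast h)⟩
  let φ' : G × ℤ →+ ℤ := φ.coprod (AddMonoidHom.mulRight x)
  have hφ : ∀ v, φ' v = φ v.1 + v.2 * x := fun v => rfl
  have key : ∃ u ≤ U, ∀ v ∈ B (sq N (u + 1)), φ' v ∈ S (m1 + 1 + s) → v ∈ B (sq N u + 1) := by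
    by_contra hcon
    push Not at hcon
    choose! v v1 v2 v3 using hcon
    have lt : ∀ u ≤ U, ∀ w < u, ∀ a ∈ S m1, ∀ b ∈ S m1, φ' (v u) + a ≠ φ' (v w) + b := by
      intro u hu w hw a h1 b h2 h
      have bu := Bm _ M (sq_mono N (by omega)) _ (v1 u hu)
      have bw := Bm _ M (sq_mono N (by omega)) _ (v1 w (by omega))
      have hd : (v u).1 + -(v w).1 ∈ Sm Λ (M + M) := sm_add bu.1 (sm_neg Λn bw.1)
      have e1 : ((v u).2 - (v w).2) * x = (b + -a) + -φ ((v u).1 + -(v w).1) := by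
        rw [hφ, hφ] at h
        rw [map_add, map_neg]
        linarith
      have sS : ∀ a ∈ (S m1 : Set ℤ), -a ∈ (S m1 : Set ℤ) := fun a h => hs _ _ h
      have e2 : ((v u).2 - (v w).2) * x ∈ Sm (S m1 : Set ℤ) (2 + (M + M) * 2) := by
        rw [e1]
        exact sm_add (sm_add (sm_one h2) (sm_one (hs _ _ h1))) (sm_neg sS (ΛS _ _ hd))
      have e3 : (v u).2 = (v w).2 := by
        by_contra hne
        have b1 := abs_le.1 bu.2
        have b2 := abs_le.1 bw.2
        refine hb ((v u).2 - (v w).2).natAbs (by omega) (by omega) ?_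
        rcases Int.natAbs_eq ((v u).2 - (v w).2) with h' | h'
        · rw [← h']; exact e2
        · have := sm_neg sS e2
          rwa [h', neg_mul, neg_neg] at this
      have e4 : (v u).1 + -(v w).1 ∈ Λ := by
        refine ⟨ΛΩ hd, b, h2, -a, hs _ _ h1, ?_⟩
        rw [e3, sub_self, zero_mul] at e1
        linarith
      have cw := v1 w (by omega)
      have := sq_mono N (show w + 1 ≤ u by omega)
      refine v3 u hu (Bm (sq N (w + 1) + 1) _ (by omega) _ ⟨?_, ?_⟩)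
      · have := sm_add cw.1 (sm_one e4)
        simpa using this
      · rw [e3]; have := cw.2; push_cast; linarith
    have := pack S C K h0 hm ha hK (Finset.range (U + 1)) (fun u => φ' (v u)) m1 (1 + s)
      (fun u hu => by rw [← add_assoc]; exact v2 u (by simpa [Nat.lt_succ_iff] using hu))
      (fun u hu w hw a h1 b h2 h => by
        rw [Finset.mem_range] at hu hw
        rcases lt_trichotomy u w with h' | h' | h'
        · exact absurd h.symm (lt w (by omega) u h' b h2 a h1)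
        · exact h'
        · exact absurd h (lt u (by omega) w h' a h1 b h2))
    rw [Finset.card_range] at this
    omega
  obtain ⟨u, hu, key⟩ := key
  have one : 1 ≤ sq N (u + 1) := sq_mono N (Nat.zero_le (u + 1))
  refine ⟨m1 + 1, G × ℤ, inferInstance, φ',
    fun j => if j = r then AddMonoidHom.snd G ℤ else (d j).comp (AddMonoidHom.fst G ℤ),
    fun i => if i = r then (0, 1) else (e i, 0), B (sq N (u + 1)), ?_,
    ⟨sm_zero Λ0 _, by simp⟩, fun c h => ⟨sm_neg Λn h.1, by simpa using h.2⟩, ?_, ?_⟩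
  · refine ((sm_finite (A := Λ) (hf.subset fun c h => h.1) (sq N (u + 1))).prod
      (Set.finite_Icc (-(sq N (u + 1) : ℤ)) (sq N (u + 1)))).subset ?_
    rintro v ⟨h1, h2⟩
    exact ⟨h1, abs_le.1 h2⟩
  · intro i hi
    by_cases hr : i = r
    · subst hr
      simp only [if_true]
      refine ⟨⟨sm_zero Λ0 _, by simpa using one⟩, by simpa [hφ] using hx, by simp,
        fun j hj => by simp [hj.ne]⟩
    · obtain ⟨e1, e2, e3, e4⟩ := he i (by omega)
      simp only [hr, if_false]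
      refine ⟨Bm 1 _ one _ ⟨sm_one ⟨e1, _, hm a1 e2, 0, h0 _, by simp⟩, by simp⟩,
        by simpa [hφ] using hm (show m ≤ m1 + 1 by omega) e2, by simpa using e3,
        fun j hj => ?_⟩
      have : j ≠ r := by omega
      simpa [this] using e4 j hj
  · intro c hc'
    have := sm_ind (AddMonoidHom.id (G × ℤ)) B (sq N u + 1) ⟨rfl, by simp⟩
      (fun a b x y hx hy => ⟨sm_add hx.1 hy.1, by
        have := abs_add_le x.2 y.2
        have := hx.2
        have := hy.2
        push_cast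
        show |x.2 + y.2| ≤ _
        linarith⟩) (fun a h => key a h.1 h.2) hc'
    exact Bm _ _ (by simp only [sq]; nlinarith) _ this

include h0 ha hm in
theorem sm_pow (n a : ℕ) : ∀ x ∈ Sm (S n : Set ℤ) (2 ^ a), x ∈ S (n + C * a) := by
  induction a with
  | zero =>
    rintro _ ⟨a, h, y, hy, rfl⟩
    rw [show y = 0 from hy]; simpa using h
  | succ a ih =>
    intro x hx
    rw [pow_succ, mul_two] at hx
    obtain ⟨y, hy, z, hz, rfl⟩ := sm_split hx
    rw [mul_add, mul_one, ← add_assoc]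
    exact ha _ _ (ih y hy) _ (ih z hz)

include h0 hs hm ha hK in
theorem no_births
    (hsyn : ∀ j k, ∃ π, ∀ n, ∃ n', n ≤ n' ∧ n' ≤ n + π ∧ Birth S j k n') : False := by
  classical
  have all : ∀ r s N, ∃ m, Model S r m s N := by
    intro r
    induction r with
    | zero =>
      intro s N
      exact ⟨0, PUnit, inferInstance, 0, fun _ => 0, fun _ => 0, Set.univ, Set.toFinite _, trivial,
        fun _ _ => trivial, fun i hi => absurd hi (by omega), fun _ _ => trivial⟩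
    | succ r ih => exact model_step S C K h0 hs hm ha hK hsyn r ih
  set b := 3 * (K * C + 3) with hb
  set r := 2 ^ b with hr
  obtain ⟨m, G, _, φ, d, e, Ω, hf, hz, hn, he, hc⟩ := all r C (r * 2)
  let Λ : Set G := {c | c ∈ Ω ∧ φ c ∈ S (m + C)}
  have Λ0 : (0 : G) ∈ Λ := ⟨hz, by rw [map_zero]; exact h0 _⟩
  have Λn : ∀ c ∈ Λ, -c ∈ Λ := fun c h => ⟨hn c h.1, by rw [map_neg]; exact hs _ _ h.2⟩
  have ex : ∀ i, ∃ v, (v ∈ Λ ∧ ∀ j < i, d j v = 0) ∧
      ∀ c, (c ∈ Λ ∧ ∀ j < i, d j c = 0) → |d i c| ≤ |d i v| := fun i =>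
    Set.exists_max_image {c | c ∈ Λ ∧ ∀ j < i, d j c = 0} (fun c => |d i c|)
      (hf.subset fun c h => h.1.1) ⟨0, Λ0, fun _ _ => map_zero _⟩
  choose v v1 v2 using ex
  let z : Finset ℕ → ℕ → ℤ := fun T i => if i ∈ T then 2 else 0
  have two : ∀ c ∈ Λ, (2 : ℤ) • c ∈ Sm Λ 2 := fun c h => by
    rw [two_smul]; exact sm_add (sm_one h) (sm_one h)
  have := pack S C K h0 hm ha hK (Finset.range r).powerset
    (fun T => φ (∑ i ∈ Finset.range r, z T i • v i)) m (C + C * (b + 1)) (fun T _ => by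
      have h1 := sm_sum (A := Λ) 2 r (fun i => z T i • v i) fun i _ => by
        by_cases h : i ∈ T
        · simpa [z, h] using two _ (v1 i).1
        · simpa [z, h] using sm_zero Λ0 2
      have h2 := sm_ind φ (Sm (S (m + C) : Set ℤ)) 1 rfl (fun _ _ _ _ => sm_add)
        (fun a h => sm_one h.2) h1
      rw [mul_one, hr, ← pow_succ] at h2
      rw [← add_assoc]
      exact sm_pow S C h0 hm ha _ _ _ h2) (fun T hT T' hT' a h1 b' h2 h => by
      by_contra hne
      have hex : ∃ i, ¬ (i ∈ T ↔ i ∈ T') := by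
        by_contra hh
        push Not at hh
        exact hne (Finset.ext hh)
      have i1 := Nat.find_spec hex
      have i2 := fun j => Nat.find_min hex (m := j)
      set i0 := Nat.find hex
      have ir : i0 < r := by
        rw [Finset.mem_powerset] at hT hT'
        by_contra hh
        exact i1 ⟨fun h => absurd (Finset.mem_range.1 (hT h)) hh,
          fun h => absurd (Finset.mem_range.1 (hT' h)) hh⟩
      let c := ∑ i ∈ Finset.range r, (z T i - z T' i) • v i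
      have c1 : c ∈ Sm Λ (r * 2) := sm_sum 2 r _ fun i _ => by
        by_cases p : i ∈ T <;> by_cases q : i ∈ T'
        · simpa [z, p, q] using sm_zero Λ0 2
        · simpa [z, p, q] using two _ (v1 i).1
        · simpa [z, p, q] using sm_neg Λn (two _ (v1 i).1)
        · simpa [z, p, q] using sm_zero Λ0 2
      have c2 : φ c = b' + -a := by
        simp only [c, sub_smul, Finset.sum_sub_distrib, map_sub]
        linarith
      have c3 : c ∈ Λ := ⟨hc c1, by rw [c2]; exact ha _ _ h2 _ (hs _ _ h1)⟩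
      have c4 : ∀ j ≤ i0, d j c = if j = i0 then (z T i0 - z T' i0) * d i0 (v i0) else 0 := by
        intro j hj
        simp only [c, map_sum, map_zsmul, smul_eq_mul]
        have zero : ∀ i, i ≠ j ∨ j ≠ i0 → (z T i - z T' i) * d j (v i) = 0 := by
          intro i hi
          by_cases p : i < i0
          · have := not_not.1 (i2 i p)
            simp [z, this]
          · rw [(v1 i).2 j (by omega), mul_zero]
        split_ifs with p
        · rw [Finset.sum_eq_single j (fun i _ hi => zero i (Or.inl hi))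
            (fun hh => absurd (Finset.mem_range.2 (by omega)) hh), p]
        · exact Finset.sum_eq_zero fun i _ => zero i (Or.inr p)
      have c5 := v2 i0 c ⟨c3, fun j hj => by rw [c4 j hj.le, if_neg hj.ne]⟩
      obtain ⟨e1, e2, e3, e4⟩ := he i0 ir
      have c6 := v2 i0 (e i0) ⟨⟨e1, hm (Nat.le_add_right _ _) e2⟩, e4⟩
      rw [c4 i0 le_rfl, if_pos rfl, abs_mul] at c5
      rw [e3, abs_one] at c6
      have : |z T i0 - z T' i0| = 2 := by
        by_cases p : i0 ∈ T <;> by_cases q : i0 ∈ T' <;> simp_all [z]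
      rw [this] at c5
      linarith)
  rw [Finset.card_powerset, Finset.card_range] at this
  have k1 : K ^ (C + C * (b + 1) + C) ≤ 2 ^ (K * C * (b + 3)) := by
    rw [show K * C * (b + 3) = K * (C + C * (b + 1) + C) by ring, pow_mul]
    exact Nat.pow_le_pow_left Nat.lt_two_pow_self.le _
  have k2 : K * C * (b + 3) < r := by
    have : K * C + 3 < 2 ^ (K * C + 3) := Nat.lt_two_pow_self
    have h3 := Nat.pow_le_pow_left (Nat.succ_le_of_lt this) 3
    rw [← pow_mul, mul_comm _ 3, ← hb, ← hr] at h3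
    rw [hb]
    generalize K * C = D at *
    simp only [Nat.succ_eq_add_one] at h3
    nlinarith [Nat.zero_le (D ^ 3), Nat.zero_le (D ^ 2)]
  have := Nat.pow_lt_pow_right (show 1 < 2 by norm_num) k2
  omega

end add

end H11.Aut
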