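import Mathlib
import Pool.Agent.H11.Aut4
import Pool.Agent.H11.Aut5

set_option autoImplicit false

namespace H11.Aut
open Pool.Agent.H66.Card

/-- a ternary relation on words is synchronously recognisable -/
def Sync3 {β : Type} (R : List β → List β → List β → Prop) : Prop :=
  Language.IsRegular {W : List (Fin 3 → Option β) | ∃ u v w, R u v w ∧ W = conv ![u, v, w]}

section gen
variable {β : Type}

theorem Sync3.fs {R : List β → List β → List β → Prop} (h : Sync3 R) {ι : Type} (i j k : ι) :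
    FS fun t : ι → List β => R (t i) (t j) (t k) := by
  have h1 := (fs_enc (fs_of_regular h ())).comap (κ := ι) fun p => ![i, j, k] p.2
  refine h1.congr fun t => ?_
  have e : (fun l : Fin 3 => t (![i, j, k] l)) = ![t i, t j, t k] := by
    funext l; fin_cases l <;> rfl
  simp only [e]
  constructor
  · intro h; exact ⟨_, _, _, h, rfl⟩
  · rintro ⟨u, v, w, h, h'⟩
    have := conv_inj h'
    have a : t i = u := congrFun this 0
    have b : t j = v := congrFun this 1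
    have c : t k = w := congrFun this 2
    rw [a, b, c]; exact h

theorem fs_short {R : List β → List β → List β → Prop}
    (h : FS fun t : Fin 3 → List β => R (t 0) (t 1) (t 2)) :
    ∃ C, ∀ n u v w, u.length ≤ n → v.length ≤ n → R u v w →
      ∃ w', w'.length ≤ n + C ∧ R u v w' ∧ w'.take n = w.take n := by
  classical
  obtain ⟨σ, _, f, g, h⟩ := h
  have ex : ∀ q, ∃ s : List β, (∃ s', g q ![[], [], s']) → g q ![[], [], s] := fun q => by
    by_cases hq : ∃ s', g q ![[], [], s']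
    · obtain ⟨s, hs⟩ := hq
      exact ⟨s, fun _ => hs⟩
    · exact ⟨[], fun h => absurd h hq⟩
  choose s hs using ex
  obtain ⟨C, hC⟩ := (Set.finite_range fun q => (s q).length).bddAbove
  refine ⟨C, fun n u v w hu hv hR => ?_⟩
  by_cases hw : w.length ≤ n
  · exact ⟨w, by omega, hR, rfl⟩
  have dr : ∀ z : List β, (fun i => (![u, v, z] i).drop n) = ![[], [], z.drop n] := fun z => by
    funext i; fin_cases i
    · exact List.drop_of_length_le hu
    · exact List.drop_of_length_le hv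
    · rfl
  have a := (h n ![u, v, w]).1 hR
  rw [dr] at a
  have b := hs _ ⟨_, a⟩
  set q := f n fun i => (![u, v, w] i).take n with hq
  have l : (w.take n).length = n := by simp; omega
  have e : (w.take n ++ s q).take n = w.take n := List.take_left' l
  refine ⟨w.take n ++ s q, ?_, ?_, e⟩
  · have : (s q).length ≤ C := hC ⟨q, rfl⟩
    simp only [List.length_append, l]; omega
  · refine (h n ![u, v, w.take n ++ s q]).2 ?_
    rw [dr, List.drop_left' l]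
    convert b using 2
    funext i; fin_cases i
    · rfl
    · rfl
    · exact e

theorem fs_synd (x0 : β) {P : ℕ → Prop} (h : FS fun t : Unit → List β => P (t ()).length)
    (hi : ∀ n, ∃ n', n ≤ n' ∧ P n') : ∃ π, ∀ n, ∃ n', n ≤ n' ∧ n' ≤ n + π ∧ P n' := by
  obtain ⟨C, hC⟩ := fs_short (R := fun _ _ w => P w.length) (h.comap fun _ => (2 : Fin 3))
  refine ⟨C, fun n => ?_⟩
  obtain ⟨n', a, b⟩ := hi n
  obtain ⟨w, c, d, e⟩ := hC n [] [] (List.replicate n' x0) (by simp) (by simp) (by simpa using b)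
  refine ⟨_, ?_, c, d⟩
  have := congrArg List.length e
  simp at this
  omega

end gen

section z
variable {β : Type} (L : List β → Prop) (ψ : List β → ℤ)

def Az (n : ℕ) : Set ℤ := {x | ∃ w, L w ∧ w.length ≤ n ∧ ψ w = x}

def Dz (n : ℕ) : Set ℤ := {z | ∃ a ∈ Az L ψ n, ∃ b ∈ Az L ψ n, a = b + z}

def Qz (X : ℕ → Set ℤ) : Prop :=
  ∀ (ι : Type) (i j : ι), FS fun t : ι → List β => L (t j) ∧ ψ (t j) ∈ X (t i).length

theorem az_mono : Monotone (Az L ψ) := by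
  rintro a b h _ ⟨w, h1, h2, rfl⟩
  exact ⟨w, h1, h2.trans h, rfl⟩

theorem az_finite [Finite β] (n : ℕ) : (Az L ψ n).Finite := by
  refine ((List.finite_length_le β n).image ψ).subset ?_
  rintro _ ⟨w, -, h, rfl⟩
  exact ⟨w, h, rfl⟩

theorem dz_finite [Finite β] (n : ℕ) : (Dz L ψ n).Finite := by
  refine (((az_finite L ψ n).prod (az_finite L ψ n)).image fun p => p.1 - p.2).subset ?_
  rintro z ⟨a, ha, b, hb, h⟩
  exact ⟨(a, b), ⟨ha, hb⟩, by simp [h]⟩

variable (hs : ∀ x, ∃ u, L u ∧ ψ u = x)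
  (he : ∀ (ι : Type) (i j : ι), FS fun t : ι → List β => L (t i) ∧ L (t j) ∧ ψ (t i) = ψ (t j))
  (ha : ∀ (ι : Type) (i j k : ι),
    FS fun t : ι → List β => L (t i) ∧ L (t j) ∧ L (t k) ∧ ψ (t i) + ψ (t j) = ψ (t k))

include hs ha in
theorem az_sub : ∃ C, ∀ n, ∀ x ∈ Az L ψ n, ∀ y ∈ Az L ψ n, x - y ∈ Az L ψ (n + C) := by
  obtain ⟨C, hC⟩ := fs_short (R := fun u v w => L v ∧ L w ∧ L u ∧ ψ v + ψ w = ψ u) (ha _ 1 2 0)
  refine ⟨C, ?_⟩
  rintro n _ ⟨u, a, b, rfl⟩ _ ⟨v, c, d, rfl⟩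
  obtain ⟨w, e, f⟩ := hs (ψ u - ψ v)
  obtain ⟨w', g, h, -⟩ := hC n u v w b d ⟨c, e, a, by rw [f]; ring⟩
  exact ⟨w', h.2.1, g, by linarith [h.2.2.2]⟩

include hs ha in
theorem az_log : ∃ n0 C, ∀ (e : ℕ) (x : ℤ), |x| ≤ 2 ^ e → x ∈ Az L ψ (n0 + C * e) := by
  obtain ⟨C, hC⟩ := az_sub L ψ hs ha
  obtain ⟨u, u1, u2⟩ := hs 0
  obtain ⟨v, v1, v2⟩ := hs 1
  obtain ⟨w, w1, w2⟩ := hs (-1)
  refine ⟨u.length + v.length + w.length, C, fun e => ?_⟩
  induction e with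
  | zero =>
    intro x hx
    have := abs_le.1 hx
    have : x = 0 ∨ x = 1 ∨ x = -1 := by omega
    rcases this with rfl | rfl | rfl
    · exact ⟨u, u1, by omega, u2⟩
    · exact ⟨v, v1, by omega, v2⟩
    · exact ⟨w, w1, by omega, w2⟩
  | succ e ih =>
    intro x hx
    have := abs_le.1 hx
    rw [pow_succ] at this
    have := hC _ _ (ih (x / 2) (abs_le.2 (by omega))) _ (ih (x / 2 - x) (abs_le.2 (by omega)))
    rw [mul_add, mul_one, ← add_assoc]
    simpa using this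

include he in
theorem az_growth [Fintype β] : ∃ D K, ∀ n, D ≤ n →
    (Az L ψ (n + 1)).ncard ≤ K * (Az L ψ n).ncard := by
  classical
  let ψ' : List β → ℕ := fun w => Encodable.encode (ψ w)
  have e : ∀ u v, ψ' u = ψ' v ↔ ψ u = ψ v := fun u v => Encodable.encode_inj
  have h1 := fs_nf L ψ' (fun ι i j => (he ι i j).congr fun t => by rw [e]) (2 : Fin 3)
  obtain ⟨D, hD⟩ := fs_short (R := fun _ _ w => NF L ψ' w) h1
  have ex : ∀ x, ∃ u, ∀ v, NF L ψ' v → ψ v = x → v = u := fun x => by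
    by_cases h : ∃ v, NF L ψ' v ∧ ψ v = x
    · obtain ⟨u, a, b⟩ := h
      exact ⟨u, fun v c d => nf_unique L ψ' c a ((e _ _).2 (d.trans b.symm))⟩
    · exact ⟨[], fun v c d => absurd ⟨v, c, d⟩ h⟩
  choose nf hnf using ex
  refine ⟨D, {l : List β | l.length ≤ D + 1}.ncard, fun n hn => ?_⟩
  rw [← Set.ncard_prod]
  refine le_trans (Set.ncard_le_ncard ?_ (((List.finite_length_le β (D + 1)).prod
    (az_finite L ψ n)).image fun p => ψ ((nf p.2).take (n - D) ++ p.1)))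
    (Set.ncard_image_le ((List.finite_length_le β (D + 1)).prod (az_finite L ψ n)))
  rintro _ ⟨w, a, b, rfl⟩
  obtain ⟨u, c, d, f⟩ := nf_exists L ψ' a
  obtain ⟨w', g, h, i⟩ := hD (n - D) [] [] u (by simp) (by simp) c
  refine ⟨(u.drop (n - D), ψ w'), ⟨?_, w', h.1, by omega, rfl⟩, ?_⟩
  · simp; omega
  · simp only
    rw [← hnf _ w' h rfl, i, List.take_append_drop]
    exact (e _ _).1 d

include he in
theorem qz_az : Qz L ψ (Az L ψ) := fun ι i j => by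
  have h := (he ι j j).and (fs_ex (ι := ι) (κ := Unit)
    (P := fun t u => (L (u ()) ∧ L (t j) ∧ ψ (u ()) = ψ (t j)) ∧ ¬ (t i).length < (u ()).length)
    ((he _ (Sum.inr ()) (Sum.inl j)).and (fs_len (Sum.inl i) (Sum.inr ())).not))
  refine h.congr fun t => ⟨?_, ?_⟩
  · rintro ⟨a, w, b, c, d⟩
    exact ⟨⟨a, a, rfl⟩, fun _ => w, ⟨b, a, d⟩, not_lt.2 c⟩
  · rintro ⟨a, u, b, c⟩
    exact ⟨a.1, u (), b.1, not_lt.1 c, b.2.2⟩

include hs he ha in
theorem qz_dz : Qz L ψ (Dz L ψ) := fun ι i j => by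
  have h := fs_ex (ι := ι) (κ := Bool)
    (P := fun t u => (L (u true) ∧ ψ (u true) ∈ Az L ψ (t i).length) ∧
      (L (u false) ∧ ψ (u false) ∈ Az L ψ (t i).length) ∧
      L (u false) ∧ L (t j) ∧ L (u true) ∧ ψ (u false) + ψ (t j) = ψ (u true))
    ((qz_az L ψ he _ (Sum.inl i) (Sum.inr true)).and
      ((qz_az L ψ he _ (Sum.inl i) (Sum.inr false)).and
        (ha _ (Sum.inr false) (Sum.inl j) (Sum.inr true))))
  refine h.congr fun t => ⟨?_, ?_⟩
  · rintro ⟨c, a, h1, b, h2, h3⟩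
    obtain ⟨u, u1, rfl⟩ := hs a
    obtain ⟨v, v1, rfl⟩ := hs b
    exact ⟨fun z => cond z u v, ⟨u1, h1⟩, ⟨v1, h2⟩, v1, c, u1, h3.symm⟩
  · rintro ⟨u, a, b, c, d, e, f⟩
    exact ⟨d, _, a.2, _, b.2, f.symm⟩

include hs ha in
theorem qz_sm {X : ℕ → Set ℤ} (hX : Qz L ψ X) (k : ℕ) : Qz L ψ fun n => Sm (X n) k := by
  induction k with
  | zero =>
    intro ι i j
    refine (ha ι j j j).congr fun t => ⟨fun h => ⟨h.1, h.1, h.1, ?_⟩, fun h => ⟨h.1, ?_⟩⟩
    · rw [show ψ (t j) = 0 from h.2]; rfl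
    · show ψ (t j) = 0
      linarith [h.2.2.2]
  | succ k ih =>
    intro ι i j
    have h := fs_ex (ι := ι) (κ := Bool)
      (P := fun t u => (L (u true) ∧ ψ (u true) ∈ X (t i).length) ∧
        (L (u false) ∧ ψ (u false) ∈ Sm (X (t i).length) k) ∧
        L (u true) ∧ L (u false) ∧ L (t j) ∧ ψ (u true) + ψ (u false) = ψ (t j))
      ((hX _ (Sum.inl i) (Sum.inr true)).and ((ih _ (Sum.inl i) (Sum.inr false)).and
        (ha _ (Sum.inr true) (Sum.inr false) (Sum.inl j))))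
    refine h.congr fun t => ⟨?_, ?_⟩
    · rintro ⟨c, a, h1, b, h2, h3⟩
      obtain ⟨u, u1, rfl⟩ := hs a
      obtain ⟨v, v1, rfl⟩ := hs b
      exact ⟨fun z => cond z u v, ⟨u1, h1⟩, ⟨v1, h2⟩, u1, v1, c, h3.symm⟩
    · rintro ⟨u, a, b, c, d, e, f⟩
      exact ⟨e, _, a.2, _, b.2, f.symm⟩

theorem qz_succ (x0 : β) {X : ℕ → Set ℤ} (hX : Qz L ψ X) : Qz L ψ fun n => X (n + 1) := by
  intro ι i j
  have h := fs_ex (ι := ι) (κ := Unit)
    (P := fun t u => u () = t i ++ [x0] ∧ L (t j) ∧ ψ (t j) ∈ X (u ()).length)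
    ((fs_snoc (Sum.inl i) (Sum.inr ()) x0).and (hX _ (Sum.inr ()) (Sum.inl j)))
  refine h.congr fun t => ⟨fun h => ⟨fun _ => t i ++ [x0], rfl, by simpa using h⟩, ?_⟩
  rintro ⟨u, a, b⟩
  rw [a] at b
  simpa using b

include hs ha in
theorem fs_mul (m : ℕ) : ∀ (ι : Type) (i j : ι),
    FS fun t : ι → List β => L (t i) ∧ L (t j) ∧ ψ (t j) = m * ψ (t i) := by
  induction m with
  | zero =>
    intro ι i j
    refine (ha ι i j i).congr fun t => ⟨fun h => ⟨h.1, h.2.1, h.1, ?_⟩, fun h => ⟨h.1, h.2.1, ?_⟩⟩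
    · simp [h.2.2]
    · have := h.2.2.2; simp; linarith
  | succ m ih =>
    intro ι i j
    have h := fs_ex (ι := ι) (κ := Unit)
      (P := fun t u => (L (t i) ∧ L (u ()) ∧ ψ (u ()) = m * ψ (t i)) ∧
        L (u ()) ∧ L (t i) ∧ L (t j) ∧ ψ (u ()) + ψ (t i) = ψ (t j))
      ((ih _ (Sum.inl i) (Sum.inr ())).and (ha _ (Sum.inr ()) (Sum.inl i) (Sum.inl j)))
    refine h.congr fun t => ⟨?_, ?_⟩
    · rintro ⟨a, b, c⟩
      obtain ⟨u, u1, u2⟩ := hs (m * ψ (t i))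
      exact ⟨fun _ => u, ⟨a, u1, u2⟩, u1, a, b, by rw [c, u2]; push_cast; ring⟩
    · rintro ⟨u, a, b, c, d, e⟩
      exact ⟨c, d, by rw [← e, a.2.2]; push_cast; ring⟩

include hs he ha in
theorem fs_birth (x0 : β) (j k : ℕ) : FS fun t : Unit → List β =>
    ∃ x ∈ Dz L ψ ((t ()).length + 1), ∀ i : ℕ, 1 ≤ i → i ≤ j →
      (i : ℤ) * x ∉ Sm (Dz L ψ (t ()).length) k := by
  have h := fs_ex (ι := Unit) (κ := Unit)
    (P := fun t u => (L (u ()) ∧ ψ (u ()) ∈ Dz L ψ ((t ()).length + 1)) ∧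
      ∀ i : Fin j, ¬ ∃ v : Unit → List β, (L (u ()) ∧ L (v ()) ∧ ψ (v ()) = (i.1 + 1 : ℕ) * ψ (u ())) ∧
        L (v ()) ∧ ψ (v ()) ∈ Sm (Dz L ψ (t ()).length) k)
    ((qz_succ L ψ x0 (qz_dz L ψ hs he ha) _ (Sum.inl ()) (Sum.inr ())).and (FS.all fun i =>
      (fs_ex (ι := Unit ⊕ Unit) (κ := Unit)
        (P := fun t v => (L (t (.inr ())) ∧ L (v ()) ∧ ψ (v ()) = (i.1 + 1 : ℕ) * ψ (t (.inr ()))) ∧
          L (v ()) ∧ ψ (v ()) ∈ Sm (Dz L ψ (t (.inl ())).length) k)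
        ((fs_mul L ψ hs ha _ _ (Sum.inl (Sum.inr ())) (Sum.inr ())).and
          (qz_sm L ψ hs ha (qz_dz L ψ hs he ha) k _ (Sum.inl (Sum.inl ())) (Sum.inr ())))).not))
  refine h.congr fun t => ⟨?_, ?_⟩
  · rintro ⟨x, a, b⟩
    obtain ⟨u, u1, rfl⟩ := hs x
    refine ⟨fun _ => u, ⟨u1, a⟩, ?_⟩
    rintro i ⟨v, c, d⟩
    exact b (i + 1) (by omega) (by omega) (by rw [← c.2.2]; exact d.2)
  · rintro ⟨u, a, b⟩
    refine ⟨_, a.2, fun i h1 h2 h3 => b ⟨i - 1, by omega⟩ ?_⟩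
    obtain ⟨v, v1, v2⟩ := hs (i * ψ (u ()))
    exact ⟨fun _ => v, ⟨a.1, v1, by rw [v2]; congr 2; simp; omega⟩, v1, by rw [v2]; exact h3⟩

include hs he ha in
theorem az_exp [Fintype β] : ∃ a b : ℕ, ∀ n, ∀ x ∈ Az L ψ n, |x| ≤ 2 ^ (a * n + b) := by
  classical
  obtain ⟨u0, u1, u2⟩ := hs 0
  obtain ⟨x0⟩ : Nonempty β := by
    obtain ⟨v, -, hv⟩ := hs 1
    cases u0 with
    | cons a _ => exact ⟨a⟩
    | nil => cases v with
      | cons a _ => exact ⟨a⟩
      | nil => omega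
  obtain ⟨C, hC⟩ := az_sub L ψ hs ha
  obtain ⟨D, K, hK⟩ := az_growth L ψ he
  set n0 := D + u0.length with hn0
  have z0 : ∀ n, (0 : ℤ) ∈ Az L ψ (n + n0) := fun n => ⟨u0, u1, by omega, u2⟩
  have AD : ∀ n, Az L ψ (n + n0) ⊆ Dz L ψ (n + n0) := fun n x h => ⟨x, h, 0, z0 n, by simp⟩
  have DA : ∀ n, Dz L ψ n ⊆ Az L ψ (n + C) := by
    rintro n x ⟨a, h1, b, h2, h3⟩
    have := hC n a h1 b h2
    rwa [h3, add_sub_cancel_left] at this
  let S : ℕ → Finset ℤ := fun n => (dz_finite L ψ (n + n0)).toFinset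
  have hS : ∀ n x, x ∈ S n ↔ x ∈ Dz L ψ (n + n0) := fun n x => Set.Finite.mem_toFinset _
  have cS : ∀ n, (S n : Set ℤ) = Dz L ψ (n + n0) := fun n => Set.Finite.coe_toFinset _
  have neg : ∀ n, ∀ x ∈ Dz L ψ n, -x ∈ Dz L ψ n := by
    rintro n x ⟨a, h1, b, h2, h3⟩
    exact ⟨b, h2, a, h1, by rw [h3]; ring⟩
  have g : ∀ t n, D ≤ n → (Az L ψ (n + t)).ncard ≤ K ^ t * (Az L ψ n).ncard := by
    intro t n hn
    induction t with
    | zero => simp
    | succ t ih =>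
      calc _ ≤ K * (Az L ψ (n + t)).ncard := hK _ (by omega)
        _ ≤ K * (K ^ t * (Az L ψ n).ncard) := Nat.mul_le_mul_left _ ih
        _ = _ := by ring
  have nb := no_births S C (K ^ (1 + C)) (fun n => (hS _ _).2 (AD n (z0 n)))
    (fun n x h => (hS _ _).2 (neg _ _ ((hS _ _).1 h))) (fun a b h x hx => by
      obtain ⟨p, h1, q, h2, h3⟩ := (hS _ _).1 hx
      exact (hS _ _).2 ⟨p, az_mono L ψ (by omega) h1, q, az_mono L ψ (by omega) h2, h3⟩)
    (fun n x hx y hy => (hS _ _).2 (by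
      rw [show n + C + n0 = n + n0 + C by ring]
      exact ⟨x, DA _ ((hS _ _).1 hx), -y, DA _ (neg _ _ ((hS _ _).1 hy)), by ring⟩))
    (fun n => by
      rw [← Set.ncard_coe_finset, ← Set.ncard_coe_finset, cS, cS]
      calc _ ≤ (Az L ψ (n + n0 + (1 + C))).ncard := by
            refine Set.ncard_le_ncard ?_ (az_finite L ψ _)
            rw [show n + n0 + (1 + C) = n + 1 + n0 + C by ring]
            exact DA _
        _ ≤ _ := g _ _ (by omega)
        _ ≤ _ := Nat.mul_le_mul_left _ (Set.ncard_le_ncard (AD n) (dz_finite L ψ _)))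
  have : ∃ j k n1, ∀ n, n1 ≤ n → ¬ ∃ x ∈ Dz L ψ (n + 1), ∀ i : ℕ, 1 ≤ i → i ≤ j →
      (i : ℤ) * x ∉ Sm (Dz L ψ n) k := by
    by_contra hc
    push Not at hc
    refine nb fun j k => ?_
    obtain ⟨π, hπ⟩ := fs_synd x0 (P := fun n => ∃ x ∈ Dz L ψ (n + 1), ∀ i : ℕ, 1 ≤ i → i ≤ j →
      (i : ℤ) * x ∉ Sm (Dz L ψ n) k) (fs_birth L ψ hs he ha x0 j k) (hc j k)
    refine ⟨π, fun n => ?_⟩
    obtain ⟨n', a, b, x, c, d⟩ := hπ (n + n0)
    obtain ⟨m, rfl⟩ : ∃ m, n' = m + n0 := ⟨n' - n0, by omega⟩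
    refine ⟨m, by omega, by omega, x, (hS _ _).2 ?_, by rw [cS]; exact d⟩
    rwa [show m + 1 + n0 = m + n0 + 1 by ring]
  obtain ⟨j, k, n1, h⟩ := this
  push Not at h
  obtain ⟨R, hR⟩ := ((dz_finite L ψ (n1 + n0)).image Int.natAbs).bddAbove
  have bd : ∀ t, ∀ x ∈ Dz L ψ (n1 + n0 + t), |x| ≤ 2 ^ (k * t + R) := by
    intro t
    induction t with
    | zero =>
      intro x hx
      have a : x.natAbs ≤ R := hR ⟨x, hx, rfl⟩
      have b : R < 2 ^ R := Nat.lt_two_pow_self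
      rw [mul_zero, zero_add, Int.abs_eq_natAbs]
      exact_mod_cast (a.trans b.le)
    | succ t ih =>
      intro x hx
      obtain ⟨i, a, b, c⟩ := h (n1 + n0 + t) (by omega) x hx
      have d := sm_ind (AddMonoidHom.id ℤ) (fun p => {y : ℤ | |y| ≤ p * 2 ^ (k * t + R)}) 1
        (by simp) (fun a b x y hx hy => by
          have := abs_add_le x y
          simp only [Set.mem_setOf_eq] at hx hy ⊢
          push_cast; linarith) (fun a h => by simpa using ih a h) c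
      simp only [AddMonoidHom.id_apply, mul_one, Set.mem_setOf_eq, abs_mul] at d
      have e : (1 : ℤ) ≤ |(i : ℤ)| := by rw [abs_of_nonneg (by positivity)]; exact_mod_cast a
      have f : (k : ℤ) ≤ 2 ^ k := by exact_mod_cast (Nat.lt_two_pow_self (n := k)).le
      have p : (0 : ℤ) < 2 ^ (k * t + R) := by positivity
      rw [show k * (t + 1) + R = k + (k * t + R) by ring, pow_add]
      nlinarith [abs_nonneg x]
  refine ⟨k, R, fun n x hx => bd n x ?_⟩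
  rw [show n1 + n0 + n = n1 + n + n0 by ring]
  exact AD _ (az_mono L ψ (by omega) hx)

end z

end H11.Aut
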