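import Mathlib

/-! Borel determinacy, part 1: game trees, attractors, open determinacy, coverings. -/

namespace H11.BD
open Classical

structure Tr where
  P : Type
  lev : P → ℕ
  par : P → P
  lev_par : ∀ p, lev (par p) = lev p - 1
  ext : ∀ p, ∃ q, par q = p ∧ lev q = lev p + 1

namespace Tr
variable (T : Tr)

def Ch (q p : T.P) : Prop := T.par q = p ∧ T.lev q = T.lev p + 1
def Strat : Type := {s : T.P → T.P // ∀ p, T.Ch (s p) p}
def Play : Type := {x : ℕ → T.P // (∀ n, T.lev (x n) = n) ∧ ∀ n, T.par (x (n + 1)) = x n}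
def Cons (i : ℕ) (s : T.Strat) (x : T.Play) : Prop :=
  ∀ n, n % 2 = i → x.1 (n + 1) = s.1 (x.1 n)
def anc (p : T.P) (m : ℕ) : T.P := T.par^[T.lev p - m] p
def IsO (O : Set T.Play) : Prop := ∀ x ∈ O, ∃ n, ∀ y : T.Play, y.1 n = x.1 n → y ∈ O
def Det (X : Set T.Play) : Prop := ∀ r, T.lev r = 0 →
  (∃ s, ∀ x : T.Play, x.1 0 = r → T.Cons 0 s x → x ∈ X) ∨
  (∃ s, ∀ x : T.Play, x.1 0 = r → T.Cons 1 s x → x ∉ X)

variable {T}

lemma Play.ch (x : T.Play) (n : ℕ) : T.Ch (x.1 (n + 1)) (x.1 n) :=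
  ⟨x.2.2 n, by rw [x.2.1, x.2.1]⟩

lemma lev_iter (k : ℕ) (p : T.P) : T.lev (T.par^[k] p) = T.lev p - k := by
  induction k with
  | zero => rfl
  | succ k ih => rw [Function.iterate_succ_apply', T.lev_par, ih]; omega

lemma lev_anc {p : T.P} {m : ℕ} (h : m ≤ T.lev p) : T.lev (T.anc p m) = m := by
  rw [anc, lev_iter]; omega

lemma anc_self (p : T.P) : T.anc p (T.lev p) = p := by simp [anc]

lemma anc_of_eq {p : T.P} {m : ℕ} (h : T.lev p = m) : T.anc p m = p := by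
  subst h; exact anc_self p

lemma anc_par {p : T.P} {m : ℕ} (h : m < T.lev p) : T.anc (T.par p) m = T.anc p m := by
  unfold anc
  rw [T.lev_par, show T.lev p - m = (T.lev p - 1 - m) + 1 by omega, Function.iterate_succ_apply]

lemma Ch.anc {q p : T.P} (h : T.Ch q p) {m : ℕ} (hm : m ≤ T.lev p) : T.anc q m = T.anc p m := by
  rw [← h.1, anc_par (by have := h.2; omega)]

lemma par_anc {p : T.P} {m : ℕ} (h : m + 1 ≤ T.lev p) : T.par (T.anc p (m + 1)) = T.anc p m := by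
  unfold anc
  rw [show T.lev p - m = (T.lev p - (m + 1)) + 1 by omega, Function.iterate_succ_apply']

lemma anc_anc {p : T.P} {l m : ℕ} (h1 : m ≤ l) (h2 : l ≤ T.lev p) :
    T.anc (T.anc p l) m = T.anc p m := by
  have := lev_anc h2
  unfold anc at *
  rw [this, ← Function.iterate_add_apply]
  congr 1; omega

lemma Play.anc (x : T.Play) {n m : ℕ} (h : m ≤ n) : T.anc (x.1 n) m = x.1 m := by
  induction n, h using Nat.le_induction with
  | base => exact anc_of_eq (x.2.1 m)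
  | succ n hn ih => rw [(x.ch n).anc (by rw [x.2.1]; exact hn), ih]

lemma Play.eq_le {x y : T.Play} {n m : ℕ} (h : m ≤ n) (e : y.1 n = x.1 n) : y.1 m = x.1 m := by
  rw [← y.anc h, e, x.anc h]

inductive AttO (T : Tr) (i : ℕ) (R U : Set T.P) : Ordinal.{0} → T.P → Prop
  | base (a p) : p ∈ U → AttO T i R U a p
  | own (a b p q) : T.lev p % 2 = i → T.Ch q p → q ∈ R → b < a → AttO T i R U b q →
      AttO T i R U a p
  | opp (a p) (f : T.P → Ordinal.{0}) : T.lev p % 2 ≠ i → (∀ q, T.Ch q p → f q < a) →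
      (∀ q, T.Ch q p → AttO T i R U (f q) q) → AttO T i R U a p

def Att (T : Tr) (i : ℕ) (R U : Set T.P) (p : T.P) : Prop := ∃ a, AttO T i R U a p

variable {i : ℕ} {R U : Set T.P}

lemma att_base {p : T.P} (h : p ∈ U) : Att T i R U p := ⟨0, .base _ _ h⟩

lemma att_own {p q : T.P} (h : T.lev p % 2 = i) (hc : T.Ch q p) (hR : q ∈ R)
    (ha : Att T i R U q) : Att T i R U p := by
  obtain ⟨b, hb⟩ := ha
  exact ⟨b + 1, .own _ b _ q h hc hR (lt_add_one b) hb⟩

lemma att_opp {p : T.P} (h : T.lev p % 2 ≠ i) (ha : ∀ q, T.Ch q p → Att T i R U q) :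
    Att T i R U p := by
  have : ∀ q, ∃ b : Ordinal.{0}, T.Ch q p → AttO T i R U b q := by
    intro q
    by_cases hq : T.Ch q p
    · obtain ⟨b, hb⟩ := ha q hq
      exact ⟨b, fun _ => hb⟩
    · exact ⟨0, fun h => (hq h).elim⟩
  choose f hf using this
  refine ⟨(⨆ q, f q) + 1, .opp _ _ f h (fun q _ => ?_) hf⟩
  exact lt_of_le_of_lt (Ordinal.le_iSup f q) (lt_add_one _)

noncomputable def rk (T : Tr) (i : ℕ) (R U : Set T.P) (p : T.P) : Ordinal.{0} :=
  sInf {a | AttO T i R U a p}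

noncomputable def attS (T : Tr) (i : ℕ) (R U : Set T.P) : T.Strat :=
  ⟨fun p => if h : ∃ q, T.Ch q p ∧ q ∈ R ∧ Att T i R U q ∧ rk T i R U q < rk T i R U p
    then h.choose else (T.ext p).choose, fun p => by
      dsimp only
      split_ifs with h
      · exact h.choose_spec.1
      · exact (T.ext p).choose_spec⟩

lemma att_step {p : T.P} (h : Att T i R U p) (hU : p ∉ U) :
    (T.lev p % 2 = i → (attS T i R U).1 p ∈ R ∧ Att T i R U ((attS T i R U).1 p) ∧
      rk T i R U ((attS T i R U).1 p) < rk T i R U p) ∧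
    (T.lev p % 2 ≠ i → ∀ q, T.Ch q p → Att T i R U q ∧ rk T i R U q < rk T i R U p) := by
  have h0 : AttO T i R U (rk T i R U p) p := csInf_mem (s := {a | AttO T i R U a p}) h
  have hle : ∀ b q, AttO T i R U b q → rk T i R U q ≤ b := fun b q hb => csInf_le' hb
  generalize ha : rk T i R U p = a at h0
  cases h0 with
  | base _ _ hp => exact (hU hp).elim
  | own _ b _ q h1 h2 h3 h4 h5 =>
    refine ⟨fun _ => ?_, fun h => (h h1).elim⟩
    have : ∃ q, T.Ch q p ∧ q ∈ R ∧ Att T i R U q ∧ rk T i R U q < rk T i R U p :=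
      ⟨q, h2, h3, ⟨b, h5⟩, ha ▸ lt_of_le_of_lt (hle b q h5) h4⟩
    have e : (attS T i R U).1 p = this.choose := by simp only [attS]; rw [dif_pos this]
    rw [e, ← ha]
    exact this.choose_spec.2
  | opp _ _ f h1 h2 h3 =>
    refine ⟨fun h => (h1 h).elim, fun _ q hq => ⟨⟨_, h3 q hq⟩, ?_⟩⟩
    exact lt_of_le_of_lt (hle _ q (h3 q hq)) (h2 q hq)

lemma att_play (hR : ∀ p ∈ R, T.lev p % 2 ≠ i → ∀ q, T.Ch q p → q ∈ R) (x : T.Play) (n : ℕ)
    (h : Att T i R U (x.1 n)) (hn : x.1 n ∈ R)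
    (hc : ∀ m, n ≤ m → (∀ j, n ≤ j → j ≤ m → x.1 j ∉ U) → m % 2 = i →
      x.1 (m + 1) = (attS T i R U).1 (x.1 m)) :
    ∃ m, n ≤ m ∧ x.1 m ∈ U ∧ x.1 m ∈ R ∧ ∀ j, n ≤ j → j < m → x.1 j ∉ U := by
  generalize ha : rk T i R U (x.1 n) = a
  induction a using Ordinal.induction generalizing n with
  | _ a ih =>
    by_cases hU : x.1 n ∈ U
    · exact ⟨n, le_rfl, hU, hn, fun j h1 h2 => by omega⟩
    have hs := att_step h hU
    have : Att T i R U (x.1 (n + 1)) ∧ x.1 (n + 1) ∈ R ∧ rk T i R U (x.1 (n + 1)) < a := by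
      by_cases hp : n % 2 = i
      · have e := hc n le_rfl (fun j h1 h2 => by rwa [show j = n by omega]) hp
        have := hs.1 (by rw [x.2.1]; exact hp)
        rw [e, ← ha]
        exact ⟨this.2.1, this.1, this.2.2⟩
      · have hp' : T.lev (x.1 n) % 2 ≠ i := by rw [x.2.1]; exact hp
        have := hs.2 hp' _ (x.ch n)
        exact ⟨this.1, hR _ hn hp' _ (x.ch n), ha ▸ this.2⟩
    obtain ⟨m, h1, h2, h3, h4⟩ := ih _ this.2.2 (n + 1) this.1 this.2.1 (fun m hm hj hp =>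
      hc m (by omega) (fun j j1 j2 => by
        by_cases e : j = n
        · rwa [e]
        · exact hj j (by omega) j2) hp) rfl
    refine ⟨m, by omega, h2, h3, fun j j1 j2 => ?_⟩
    by_cases e : j = n
    · rwa [e]
    · exact h4 j (by omega) j2

lemma att_reach (hR : ∀ p ∈ R, T.lev p % 2 ≠ i → ∀ q, T.Ch q p → q ∈ R) {p : T.P}
    (h : Att T i R U p) (hp : p ∈ R) :
    ∃ u ∈ U, u ∈ R ∧ T.lev p ≤ T.lev u ∧ T.anc u (T.lev p) = p := by
  obtain ⟨a, h⟩ := h
  have key : ∀ q p u : T.P, T.Ch q p → T.lev q ≤ T.lev u → T.anc u (T.lev q) = q →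
      T.lev p ≤ T.lev u ∧ T.anc u (T.lev p) = p := by
    intro q p u hc h1 h2
    have := hc.2
    refine ⟨by omega, ?_⟩
    rw [← par_anc (by omega), ← this, h2, hc.1]
  induction h with
  | base a p hU => exact ⟨p, hU, hp, le_rfl, anc_self p⟩
  | own a b p q h1 h2 h3 h4 h5 ih =>
    obtain ⟨u, u1, u2, u3, u4⟩ := ih h3
    exact ⟨u, u1, u2, key q p u h2 u3 u4⟩
  | opp a p f h1 h2 h3 ih =>
    obtain ⟨q, hq⟩ := T.ext p
    obtain ⟨u, u1, u2, u3, u4⟩ := ih q hq (hR p hp h1 q hq)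
    exact ⟨u, u1, u2, key q p u hq u3 u4⟩

/-- positions all of whose plays lie in `O` -/
def DD (O : Set T.Play) : Set T.P := {p | ∀ y : T.Play, y.1 (T.lev p) = p → y ∈ O}

lemma mem_DD {O : Set T.Play} {x : T.Play} {n : ℕ} (h : x.1 n ∈ DD O) : x ∈ O :=
  h x (by rw [x.2.1])

lemma IsO.ex {O : Set T.Play} (hO : T.IsO O) {x : T.Play} (h : x ∈ O) (k : ℕ) :
    ∃ n, k ≤ n ∧ x.1 n ∈ DD O := by
  obtain ⟨n, hn⟩ := hO x h
  refine ⟨max k n, le_max_left _ _, fun y hy => hn y ?_⟩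
  rw [x.2.1] at hy
  exact Play.eq_le (le_max_right _ _) hy

theorem det_open {O : Set T.Play} (hO : T.IsO O) : T.Det O := by
  intro r _
  by_cases h : Att T 0 Set.univ (DD O) r
  · left
    refine ⟨attS T 0 Set.univ (DD O), fun x hx hc => ?_⟩
    obtain ⟨m, _, hm, _⟩ := att_play (i := 0) (R := Set.univ) (U := DD O) (fun _ _ _ _ _ => trivial)
      x 0 (hx ▸ h) trivial (fun m _ _ hm => hc m hm)
    exact mem_DD hm
  · right
    have : ∀ p, ∃ q, T.Ch q p ∧ (T.lev p % 2 ≠ 0 → ¬ Att T 0 Set.univ (DD O) p →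
        ¬ Att T 0 Set.univ (DD O) q) := by
      intro p
      by_cases h1 : T.lev p % 2 ≠ 0 ∧ ¬ Att T 0 Set.univ (DD O) p
      · by_contra hcon
        push Not at hcon
        exact h1.2 (att_opp h1.1 fun q hq => (hcon q hq).2.2)
      · obtain ⟨q, hq⟩ := T.ext p
        exact ⟨q, hq, fun a b => (h1 ⟨a, b⟩).elim⟩
    choose s hs using this
    refine ⟨⟨s, fun p => (hs p).1⟩, fun x hx hc hO' => ?_⟩
    have key : ∀ n, ¬ Att T 0 Set.univ (DD O) (x.1 n) := by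
      intro n
      induction n with
      | zero => rwa [hx]
      | succ n ih =>
        by_cases hp : n % 2 = 0
        · exact fun ha => ih (att_own (by rw [x.2.1]; exact hp) (x.ch n) trivial ha)
        · rw [hc n (by omega)]
          exact (hs _).2 (by rw [x.2.1]; exact hp) ih
    obtain ⟨n, _, hn⟩ := hO.ex hO' 0
    exact key n (att_base hn)

end Tr

open Tr

structure Cov (T' T : Tr) (k : ℕ) where
  π : T'.P → T.P
  lev : ∀ p, T.lev (π p) = T'.lev p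
  par : ∀ p, T.par (π p) = π (T'.par p)
  inj : ∀ p q, T'.lev p ≤ k → π p = π q → p = q
  surj : ∀ p, T.lev p ≤ k → ∃ q, π q = p
  φ : ℕ → T'.Strat → T.Strat
  loc : ∀ i n (s t : T'.Strat), (∀ p, T'.lev p < n → s.1 p = t.1 p) →
    ∀ p, T.lev p < n → (φ i s).1 p = (φ i t).1 p
  idk : ∀ i (s : T'.Strat) p, T'.lev p < k → π (s.1 p) = (φ i s).1 (π p)
  lift : ∀ i, i < 2 → ∀ s (x : T.Play), T.Cons i (φ i s) x →
    ∃ y : T'.Play, T'.Cons i s y ∧ ∀ n, π (y.1 n) = x.1 n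

namespace Cov
variable {T'' T' T : Tr} {k : ℕ}

def map (C : Cov T' T k) (y : T'.Play) : T.Play :=
  ⟨fun n => C.π (y.1 n), fun n => by rw [C.lev, y.2.1], fun n => by rw [C.par, y.2.2]⟩

lemma isO (C : Cov T' T k) {O : Set T.Play} (h : T.IsO O) : T'.IsO (C.map ⁻¹' O) := by
  intro x hx
  obtain ⟨n, hn⟩ := h _ hx
  exact ⟨n, fun y hy => hn _ (congrArg C.π hy)⟩

lemma det (C : Cov T' T k) {X : Set T.Play} (h : T'.Det (C.map ⁻¹' X)) : T.Det X := by
  intro r hr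
  obtain ⟨r', hr'⟩ := C.surj r (by omega)
  have hl : T'.lev r' = 0 := by rw [← C.lev, hr', hr]
  have key : ∀ (x : T.Play) (y : T'.Play), x.1 0 = r → (∀ n, C.π (y.1 n) = x.1 n) →
      y.1 0 = r' ∧ C.map y = x := by
    intro x y hx hy
    refine ⟨C.inj _ _ (by rw [y.2.1]; omega) (by rw [hy, hx, hr']), Subtype.ext (funext hy)⟩
  rcases h r' hl with ⟨s, hs⟩ | ⟨s, hs⟩
  · left
    refine ⟨C.φ 0 s, fun x hx hc => ?_⟩
    obtain ⟨y, hy, e⟩ := C.lift 0 (by omega) s x hc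
    obtain ⟨a, b⟩ := key x y hx e
    exact b ▸ hs y a hy
  · right
    refine ⟨C.φ 1 s, fun x hx hc => ?_⟩
    obtain ⟨y, hy, e⟩ := C.lift 1 (by omega) s x hc
    obtain ⟨a, b⟩ := key x y hx e
    exact b ▸ hs y a hy

def comp (C' : Cov T'' T' k) (C : Cov T' T k) : Cov T'' T k where
  π := fun p => C.π (C'.π p)
  lev := fun p => by rw [C.lev, C'.lev]
  par := fun p => by rw [C.par, C'.par]
  inj := fun p q h e => C'.inj p q h (C.inj _ _ (by rw [C'.lev]; exact h) e)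
  surj := fun p h => by
    obtain ⟨q, hq⟩ := C.surj p h
    obtain ⟨r, hr⟩ := C'.surj q (by rw [← C.lev, hq]; exact h)
    exact ⟨r, by rw [hr, hq]⟩
  φ := fun i s => C.φ i (C'.φ i s)
  loc := fun i n s t h => C.loc i n _ _ (C'.loc i n s t h)
  idk := fun i s p h => by rw [C'.idk i s p h, C.idk i _ _ (by rw [C'.lev]; exact h)]
  lift := fun i hi s x hc => by
    obtain ⟨y, hy, e⟩ := C.lift i hi _ x hc
    obtain ⟨z, hz, e'⟩ := C'.lift i hi _ y hy
    exact ⟨z, hz, fun n => by rw [e', e]⟩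

end Cov

end H11.BD
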