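import Pool.Agent.H11.BD1

/-! Borel determinacy, part 2: Martin's unravelling tree for an open set. -/

namespace H11.BD
open Classical Tr

section
variable (T : Tr) (O : Set T.Play) (K : ℕ)

def QQ (R : Set T.P) : Prop := ∀ q ∈ R, (T.lev q % 2 = 0 → ∃ c, T.Ch c q ∧ c ∈ R) ∧
  (T.lev q % 2 ≠ 0 → ∀ c, T.Ch c q → c ∈ R)

def compat (p u : T.P) : Prop := ∀ m, m ≤ T.lev p → m ≤ T.lev u → T.anc p m = T.anc u m

def V (p : T.P) (R : Set T.P) (c : Option T.P) : Prop :=
  (T.lev p ≤ K → R = Set.univ) ∧ (T.lev p ≤ K + 1 → c = none) ∧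
  (K + 1 ≤ T.lev p → QQ T R ∧ T.anc p (K + 1) ∈ R) ∧
  (K + 2 ≤ T.lev p → (∀ u, c = some u → u ∈ DD O ∧ u ∈ R ∧ K + 2 ≤ T.lev u ∧ compat T p u) ∧
    (c = none → ∀ m, K + 2 ≤ m → m ≤ T.lev p →
      T.anc p m ∈ R ∧ ¬ Att T 0 R (DD O) (T.anc p m)))

variable {T O K}

lemma QQ_univ : QQ T Set.univ := fun q _ =>
  ⟨fun _ => by obtain ⟨c, hc⟩ := T.ext q; exact ⟨c, hc, trivial⟩, fun _ _ _ => trivial⟩

lemma V_low {p : T.P} (h : T.lev p ≤ K + 1) : V T O K p Set.univ none :=
  ⟨fun _ => rfl, fun _ => rfl, fun _ => ⟨QQ_univ, trivial⟩, fun h' => by omega⟩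

lemma V_par {p : T.P} {R : Set T.P} {c : Option T.P} (h : V T O K p R c) :
    V T O K (T.par p) (if T.lev p ≤ K + 1 then Set.univ else R)
      (if T.lev p ≤ K + 2 then none else c) := by
  have hl := T.lev_par p
  obtain ⟨h1, h2, h3, h4⟩ := h
  refine ⟨fun h => if_pos (by omega), fun h => if_pos (by omega), fun h => ?_, fun h => ?_⟩
  · rw [if_neg (by omega), anc_par (by omega)]
    exact h3 (by omega)
  · rw [if_neg (by omega), if_neg (by omega)]
    obtain ⟨a, b⟩ := h4 (by omega)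
    refine ⟨fun u hu => ?_, fun hc m m1 m2 => ?_⟩
    · obtain ⟨u1, u2, u3, u4⟩ := a u hu
      refine ⟨u1, u2, u3, fun m m1 m2 => ?_⟩
      rw [anc_par (by omega)]
      exact u4 m (by omega) m2
    · rw [anc_par (by omega)]
      exact b hc m m1 (by omega)

lemma V_ext (hK : K % 2 = 0) {p : T.P} {R : Set T.P} {c : Option T.P} (h : V T O K p R c) :
    ∃ q R' c', V T O K q R' c' ∧ T.Ch q p ∧ R = (if T.lev q ≤ K + 1 then Set.univ else R') ∧
      c = (if T.lev q ≤ K + 2 then none else c') := by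
  obtain ⟨h1, h2, h3, h4⟩ := h
  by_cases l1 : T.lev p ≤ K
  · obtain ⟨q, hq⟩ := T.ext p
    have := hq.2
    exact ⟨q, Set.univ, none, V_low (by omega), hq, by simp [h1 l1], by simp [h2 (by omega)]⟩
  obtain ⟨hQ, hb⟩ := h3 (by omega)
  by_cases l2 : T.lev p = K + 1
  · obtain ⟨q, hq⟩ := T.ext p
    have hq : T.Ch q p := hq
    have hl := hq.2
    rw [anc_of_eq l2] at hb
    have hqR : q ∈ R := (hQ p hb).2 (by omega) q hq
    have hb' : T.anc q (K + 1) ∈ R := by rw [hq.anc (by omega), anc_of_eq l2]; exact hb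
    by_cases hA : Att T 0 R (DD O) q
    · obtain ⟨u, u1, u2, u3, u4⟩ := att_reach (fun p hp h => (hQ p hp).2 h) hA hqR
      refine ⟨q, R, some u, ⟨fun h => by omega, fun h => by omega, fun _ => ⟨hQ, hb'⟩,
        fun _ => ⟨fun u' hu => ?_, fun h => by simp at h⟩⟩, hq, by rw [if_neg (by omega)],
        by rw [if_pos (by omega), h2 (by omega)]⟩
      cases hu
      refine ⟨u1, u2, by omega, fun m m1 m2 => ?_⟩
      rw [← u4, anc_anc m1 u3]
    · refine ⟨q, R, none, ⟨fun h => by omega, fun h => rfl, fun _ => ⟨hQ, hb'⟩,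
        fun _ => ⟨fun u' hu => by simp at hu, fun _ m m1 m2 => ?_⟩⟩, hq, by rw [if_neg (by omega)],
        by rw [if_pos (by omega), h2 (by omega)]⟩
      rw [anc_of_eq (by omega)]
      exact ⟨hqR, hA⟩
  obtain ⟨a, b⟩ := h4 (by omega)
  have fin : ∀ q, T.Ch q p → (∀ u, c = some u → compat T q u) →
      (c = none → q ∈ R ∧ ¬ Att T 0 R (DD O) q) →
      ∃ q R' c', V T O K q R' c' ∧ T.Ch q p ∧ R = (if T.lev q ≤ K + 1 then Set.univ else R') ∧
      c = (if T.lev q ≤ K + 2 then none else c') := by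
    intro q hq g1 g2
    have hl := hq.2
    refine ⟨q, R, c, ⟨fun h => by omega, fun h => by omega,
      fun _ => ⟨hQ, by rw [hq.anc (by omega)]; exact hb⟩, fun _ => ⟨fun u hu => ?_,
        fun hc m m1 m2 => ?_⟩⟩, hq, by rw [if_neg (by omega)], by rw [if_neg (by omega)]⟩
    · obtain ⟨u1, u2, u3, _⟩ := a u hu
      exact ⟨u1, u2, u3, g1 u hu⟩
    · by_cases e : m = T.lev q
      · rw [e, anc_self]; exact g2 hc
      · rw [hq.anc (by omega)]; exact b hc m m1 (by omega)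
  cases c with
  | some u =>
    obtain ⟨u1, u2, u3, u4⟩ := a u rfl
    by_cases l3 : T.lev p < T.lev u
    · refine fin (T.anc u (T.lev p + 1)) ⟨?_, lev_anc (by omega)⟩ (fun u' hu => ?_) (by simp)
      · rw [par_anc (by omega), ← u4 _ le_rfl (by omega), anc_self]
      · cases hu
        intro m m1 m2
        rw [lev_anc (by omega)] at m1
        exact anc_anc m1 (by omega)
    · obtain ⟨q, hq⟩ := T.ext p
      have hq : T.Ch q p := hq
      refine fin q hq (fun u' hu => ?_) (by simp)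
      cases hu
      intro m m1 m2
      rw [hq.anc (by omega)]
      exact u4 m (by omega) m2
  | none =>
    obtain ⟨p1, p2⟩ := b rfl (T.lev p) (by omega) le_rfl
    rw [anc_self] at p1 p2
    by_cases hp : T.lev p % 2 = 0
    · obtain ⟨q, hq, hqR⟩ := (hQ p p1).1 hp
      exact fin q hq (by simp) (fun _ => ⟨hqR, fun hA => p2 (att_own hp hq hqR hA)⟩)
    · have : ∃ q, T.Ch q p ∧ ¬ Att T 0 R (DD O) q := by
        by_contra hcon
        push Not at hcon
        exact p2 (att_opp hp hcon)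
      obtain ⟨q, hq, hA⟩ := this
      exact fin q hq (by simp) (fun _ => ⟨(hQ p p1).2 hp q hq, hA⟩)

variable (T O)

def UT (hK : K % 2 = 0) : Tr where
  P := {t : T.P × Set T.P × Option T.P // V T O K t.1 t.2.1 t.2.2}
  lev t := T.lev t.1.1
  par t := ⟨(T.par t.1.1, if T.lev t.1.1 ≤ K + 1 then Set.univ else t.1.2.1,
    if T.lev t.1.1 ≤ K + 2 then none else t.1.2.2), V_par t.2⟩
  lev_par t := T.lev_par _
  ext t := by
    obtain ⟨q, R', c', h1, h2, h3, h4⟩ := V_ext hK t.2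
    refine ⟨⟨(q, R', c'), h1⟩, Subtype.ext ?_, h2.2⟩
    exact Prod.ext h2.1 (Prod.ext h3.symm h4.symm)

variable {T O}

lemma UT_ch {hK : K % 2 = 0} {t' t : (UT T O hK).P} (h : (UT T O hK).Ch t' t) :
    T.Ch t'.1.1 t.1.1 ∧ (K + 1 ≤ T.lev t.1.1 → t'.1.2.1 = t.1.2.1) ∧
      (K + 2 ≤ T.lev t.1.1 → t'.1.2.2 = t.1.2.2) := by
  obtain ⟨h1, h2⟩ := h
  have h2 : T.lev t'.1.1 = T.lev t.1.1 + 1 := h2
  refine ⟨⟨congrArg (fun t => t.1.1) h1, h2⟩, fun h => ?_, fun h => ?_⟩
  · rw [← h1]; exact (if_neg (by omega)).symm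
  · rw [← h1]; exact (if_neg (by omega)).symm

/-- the lifted play -/
def mkY (hK : K % 2 = 0) (x : T.Play) (R : Set T.P) (c : Option T.P)
    (hV : ∀ n, V T O K (x.1 n) (if n ≤ K then Set.univ else R) (if n ≤ K + 1 then none else c)) :
    (UT T O hK).Play :=
  ⟨fun n => ⟨(x.1 n, if n ≤ K then Set.univ else R, if n ≤ K + 1 then none else c), hV n⟩,
    fun n => x.2.1 n, fun n => by
      apply Subtype.ext
      refine Prod.ext (x.2.2 n) (Prod.ext ?_ ?_)
      · show (if T.lev (x.1 (n + 1)) ≤ K + 1 then Set.univ else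
          (if n + 1 ≤ K then Set.univ else R)) = if n ≤ K then Set.univ else R
        rw [x.2.1]; split_ifs <;> first | rfl | omega
      · show (if T.lev (x.1 (n + 1)) ≤ K + 2 then none else
          (if n + 1 ≤ K + 1 then none else c)) = if n ≤ K + 1 then none else c
        rw [x.2.1]; split_ifs <;> first | rfl | omega⟩

variable {hK : K % 2 = 0}

lemma cons_mkY (i : ℕ) (s : (UT T O hK).Strat) (x : T.Play) (R : Set T.P) (c : Option T.P)
    (hV : ∀ n, V T O K (x.1 n) (if n ≤ K then Set.univ else R) (if n ≤ K + 1 then none else c))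
    (hR : i = 0 → (s.1 ((mkY hK x R c hV).1 K)).1.2.1 = R)
    (hc : i = 1 → (s.1 ((mkY hK x R c hV).1 (K + 1))).1.2.2 = c)
    (hp : ∀ n, n % 2 = i → (∀ u, c = some u → K + 1 ≤ n → T.lev u ≤ n) →
      (s.1 ((mkY hK x R c hV).1 n)).1.1 = x.1 (n + 1))
    (hu : ∀ u, c = some u → x.1 (T.lev u) = u) :
    (UT T O hK).Cons i s (mkY hK x R c hV) := by
  intro n hn
  set t := (mkY hK x R c hV).1 n with ht
  obtain ⟨c1, c2, c3⟩ := UT_ch (s.2 t)
  have l : T.lev t.1.1 = n := x.2.1 n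
  have l' : T.lev (s.1 t).1.1 = n + 1 := by rw [c1.2, l]
  obtain ⟨v1, v2, v3, v4⟩ := (s.1 t).2
  have eR : (s.1 t).1.2.1 = if n + 1 ≤ K then Set.univ else R := by
    split_ifs with h
    · exact v1 (by omega)
    · by_cases e : n = K
      · subst e; exact hR (by omega)
      · rw [c2 (by omega)]; exact if_neg (by omega)
  have ec : (s.1 t).1.2.2 = if n + 1 ≤ K + 1 then none else c := by
    split_ifs with h
    · exact v2 (by omega)
    · by_cases e : n = K + 1
      · subst e; exact hc (by omega)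
      · rw [c3 (by omega)]; exact if_neg (by omega)
  symm
  apply Subtype.ext
  refine Prod.ext ?_ (Prod.ext eR ec)
  by_cases hh : ∀ u, c = some u → K + 1 ≤ n → T.lev u ≤ n
  · exact hp n hn hh
  · push Not at hh
    obtain ⟨u, hu1, hu2, hu3⟩ := hh
    rw [if_neg (by omega), hu1] at ec
    obtain ⟨_, _, _, u4⟩ := (v4 (by omega)).1 u ec
    have := u4 (n + 1) (by omega) (by omega)
    rw [anc_of_eq l', ← hu u hu1, x.anc (by omega)] at this
    exact this

/-- first ancestor at level at least `K+2` in `W` -/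
noncomputable def first (T : Tr) (K : ℕ) (W : Set T.P) (p : T.P) : Option T.P :=
  if h : ∃ m, K + 2 ≤ m ∧ m ≤ T.lev p ∧ T.anc p m ∈ W then some (T.anc p (Nat.find h)) else none

lemma first_none {W : Set T.P} (x : T.Play) (n : ℕ) (h : ∀ m, K + 2 ≤ m → m ≤ n → x.1 m ∉ W) :
    first T K W (x.1 n) = none := by
  refine dif_neg ?_
  rintro ⟨m, m1, m2, m3⟩
  rw [x.2.1] at m2
  rw [x.anc m2] at m3
  exact h m m1 m2 m3

lemma first_some {W : Set T.P} (x : T.Play) (n m : ℕ) (m1 : K + 2 ≤ m) (m2 : m ≤ n)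
    (m3 : x.1 m ∈ W) (h : ∀ j, K + 2 ≤ j → j < m → x.1 j ∉ W) :
    first T K W (x.1 n) = some (x.1 m) := by
  have hh : ∃ m, K + 2 ≤ m ∧ m ≤ T.lev (x.1 n) ∧ T.anc (x.1 n) m ∈ W :=
    ⟨m, m1, by rw [x.2.1]; exact m2, by rw [x.anc m2]; exact m3⟩
  have : Nat.find hh = m := by
    rw [Nat.find_eq_iff]
    refine ⟨⟨m1, by rw [x.2.1]; exact m2, by rw [x.anc m2]; exact m3⟩, fun j hj ⟨j1, _, j3⟩ => ?_⟩
    rw [x.anc (by omega)] at j3
    exact h j j1 hj j3
  rw [first, dif_pos hh, this, x.anc m2]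

lemma first_low {W : Set T.P} {p : T.P} (h : T.lev p ≤ K + 1) : first T K W p = none := by
  refine dif_neg ?_
  rintro ⟨m, m1, m2, _⟩
  omega

noncomputable def ap (s : (UT T O hK).Strat) (p : T.P) (R : Set T.P) (c : Option T.P)
    (d : T.Strat) : T.P :=
  if h : V T O K p R c then (s.1 ⟨(p, R, c), h⟩).1.1 else d.1 p

lemma ap_ch (s : (UT T O hK).Strat) (p : T.P) (R : Set T.P) (c : Option T.P) (d : T.Strat) :
    T.Ch (ap s p R c d) p := by
  unfold ap
  split_ifs with h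
  · exact (UT_ch (s.2 ⟨(p, R, c), h⟩)).1
  · exact d.2 p

noncomputable def R0 (s : (UT T O hK).Strat) (p : T.P) : Set T.P :=
  if h : K < T.lev p then
    (s.1 ⟨(T.anc p K, Set.univ, none), V_low (by rw [lev_anc h.le]; omega)⟩).1.2.1 else Set.univ

noncomputable def φ0 (s : (UT T O hK).Strat) : T.Strat :=
  ⟨fun p => ap s p (R0 s p) (first T K (DD O) p) (attS T 0 (R0 s p) (DD O)), fun _ => ap_ch ..⟩

def Ub (s : (UT T O hK).Strat) (b : T.P) : Set T.P :=
  {u | ∃ R, ∃ h : V T O K b R none, (s.1 ⟨(b, R, none), h⟩).1.2.2 = some u}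

noncomputable def Rw (s : (UT T O hK).Strat) (b : T.P) : Option T.P → Set T.P
  | some u => if h : u ∈ Ub s b then h.choose else Set.univ
  | none => {q | ¬ Att T 1 Set.univ (Ub s b) q}

noncomputable def R1 (s : (UT T O hK).Strat) (p : T.P) : Set T.P :=
  if T.lev p ≤ K then Set.univ else
    Rw s (T.anc p (K + 1)) (first T K (Ub s (T.anc p (K + 1))) p)

noncomputable def φ1 (s : (UT T O hK).Strat) : T.Strat :=
  ⟨fun p => ap s p (R1 s p) (first T K (Ub s (T.anc p (K + 1))) p)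
    (attS T 1 Set.univ (Ub s (T.anc p (K + 1)))), fun _ => ap_ch ..⟩

lemma ap_loc {n : ℕ} {s t : (UT T O hK).Strat}
    (h : ∀ p, (UT T O hK).lev p < n → s.1 p = t.1 p) {p : T.P} (hp : T.lev p < n)
    (R : Set T.P) (c : Option T.P) (d : T.Strat) : ap s p R c d = ap t p R c d := by
  unfold ap
  split_ifs with hv
  · rw [h ⟨(p, R, c), hv⟩ hp]
  · rfl

lemma φ0_loc {n : ℕ} {s t : (UT T O hK).Strat}
    (h : ∀ p, (UT T O hK).lev p < n → s.1 p = t.1 p) {p : T.P} (hp : T.lev p < n) :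
    (φ0 s).1 p = (φ0 t).1 p := by
  have : R0 s p = R0 t p := by
    unfold R0
    split_ifs with hl
    · rw [h _ (by show T.lev (T.anc p K) < n; rw [lev_anc hl.le]; omega)]
    · rfl
  simp only [φ0, this]
  exact ap_loc h hp ..

lemma φ1_loc {n : ℕ} {s t : (UT T O hK).Strat}
    (h : ∀ p, (UT T O hK).lev p < n → s.1 p = t.1 p) {p : T.P} (hp : T.lev p < n) :
    (φ1 s).1 p = (φ1 t).1 p := by
  have hb : T.lev (T.anc p (K + 1)) < n := by rw [anc, lev_iter]; omega
  simp only [φ1, R1]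
  generalize T.anc p (K + 1) = b at hb
  have e0 : ∀ u, (fun R => ∃ h : V T O K b R none, (s.1 ⟨(b, R, none), h⟩).1.2.2 = some u) =
      (fun R => ∃ h : V T O K b R none, (t.1 ⟨(b, R, none), h⟩).1.2.2 = some u) := by
    intro u
    funext R
    apply propext
    refine exists_congr fun hv => ?_
    rw [h ⟨(b, R, none), hv⟩ hb]
  have e1 : Ub s b = Ub t b := by
    ext u
    show Exists _ ↔ Exists _
    rw [e0 u]
  have e2 : Rw s b = Rw t b := by
    funext c
    cases c with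
    | none => simp only [Rw, e1]
    | some u =>
      simp only [Rw]
      by_cases hu : u ∈ Ub s b
      · have hu' : u ∈ Ub t b := e1 ▸ hu
        rw [dif_pos hu, dif_pos hu']
        have : ∀ (A B : Set T.P → Prop) (a : Exists A) (b : Exists B), A = B →
            a.choose = b.choose := by
          intro A B a b e; subst e; rfl
        exact this _ _ _ _ (e0 u)
      · rw [dif_neg hu, dif_neg (e1 ▸ hu)]
  rw [e1, e2]
  exact ap_loc h hp ..

lemma ap_eq (s : (UT T O hK).Strat) (t : (UT T O hK).P) {R : Set T.P} {c : Option T.P}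
    (h1 : R = t.1.2.1) (h2 : c = t.1.2.2) (d : T.Strat) :
    ap s t.1.1 R c d = (s.1 t).1.1 := by
  subst h1 h2
  unfold ap
  rw [dif_pos t.2]
  rfl

end

end H11.BD
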