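import Pool.Agent.H11.BD2

/-! Borel determinacy, part 3: the unravelling covering. -/

namespace H11.BD
open Classical Tr

section
variable {T : Tr} {O : Set T.Play} {K : ℕ} {hK : K % 2 = 0}

lemma V_none (x : T.Play) (R : Set T.P) (hQ : QQ T R) (hb : x.1 (K + 1) ∈ R) (n : ℕ)
    (h : ∀ m, K + 2 ≤ m → m ≤ n → x.1 m ∈ R ∧ ¬ Att T 0 R (DD O) (x.1 m)) :
    V T O K (x.1 n) (if n ≤ K then Set.univ else R) none := by
  have l := x.2.1 n
  refine ⟨fun h => if_pos (by omega), fun _ => rfl, fun h => ?_, fun h' => ⟨by simp, ?_⟩⟩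
  · rw [if_neg (by omega), x.anc (by omega)]; exact ⟨hQ, hb⟩
  · intro _ m m1 m2
    rw [if_neg (by omega), x.anc (by omega)]
    exact h m m1 (by omega)

lemma V_some (x : T.Play) (R : Set T.P) (hQ : QQ T R) (hb : x.1 (K + 1) ∈ R) (m : ℕ)
    (m1 : K + 2 ≤ m) (m2 : x.1 m ∈ DD O) (m3 : x.1 m ∈ R) (n : ℕ) :
    V T O K (x.1 n) (if n ≤ K then Set.univ else R) (if n ≤ K + 1 then none else some (x.1 m)) := by
  have l := x.2.1 n
  have l' := x.2.1 m
  refine ⟨fun h => if_pos (by omega), fun _ => if_pos (by omega), fun h => ?_, fun h' => ?_⟩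
  · rw [if_neg (by omega), x.anc (by omega)]; exact ⟨hQ, hb⟩
  · rw [if_neg (by omega), if_neg (by omega)]
    refine ⟨fun u hu => ?_, by simp⟩
    cases hu
    refine ⟨m2, m3, by omega, fun j j1 j2 => ?_⟩
    rw [x.anc (by omega), x.anc (by omega)]

lemma lift0 (s : (UT T O hK).Strat) (x : T.Play) (hc : T.Cons 0 (φ0 s) x) :
    ∃ y : (UT T O hK).Play, (UT T O hK).Cons 0 s y ∧ ∀ n, (y.1 n).1.1 = x.1 n := by
  let t0 : (UT T O hK).P := ⟨(x.1 K, Set.univ, none), V_low (by rw [x.2.1]; omega)⟩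
  set R := (s.1 t0).1.2.1 with hRdef
  have hR0 : ∀ n, R0 s (x.1 n) = if n ≤ K then Set.univ else R := by
    intro n
    have l := x.2.1 n
    unfold R0
    split_ifs with h1 h2 h2
    · omega
    · have : ∀ b (hb : V T O K b Set.univ none), b = x.1 K →
          (s.1 ⟨(b, Set.univ, none), hb⟩).1.2.1 = R := by
        intro b hb e; subst e; rfl
      exact this _ _ (x.anc (by omega))
    · rfl
    · omega
  have step : ∀ n, n % 2 = 0 → ∀ c (hv : V T O K (x.1 n) (if n ≤ K then Set.univ else R) c),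
      first T K (DD O) (x.1 n) = c → (s.1 ⟨(x.1 n, _, c), hv⟩).1.1 = x.1 (n + 1) := by
    intro n hn c hv h2
    rw [hc n hn]
    exact (ap_eq s ⟨(x.1 n, _, c), hv⟩ (hR0 n) h2 _).symm
  have e0 : (s.1 t0).1.1 = x.1 (K + 1) := by
    rw [hc K hK]
    exact (ap_eq s t0 (by rw [hR0, if_pos le_rfl]) (first_low (by rw [x.2.1]; omega)) _).symm
  obtain ⟨hQ, hb⟩ := (s.1 t0).2.2.2.1 (by rw [e0, x.2.1])
  rw [e0, x.anc le_rfl] at hb
  have hA : ∀ n, K + 1 ≤ n → (∀ m, K + 2 ≤ m → m < n → ¬ Att T 0 R (DD O) (x.1 m)) →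
      x.1 n ∈ R := by
    intro n
    induction n using Nat.strong_induction_on with
    | _ n ih =>
      intro h1 h2
      by_cases e : n = K + 1
      · rw [e]; exact hb
      obtain ⟨j, rfl⟩ : ∃ j, n = j + 1 := ⟨n - 1, by omega⟩
      by_cases hj : j % 2 = 0
      · have hv := V_none (O := O) x R hQ hb j (fun m m1 m2 =>
          ⟨ih m (by omega) (by omega) (fun l l1 l2 => h2 l l1 (by omega)), h2 m m1 (by omega)⟩)
        have e1 := step j hj none hv (first_none x j fun m m1 m2 hm =>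
          h2 m m1 (by omega) (att_base hm))
        obtain ⟨c1, c2, c3⟩ := UT_ch (s.2 ⟨(x.1 j, _, none), hv⟩)
        have l := x.2.1 j
        have v := ((s.1 ⟨(x.1 j, _, none), hv⟩).2.2.2.2 (by rw [e1, x.2.1]; omega)).2
          (c3 (by show K + 2 ≤ T.lev (x.1 j); omega)) (j + 1) (by omega) (by rw [e1, x.2.1])
        rw [e1, x.anc le_rfl, c2 (by show K + 1 ≤ T.lev (x.1 j); omega)] at v
        have v1 : x.1 (j + 1) ∈ (if j ≤ K then Set.univ else R) := v.1
        rwa [if_neg (by omega)] at v1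
      · exact (hQ _ (ih j (by omega) (by omega) (fun l l1 l2 => h2 l l1 (by omega)))).2
          (by rw [x.2.1]; exact hj) _ (x.ch j)
  by_cases hh : ∃ m, K + 2 ≤ m ∧ Att T 0 R (DD O) (x.1 m)
  · obtain ⟨a1, a2⟩ := Nat.find_spec hh
    have a3 : ∀ m, K + 2 ≤ m → m < Nat.find hh → ¬ Att T 0 R (DD O) (x.1 m) :=
      fun m m1 m2 hm => Nat.find_min hh m2 ⟨m1, hm⟩
    generalize Nat.find hh = m0 at a1 a2 a3
    obtain ⟨m1, b1, b2, b3, b4⟩ := att_play (fun p hp h => (hQ p hp).2 h) x m0 a2
      (hA m0 (by omega) a3) (fun m m1 m2 m3 => by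
        rw [hc m m3]
        simp only [φ0]
        rw [first_none x m (fun j j1 j2 hj => by
          by_cases e : j < m0
          · exact a3 j j1 e (att_base hj)
          · exact m2 j (by omega) j2 hj), hR0, if_neg (by omega), ap, dif_neg]
        intro hv
        have := (hv.2.2.2 (by rw [x.2.1]; omega)).2 rfl m0 a1 (by rw [x.2.1]; omega)
        rw [x.anc m1] at this
        exact this.2 a2)
    have hV := V_some x R hQ hb m1 (by omega) b2 b3
    refine ⟨mkY hK x R _ hV, cons_mkY 0 s x R _ hV (fun _ => ?_) (by omega) (fun n hn hu => ?_)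
      (fun u hu => ?_), fun n => rfl⟩
    · have : (mkY hK x R _ hV).1 K = t0 := Subtype.ext (by simp [mkY, t0])
      rw [this]
    · refine step n hn _ (hV n) ?_
      by_cases e : n ≤ K + 1
      · rw [if_pos e]; exact first_low (by rw [x.2.1]; exact e)
      · rw [if_neg e]
        have := hu _ rfl (by omega)
        rw [x.2.1] at this
        refine first_some x n m1 (by omega) this b2 (fun j j1 j2 hj => ?_)
        by_cases e : j < m0
        · exact a3 j j1 e (att_base hj)
        · exact b4 j (by omega) j2 hj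
    · cases hu; rw [x.2.1]
  · push Not at hh
    have hV : ∀ n, V T O K (x.1 n) (if n ≤ K then Set.univ else R)
        (if n ≤ K + 1 then none else none) := by
      intro n
      rw [ite_self]
      exact V_none x R hQ hb n (fun m m1 m2 =>
        ⟨hA m (by omega) (fun l l1 _ => hh l l1), hh m m1⟩)
    refine ⟨mkY hK x R _ hV, cons_mkY 0 s x R _ hV (fun _ => ?_) (by omega) (fun n hn _ => ?_)
      (by simp), fun n => rfl⟩
    · have : (mkY hK x R _ hV).1 K = t0 := Subtype.ext (by simp [mkY, t0])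
      rw [this]
    · refine step n hn _ (hV n) ?_
      rw [ite_self]
      exact first_none x n fun m m1 _ hm => hh m m1 (att_base hm)

lemma Ub_spec {s : (UT T O hK).Strat} {b u : T.P} (hb : T.lev b = K + 1) (h : u ∈ Ub s b) :
    ∃ hv : V T O K b (Rw s b (some u)) none,
      (s.1 ⟨(b, Rw s b (some u), none), hv⟩).1.2.2 = some u ∧ u ∈ DD O ∧ u ∈ Rw s b (some u) ∧
      K + 2 ≤ T.lev u := by
  have e : Rw s b (some u) = h.choose := by simp only [Rw]; rw [dif_pos h]
  rw [e]
  obtain ⟨hv, h2⟩ := h.choose_spec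
  obtain ⟨c1, c2, _⟩ := UT_ch (s.2 ⟨(b, h.choose, none), hv⟩)
  have l : T.lev (s.1 ⟨(b, h.choose, none), hv⟩).1.1 = T.lev b + 1 := c1.2
  obtain ⟨u1, u2, u3, _⟩ := ((s.1 ⟨(b, h.choose, none), hv⟩).2.2.2.2 (by omega)).1 u h2
  rw [c2 (by show K + 1 ≤ T.lev b; omega)] at u2
  exact ⟨hv, h2, u1, u2, u3⟩

lemma QQ_compl (U : Set T.P) : QQ T {q | ¬ Att T 1 Set.univ U q} := by
  intro q hq
  refine ⟨fun h => ?_, fun h c hc ha => hq (att_own (by omega) hc trivial ha)⟩
  by_contra hcon
  push Not at hcon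
  exact hq (att_opp (by omega) fun c hc => not_not.1 (hcon c hc))

lemma lift1 (s : (UT T O hK).Strat) (x : T.Play) (hc : T.Cons 1 (φ1 s) x) :
    ∃ y : (UT T O hK).Play, (UT T O hK).Cons 1 s y ∧ ∀ n, (y.1 n).1.1 = x.1 n := by
  set b := x.1 (K + 1) with hbdef
  have hbl : T.lev b = K + 1 := x.2.1 _
  set U := Ub s b with hU
  have hUl : ∀ m, x.1 m ∈ U → K + 2 ≤ m := fun m hm => by
    obtain ⟨_, _, _, _, h⟩ := Ub_spec hbl hm
    rwa [x.2.1] at h
  have step : ∀ n, n % 2 = 1 → ∀ c
      (hv : V T O K (x.1 n) (if n ≤ K then Set.univ else Rw s b c) (if n ≤ K + 1 then none else c)),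
      (K + 1 ≤ n → first T K U (x.1 n) = c) → (s.1 ⟨(x.1 n, _, _), hv⟩).1.1 = x.1 (n + 1) := by
    intro n hn c hv h2
    have l := x.2.1 n
    rw [hc n hn]
    refine (ap_eq s ⟨(x.1 n, _, _), hv⟩ ?_ ?_ _).symm
    · show R1 s (x.1 n) = if n ≤ K then Set.univ else Rw s b c
      unfold R1
      rw [l]
      split_ifs with h
      · rfl
      · rw [x.anc (by omega), h2 (by omega)]
    · show first T K _ (x.1 n) = if n ≤ K + 1 then none else c
      split_ifs with h
      · exact first_low (by omega)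
      · rw [x.anc (by omega), h2 (by omega)]
  by_cases hh : ∃ m, K + 1 ≤ m ∧ Att T 1 Set.univ U (x.1 m)
  · obtain ⟨a1, a2⟩ := Nat.find_spec hh
    have a3 : ∀ m, K + 1 ≤ m → m < Nat.find hh → ¬ Att T 1 Set.univ U (x.1 m) :=
      fun m m1 m2 hm => Nat.find_min hh m2 ⟨m1, hm⟩
    generalize Nat.find hh = m0 at a1 a2 a3
    obtain ⟨m1, b1, b2, _, b4⟩ := att_play (R := Set.univ) (fun _ _ _ _ _ => trivial) x m0 a2
      trivial (fun m m1 m2 m3 => by
        have l := x.2.1 m
        rw [hc m m3]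
        simp only [φ1, R1]
        rw [x.anc (show K + 1 ≤ m by omega), first_none x m (fun j j1 j2 hj => by
          by_cases e : j < m0
          · exact a3 j (by omega) e (att_base hj)
          · exact m2 j (by omega) j2 hj), if_neg (by omega), ap, dif_neg]
        intro hv
        by_cases e : m0 = K + 1
        · have := (hv.2.2.1 (by omega)).2
          rw [x.anc (by omega)] at this
          rw [e] at a2
          exact this a2
        · have := ((hv.2.2.2 (by omega)).2 rfl m0 (by omega) (by omega)).1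
          rw [x.anc m1] at this
          exact this a2)
    obtain ⟨hv, u0, u1, u2, u3⟩ := Ub_spec hbl b2
    obtain ⟨hQ, hb⟩ := hv.2.2.1 (by omega)
    rw [anc_of_eq hbl] at hb
    have hV := V_some x _ hQ hb m1 (hUl _ b2) u1 u2
    refine ⟨mkY hK x _ _ hV, cons_mkY 1 s x _ _ hV (by omega) (fun _ => ?_) (fun n hn hu => ?_)
      (fun u hu => ?_), fun n => rfl⟩
    · have : (mkY hK x _ _ hV).1 (K + 1) = ⟨(b, Rw s b (some (x.1 m1)), none), hv⟩ :=
        Subtype.ext (by simp [mkY, hbdef])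
      rw [this, u0]
    · refine step n hn _ (hV n) (fun e => ?_)
      have := hu _ rfl e
      rw [x.2.1] at this
      refine first_some x n m1 (hUl _ b2) this b2 (fun j j1 j2 hj => ?_)
      by_cases e : j < m0
      · exact a3 j (by omega) e (att_base hj)
      · exact b4 j (by omega) j2 hj
    · cases hu; rw [x.2.1]
  · push Not at hh
    have hQ : QQ T (Rw s b none) := QQ_compl U
    have hR : ∀ m, K + 1 ≤ m → x.1 m ∈ Rw s b none := hh
    have hf : ∀ n, first T K U (x.1 n) = none := fun n =>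
      first_none x n fun m m1 _ hm => hh m (by omega) (att_base hm)
    have hcn : ∀ hv : V T O K b (Rw s b none) none,
        (s.1 ⟨(b, Rw s b none, none), hv⟩).1.2.2 = none := by
      intro hv
      cases e : (s.1 ⟨(b, Rw s b none, none), hv⟩).1.2.2 with
      | none => rfl
      | some u =>
        exfalso
        obtain ⟨c1, c2, _⟩ := UT_ch (s.2 ⟨(b, _, none), hv⟩)
        have l : T.lev (s.1 ⟨(b, _, none), hv⟩).1.1 = T.lev b + 1 := c1.2
        obtain ⟨_, u2, _⟩ := ((s.1 ⟨(b, _, none), hv⟩).2.2.2.2 (by omega)).1 u e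
        rw [c2 (by show K + 1 ≤ T.lev b; omega)] at u2
        exact u2 (att_base ⟨_, hv, e⟩)
    have hA : ∀ n, K + 2 ≤ n → ¬ Att T 0 (Rw s b none) (DD O) (x.1 n) := by
      intro n
      induction n using Nat.strong_induction_on with
      | _ n ih =>
        intro h1
        obtain ⟨j, rfl⟩ : ∃ j, n = j + 1 := ⟨n - 1, by omega⟩
        by_cases hj : j % 2 = 0
        · exact fun ha => ih j (by omega) (by omega)
            (att_own (by rw [x.2.1]; exact hj) (x.ch j) (hR _ (by omega)) ha)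
        · have hv : V T O K (x.1 j) (if j ≤ K then Set.univ else Rw s b none)
              (if j ≤ K + 1 then none else none) := by
            rw [ite_self]
            exact V_none x _ hQ (hR _ le_rfl) j
              (fun m m1 m2 => ⟨hR m (by omega), ih m (by omega) m1⟩)
          have e1 := step j (by omega) none hv (fun _ => hf j)
          obtain ⟨c1, c2, c3⟩ := UT_ch (s.2 ⟨(x.1 j, _, _), hv⟩)
          have l := x.2.1 j
          have ec : (s.1 ⟨(x.1 j, _, _), hv⟩).1.2.2 = none := by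
            by_cases e : j = K + 1
            · subst e
              have hv' : V T O K b (Rw s b none) none := by simpa using hv
              have : (⟨(x.1 (K + 1), _, _), hv⟩ : (UT T O hK).P) = ⟨(b, _, none), hv'⟩ :=
                Subtype.ext (Prod.ext rfl (Prod.ext (if_neg (by omega)) (ite_self _)))
              rw [this]
              exact hcn hv'
            · rw [c3 (by show K + 2 ≤ T.lev (x.1 j); omega)]
              exact ite_self _
          have v := ((s.1 ⟨(x.1 j, _, _), hv⟩).2.2.2.2 (by rw [e1, x.2.1]; omega)).2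
            ec (j + 1) (by omega) (by rw [e1, x.2.1])
          rw [e1, x.anc le_rfl, c2 (by show K + 1 ≤ T.lev (x.1 j); omega)] at v
          have v1 : ¬ Att T 0 (if j ≤ K then Set.univ else Rw s b none) (DD O) (x.1 (j + 1)) := v.2
          rwa [if_neg (by omega)] at v1
    have hV : ∀ n, V T O K (x.1 n) (if n ≤ K then Set.univ else Rw s b none)
        (if n ≤ K + 1 then none else none) := by
      intro n
      rw [ite_self]
      exact V_none x _ hQ (hR _ le_rfl) n (fun m m1 m2 => ⟨hR m (by omega), hA m m1⟩)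
    refine ⟨mkY hK x _ _ hV, cons_mkY 1 s x _ _ hV (by omega) (fun _ => ?_) (fun n hn _ => ?_)
      (by simp), fun n => rfl⟩
    · have hv' : V T O K b (Rw s b none) none := by simpa using hV (K + 1)
      have : (mkY hK x _ _ hV).1 (K + 1) = ⟨(b, Rw s b none, none), hv'⟩ :=
        Subtype.ext (by simp [mkY, hbdef])
      rw [this]
      exact hcn hv'
    · exact step n hn _ (hV n) (fun _ => hf n)

end

noncomputable def unravel (T : Tr) (O : Set T.Play) {k K : ℕ} (hK : K % 2 = 0) (hk : k ≤ K) :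
    Cov (UT T O hK) T k where
  π t := t.1.1
  lev _ := rfl
  par _ := rfl
  inj p q h e := by
    have h : T.lev p.1.1 ≤ k := h
    have e : p.1.1 = q.1.1 := e
    refine Subtype.ext (Prod.ext e (Prod.ext ?_ ?_))
    · rw [p.2.1 (by omega), q.2.1 (by rw [← e]; omega)]
    · rw [p.2.2.1 (by omega), q.2.2.1 (by rw [← e]; omega)]
  surj p h := ⟨⟨(p, Set.univ, none), V_low (show T.lev p ≤ K + 1 by omega)⟩, rfl⟩
  φ i s := if i = 0 then φ0 s else φ1 s
  loc i n s t h p hp := by
    split_ifs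
    · exact φ0_loc h hp
    · exact φ1_loc h hp
  idk i s p h := by
    have h : T.lev p.1.1 < k := h
    split_ifs
    · refine (ap_eq s p ?_ ?_ _).symm
      · rw [p.2.1 (by omega)]; exact dif_neg (by omega)
      · rw [p.2.2.1 (by omega)]; exact first_low (by omega)
    · refine (ap_eq s p ?_ ?_ _).symm
      · rw [p.2.1 (by omega)]; exact if_pos (by omega)
      · rw [p.2.2.1 (by omega)]; exact first_low (by omega)
  lift i hi s x hc := by
    split_ifs at hc with h
    · subst h; exact lift0 s x hc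
    · obtain rfl : i = 1 := by omega
      exact lift1 s x hc

variable {T : Tr} {O : Set T.Play} {K : ℕ} {hK : K % 2 = 0}

lemma UT_const (y : (UT T O hK).Play) (n : ℕ) (hn : K + 2 ≤ n) :
    (y.1 n).1.2.2 = (y.1 (K + 2)).1.2.2 := by
  induction n, hn using Nat.le_induction with
  | base => rfl
  | succ n hn ih =>
    rw [(UT_ch (y.ch n)).2.2 (by have : T.lev (y.1 n).1.1 = n := y.2.1 n; omega), ih]

lemma unravel_mem (hO : T.IsO O) {k : ℕ} (hk : k ≤ K) (y : (UT T O hK).Play) :
    (unravel T O hK hk).map y ∈ O ↔ (y.1 (K + 2)).1.2.2 ≠ none := by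
  set x := (unravel T O hK hk).map y
  have hx : ∀ n, (y.1 n).1.1 = x.1 n := fun n => rfl
  constructor
  · intro h e
    obtain ⟨n, hn, hD⟩ := hO.ex h (K + 2)
    have := ((y.1 n).2.2.2.2 (by rw [hx, x.2.1]; exact hn)).2 (by rw [UT_const y n hn, e]) n hn
      (by rw [hx, x.2.1])
    rw [hx, x.anc le_rfl] at this
    exact this.2 (att_base hD)
  · intro h
    obtain ⟨u, hu⟩ := Option.ne_none_iff_exists'.1 h
    obtain ⟨_, _, u3, _⟩ := ((y.1 (K + 2)).2.2.2.2 (by rw [hx, x.2.1])).1 u hu
    obtain ⟨u1, _, _, u4⟩ := ((y.1 (T.lev u)).2.2.2.2 (by rw [hx, x.2.1]; exact u3)).1 u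
      (by rw [UT_const y _ u3, hu])
    have := u4 (T.lev u) (by rw [hx, x.2.1]) le_rfl
    rw [hx, x.anc le_rfl, anc_self] at this
    exact mem_DD (n := T.lev u) (by rw [this]; exact u1)

def Unr (T : Tr) (X : Set T.Play) (k : ℕ) : Prop :=
  ∃ (T' : Tr) (C : Cov T' T k), T'.IsO (C.map ⁻¹' X) ∧ T'.IsO (C.map ⁻¹' X)ᶜ

theorem unr_open (hO : T.IsO O) (k : ℕ) : Unr T O k := by
  have hK : (2 * k) % 2 = 0 := by omega
  have hk : k ≤ 2 * k := by omega
  refine ⟨UT T O hK, unravel T O hK hk, fun x hx => ⟨2 * k + 2, fun y hy => ?_⟩,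
    fun x hx => ⟨2 * k + 2, fun y hy => ?_⟩⟩
  · rw [Set.mem_preimage, unravel_mem hO] at *
    rwa [hy]
  · rw [Set.mem_compl_iff, Set.mem_preimage, unravel_mem hO] at *
    rwa [hy]

end H11.BD
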