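import Pool.Agent.H11.BD3

/-! Borel determinacy, part 4: inverse limits and Martin's theorem. -/

namespace H11.BD
open Classical Tr

lemma thread (j : ℕ) : ∀ (P : ℕ → Type) (π : ∀ i, P (i + 1) → P i) (G : ∀ i, P i → Prop),
    (∀ i, j ≤ i → ∀ a, G i a → ∃ b, π i b = a ∧ G (i + 1) b) → ∀ a : P j, G j a →
    ∃ t : ∀ i, P i, (∀ i, π i (t (i + 1)) = t i) ∧ t j = a ∧ ∀ i, j ≤ i → G i (t i) := by
  induction j with
  | zero =>
    intro P π G h a ha
    choose f hf using fun i => h i (Nat.zero_le i)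
    let t : ∀ i, {a : P i // G i a} := fun i =>
      Nat.rec ⟨a, ha⟩ (fun i b => ⟨f i b.1 b.2, (hf i b.1 b.2).2⟩) i
    exact ⟨fun i => (t i).1, fun i => (hf i (t i).1 (t i).2).1, rfl, fun i _ => (t i).2⟩
  | succ j ih =>
    intro P π G h a ha
    obtain ⟨t, h1, h2, h3⟩ := ih (fun i => P (i + 1)) (fun i => π (i + 1)) (fun i => G (i + 1))
      (fun i hi => h (i + 1) (by omega)) a ha
    refine ⟨fun i => Nat.casesOn i (π 0 (t 0)) t, fun i => ?_, h2, fun i hi => ?_⟩
    · cases i with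
      | zero => rfl
      | succ i => exact h1 i
    · cases i with
      | zero => omega
      | succ i => exact h3 i (by omega)

section
variable {T : ℕ → Tr} {k : ℕ} (C : ∀ i, Cov (T (i + 1)) (T i) (k + i))

def LP : Type := {t : ∀ i, (T i).P // ∀ i, (C i).π (t (i + 1)) = t i}

variable {C}

lemma LP.lev (t : LP C) (i : ℕ) : (T i).lev (t.1 i) = (T 0).lev (t.1 0) := by
  induction i with
  | zero => rfl
  | succ i ih => rw [← ih, ← t.2 i, (C i).lev]

lemma LP.inj (j : ℕ) (p q : LP C) (h : (T 0).lev (p.1 0) ≤ k + j) (e : p.1 j = q.1 j) : p = q := by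
  apply Subtype.ext
  funext i
  rcases le_total i j with hij | hij
  · clear h
    induction j, hij using Nat.le_induction with
    | base => exact e
    | succ j _ ih => exact ih (by rw [← p.2 j, ← q.2 j, e])
  · induction i, hij using Nat.le_induction with
    | base => exact e
    | succ i hi ih =>
      exact (C i).inj _ _ (by rw [p.lev]; omega) (by rw [p.2, q.2, ih])

variable (C) in
lemma LP.surj (j : ℕ) (a : (T j).P) (h : (T j).lev a ≤ k + j) : ∃ t : LP C, t.1 j = a := by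
  obtain ⟨t, h1, h2, _⟩ := thread j (fun i => (T i).P) (fun i => (C i).π)
    (fun i a => (T i).lev a ≤ k + j) (fun i hi a ha => by
      obtain ⟨b, hb⟩ := (C i).surj a (by omega)
      exact ⟨b, hb, by rw [← (C i).lev, hb]; exact ha⟩) a h
  exact ⟨⟨t, h1⟩, h2⟩

variable (C) in
def LT : Tr where
  P := LP C
  lev t := (T 0).lev (t.1 0)
  par t := ⟨fun i => (T i).par (t.1 i), fun i => by rw [← (C i).par, t.2]⟩
  lev_par t := (T 0).lev_par _
  ext p := by
    obtain ⟨j, hj⟩ : ∃ j, j = (T 0).lev (p.1 0) + 1 := ⟨_, rfl⟩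
    obtain ⟨q, q1, q2⟩ := (T j).ext (p.1 j)
    rw [p.lev j] at q2
    obtain ⟨t, ht⟩ := LP.surj C _ q (by omega)
    have l := t.lev j
    rw [ht, q2] at l
    refine ⟨t, LP.inj j _ _ ?_ ?_, l.symm⟩
    · show (T 0).lev ((T 0).par (t.1 0)) ≤ _
      rw [(T 0).lev_par]; omega
    · show (T _).par (t.1 _) = _
      rw [ht, q1]

lemma LT_ch {q p : (LT C).P} (h : (LT C).Ch q p) (j : ℕ) : (T j).Ch (q.1 j) (p.1 j) :=
  ⟨congrArg (fun t : LP C => t.1 j) h.1, by rw [LP.lev q j, LP.lev p j]; exact h.2⟩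

noncomputable def tau (s : (LT C).Strat) (j : ℕ) : (T j).Strat :=
  ⟨fun a => if h : ∃ t : LP C, t.1 j = a then (s.1 h.choose).1 j else ((T j).ext a).choose,
    fun a => by
      dsimp only
      split_ifs with h
      · have := LT_ch (s.2 h.choose) j
        rwa [h.choose_spec] at this
      · exact ((T j).ext a).choose_spec⟩

lemma tau_low (s : (LT C).Strat) (j : ℕ) (t : LP C) (h : (T 0).lev (t.1 0) ≤ k + j) :
    (tau s j).1 (t.1 j) = (s.1 t).1 j := by
  have hh : ∃ t' : LP C, t'.1 j = t.1 j := ⟨t, rfl⟩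
  have : t = hh.choose := LP.inj j _ _ h hh.choose_spec.symm
  simp only [tau]
  rw [dif_pos hh, ← this]

noncomputable def iter (i : ℕ) (s : (LT C).Strat) : ℕ → ∀ j, (T j).Strat
  | 0 => tau s
  | m + 1 => fun j => (C j).φ i (iter i s m (j + 1))

lemma iter_stab (i : ℕ) (s : (LT C).Strat) (m : ℕ) : ∀ j a, (T j).lev a < k + j + m →
    (iter i s (m + 1) j).1 a = (iter i s m j).1 a := by
  induction m with
  | zero =>
    intro j a h
    obtain ⟨t, rfl⟩ := LP.surj C j a (by omega)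
    rw [t.lev] at h
    show ((C j).φ i (tau s (j + 1))).1 (t.1 j) = (tau s j).1 (t.1 j)
    rw [tau_low s j t (by omega), ← t.2 j, ← (C j).idk i _ _ (by rw [t.lev]; omega),
      tau_low s (j + 1) t (by omega), (s.1 t).2]
  | succ m ih =>
    intro j a h
    exact (C j).loc i (k + j + (m + 1)) _ _ (fun p hp => ih (j + 1) p (by omega)) a h

lemma iter_stab' (i : ℕ) (s : (LT C).Strat) {m m' : ℕ} (hm : m ≤ m') (j : ℕ) (a : (T j).P)
    (h : (T j).lev a < k + j + m) : (iter i s m' j).1 a = (iter i s m j).1 a := by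
  induction m', hm using Nat.le_induction with
  | base => rfl
  | succ m' hm ih => rw [iter_stab i s m' j a (by omega), ih]

noncomputable def sig (i : ℕ) (s : (LT C).Strat) (j : ℕ) : (T j).Strat :=
  ⟨fun a => (iter i s ((T j).lev a + 1) j).1 a, fun a => (iter i s _ j).2 a⟩

lemma sig_eq (i : ℕ) (s : (LT C).Strat) (j m : ℕ) (a : (T j).P) (h : (T j).lev a < k + j + m) :
    (sig i s j).1 a = (iter i s m j).1 a := by
  show (iter i s ((T j).lev a + 1) j).1 a = _
  rw [← iter_stab' i s (le_max_left _ m) j a (by omega), iter_stab' i s (le_max_right _ m) j a h]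

lemma sig_rec (i : ℕ) (s : (LT C).Strat) (j : ℕ) : sig i s j = (C j).φ i (sig i s (j + 1)) := by
  apply Subtype.ext
  funext a
  rw [sig_eq i s j ((T j).lev a + 1 + 1) a (by omega)]
  exact (C j).loc i ((T j).lev a + 1) _ _
    (fun p hp => (sig_eq i s (j + 1) _ p (by omega)).symm) a (by omega)

lemma sig_low (i : ℕ) (s : (LT C).Strat) (j : ℕ) (t : LP C) (h : (T 0).lev (t.1 0) < k + j) :
    (sig i s j).1 (t.1 j) = (s.1 t).1 j := by
  rw [sig_eq i s j 0 _ (by rw [t.lev]; omega)]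
  exact tau_low s j t h.le

lemma iter_loc (i n : ℕ) (s t : (LT C).Strat) (h : ∀ p, (LT C).lev p < n → s.1 p = t.1 p)
    (m : ℕ) : ∀ j a, (T j).lev a < n → (iter i s m j).1 a = (iter i t m j).1 a := by
  induction m with
  | zero =>
    intro j a ha
    simp only [iter, tau]
    split_ifs with hh
    · rw [h hh.choose (by
        show (T 0).lev (hh.choose.1 0) < n
        rw [← hh.choose.lev j, hh.choose_spec]; exact ha)]
    · rfl
  | succ m ih => exact fun j a ha => (C j).loc i n _ _ (ih (j + 1)) a ha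

variable (C) in
noncomputable def limCov : Cov (LT C) (T 0) k where
  π t := t.1 0
  lev _ := rfl
  par _ := rfl
  inj p q h e := LP.inj 0 p q h e
  surj p h := LP.surj C 0 p h
  φ i s := sig i s 0
  loc i n s t h p hp := iter_loc i n s t h _ 0 p hp
  idk i s p h := (sig_low i s 0 p h).symm
  lift i hi s x hc := by
    obtain ⟨t, h1, h2, h3⟩ := thread 0 (fun j => (T j).Play) (fun j => (C j).map)
      (fun j y => (T j).Cons i (sig i s j) y) (fun j _ a ha => by
        rw [sig_rec] at ha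
        obtain ⟨y, hy, e⟩ := (C j).lift i hi _ a ha
        exact ⟨y, Subtype.ext (funext e), hy⟩) x hc
    let y : ℕ → LP C := fun n => ⟨fun j => (t j).1 n, fun j => congrArg (fun z => z.1 n) (h1 j)⟩
    refine ⟨⟨y, fun n => (t 0).2.1 n, fun n => Subtype.ext (funext fun j => (t j).2.2 n)⟩,
      fun n hn => ?_, fun n => congrArg (fun z => z.1 n) h2⟩
    have l : ∀ n, (T 0).lev ((y n).1 0) = n := fun n => (t 0).2.1 n
    refine LP.inj (n + 1) (y (n + 1)) _ (by rw [l]; omega) ?_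
    rw [← sig_low i s (n + 1) (y n) (by rw [l]; omega)]
    exact h3 (n + 1) (Nat.zero_le _) n hn

def rho (j : ℕ) (y : (LT C).Play) : (T j).Play :=
  ⟨fun n => (y.1 n).1 j, fun n => by rw [LP.lev]; exact y.2.1 n,
    fun n => congrArg (fun t : LP C => t.1 j) (y.2.2 n)⟩

lemma rho_map (j : ℕ) (y : (LT C).Play) : (C j).map (rho (j + 1) y) = rho j y :=
  Subtype.ext (funext fun n => (y.1 n).2 j)

lemma rho_isO (j : ℕ) {O : Set (T j).Play} (h : (T j).IsO O) : (LT C).IsO (rho j ⁻¹' O) := by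
  intro x hx
  obtain ⟨n, hn⟩ := h _ hx
  exact ⟨n, fun y hy => hn _ (congrArg (fun t : LP C => t.1 j) hy)⟩

end

def Good {Y : Type} [TopologicalSpace Y] (X : Set Y) : Prop :=
  ∀ (T : Tr) (f : T.Play → Y), (∀ V, IsOpen V → T.IsO (f ⁻¹' V)) → ∀ k, Unr T (f ⁻¹' X) k

lemma good_union {Y : Type} [TopologicalSpace Y] (X : ℕ → Set Y) (h : ∀ n, Good (X n)) :
    Good (⋃ n, X n) := by
  intro T0 f0 hf0 k
  let St := Σ T : Tr, {f : T.Play → Y // ∀ V, IsOpen V → T.IsO (f ⁻¹' V)}
  have : ∀ (n : ℕ) (S : St), ∃ (T' : Tr) (C : Cov T' S.1 (k + n)),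
      T'.IsO (C.map ⁻¹' (S.2.1 ⁻¹' X n)) := by
    intro n S
    obtain ⟨T', C, h1, _⟩ := h n S.1 S.2.1 S.2.2 (k + n)
    exact ⟨T', C, h1⟩
  choose nT nC hC using this
  let S : ℕ → St := fun n => Nat.rec ⟨T0, f0, hf0⟩
    (fun n S => ⟨nT n S, S.2.1 ∘ (nC n S).map, fun V hV => (nC n S).isO (S.2.2 V hV)⟩) n
  let TT : ℕ → Tr := fun i => (S i).1
  let C : ∀ i, Cov (TT (i + 1)) (TT i) (k + i) := fun i => nC i (S i)
  have key : ∀ j (y : (LT C).Play), (S j).2.1 (rho j y) = (S 0).2.1 ((limCov C).map y) := by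
    intro j y
    induction j with
    | zero => rfl
    | succ j ih => rw [← ih, ← rho_map j y]; rfl
  have hO : (LT C).IsO ((limCov C).map ⁻¹' ((S 0).2.1 ⁻¹' ⋃ n, X n)) := by
    intro x hx
    obtain ⟨n, hn⟩ := Set.mem_iUnion.1 hx
    obtain ⟨m, hm⟩ := rho_isO (C := C) (n + 1) (hC n (S n)) x (by
      show (S n).2.1 ((C n).map (rho (n + 1) x)) ∈ X n
      rw [rho_map, key]; exact hn)
    refine ⟨m, fun y hy => Set.mem_iUnion.2 ⟨n, ?_⟩⟩
    have : (S n).2.1 ((C n).map (rho (n + 1) y)) ∈ X n := hm y hy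
    rwa [rho_map, key] at this
  obtain ⟨T', C', h1, h2⟩ := unr_open hO k
  exact ⟨T', C'.comp (limCov C), h1, h2⟩

lemma good_borel {Y : Type} [TopologicalSpace Y] [MeasurableSpace Y] [BorelSpace Y] {X : Set Y}
    (h : MeasurableSet X) : Good X := by
  rw [BorelSpace.measurable_eq (α := Y)] at h
  induction h with
  | basic V hV => exact fun T f hf k => unr_open (hf V hV) k
  | empty => exact fun T f hf k => unr_open (hf ∅ isOpen_empty) k
  | compl V _ ih =>
    intro T f hf k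
    obtain ⟨T', C, h1, h2⟩ := ih T f hf k
    exact ⟨T', C, h2, by rw [Set.preimage_compl, Set.preimage_compl, compl_compl]; exact h1⟩
  | iUnion X _ ih => exact good_union X ih

/-- Martin's theorem: Borel games are determined. -/
theorem borel_det {Y : Type} [TopologicalSpace Y] [MeasurableSpace Y] [BorelSpace Y] (T : Tr)
    (f : T.Play → Y) (hf : ∀ V, IsOpen V → T.IsO (f ⁻¹' V)) {X : Set Y} (h : MeasurableSet X) :
    T.Det (f ⁻¹' X) := by
  obtain ⟨T', C, h1, _⟩ := good_borel h T f hf 0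
  exact C.det (det_open h1)

end H11.BD
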