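import Pool.Agent.H11.BD4

/-! Borel determinacy for labelling games, in the form of causal maps. -/

namespace H11.BD
open Classical Tr

def listTr (M : Type) [Inhabited M] : Tr where
  P := List M
  lev := List.length
  par := List.tail
  lev_par _ := List.length_tail
  ext p := ⟨default :: p, rfl, rfl⟩

section
variable {M : Type} [Inhabited M]

def runS (i : ℕ) (s : (listTr M).Strat) (a : ℕ → M) : ℕ → List M
  | 0 => []
  | n + 1 => if n % 2 = i then s.1 (runS i s a n) else a n :: runS i s a n

def runP (i : ℕ) (s : (listTr M).Strat) (a : ℕ → M) : (listTr M).Play :=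
  ⟨runS i s a, fun n => by
      induction n with
      | zero => rfl
      | succ n ih =>
        simp only [runS]
        split_ifs
        · rw [(s.2 _).2, ih]
        · exact congrArg (· + 1) ih,
    fun n => by
      simp only [runS]
      split_ifs
      · exact (s.2 _).1
      · rfl⟩

lemma runP_cons (i : ℕ) (s : (listTr M).Strat) (a : ℕ → M) : (listTr M).Cons i s (runP i s a) :=
  fun _ hn => if_pos hn

lemma runS_congr (i : ℕ) (s : (listTr M).Strat) (a b : ℕ → M) (n : ℕ)
    (h : ∀ m, m < n → m % 2 ≠ i → a m = b m) : runS i s a n = runS i s b n := by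
  induction n with
  | zero => rfl
  | succ n ih =>
    have := ih (fun m hm => h m (by omega))
    simp only [runS, this]
    split_ifs with hn
    · rfl
    · rw [h n (by omega) hn]

end

theorem lab_det {I J L : Type} [Countable I] [Countable J] [Inhabited L] [TopologicalSpace L]
    [SecondCountableTopology L] [MeasurableSpace L] [BorelSpace L] (dI : I → ℕ) (dJ : J → ℕ)
    (X : Set ((I → L) × (J → L))) (hX : MeasurableSet X) :
    (∃ σ : (J → L) → (I → L), (∀ v v' i, (∀ j, dJ j < dI i → v j = v' j) → σ v i = σ v' i) ∧
      ∀ v, (σ v, v) ∈ X) ∨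
    (∃ τ : (I → L) → (J → L), (∀ u u' j, (∀ i, dI i ≤ dJ j → u i = u' i) → τ u j = τ u' j) ∧
      ∀ u, (u, τ u) ∉ X) := by
  let M := (I → L) × (J → L)
  let f : (listTr M).Play → M := fun x =>
    (fun i => ((x.1 (2 * dI i + 1)).headD default).1 i,
      fun j => ((x.1 (2 * dJ j + 2)).headD default).2 j)
  have hf : ∀ V, IsOpen V → (listTr M).IsO (f ⁻¹' V) := by
    intro V hV x hx
    obtain ⟨A, B, hA, hB, a, b, hAB⟩ := isOpen_prod_iff.1 hV (f x).1 (f x).2 hx
    obtain ⟨s, u, hu, hs⟩ := isOpen_pi_iff.1 hA _ a
    obtain ⟨t, w, hw, ht⟩ := isOpen_pi_iff.1 hB _ b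
    refine ⟨2 * (s.sup dI + t.sup dJ) + 2, fun y hy => hAB ⟨hs fun i hi => ?_, ht fun j hj => ?_⟩⟩
    · have : dI i ≤ s.sup dI := Finset.le_sup hi
      have e : (f y).1 i = (f x).1 i := by
        simp only [f]; rw [Play.eq_le (by omega) hy]
      rw [e]; exact (hu i hi).2
    · have : dJ j ≤ t.sup dJ := Finset.le_sup hj
      have e : (f y).2 j = (f x).2 j := by
        simp only [f]; rw [Play.eq_le (by omega) hy]
      rw [e]; exact (hw j hj).2
  rcases borel_det (listTr M) f hf hX [] rfl with ⟨s, hs⟩ | ⟨s, hs⟩
  · left
    let a : (J → L) → ℕ → M := fun v n => (default, fun j => if 2 * dJ j + 1 = n then v j else default)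
    refine ⟨fun v => (f (runP 0 s (a v))).1, fun v v' i h => ?_, fun v => ?_⟩
    · show ((runS 0 s (a v) (2 * dI i + 1)).headD default).1 i =
        ((runS 0 s (a v') (2 * dI i + 1)).headD default).1 i
      rw [runS_congr 0 s (a v) (a v') _ (fun m hm hp => ?_)]
      simp only [a]
      congr 1
      funext j
      split_ifs with e
      · exact h j (by omega)
      · rfl
    · have := hs (runP 0 s (a v)) rfl (runP_cons 0 s _)
      have e : (f (runP 0 s (a v))).2 = v := by
        funext j
        show ((runS 0 s (a v) (2 * dJ j + 1 + 1)).headD default).2 j = v j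
        rw [runS, if_neg (by omega)]
        simp [a]
      rw [Set.mem_preimage, ← Prod.mk.eta (p := f (runP 0 s (a v))), e] at this
      exact this
  · right
    let a : (I → L) → ℕ → M := fun u n => (fun i => if 2 * dI i = n then u i else default, default)
    refine ⟨fun u => (f (runP 1 s (a u))).2, fun u u' j h => ?_, fun u => ?_⟩
    · show ((runS 1 s (a u) (2 * dJ j + 2)).headD default).2 j =
        ((runS 1 s (a u') (2 * dJ j + 2)).headD default).2 j
      rw [runS_congr 1 s (a u) (a u') _ (fun m hm hp => ?_)]
      simp only [a]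
      congr 1
      funext i
      split_ifs with e
      · exact h i (by omega)
      · rfl
    · have := hs (runP 1 s (a u)) rfl (runP_cons 1 s _)
      have e : (f (runP 1 s (a u))).1 = u := by
        funext i
        show ((runS 1 s (a u) (2 * dI i + 1)).headD default).1 i = u i
        rw [runS, if_neg (by omega)]
        simp [a]
      rw [Set.mem_preimage, ← Prod.mk.eta (p := f (runP 1 s (a u))), e] at this
      exact this

/-- a strictly causal operator has a fixed point -/
theorem causal_fix {I L : Type} [Inhabited L] (d : I → ℕ) (Φ : (I → L) → (I → L))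
    (h : ∀ u u' i, (∀ j, d j < d i → u j = u' j) → Φ u i = Φ u' i) : ∃ u, Φ u = u := by
  have stab : ∀ n i, d i < n → ∀ m, n ≤ m → Φ^[m] default i = Φ^[n] default i := by
    intro n
    induction n with
    | zero => intro i hi; omega
    | succ n ih =>
      intro i hi m hm
      obtain ⟨m, rfl⟩ : ∃ m', m = m' + 1 := ⟨m - 1, by omega⟩
      rw [Function.iterate_succ_apply', Function.iterate_succ_apply']
      exact h _ _ i fun j hj => ih j (by omega) m (by omega)
  refine ⟨fun i => Φ^[d i + 1] default i, funext fun i => ?_⟩
  rw [Function.iterate_succ_apply']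
  exact h _ _ i fun j hj => (stab (d j + 1) j (by omega) (d i) (by omega)).symm

end H11.BD
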