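import Mathlib

namespace H11.BT
open Finset

lemma sq_sum {X : Type*} [Fintype X] (g : X → ℝ) (h0 : ∑ x, g x = 0) (h1 : ∀ x, |g x| ≤ 1)
    (m : ℕ) : ∑ s : Fin m → X, (∑ i, g (s i))^2 ≤ m * (Fintype.card X : ℝ)^m := by
  induction m with
  | zero => simp
  | succ m ih =>
    rw [← (Fin.consEquiv (fun _ : Fin (m+1) => X)).sum_comp, Fintype.sum_prod_type]
    simp only [Fin.consEquiv_apply, Fin.sum_univ_succ, Fin.cons_zero, Fin.cons_succ]
    have e : ∀ x, ∑ s : Fin m → X, (g x + ∑ i, g (s i))^2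
        = (Fintype.card X : ℝ)^m * (g x)^2 + g x * (2 * ∑ s : Fin m → X, ∑ i, g (s i))
          + ∑ s : Fin m → X, (∑ i, g (s i))^2 := by
      intro x
      have : ∀ s : Fin m → X, (g x + ∑ i, g (s i))^2
          = (g x)^2 + g x * (2 * ∑ i, g (s i)) + (∑ i, g (s i))^2 := by intro s; ring
      simp only [this, sum_add_distrib, sum_const, card_univ, Fintype.card_fun, Fintype.card_fin,
        nsmul_eq_mul, ← mul_sum]
      push_cast; ring
    simp only [e, sum_add_distrib, ← sum_mul, h0, zero_mul, add_zero, sum_const, card_univ,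
      nsmul_eq_mul, ← mul_sum]
    have h2 : ∑ x, (g x)^2 ≤ (Fintype.card X : ℝ) := by
      calc ∑ x, (g x)^2 ≤ ∑ _x : X, (1:ℝ) := sum_le_sum fun x _ => by
            have := h1 x; rw [← sq_abs]; nlinarith [abs_nonneg (g x)]
        _ = _ := by simp
    have hN : (0:ℝ) ≤ Fintype.card X := Nat.cast_nonneg _
    have hp : (0:ℝ) ≤ (Fintype.card X : ℝ)^m := pow_nonneg hN m
    push_cast
    rw [pow_succ]
    nlinarith [mul_le_mul_of_nonneg_left h2 hp, mul_le_mul_of_nonneg_left ih hN]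

lemma dev {X : Type*} [Fintype X] [Nonempty X] (f : X → ℝ) (h0 : ∀ x, 0 ≤ f x) (h1 : ∀ x, f x ≤ 1)
    (M : ℕ) (hM : 0 < M) :
    ∑ s : Fin (M*M) → X, |∑ i, f (s i) - (M*M : ℕ) * ((∑ x, f x) / Fintype.card X)|
      ≤ M * (Fintype.card X : ℝ)^(M*M) := by
  have hN : (0:ℝ) < Fintype.card X := by exact_mod_cast Fintype.card_pos
  set a : ℝ := (∑ x, f x) / Fintype.card X with ha
  have ha0 : 0 ≤ a := div_nonneg (sum_nonneg fun x _ => h0 x) hN.le
  have ha1 : a ≤ 1 := by
    rw [ha, div_le_one hN]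
    calc ∑ x, f x ≤ ∑ _x : X, (1:ℝ) := sum_le_sum fun x _ => h1 x
      _ = _ := by simp
  have hs := sq_sum (fun x => f x - a) (by
      rw [sum_sub_distrib]; simp only [sum_const, card_univ, nsmul_eq_mul]
      rw [ha]; field_simp; ring)
    (fun x => by rw [abs_le]; constructor <;> linarith [h0 x, h1 x]) (M*M)
  have hMr : (0:ℝ) < M := by exact_mod_cast hM
  have key : ∀ s : Fin (M*M) → X, |∑ i, f (s i) - (M*M : ℕ) * a|
      ≤ (∑ i, (f (s i) - a))^2 / (2*M) + M/2 := by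
    intro s
    have e : ∑ i, (f (s i) - a) = ∑ i, f (s i) - (M*M : ℕ) * a := by
      rw [sum_sub_distrib]; simp
    rw [e]
    set y := ∑ i, f (s i) - (M*M : ℕ) * a
    rw [← sq_abs y]
    have : |y|^2 / (2*M) + M/2 - |y| = (|y| - M)^2/(2*M) := by field_simp; ring
    have h3 : 0 ≤ (|y| - M)^2/(2*M) := by positivity
    linarith
  calc _ ≤ ∑ s : Fin (M*M) → X, ((∑ i, (f (s i) - a))^2 / (2*M) + M/2) := sum_le_sum fun s _ => key s
    _ = (∑ s : Fin (M*M) → X, (∑ i, (f (s i) - a))^2) / (2*M)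
          + (Fintype.card X : ℝ)^(M*M) * (M/2) := by
        rw [sum_add_distrib, ← sum_div]; simp
    _ ≤ ((M*M : ℕ) * (Fintype.card X : ℝ)^(M*M)) / (2*M) + (Fintype.card X : ℝ)^(M*M) * (M/2) := by
        gcongr
    _ = _ := by push_cast; field_simp; ring

noncomputable def argmin {Λ : Type*} [Fintype Λ] [Nonempty Λ] (F : Λ → ℝ) : Λ :=
  Classical.choose (Finite.exists_min F)

lemma argmin_le {Λ : Type*} [Fintype Λ] [Nonempty Λ] (F : Λ → ℝ) (l : Λ) : F (argmin F) ≤ F l :=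
  Classical.choose_spec (Finite.exists_min F) l

section
variable {V Λ : Type*} [Fintype V] [DecidableEq V] [Nonempty V] [Fintype Λ] [Nonempty Λ]

/-- total cost of a labelling -/
def Cst (c : V → V → Λ → Λ → ℝ) (t : V → Λ) : ℝ := ∑ v, ∑ w, c v w (t v) (t w)

/-- best response to a labelled sample -/
noncomputable def br (c : V → V → Λ → Λ → ℝ) {m : ℕ} (v : V) (s : Fin m → V) (π : Fin m → Λ) : Λ :=
  argmin fun l => ∑ i, c v (s i) l (π i)

structure Good (c : V → V → Λ → Λ → ℝ) : Prop where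
  nn : ∀ v w l l', 0 ≤ c v w l l'
  le : ∀ v w l l', c v w l l' ≤ 1
  sy : ∀ v w l l', c v w l l' = c w v l' l

omit [Nonempty V] [Fintype Λ] [Nonempty Λ] in
lemma change {c : V → V → Λ → Λ → ℝ} (hc : Good c) (H H' : V → Λ) (W : Finset V)
    (hW : ∀ v, v ∉ W → H' v = H v) :
    Cst c H' ≤ Cst c H + 2 * ∑ v ∈ W, (∑ w, c v w (H' v) (H w) - ∑ w, c v w (H v) (H w))
      + 3 * (W.card : ℝ)^2 := by
  set E : V → V → ℝ := fun v w => c v w (H' v) (H w) - c v w (H v) (H w) with hE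
  have pt : ∀ v w, c v w (H' v) (H' w) ≤ c v w (H v) (H w) + (E v w + E w v)
      + 3 * ((if v ∈ W then (1:ℝ) else 0) * (if w ∈ W then (1:ℝ) else 0)) := by
    intro v w
    by_cases hv : v ∈ W <;> by_cases hw : w ∈ W
    · simp only [hE, hv, hw, if_true]
      linarith [hc.nn v w (H v) (H w), hc.le v w (H' v) (H' w), hc.nn v w (H' v) (H w),
        hc.le v w (H v) (H w), hc.nn w v (H' w) (H v), hc.le w v (H w) (H v)]
    · simp only [hE, hv, hw, if_true, if_false, hW w hw]; linarith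
    · simp only [hE, hv, hw, if_true, if_false, hW v hv]
      rw [hc.sy w v (H' w) (H v), hc.sy w v (H w) (H v)]; linarith
    · simp only [hE, hv, hw, if_false, hW v hv, hW w hw]; linarith
  have s1 : ∑ v, ∑ w, E v w = ∑ v ∈ W, (∑ w, c v w (H' v) (H w) - ∑ w, c v w (H v) (H w)) := by
    rw [← sum_subset (subset_univ W)]
    · refine sum_congr rfl fun v _ => ?_
      simp only [hE, sum_sub_distrib]
    · intro v _ hv
      simp only [hE, hW v hv, sub_self, sum_const_zero]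
  have s2 : ∑ v, ∑ w, E w v = ∑ v, ∑ w, E v w := sum_comm
  have s3 : ∑ v : V, ∑ w : V, ((if v ∈ W then (1:ℝ) else 0) * (if w ∈ W then (1:ℝ) else 0))
      = (W.card : ℝ)^2 := by
    rw [← sum_mul_sum]
    simp [sq]
  calc Cst c H' ≤ ∑ v, ∑ w, (c v w (H v) (H w) + (E v w + E w v)
      + 3 * ((if v ∈ W then (1:ℝ) else 0) * (if w ∈ W then (1:ℝ) else 0))) :=
        sum_le_sum fun v _ => sum_le_sum fun w _ => pt v w
    _ = Cst c H + (∑ v, ∑ w, E v w + ∑ v, ∑ w, E w v) + 3 * ∑ v : V, ∑ w : V,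
        ((if v ∈ W then (1:ℝ) else 0) * (if w ∈ W then (1:ℝ) else 0)) := by
        simp only [sum_add_distrib, ← mul_sum, Cst]
    _ = _ := by rw [s2, s1, s3]; ring

lemma round {c : V → V → Λ → Λ → ℝ} (hc : Good c) (H : V → Λ) (W : Finset V) (M : ℕ) (hM : 0 < M) :
    ∑ s : Fin (M*M) → V, Cst c (fun v => if v ∈ W then br c v s (H ∘ s) else H v)
      ≤ (Fintype.card V : ℝ)^(M*M) * (Cst c H
        + (4 * Fintype.card Λ * W.card * Fintype.card V / M + 3 * (W.card : ℝ)^2)) := by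
  have hN : (0:ℝ) < Fintype.card V := by exact_mod_cast Fintype.card_pos
  have hMr : (0:ℝ) < M := by exact_mod_cast hM
  set N : ℝ := (Fintype.card V : ℝ) with hNdef
  set e : (Fin (M*M) → V) → V → Λ → ℝ := fun s v l =>
    |∑ i, c v (s i) l (H (s i)) - (M*M : ℕ) * ((∑ x, c v x l (H x)) / N)| with he
  have he0 : ∀ s v l, 0 ≤ e s v l := fun s v l => abs_nonneg _
  have hsum : ∀ v l, ∑ s, e s v l ≤ M * N^(M*M) := fun v l =>
    dev (fun x => c v x l (H x)) (fun x => hc.nn _ _ _ _) (fun x => hc.le _ _ _ _) M hM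
  have pt : ∀ s : Fin (M*M) → V, Cst c (fun v => if v ∈ W then br c v s (H ∘ s) else H v)
      ≤ Cst c H + 4 * (N / (M*M)) * ∑ v ∈ W, ∑ l, e s v l + 3 * (W.card : ℝ)^2 := by
    intro s
    refine (change hc H _ W (fun v hv => by simp [hv])).trans ?_
    have : ∑ v ∈ W, (∑ w, c v w (if v ∈ W then br c v s (H ∘ s) else H v) (H w)
        - ∑ w, c v w (H v) (H w)) ≤ ∑ v ∈ W, 2 * (N / (M*M)) * ∑ l, e s v l := by
      refine sum_le_sum fun v hv => ?_
      rw [if_pos hv]
      set l1 := br c v s (H ∘ s) with hl1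
      have hmin : ∑ i, c v (s i) l1 (H (s i)) ≤ ∑ i, c v (s i) (H v) (H (s i)) :=
        argmin_le (fun l => ∑ i, c v (s i) l ((H ∘ s) i)) (H v)
      have b1 : e s v l1 ≤ ∑ l, e s v l := single_le_sum (fun l _ => he0 s v l) (mem_univ _)
      have b2 : e s v (H v) ≤ ∑ l, e s v l := single_le_sum (fun l _ => he0 s v l) (mem_univ _)
      have a1 := neg_abs_le (∑ i, c v (s i) l1 (H (s i)) - (M*M : ℕ) * ((∑ x, c v x l1 (H x)) / N))
      have a2 := le_abs_self (∑ i, c v (s i) (H v) (H (s i))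
        - (M*M : ℕ) * ((∑ x, c v x (H v) (H x)) / N))
      change -e s v l1 ≤ _ at a1
      change _ ≤ e s v (H v) at a2
      have hq : (0:ℝ) < N / (M*M) := by positivity
      have k : ((M*M : ℕ) : ℝ) * ((∑ x, c v x l1 (H x)) / N)
          - (M*M : ℕ) * ((∑ x, c v x (H v) (H x)) / N) ≤ 2 * ∑ l, e s v l := by linarith
      have k2 := mul_le_mul_of_nonneg_left k hq.le
      have k3 : N / (M*M) * (((M*M : ℕ) : ℝ) * ((∑ x, c v x l1 (H x)) / N)
          - (M*M : ℕ) * ((∑ x, c v x (H v) (H x)) / N))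
          = ∑ x, c v x l1 (H x) - ∑ x, c v x (H v) (H x) := by
        push_cast; field_simp
      rw [k3] at k2; linarith
    rw [← mul_sum] at this
    linarith
  calc _ ≤ ∑ s : Fin (M*M) → V, (Cst c H + 4 * (N / (M*M)) * ∑ v ∈ W, ∑ l, e s v l
        + 3 * (W.card : ℝ)^2) := sum_le_sum fun s _ => pt s
    _ = N^(M*M) * Cst c H + 4 * (N / (M*M)) * ∑ v ∈ W, ∑ l, ∑ s, e s v l
        + N^(M*M) * (3 * (W.card : ℝ)^2) := by
        rw [sum_add_distrib, sum_add_distrib, ← mul_sum, sum_comm]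
        simp only [sum_const, card_univ, Fintype.card_fun, Fintype.card_fin, nsmul_eq_mul]
        congr 2
        · push_cast; rfl
        · congr 1
          refine sum_congr rfl fun v _ => sum_comm
        · push_cast; rfl
    _ ≤ N^(M*M) * Cst c H + 4 * (N / (M*M)) * ∑ v ∈ W, ∑ l : Λ, (M * N^(M*M))
        + N^(M*M) * (3 * (W.card : ℝ)^2) := by
        gcongr with v _ l _
        exact hsum v l
    _ = _ := by
        simp only [sum_const, card_univ, nsmul_eq_mul]
        field_simp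
        ring

/-- hybrid labelling after `k` rounds -/
noncomputable def hyb (c : V → V → Λ → Λ → ℝ) (j : V → ℕ) (t : V → Λ) {m : ℕ} (k : ℕ)
    (S : Fin k → Fin m → V) (π : Fin k → Fin m → Λ) (v : V) : Λ :=
  if h : j v < k then br c v (S ⟨j v, h⟩) (π ⟨j v, h⟩) else t v

lemma rounds {c : V → V → Λ → Λ → ℝ} (hc : Good c) (j : V → ℕ) (t : V → Λ) (B : ℝ)
    (hB : ∀ k, ((univ.filter fun v => j v = k).card : ℝ) ≤ B) (M : ℕ) (hM : 0 < M) (k : ℕ) :
    ∃ P : (Fin k → Fin (M*M) → V) → (Fin k → Fin (M*M) → Λ),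
      ∑ S, Cst c (hyb c j t k S (P S)) ≤ ((Fintype.card V : ℝ)^(M*M))^k * (Cst c t
        + k * (4 * Fintype.card Λ * B * Fintype.card V / M + 3 * B^2)) := by
  induction k with
  | zero =>
    refine ⟨fun _ => Fin.elim0, ?_⟩
    have : ∀ S : Fin 0 → Fin (M*M) → V, hyb c j t 0 S Fin.elim0 = t := by
      intro S; funext v; simp [hyb]
    simp [this]
  | succ k ih =>
    obtain ⟨P, hP⟩ := ih
    refine ⟨fun S => Fin.snoc (α := fun _ => Fin (M*M) → Λ) (P (Fin.init S))
      (hyb c j t k (Fin.init S) (P (Fin.init S)) ∘ S (Fin.last k)), ?_⟩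
    rw [← (Fin.snocEquiv (fun _ : Fin (k+1) => Fin (M*M) → V)).sum_comp, Fintype.sum_prod_type,
      sum_comm]
    have hsn : ∀ (S : Fin k → Fin (M*M) → V) (s : Fin (M*M) → V),
        (Fin.snocEquiv fun _ : Fin (k+1) => Fin (M * M) → V) (s, S)
          = Fin.snoc (α := fun _ => Fin (M*M) → V) S s := fun _ _ => rfl
    simp only [hsn, Fin.init_snoc, Fin.snoc_last]
    have hN : (0:ℝ) < Fintype.card V := by exact_mod_cast Fintype.card_pos
    have hMr : (0:ℝ) < M := by exact_mod_cast hM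
    set W := univ.filter fun v => j v = k with hWdef
    have e : ∀ (S : Fin k → Fin (M*M) → V) (s : Fin (M*M) → V),
        hyb c j t (k+1) (Fin.snoc (α := fun _ => Fin (M*M) → V) S s)
          (Fin.snoc (α := fun _ => Fin (M*M) → Λ) (P S) (hyb c j t k S (P S) ∘ s))
        = fun v => if v ∈ W then br c v s (hyb c j t k S (P S) ∘ s) else hyb c j t k S (P S) v := by
      intro S s; funext v
      by_cases h1 : j v = k
      · have hv : v ∈ W := by simp [hWdef, h1]
        rw [if_pos hv]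
        have h2 : j v < k + 1 := by omega
        have h3 : (⟨j v, h2⟩ : Fin (k+1)) = Fin.last k := Fin.ext h1
        rw [hyb, dif_pos h2, h3, Fin.snoc_last, Fin.snoc_last]
      · have hv : v ∉ W := by simp [hWdef, h1]
        rw [if_neg hv]
        by_cases h2 : j v < k
        · have h3 : j v < k + 1 := by omega
          have h4 : (⟨j v, h3⟩ : Fin (k+1)) = Fin.castSucc ⟨j v, h2⟩ := rfl
          rw [hyb, dif_pos h3, h4, Fin.snoc_castSucc, Fin.snoc_castSucc, hyb, dif_pos h2]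
        · have h3 : ¬ j v < k + 1 := by omega
          rw [hyb, dif_neg h3, hyb, dif_neg h2]
    have hB0 : (0:ℝ) ≤ W.card := Nat.cast_nonneg _
    have hBk : (W.card : ℝ) ≤ B := hB k
    set Δ : ℝ := 4 * Fintype.card Λ * B * Fintype.card V / M + 3 * B^2 with hΔ
    have hp : (0:ℝ) ≤ (Fintype.card V : ℝ)^(M*M) := by positivity
    calc _ ≤ ∑ S : Fin k → Fin (M*M) → V, (Fintype.card V : ℝ)^(M*M)
          * (Cst c (hyb c j t k S (P S)) + Δ) := by
          refine sum_le_sum fun S _ => ?_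
          have := round hc (hyb c j t k S (P S)) W M hM
          refine le_trans (le_of_eq ?_) (this.trans ?_)
          · refine sum_congr rfl fun s _ => ?_
            exact congrArg (Cst c) (e S s)
          · refine mul_le_mul_of_nonneg_left ?_ hp
            have hL : (0:ℝ) ≤ Fintype.card Λ := Nat.cast_nonneg _
            have q1 : 4 * (Fintype.card Λ : ℝ) * W.card * Fintype.card V / M
                ≤ 4 * Fintype.card Λ * B * Fintype.card V / M := by gcongr
            have q2 : (W.card : ℝ)^2 ≤ B^2 := by gcongr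
            rw [hΔ]; linarith
      _ = (Fintype.card V : ℝ)^(M*M) * (∑ S : Fin k → Fin (M*M) → V, Cst c (hyb c j t k S (P S))
          + ((Fintype.card V : ℝ)^(M*M))^k * Δ) := by
          rw [← mul_sum, sum_add_distrib]
          simp
      _ ≤ (Fintype.card V : ℝ)^(M*M) * (((Fintype.card V : ℝ)^(M*M))^k * (Cst c t + k * Δ)
          + ((Fintype.card V : ℝ)^(M*M))^k * Δ) := by gcongr
      _ = _ := by push_cast; ring

end

lemma markov {Ω : Type*} [Fintype Ω] (f : Ω → ℝ) (h0 : ∀ ω, 0 ≤ f ω) (a : ℝ) (ha : 0 < a)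
    (hs : ∑ ω, f ω ≤ Fintype.card Ω * a) [DecidablePred fun ω => 6 * a < f ω] :
    6 * ((univ.filter fun ω => 6 * a < f ω).card : ℝ) ≤ Fintype.card Ω := by
  have h1 : ((univ.filter fun ω => 6 * a < f ω).card : ℝ) * (6 * a)
      ≤ ∑ ω ∈ univ.filter (fun ω => 6 * a < f ω), f ω := by
    rw [← nsmul_eq_mul]
    exact card_nsmul_le_sum _ _ _ fun ω hω => (mem_filter.1 hω).2.le
  have h2 : ∑ ω ∈ univ.filter (fun ω => 6 * a < f ω), f ω ≤ ∑ ω, f ω :=
    sum_le_sum_of_subset_of_nonneg (filter_subset _ _) fun ω _ _ => h0 ω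
  nlinarith

end H11.BT
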