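import Pool.Agent.H11.BT1

namespace H11.BT
open Finset

section
variable {V Λ : Type*} [Fintype V] [DecidableEq V] [Nonempty V] [Fintype Λ] [Nonempty Λ]

/-- acceptance condition of the abstract tester -/
def acc (c : V → V → Λ → Λ → ℝ) (j : V → ℕ) (t0 : V → Λ) (r m m' : ℕ) (θ : ℝ)
    (ω : (Fin r → Fin m → V) × (Fin m' → V × V)) : Prop :=
  ∃ π : Fin r → Fin m → Λ, ∑ i, c (ω.2 i).1 (ω.2 i).2 (hyb c j t0 r ω.1 π (ω.2 i).1)
    (hyb c j t0 r ω.1 π (ω.2 i).2) ≤ θ

omit [Fintype V] [DecidableEq V] [Nonempty V] in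
lemma hyb_indep (c : V → V → Λ → Λ → ℝ) (j : V → ℕ) (t t0 : V → Λ) {m r : ℕ} (hj : ∀ v, j v < r)
    (S : Fin r → Fin m → V) (π : Fin r → Fin m → Λ) : hyb c j t r S π = hyb c j t0 r S π := by
  funext v; simp [hyb, hj v]

open Classical in
lemma tester {c : V → V → Λ → Λ → ℝ} (hc : Good c) (j : V → ℕ) (t0 : V → Λ) (B : ℝ)
    (hB : ∀ k, ((univ.filter fun v => j v = k).card : ℝ) ≤ B) (r M M' : ℕ) (hM : 0 < M)
    (hM' : 0 < M') (hj : ∀ v, j v < r) (η : ℝ) (hη : 0 < η)
    (h1 : r * (4 * Fintype.card Λ * B * Fintype.card V / M + 3 * B^2)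
      ≤ 2 * η * (Fintype.card V : ℝ)^2)
    (h2 : 6 * (Fintype.card (Fin r → Fin (M*M) → Λ) : ℝ) ≤ η * M') :
    (∀ t, Cst c t ≤ η * (Fintype.card V : ℝ)^2 →
      2 * (Fintype.card ((Fin r → Fin (M*M) → V) × (Fin (M'*M') → V × V)) : ℝ)
        ≤ 3 * ((univ.filter (acc c j t0 r (M*M) (M'*M') (19 * η * (M'*M')))).card : ℝ)) ∧
    ((∀ t, 21 * η * (Fintype.card V : ℝ)^2 ≤ Cst c t) →
      3 * ((univ.filter (acc c j t0 r (M*M) (M'*M') (19 * η * (M'*M')))).card : ℝ)
        ≤ Fintype.card ((Fin r → Fin (M*M) → V) × (Fin (M'*M') → V × V))) := by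
  have hN : (0:ℝ) < Fintype.card V := by exact_mod_cast Fintype.card_pos
  have hMr : (0:ℝ) < M' := by exact_mod_cast hM'
  set N : ℝ := (Fintype.card V : ℝ) with hNdef
  set g : (Fin r → Fin (M*M) → V) → (Fin r → Fin (M*M) → Λ) → V × V → ℝ := fun S π x =>
    c x.1 x.2 (hyb c j t0 r S π x.1) (hyb c j t0 r S π x.2) with hg
  have hgs : ∀ S π, (∑ x, g S π x) / Fintype.card (V × V) = Cst c (hyb c j t0 r S π) / N^2 := by
    intro S π
    rw [Fintype.sum_prod_type, Fintype.card_prod]; push_cast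
    rw [← hNdef, ← sq]; rfl
  set e : (Fin r → Fin (M*M) → V) × (Fin (M'*M') → V × V) → (Fin r → Fin (M*M) → Λ) → ℝ :=
    fun ω π => |∑ i, g ω.1 π (ω.2 i) - (M'*M' : ℕ) * (Cst c (hyb c j t0 r ω.1 π) / N^2)| with he
  set K : ℝ := (Fintype.card (Fin r → Fin (M*M) → Λ) : ℝ) with hK
  have hK0 : 0 < K := by rw [hK]; exact_mod_cast Fintype.card_pos
  have m2 := markov (fun ω => ∑ π, e ω π) (fun ω => sum_nonneg fun π _ => abs_nonneg _) (K * M')
    (by positivity) (by
      rw [Fintype.sum_prod_type]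
      calc _ ≤ ∑ _S : Fin r → Fin (M*M) → V, ∑ _π : Fin r → Fin (M*M) → Λ,
            (M' * (Fintype.card (V × V) : ℝ)^(M'*M')) := by
            refine sum_le_sum fun S _ => ?_
            rw [sum_comm]
            refine sum_le_sum fun π _ => ?_
            have := dev (g S π) (fun x => hc.nn _ _ _ _) (fun x => hc.le _ _ _ _) M' hM'
            rw [hgs] at this
            exact this
        _ = _ := by
            rw [Fintype.card_prod (Fin r → Fin (M*M) → V),
              Fintype.card_fun (α := Fin (M'*M')) (β := V × V), Fintype.card_fin]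
            simp only [sum_const, card_univ, nsmul_eq_mul]
            push_cast; rw [← hK]; ring)
  have good : ∀ ω π, ¬ (6 * (K * M') < ∑ π, e ω π) → e ω π ≤ η * (M'*M') := by
    intro ω π h
    have a1 : e ω π ≤ ∑ π, e ω π :=
      single_le_sum (f := fun π => e ω π) (fun π _ => abs_nonneg _) (mem_univ _)
    have a2 := mul_le_mul_of_nonneg_right h2 hMr.le
    push Not at h
    nlinarith
  have hN2 : 0 < N^2 := by positivity
  constructor
  · intro t ht
    obtain ⟨P, hP⟩ := rounds hc j t B hB M hM r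
    have m1 := markov (fun ω : (Fin r → Fin (M*M) → V) × (Fin (M'*M') → V × V) =>
        Cst c (hyb c j t0 r ω.1 (P ω.1)))
      (fun ω => sum_nonneg fun v _ => sum_nonneg fun w _ => hc.nn _ _ _ _) (3 * η * N^2)
      (by positivity) (by
        rw [Fintype.sum_prod_type, sum_comm]
        calc _ ≤ ∑ _T : Fin (M'*M') → V × V, (N^(M*M))^r * (3 * η * N^2) := by
              refine sum_le_sum fun T _ => ?_
              simp only [← hyb_indep c j t t0 hj]
              refine hP.trans (mul_le_mul_of_nonneg_left ?_ (by positivity))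
              linarith
          _ = _ := by
              rw [Fintype.card_prod (Fin r → Fin (M*M) → V),
                Fintype.card_fun (α := Fin r) (β := Fin (M*M) → V),
                Fintype.card_fun (α := Fin (M*M)) (β := V), Fintype.card_fin, Fintype.card_fin]
              simp only [sum_const, card_univ, nsmul_eq_mul]
              push_cast; rw [← hNdef]; ring)
    have cov : (univ : Finset ((Fin r → Fin (M*M) → V) × (Fin (M'*M') → V × V))) ⊆
        (univ.filter (acc c j t0 r (M*M) (M'*M') (19 * η * (M'*M')))) ∪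
        ((univ.filter fun ω => 6 * (3 * η * N^2) < Cst c (hyb c j t0 r ω.1 (P ω.1))) ∪
         (univ.filter fun ω => 6 * (K * M') < ∑ π, e ω π)) := by
      intro ω _
      simp only [mem_union, mem_filter, mem_univ, true_and]
      by_contra hcon
      push Not at hcon
      obtain ⟨c1, c2, c3⟩ := hcon
      apply c1
      refine ⟨P ω.1, ?_⟩
      have a1 := good ω (P ω.1) (not_lt.2 c3)
      have a2 := (abs_le.1 a1).2
      have a3 : Cst c (hyb c j t0 r ω.1 (P ω.1)) / N^2 ≤ 18 * η := by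
        rw [div_le_iff₀ hN2]; linarith
      have a4 := mul_le_mul_of_nonneg_left a3 (show (0:ℝ) ≤ (M'*M' : ℕ) by positivity)
      push_cast at a2 a4
      change ∑ i, g ω.1 (P ω.1) (ω.2 i) ≤ _
      linarith
    have c1 := (card_le_card cov).trans ((card_union_le _ _).trans
      (Nat.add_le_add_left (card_union_le _ _) _))
    rw [card_univ] at c1
    have c2 := (Nat.cast_le (α := ℝ)).2 c1
    push_cast at c2 m1 m2 ⊢
    linarith
  · intro ht
    have sub : (univ.filter (acc c j t0 r (M*M) (M'*M') (19 * η * (M'*M')))) ⊆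
        (univ.filter fun ω => 6 * (K * M') < ∑ π, e ω π) := by
      intro ω hω
      simp only [mem_filter, mem_univ, true_and] at hω ⊢
      by_contra hcon
      obtain ⟨π, hπ⟩ := hω
      have a1 := good ω π hcon
      have a2 := (abs_le.1 a1).1
      have a3 : 21 * η ≤ Cst c (hyb c j t0 r ω.1 π) / N^2 := by
        rw [le_div_iff₀ hN2]; exact ht _
      have a4 := mul_le_mul_of_nonneg_left a3 (show (0:ℝ) ≤ (M'*M' : ℕ) by positivity)
      push_cast at a2 a4
      change ∑ i, g ω.1 π (ω.2 i) ≤ _ at hπ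
      have : 0 < η * (M' * M') := by positivity
      linarith
    have c2 := (Nat.cast_le (α := ℝ)).2 (card_le_card sub)
    have c3 : (0:ℝ) ≤ ((univ.filter fun ω => 6 * (K * M') < ∑ π, e ω π).card : ℝ) :=
      Nat.cast_nonneg _
    linarith

end

lemma block_card (n b k : ℕ) (hb : 0 < b) :
    (univ.filter fun v : Fin n => (v : ℕ) / b = k).card ≤ b := by
  have := card_le_card_of_injOn (s := univ.filter fun v : Fin n => (v : ℕ) / b = k)
    (t := range b) (fun v => (v : ℕ) % b) (fun v _ => by simpa using Nat.mod_lt _ hb)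
    (fun v hv w hw h => by
      simp only [coe_filter, mem_univ, true_and, Set.mem_setOf_eq] at hv hw
      have h' : (v : ℕ) % b = (w : ℕ) % b := h
      apply Fin.ext
      rw [← Nat.div_add_mod v b, ← Nat.div_add_mod w b, hv, hw, h'])
  simpa using this

lemma block_lt (n q : ℕ) (hq : 0 < q) (v : Fin n) : (v : ℕ) / (n / q + 1) < q := by
  rw [Nat.div_lt_iff_lt_mul (Nat.succ_pos _)]
  have h1 := Nat.div_add_mod n q
  have h2 := Nat.mod_lt n hq
  have := v.2
  nlinarith

lemma cnt (A : Finset ℤ) (x y b : ℤ) (L : ℕ) (h1 : y ≤ b) (h2 : b ≤ x)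
    (hA : Icc (b - L) (b + L) ⊆ A) :
    (((A.filter (· ≤ x)).card : ℤ) - (A.filter (· ≤ y)).card = x - y) ∨
    ((L : ℤ) ≤ ((A.filter (· ≤ x)).card : ℤ) - (A.filter (· ≤ y)).card ∧
      ((A.filter (· ≤ x)).card : ℤ) - (A.filter (· ≤ y)).card ≤ x - y) := by
  have e : (A.filter (· ≤ x)).card = (A.filter (· ≤ y)).card + (A ∩ Ioc y x).card := by
    rw [← card_union_of_disjoint]
    · congr 1; ext z; simp only [mem_filter, mem_union, mem_inter, mem_Ioc]
      constructor
      · rintro ⟨a, b⟩; by_cases h : z ≤ y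
        · exact Or.inl ⟨a, h⟩
        · exact Or.inr ⟨a, by omega, b⟩
      · rintro (⟨a, b⟩ | ⟨a, b, c⟩)
        · exact ⟨a, by omega⟩
        · exact ⟨a, c⟩
    · rw [disjoint_left]; intro z h3 h4
      simp only [mem_filter, mem_inter, mem_Ioc] at h3 h4; omega
  have u : (A ∩ Ioc y x).card ≤ (x - y).toNat := by
    have := card_le_card (inter_subset_right (s₁ := A) (s₂ := Ioc y x))
    rwa [Int.card_Ioc] at this
  have l : (min x (b + L) - max y (b - L)).toNat ≤ (A ∩ Ioc y x).card := by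
    rw [← Int.card_Ioc]
    refine card_le_card fun z hz => ?_
    simp only [mem_Ioc, mem_inter] at hz ⊢
    refine ⟨hA ?_, by omega, by omega⟩
    simp only [mem_Icc]; omega
  rw [e]; push_cast; omega

lemma G_eq (ρ : ℝ) (hρ : 0 < ρ) (i j : ℤ) : ρ^i / (ρ^i + ρ^j) = 1 - 1 / (ρ^(i-j) + 1) := by
  have h1 := zpow_pos hρ i
  have h2 := zpow_pos hρ j
  rw [zpow_sub₀ hρ.ne']
  field_simp
  ring

lemma G_close (q : ℕ) (hq : 0 < q) (i j i' j' : ℤ)
    (h : i' - j' = i - j ∨ (((q*q : ℕ) : ℤ) ≤ i' - j' ∧ i' - j' ≤ i - j)) :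
    |(1 + 1/(q:ℝ))^i / ((1 + 1/(q:ℝ))^i + (1 + 1/(q:ℝ))^j)
      - (1 + 1/(q:ℝ))^i' / ((1 + 1/(q:ℝ))^i' + (1 + 1/(q:ℝ))^j')| ≤ 1/q := by
  have hqr : (0:ℝ) < q := by exact_mod_cast hq
  set ρ : ℝ := 1 + 1/(q:ℝ) with hρ
  have hq1 : (0:ℝ) < 1/q := by positivity
  have hρ1 : 1 < ρ := by linarith
  have hρ0 : 0 < ρ := by linarith
  rw [G_eq ρ hρ0, G_eq ρ hρ0]
  rcases h with h | ⟨h1, h2⟩
  · rw [h]; simp
  · have a1 : ρ^(i'-j') ≤ ρ^(i-j) := zpow_le_zpow_right₀ hρ1.le h2
    have a2 : ρ^((q*q : ℕ) : ℤ) ≤ ρ^(i'-j') := zpow_le_zpow_right₀ hρ1.le h1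
    have a3 : 1 + ((q*q : ℕ) : ℝ) * (1/q) ≤ ρ^(q*q) := one_add_mul_le_pow (by linarith) _
    rw [zpow_natCast] at a2
    have a4 : ((q*q : ℕ) : ℝ) * (1/q) = q := by push_cast; field_simp
    have a5 := zpow_pos hρ0 (i'-j')
    have a6 : 1 / (ρ^(i-j) + 1) ≤ 1 / (ρ^(i'-j') + 1) :=
      one_div_le_one_div_of_le (by linarith) (by linarith)
    have a7 : 1 / (ρ^(i'-j') + 1) ≤ 1 / q := one_div_le_one_div_of_le hqr (by linarith)
    have a8 : 0 < 1 / (ρ^(i-j) + 1) := by have := zpow_pos hρ0 (i-j); positivity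
    rw [abs_le]; constructor <;> linarith

lemma round_close (δ a b a' b' : ℝ) (hδ : 0 ≤ δ) (ha : 0 < a') (hb : 0 < b') (h1 : a' ≤ a)
    (h2 : a ≤ a' * (1 + δ)) (h3 : b' ≤ b) (h4 : b ≤ b' * (1 + δ)) :
    |a / (a + b) - a' / (a' + b')| ≤ δ := by
  have ha0 : 0 < a := by linarith
  have hb0 : 0 < b := by linarith
  have e : a / (a + b) - a' / (a' + b') = (a * b' - a' * b) / ((a + b) * (a' + b')) := by
    field_simp; ring
  have hp : 0 < (a + b) * (a' + b') := by positivity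
  have k : a' * b' ≤ (a + b) * (a' + b') := by nlinarith [mul_pos ha hb]
  have k2 := mul_le_mul_of_nonneg_left k hδ
  rw [e, abs_le, le_div_iff₀ hp, div_le_iff₀ hp]
  constructor <;> nlinarith

lemma frac_sym (a b : ℝ) (ha : 0 < a) (hb : 0 < b) : b / (b + a) = 1 - a / (a + b) := by
  field_simp; ring

lemma frac_diff (a b a' b' : ℝ) (ha : 0 < a) (hb : 0 < b) (ha' : 0 < a') (hb' : 0 < b') :
    |a / (a + b) - a' / (a' + b')| ≤ 1 := by
  have h1 : 0 ≤ a / (a + b) := by positivity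
  have h2 : 0 ≤ a' / (a' + b') := by positivity
  have h3 : a / (a + b) ≤ 1 := by rw [div_le_one (by positivity)]; linarith
  have h4 : a' / (a' + b') ≤ 1 := by rw [div_le_one (by positivity)]; linarith
  rw [abs_le]; constructor <;> linarith

lemma compress (q n : ℕ) (hq : 0 < q) (hn : q ≤ n) (a : Fin n → ℝ) (ha : ∀ x, 0 < a x) :
    ∃ φ : Fin n → Fin (q * (2 * (q*q) + 1) + 1),
      ∑ x, ∑ y, |a x / (a x + a y) - (1 + 1/(q:ℝ))^(φ x : ℕ)
        / ((1 + 1/(q:ℝ))^(φ x : ℕ) + (1 + 1/(q:ℝ))^(φ y : ℕ))| ≤ 4 * (n:ℝ)^2 / q := by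
  have hqr : (0:ℝ) < q := by exact_mod_cast hq
  set ρ : ℝ := 1 + 1/(q:ℝ) with hρ
  have hq1 : (0:ℝ) < 1/q := by positivity
  have hρ1 : 1 < ρ := by linarith
  have hρ0 : 0 < ρ := by linarith
  choose k hk using fun x => exists_mem_Ico_zpow (ha x) hρ1
  set σ := Tuple.sort k with hσ
  have hmono : Monotone (k ∘ σ) := Tuple.monotone_sort k
  set b := n / q + 1 with hb
  have hb0 : 0 < b := Nat.succ_pos _
  set I : Finset (Fin n) := univ.filter fun i => (i : ℕ) % b = 0 with hI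
  have hIc : I.card ≤ q := by
    have := card_le_card_of_injOn (s := I) (t := range q) (fun v => (v : ℕ) / b)
      (fun v _ => by simpa using block_lt n q hq v)
      (fun v hv w hw h => by
        simp only [hI, coe_filter, mem_univ, true_and, Set.mem_setOf_eq] at hv hw
        have h' : (v : ℕ) / b = (w : ℕ) / b := h
        apply Fin.ext
        rw [← Nat.div_add_mod v b, ← Nat.div_add_mod w b, hv, hw, h'])
    simpa using this
  set A : Finset ℤ := I.biUnion fun i => Icc (k (σ i) - (q*q : ℕ)) (k (σ i) + (q*q : ℕ)) with hA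
  have hAc : A.card ≤ q * (2 * (q*q) + 1) := by
    refine (card_biUnion_le_card_mul _ _ (2 * (q*q) + 1) fun i _ => ?_).trans
      (Nat.mul_le_mul_right _ hIc)
    rw [Int.card_Icc]; omega
  refine ⟨fun x => ⟨(A.filter (· ≤ k x)).card,
    Nat.lt_succ_of_le ((card_filter_le _ _).trans hAc)⟩, ?_⟩
  set φ : Fin n → ℕ := fun x => (A.filter (· ≤ k x)).card with hφ
  change ∑ x, ∑ y, |a x / (a x + a y) - ρ^(φ x) / (ρ^(φ x) + ρ^(φ y))| ≤ _
  have key : ∀ x y, ((σ.symm y : Fin n) : ℕ) / b < ((σ.symm x : Fin n) : ℕ) / b →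
      |a x / (a x + a y) - ρ^(φ x) / (ρ^(φ x) + ρ^(φ y))| ≤ 2 / q := by
    intro x y hxy
    have l1 : b * (((σ.symm x : Fin n) : ℕ) / b) ≤ (σ.symm x : Fin n) := Nat.mul_div_le _ _
    have l2 : ((σ.symm y : Fin n) : ℕ) ≤ b * (((σ.symm x : Fin n) : ℕ) / b) := by
      have := Nat.lt_mul_div_succ ((σ.symm y : Fin n) : ℕ) hb0
      have h2 := Nat.mul_le_mul_left b (Nat.succ_le_of_lt hxy)
      exact (this.trans_le h2).le
    set i : Fin n := ⟨b * (((σ.symm x : Fin n) : ℕ) / b), l1.trans_lt (σ.symm x).2⟩ with hi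
    have hiI : i ∈ I := by simp [hI, hi]
    have m1 : k (σ i) ≤ k x := by
      have := hmono (show i ≤ σ.symm x from l1); simpa using this
    have m2 : k y ≤ k (σ i) := by
      have := hmono (show σ.symm y ≤ i from l2); simpa using this
    have c := cnt A (k x) (k y) (k (σ i)) (q*q) m2 m1 (subset_biUnion_of_mem
      (fun i => Icc (k (σ i) - (q*q : ℕ)) (k (σ i) + (q*q : ℕ))) hiI)
    have g1 := G_close q hq (k x) (k y) (φ x) (φ y) c
    rw [zpow_natCast, zpow_natCast] at g1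
    have g2 := round_close (1/q) (a x) (a y) (ρ^(k x)) (ρ^(k y)) hq1.le (zpow_pos hρ0 _)
      (zpow_pos hρ0 _) (hk x).1 (by have := (hk x).2; rw [zpow_add_one₀ hρ0.ne'] at this; exact this.le)
      (hk y).1 (by have := (hk y).2; rw [zpow_add_one₀ hρ0.ne'] at this; exact this.le)
    have := abs_sub_le (a x / (a x + a y)) (ρ^(k x) / (ρ^(k x) + ρ^(k y)))
      (ρ^(φ x) / (ρ^(φ x) + ρ^(φ y)))
    have e2 : (2:ℝ) / q = 1/q + 1/q := by ring
    linarith
  have pt : ∀ x y, |a x / (a x + a y) - ρ^(φ x) / (ρ^(φ x) + ρ^(φ y))| ≤ 2 / q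
      + if ((σ.symm y : Fin n) : ℕ) / b = ((σ.symm x : Fin n) : ℕ) / b then 1 else 0 := by
    intro x y
    have h2q : (0:ℝ) ≤ 2 / q := by positivity
    rcases lt_trichotomy (((σ.symm y : Fin n) : ℕ) / b) (((σ.symm x : Fin n) : ℕ) / b)
      with h | h | h
    · rw [if_neg h.ne]; simpa using key x y h
    · rw [if_pos h]
      linarith [frac_diff (a x) (a y) (ρ^(φ x)) (ρ^(φ y)) (ha x) (ha y) (pow_pos hρ0 _)
        (pow_pos hρ0 _)]
    · rw [if_neg h.ne']
      have := key y x h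
      rw [frac_sym (a x) (a y) (ha x) (ha y), frac_sym (ρ^(φ x)) (ρ^(φ y)) (pow_pos hρ0 _)
        (pow_pos hρ0 _)] at this
      rw [abs_le] at this ⊢
      constructor <;> linarith [this.1, this.2]
  have inner : ∀ x : Fin n, ∑ y : Fin n, (if ((σ.symm y : Fin n) : ℕ) / b
      = ((σ.symm x : Fin n) : ℕ) / b then (1:ℝ) else 0) ≤ b := by
    intro x
    rw [σ.symm.sum_comp (fun y : Fin n => if (y : ℕ) / b
      = ((σ.symm x : Fin n) : ℕ) / b then (1:ℝ) else 0), sum_boole]
    exact_mod_cast block_card n b _ hb0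
  have hbr : (b : ℝ) ≤ 2 * n / q := by
    have h1 : ((n / q : ℕ) : ℝ) ≤ n / q := Nat.cast_div_le
    have h2 : (1:ℝ) ≤ n / q := by rw [le_div_iff₀ hqr]; simpa using hn
    rw [hb]; push_cast
    have : 2 * (n:ℝ) / q = n / q + n / q := by ring
    linarith
  calc _ ≤ ∑ x : Fin n, ((n:ℝ) * (2 / q) + 2 * n / q) := by
        refine sum_le_sum fun x _ => ?_
        refine (sum_le_sum fun y _ => pt x y).trans ?_
        rw [sum_add_distrib]
        have := inner x
        simp only [sum_const, card_univ, Fintype.card_fin, nsmul_eq_mul]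
        linarith
    _ = _ := by
        simp only [sum_const, card_univ, Fintype.card_fin, nsmul_eq_mul]; ring

end H11.BT
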