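import Mathlib

namespace Pool.Agent.H11.Bcast
open Finset

variable {V : Type} {G : SimpleGraph V}

lemma walk_dist (hc : G.Connected) {u v : V} (p : G.Walk u v) (i k : ℕ) (h : i + k ≤ p.length) :
    G.dist (p.getVert i) (p.getVert (i + k)) ≤ k := by
  induction k with
  | zero => simp
  | succ k ih =>
    have h1 := ih (by omega)
    have h2 : G.dist (p.getVert (i + k)) (p.getVert (i + k + 1)) = 1 :=
      SimpleGraph.dist_eq_one_iff_adj.2 (p.adj_getVert_succ (by omega))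
    have h3 := hc.dist_triangle (u := p.getVert i) (v := p.getVert (i + k))
      (w := p.getVert (i + k + 1))
    rw [← add_assoc]
    omega

lemma geo (hc : G.Connected) (u v : V) :
    ∃ p : ℕ → V, p 0 = u ∧ ∀ i j, i ≤ j → j ≤ G.dist u v → G.dist (p i) (p j) = j - i := by
  obtain ⟨p, hp⟩ := hc.exists_walk_length_eq_dist u v
  refine ⟨p.getVert, p.getVert_zero, fun i j hij hj => ?_⟩
  have h1 := walk_dist hc p 0 i (by omega)
  have h2 := walk_dist hc p i (j - i) (by omega)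
  have h3 := walk_dist hc p j (p.length - j) (by omega)
  rw [zero_add, p.getVert_zero] at h1
  rw [show i + (j - i) = j by omega] at h2
  rw [show j + (p.length - j) = p.length by omega, p.getVert_length] at h3
  have h4 := hc.dist_triangle (u := u) (v := p.getVert i) (w := v)
  have h5 := hc.dist_triangle (u := p.getVert i) (v := p.getVert j) (w := v)
  omega

def MP (G : SimpleGraph V) (S : Finset V) : Prop :=
  ∀ v : V, ∀ r : ℕ, 1 ≤ r → (S.filter (fun u => G.dist v u ≤ r)).card ≤ r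

lemma mk (hc : G.Connected) (P : ℕ → V) (n : ℕ)
    (h : ∀ ρ, 1 ≤ ρ → ∀ T : Finset ℕ, (∀ i ∈ T, i < n) →
      (∀ i ∈ T, ∀ j ∈ T, G.dist (P i) (P j) ≤ 2 * ρ) → T.card ≤ ρ) :
    ∃ S : Finset V, S.card = n ∧ MP G S := by
  classical
  have hinj : Set.InjOn P (range n : Finset ℕ) := by
    intro i hi j hj hij
    by_contra hne
    have := h 1 le_rfl {i, j} (by
      intro k hk
      simp only [mem_insert, mem_singleton] at hk
      rcases hk with rfl | rfl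
      · simpa using hi
      · simpa using hj) (by
      intro k hk l hl
      simp only [mem_insert, mem_singleton] at hk hl
      rcases hk with rfl | rfl <;> rcases hl with rfl | rfl <;> simp [hij])
    rw [card_pair hne] at this
    omega
  refine ⟨(range n).image P, by rw [card_image_of_injOn hinj, card_range], fun v r hr => ?_⟩
  rw [filter_image]
  refine card_image_le.trans (h r hr _ (fun i hi => by simpa using (mem_filter.1 hi).1) ?_)
  intro i hi j hj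
  have h1 := (mem_filter.1 hi).2
  have h2 := (mem_filter.1 hj).2
  have h3 := hc.dist_triangle (u := P i) (v := v) (w := P j)
  rw [SimpleGraph.dist_comm (u := P i) (v := v)] at h3
  omega

lemma part (T : Finset ℕ) (q : ℕ → Prop) [DecidablePred q] :
    (T.filter q).card = 0 ∨ ∃ a ∈ T, ∃ b ∈ T, q a ∧ q b ∧ a ≤ b ∧
      (T.filter q).card + a ≤ b + 1 := by
  rcases (T.filter q).eq_empty_or_nonempty with h | h
  · left; simp [h]
  · right
    have h1 := mem_filter.1 ((T.filter q).min'_mem h)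
    have h2 := mem_filter.1 ((T.filter q).max'_mem h)
    refine ⟨_, h1.1, _, h2.1, h1.2, h2.2, min'_le_max' _ h, ?_⟩
    have h3 : T.filter q ⊆ Icc ((T.filter q).min' h) ((T.filter q).max' h) := fun x hx =>
      mem_Icc.2 ⟨min'_le _ _ hx, le_max' _ _ hx⟩
    have h4 := card_le_card h3
    have h5 := min'_le_max' _ h
    rw [Nat.card_Icc] at h4
    omega

lemma three (T : Finset ℕ) (a b : ℕ) :
    T.card ≤ (T.filter (fun i => i < a)).card + (T.filter (fun i => a ≤ i ∧ i < b)).card +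
      (T.filter (fun i => b ≤ i)).card := by
  refine le_trans (card_le_card (t := T.filter (fun i => i < a) ∪
    T.filter (fun i => a ≤ i ∧ i < b) ∪ T.filter (fun i => b ≤ i)) ?_) ?_
  · intro x hx
    simp only [mem_union, mem_filter, hx, true_and]
    omega
  · exact (card_union_le _ _).trans (Nat.add_le_add_right (card_union_le _ _) _)

/-- the spider configuration -/
lemma spider (hc : G.Connected) (p Y : ℕ → V) (L n1 n ctr : ℕ) (pos lev : ℕ → ℕ)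
    (hp : ∀ i j, i ≤ j → j ≤ L → G.dist (p i) (p j) = j - i) (hctr : ctr ≤ L)
    (hpos : ∀ i, i < n1 → pos i ≤ L)
    (hY : ∀ i j, n1 ≤ i → i ≤ j → j < n → 3 * (j - i) ≤ G.dist (Y i) (Y j))
    (hlev : ∀ j, n1 ≤ j → j < n → lev j ≤ G.dist (p ctr) (Y j))
    (h : ∀ ρ, 1 ≤ ρ → ∀ T : Finset ℕ, (∀ i ∈ T, i < n) →
      (∀ i ∈ T, ∀ j ∈ T, i < n1 → j < n1 → pos j ≤ pos i + 2 * ρ) →
      (∀ i ∈ T, ∀ j ∈ T, n1 ≤ i → i ≤ j → 3 * (j - i) ≤ 2 * ρ) →
      (∀ i ∈ T, ∀ j ∈ T, i < n1 → n1 ≤ j → lev j ≤ 2 * ρ + (ctr - pos i) + (pos i - ctr)) →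
      T.card ≤ ρ) :
    ∃ S : Finset V, S.card = n ∧ MP G S := by
  refine mk hc (fun i => if i < n1 then p (pos i) else Y i) n fun ρ hρ T hT hd =>
    h ρ hρ T hT ?_ ?_ ?_
  · intro i hi j hj h1 h2
    have := hd i hi j hj
    rw [if_pos h1, if_pos h2] at this
    by_cases h3 : pos i ≤ pos j
    · rw [hp _ _ h3 (hpos j h2)] at this
      omega
    · omega
  · intro i hi j hj h1 h2
    have := hd i hi j hj
    rw [if_neg (by omega), if_neg (by omega)] at this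
    exact (hY i j h1 h2 (hT j hj)).trans this
  · intro i hi j hj h1 h2
    have := hd i hi j hj
    rw [if_pos h1, if_neg (by omega)] at this
    have h3 := hlev j h2 (hT j hj)
    have h4 := hc.dist_triangle (u := p ctr) (v := p (pos i)) (w := Y j)
    rcases le_total ctr (pos i) with h5 | h5
    · rw [hp _ _ h5 (hpos i h1)] at h4
      omega
    · rw [SimpleGraph.dist_comm (u := p ctr) (v := p (pos i)), hp _ _ h5 hctr] at h4
      omega

lemma comb (ρ a n1 n ctr : ℕ) (pos lev : ℕ → ℕ) (T : Finset ℕ) (hT : ∀ i ∈ T, i < n)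
    (h1 : ∀ i ∈ T, ∀ j ∈ T, i < n1 → j < n1 → pos j ≤ pos i + 2 * ρ)
    (h2 : ∀ i ∈ T, ∀ j ∈ T, n1 ≤ i → i ≤ j → 3 * (j - i) ≤ 2 * ρ)
    (h3 : ∀ i ∈ T, ∀ j ∈ T, i < n1 → n1 ≤ j → lev j ≤ 2 * ρ + (ctr - pos i) + (pos i - ctr))
    (ha : a ≤ n1)
    (k : ∀ l1 l2 r1 r2 y1 y2 cl cr cy : ℕ,
      (cl = 0 ∨ (l1 ≤ l2 ∧ l2 < a ∧ cl + l1 ≤ l2 + 1 ∧ pos l2 ≤ pos l1 + 2 * ρ ∧
        (cr = 0 ∨ pos r2 ≤ pos l1 + 2 * ρ) ∧
        (cy = 0 ∨ lev y2 ≤ 2 * ρ + (ctr - pos l2) + (pos l2 - ctr)))) →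
      (cr = 0 ∨ (a ≤ r1 ∧ r1 ≤ r2 ∧ r2 < n1 ∧ cr + r1 ≤ r2 + 1 ∧ pos r2 ≤ pos r1 + 2 * ρ ∧
        (cy = 0 ∨ lev y2 ≤ 2 * ρ + (ctr - pos r1) + (pos r1 - ctr)))) →
      (cy = 0 ∨ (n1 ≤ y1 ∧ y1 ≤ y2 ∧ y2 < n ∧ cy + y1 ≤ y2 + 1 ∧ 3 * (y2 - y1) ≤ 2 * ρ)) →
      cl + cr + cy ≤ ρ) : T.card ≤ ρ := by
  refine (three T a n1).trans ?_
  rcases part T (fun i => i < a) with hl | ⟨l1, hl1, l2, hl2, a1, a2, a3, a4⟩ <;>
  rcases part T (fun i => a ≤ i ∧ i < n1) with hr | ⟨r1, hr1, r2, hr2, b1, b2, b3, b4⟩ <;>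
  rcases part T (fun i => n1 ≤ i) with hy | ⟨y1, hy1, y2, hy2, c1, c2, c3, c4⟩
  · omega
  · exact k 0 0 0 0 y1 y2 _ _ _ (Or.inl hl) (Or.inl hr)
      (Or.inr ⟨c1, c3, hT _ hy2, c4, h2 _ hy1 _ hy2 c1 c3⟩)
  · exact k 0 0 r1 r2 0 0 _ _ _ (Or.inl hl)
      (Or.inr ⟨b1.1, b3, b2.2, b4, h1 _ hr1 _ hr2 b1.2 b2.2, Or.inl hy⟩) (Or.inl hy)
  · exact k 0 0 r1 r2 y1 y2 _ _ _ (Or.inl hl)
      (Or.inr ⟨b1.1, b3, b2.2, b4, h1 _ hr1 _ hr2 b1.2 b2.2, Or.inr (h3 _ hr1 _ hy2 b1.2 c2)⟩)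
      (Or.inr ⟨c1, c3, hT _ hy2, c4, h2 _ hy1 _ hy2 c1 c3⟩)
  · exact k l1 l2 0 0 0 0 _ _ _
      (Or.inr ⟨a3, a2, a4, h1 _ hl1 _ hl2 (by omega) (by omega), Or.inl hr, Or.inl hy⟩)
      (Or.inl hr) (Or.inl hy)
  · exact k l1 l2 0 0 y1 y2 _ _ _
      (Or.inr ⟨a3, a2, a4, h1 _ hl1 _ hl2 (by omega) (by omega), Or.inl hr,
        Or.inr (h3 _ hl2 _ hy2 (by omega) c2)⟩)
      (Or.inl hr) (Or.inr ⟨c1, c3, hT _ hy2, c4, h2 _ hy1 _ hy2 c1 c3⟩)
  · exact k l1 l2 r1 r2 0 0 _ _ _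
      (Or.inr ⟨a3, a2, a4, h1 _ hl1 _ hl2 (by omega) (by omega),
        Or.inr (h1 _ hl1 _ hr2 (by omega) b2.2), Or.inl hy⟩)
      (Or.inr ⟨b1.1, b3, b2.2, b4, h1 _ hr1 _ hr2 b1.2 b2.2, Or.inl hy⟩) (Or.inl hy)
  · exact k l1 l2 r1 r2 y1 y2 _ _ _
      (Or.inr ⟨a3, a2, a4, h1 _ hl1 _ hl2 (by omega) (by omega),
        Or.inr (h1 _ hl1 _ hr2 (by omega) b2.2), Or.inr (h3 _ hl2 _ hy2 (by omega) c2)⟩)
      (Or.inr ⟨b1.1, b3, b2.2, b4, h1 _ hr1 _ hr2 b1.2 b2.2, Or.inr (h3 _ hr1 _ hy2 b1.2 c2)⟩)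
      (Or.inr ⟨c1, c3, hT _ hy2, c4, h2 _ hy1 _ hy2 c1 c3⟩)

lemma case0 (hc : G.Connected) (q : ℕ)
    (hg : ∀ x, ∃ p : ℕ → V, p 0 = x ∧ ∀ i j, i ≤ j → j ≤ 6 * q + 1 → G.dist (p i) (p j) = j - i) :
    ∃ S : Finset V, S.card = 3 * q + 1 ∧ MP G S := by
  obtain ⟨u⟩ := hc.nonempty
  obtain ⟨p, -, hp⟩ := hg u
  obtain ⟨y, hy0, hy⟩ := hg (p (3 * q))
  refine spider hc p (fun j => y (3 * j + 1 - 3 * q)) (6 * q + 1) (2 * q + 1) (3 * q + 1) (3 * q)
    (fun i => 3 * i) (fun j => 3 * j + 1 - 3 * q) hp (by omega) (fun i hi => by omega)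
    (fun i j h1 h2 h3 => by rw [hy _ _ (by omega) (by omega)]; omega)
    (fun j h1 h2 => by rw [← hy0, hy _ _ (by omega) (by omega)]; omega)
    fun ρ hρ T hT h1 h2 h3 => comb ρ q _ _ _ _ _ T hT h1 h2 h3 (by omega) ?_
  intro l1 l2 r1 r2 y1 y2 cl cr cy k1 k2 k3
  omega

lemma case1 (hc : G.Connected) (q : ℕ)
    (hg : ∀ x, ∃ p : ℕ → V, p 0 = x ∧ ∀ i j, i ≤ j → j ≤ 6 * q + 3 → G.dist (p i) (p j) = j - i) :
    ∃ S : Finset V, S.card = 3 * q + 2 ∧ MP G S := by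
  obtain ⟨u⟩ := hc.nonempty
  obtain ⟨p, -, hp⟩ := hg u
  obtain ⟨y, hy0, hy⟩ := hg (p (3 * q + 1))
  refine spider hc p (fun j => y (3 * j - 3 * q)) (6 * q + 3) (2 * q + 2) (3 * q + 2) (3 * q + 1)
    (fun i => 3 * i) (fun j => 3 * j - 3 * q) hp (by omega) (fun i hi => by omega)
    (fun i j h1 h2 h3 => by rw [hy _ _ (by omega) (by omega)]; omega)
    (fun j h1 h2 => by rw [← hy0, hy _ _ (by omega) (by omega)]; omega)
    fun ρ hρ T hT h1 h2 h3 => comb ρ (q + 1) _ _ _ _ _ T hT h1 h2 h3 (by omega) ?_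
  intro l1 l2 r1 r2 y1 y2 cl cr cy k1 k2 k3
  omega

lemma case2 (hc : G.Connected) (q : ℕ) (hq : 1 ≤ q)
    (hg : ∀ x, ∃ p : ℕ → V, p 0 = x ∧ ∀ i j, i ≤ j → j ≤ 6 * q + 5 → G.dist (p i) (p j) = j - i)
    (hz : ∀ x y, ∃ z, 3 * q + 5 < G.dist x z ∧ 3 * q - 1 < G.dist y z) :
    ∃ S : Finset V, S.card = 3 * q + 3 ∧ MP G S := by
  obtain ⟨u⟩ := hc.nonempty
  obtain ⟨p, -, hp⟩ := hg u
  obtain ⟨y, hy0, hy⟩ := hg (p (3 * q + 2))
  obtain ⟨z, hz1, hz2⟩ := hz (p (3 * q + 2)) (y (6 * q + 5))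
  refine spider hc p (fun j => if j = 2 * q + 2 then z else y (3 * j - 3 * q - 1)) (6 * q + 5)
    (2 * q + 2) (3 * q + 3) (3 * q + 2)
    (fun i => 3 * i + min 1 (i - q) + (i - 2 * q)) (fun j => 3 * j - 3 * q - min 1 (j - (2 * q + 2)))
    hp (by omega) (fun i hi => by omega) (fun i j h1 h2 h3 => ?_) (fun j h1 h2 => ?_)
    fun ρ hρ T hT h1 h2 h3 => comb ρ (q + 1) _ _ _ _ _ T hT h1 h2 h3 (by omega) ?_
  · by_cases e1 : i = 2 * q + 2
    · by_cases e2 : j = 2 * q + 2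
      · omega
      · rw [if_pos e1, if_neg e2]
        have h4 := hc.dist_triangle (u := y (6 * q + 5)) (v := y (3 * j - 3 * q - 1)) (w := z)
        rw [SimpleGraph.dist_comm (u := y (6 * q + 5)) (v := y (3 * j - 3 * q - 1)),
          hy _ _ (by omega) (by omega), SimpleGraph.dist_comm (v := z)] at h4
        rw [SimpleGraph.dist_comm (v := z)] at hz2
        rw [SimpleGraph.dist_comm (v := z)] at h4
        omega
    · rw [if_neg e1, if_neg (by omega), hy _ _ (by omega) (by omega)]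
      omega
  · by_cases e2 : j = 2 * q + 2
    · rw [if_pos e2]; omega
    · rw [if_neg e2, ← hy0, hy _ _ (by omega) (by omega)]
      omega
  · intro l1 l2 r1 r2 y1 y2 cl cr cy k1 k2 k3
    omega

lemma case2' (hc : G.Connected)
    (hg : ∀ x, ∃ p : ℕ → V, p 0 = x ∧ ∀ i j, i ≤ j → j ≤ 5 → G.dist (p i) (p j) = j - i)
    (hz : ∀ x y, ∃ z, 2 < G.dist x z ∧ 2 < G.dist y z) :
    ∃ S : Finset V, S.card = 3 ∧ MP G S := by
  obtain ⟨u⟩ := hc.nonempty
  obtain ⟨p, -, hp⟩ := hg u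
  obtain ⟨z, hz1, hz2⟩ := hz (p 0) (p 5)
  have h5 := hp 0 5 (by omega) le_rfl
  refine mk hc (fun i => if i = 0 then p 0 else if i = 1 then p 5 else z) 3 fun ρ hρ T hT hd => ?_
  have hsub : ∀ a b : ℕ, ∀ s : Finset ℕ, (∀ i, i < 3 → i ∈ s ∨ i = a ∨ i = b) → a ∉ T → b ∉ T →
      T.card ≤ s.card := fun a b s hs ha hb => card_le_card fun i hi => by
    rcases hs i (hT i hi) with h | rfl | rfl
    · exact h
    · exact absurd hi ha
    · exact absurd hi hb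
  have h01 : 0 ∈ T → 1 ∈ T → 5 ≤ 2 * ρ := fun a b => by simpa [h5] using hd 0 a 1 b
  have h02 : 0 ∈ T → 2 ∈ T → 3 ≤ 2 * ρ := fun a b => by
    have := hd 0 a 2 b
    simp at this
    omega
  have h12 : 1 ∈ T → 2 ∈ T → 3 ≤ 2 * ρ := fun a b => by
    have := hd 1 a 2 b
    simp at this
    omega
  have h3 : T.card ≤ 3 := by
    simpa using card_le_card (s := T) (t := range 3) fun i hi => mem_range.2 (hT i hi)
  by_cases a0 : 0 ∈ T <;> by_cases a1 : 1 ∈ T <;> by_cases a2 : 2 ∈ T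
  · have := h01 a0 a1; omega
  · have := h01 a0 a1; omega
  · have := h02 a0 a2
    have := hsub 1 1 {0, 2} (fun i hi => by simp; omega) a1 a1
    simp at this; omega
  · have := hsub 1 2 {0} (fun i hi => by simp; omega) a1 a2
    simp at this; omega
  · have := h12 a1 a2
    have := hsub 0 0 {1, 2} (fun i hi => by simp; omega) a0 a0
    simp at this; omega
  · have := hsub 0 2 {1} (fun i hi => by simp; omega) a0 a2
    simp at this; omega
  · have := hsub 0 1 {2} (fun i hi => by simp; omega) a0 a1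
    simp at this; omega
  · have := hsub 0 1 {2} (fun i hi => by simp; omega) a0 a1
    simp at this; omega

theorem main [Fintype V] (hc : G.Connected) :
    ∃ (f : V → ℕ) (S : Finset V), (∀ u : V, ∃ v : V, 0 < f v ∧ G.dist u v ≤ f v) ∧
      MP G S ∧ ∑ v, f v ≤ 2 * S.card := by
  classical
  obtain ⟨S, hS, hmax⟩ := Finset.exists_max_image ((univ : Finset (Finset V)).filter (MP G))
    Finset.card ⟨∅, by simp [MP]⟩
  have hS' := (mem_filter.1 hS).2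
  by_contra hcon
  have hno : ∀ f : V → ℕ, ∑ v, f v ≤ 2 * S.card → ∃ u, ∀ v, 0 < f v → f v < G.dist u v := by
    intro f hf
    by_contra h
    push Not at h
    exact hcon ⟨f, S, h, hS', hf⟩
  have hz : ∀ a b, 1 ≤ a → 1 ≤ b → a + b ≤ 2 * S.card → ∀ x y,
      ∃ z, a < G.dist x z ∧ b < G.dist y z := by
    intro a b ha hb hab x y
    obtain ⟨z, hz⟩ := hno (Pi.single x a + Pi.single y b) (by
      simpa [Finset.sum_add_distrib] using hab)
    have h1 := hz x (by simp; omega)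
    have h2 := hz y (by simp; omega)
    simp only [Pi.add_apply, Pi.single_eq_same] at h1 h2
    rw [SimpleGraph.dist_comm] at h1 h2
    exact ⟨z, by omega, by omega⟩
  suffices h : ∃ S' : Finset V, S'.card = S.card + 1 ∧ MP G S' by
    obtain ⟨S', h1, h2⟩ := h
    have := hmax S' (mem_filter.2 ⟨mem_univ _, h2⟩)
    omega
  rcases Nat.eq_zero_or_pos S.card with h0 | h0
  · obtain ⟨u⟩ := hc.nonempty
    refine ⟨{u}, by simp [h0], fun v r hr => (card_filter_le _ _).trans (by simpa using hr)⟩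
  have hg : ∀ x, ∃ p : ℕ → V, p 0 = x ∧
      ∀ i j, i ≤ j → j ≤ 2 * S.card + 1 → G.dist (p i) (p j) = j - i := by
    intro x
    obtain ⟨z, hz⟩ := hno (Pi.single x (2 * S.card)) (by simp)
    have h1 := hz x (by rw [Pi.single_eq_same]; omega)
    simp only [Pi.single_eq_same] at h1
    rw [SimpleGraph.dist_comm] at h1
    obtain ⟨p, h2, h3⟩ := geo hc x z
    exact ⟨p, h2, fun i j hij hj => h3 i j hij (by omega)⟩
  obtain ⟨q, hq⟩ : ∃ q, S.card = 3 * q ∨ S.card = 3 * q + 1 ∨ S.card = 3 * q + 2 :=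
    ⟨S.card / 3, by omega⟩
  rcases hq with hq | hq | hq
  · rw [hq] at hg ⊢
    exact case0 hc q (by rw [show 6 * q + 1 = 2 * (3 * q) + 1 by ring]; exact hg)
  · rw [hq] at hg ⊢
    exact case1 hc q (by rw [show 6 * q + 3 = 2 * (3 * q + 1) + 1 by ring]; exact hg)
  · rw [hq] at hg hz ⊢
    rcases Nat.eq_zero_or_pos q with rfl | hq0
    · exact case2' hc hg (hz 2 2 (by omega) (by omega) (by omega))
    · exact case2 hc q hq0 (by rw [show 6 * q + 5 = 2 * (3 * q + 2) + 1 by ring]; exact hg)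
        (hz _ _ (by omega) (by omega) (by omega))

end Pool.Agent.H11.Bcast
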