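import Pool.Agent.H11.Bent1

set_option synthInstance.maxSize 4000
set_option linter.unusedSectionVars false

namespace Pool.Agent.H11.Bent

open Finset

lemma add_self' (a : F) : a + a = 0 := by revert a; decide

lemma wt_split {I J : Type} [Fintype I] [DecidableEq I] [Fintype J] [DecidableEq J] (R : I → F)
    (φ : J → I) (hφ : Function.Injective φ) (A : Finset I) (hA : ∀ s ∈ A, R s ≠ 0)
    (hd : ∀ j, φ j ∉ A) : wt (fun j => R (φ j)) + A.card ≤ wt R := by
  rw [wt, wt, ← card_image_of_injective _ hφ, ← card_union_of_disjoint]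
  · apply card_le_card
    intro s hs
    rcases mem_union.1 hs with hs | hs
    · obtain ⟨j, hj, rfl⟩ := mem_image.1 hs
      simpa using hj
    · simpa using hA s hs
  · rw [disjoint_left]
    intro s hs h2
    obtain ⟨j, hj, rfl⟩ := mem_image.1 hs
    exact hd j h2

lemma card_ge {ι : Type} [Fintype ι] [DecidableEq ι] (p : ι → Prop) [DecidablePred p]
    (A : Finset ι) (hA : ∀ s ∈ A, p s) : A.card ≤ (univ.filter p).card :=
  card_le_card fun s hs => by simpa using hA s hs

section Fam1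
variable {G J : Type} [AddCommGroup G] [DecidableEq G] [Fintype G] [Fintype J] [DecidableEq J]

def bs1 : G ⊕ G → G := Sum.elim id id
def O1 : G ⊕ G → Option J → Bool := Sum.elim (fun _ s => s.isSome) (fun _ s => s.isNone)

def Y1 (γ : Option J → G) : (G ⊕ G → F) →ₗ[F] (G → F) where
  toFun z := vv γ bs1 O1 z
  map_add' z w := by funext b; simp [vv, mul_add, sum_add_distrib]
  map_smul' c z := by
    funext b; simp only [vv, Pi.smul_apply, smul_eq_mul, mul_sum, mul_left_comm, RingHom.id_apply]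

lemma fam1 (a : ℕ) (hJ : Fintype.card J + 1 = 2 * 2 ^ a) (γ : Option J → G) (h0 : γ none = 0)
    (hS : Sidon γ) : HB (G ⊕ G) (2 ^ a + 1) := by
  have hv : ∀ b, (fun z => Y1 γ z b) ∈ Deg (G ⊕ G) 1 := fun b => Deg.lin _
  have v0 : ∀ z b, Y1 γ z b = RR γ bs1 O1 z b none + z (Sum.inr b) := by
    intro z b
    have := vv_split γ bs1 O1 hS z b none
    rw [h0, add_zero] at this
    rw [Y1, LinearMap.coe_mk, AddHom.coe_mk, this]
    simp [Fintype.sum_sum_type, bs1, O1]
  have v1 : ∀ z b j, Y1 γ z (b + γ (some j)) = RR γ bs1 O1 z b (some j) + z (Sum.inl b) := by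
    intro z b j
    have := vv_split γ bs1 O1 hS z b (some j)
    rw [Y1, LinearMap.coe_mk, AddHom.coe_mk, this]
    simp [Fintype.sum_sum_type, bs1, O1]
  refine hb_of_mm (Y1 γ) ?_ id Function.injective_id
    (fun y => ∑ b, esym (2 ^ a) (fun j => y (b + γ (some j))) * y b) ?_ ?_
  · intro z hz hY
    funext P
    rcases P with b | b
    · exact hz b
    · have := congrFun hY b
      simpa [Y1, vv, Fintype.sum_sum_type, hz, bs1, O1, h0] using this
  · have : (fun z : G ⊕ G → F => ∑ i, z (Sum.inl i) * id (Y1 γ z) i +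
        ∑ b, esym (2 ^ a) (fun j => Y1 γ z (b + γ (some j))) * Y1 γ z b)
        = ∑ b, ((fun z : G ⊕ G → F => z (Sum.inl b)) * (fun z => Y1 γ z b)
          + (fun z => esym (2 ^ a) (fun j => Y1 γ z (b + γ (some j)))) * (fun z => Y1 γ z b)) := by
      funext z; simp [sum_add_distrib]
    rw [this]
    refine Submodule.sum_mem _ fun b _ => add_mem ?_ ?_
    · exact Deg.mono' (by have := Nat.one_le_two_pow (n := a); omega) (Deg.mul (Deg.var _) (hv b))
    · exact Deg.mul (Deg.esym _ _ (fun j => hv _)) (hv b)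
  · intro z hz
    rw [← sum_add_distrib]
    refine sum_eq_zero fun b _ => ?_
    simp only [id]
    by_cases hb : Y1 γ z b = 0
    · simp [hb]
    have hc := count γ bs1 O1 hS z b
    have : wt (fun j => RR γ bs1 O1 z b (some j)) < 2 ^ a := by
      by_cases h1 : RR γ bs1 O1 z b none = 0
      · have h2 : z (Sum.inr b) ≠ 0 := by rwa [v0, h1, zero_add] at hb
        have h3 := card_ge (fun P => bs1 P = b ∧ z P ≠ 0) {Sum.inr b} (by simpa [bs1] using h2)
        have h4 := wt_split (RR γ bs1 O1 z b) some (Option.some_injective _) ∅ (by simp) (by simp)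
        simp only [card_singleton] at h3
        omega
      · have h4 := wt_split (RR γ bs1 O1 z b) some (Option.some_injective _) {none}
          (by simpa using h1) (by simp)
        simp only [card_singleton] at h4
        omega
    simp only [v1]
    rw [decode a hJ _ _ this, add_self']

end Fam1

lemma sum_eq_wt {J : Type} [Fintype J] [DecidableEq J] (u : J → F) : ∑ j, u j = (wt u : F) := by
  rw [wt, ← sum_boole]
  refine sum_congr rfl fun j _ => ?_
  generalize u j = t
  revert t; decide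

lemma wt_elim {I J : Type} [Fintype I] [DecidableEq I] [Fintype J] [DecidableEq J] (R : I → F)
    (S : J → F) : wt (Sum.elim R S) = wt R + wt S := by
  simp only [wt, card_filter, Fintype.sum_sum_type, Sum.elim_inl, Sum.elim_inr]
  congr

lemma wt_pair {I J : Type} [Fintype I] [DecidableEq I] [Fintype J] [DecidableEq J] (R : I → F)
    (φ : J → I) (hφ : Function.Injective φ) (cls : I → ℕ) (p q : I) (hp : R p ≠ 0) (hq : R q ≠ 0)
    (hpq : cls p ≠ cls q) (h1 : ∀ j, cls (φ j) ≠ cls p) (h2 : ∀ j, cls (φ j) ≠ cls q) :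
    wt (fun j => R (φ j)) + 2 ≤ wt R := by
  have hne : p ≠ q := by rintro rfl; exact hpq rfl
  have := wt_split R φ hφ {p, q} (by simp [hp, hq]) (by
    intro j hj
    simp only [mem_insert, mem_singleton] at hj
    rcases hj with hj | hj
    · exact h1 j (by rw [hj])
    · exact h2 j (by rw [hj]))
  rwa [card_pair hne] at this

section Fam2
variable {G J W : Type} [AddCommGroup G] [DecidableEq G] [Fintype G] [Fintype J] [DecidableEq J]
  [Fintype W] [DecidableEq W]

abbrev TT (J W : Type) := Option J ⊕ W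
abbrev II (J W : Type) := Option (TT J W ⊕ TT J W × J)
abbrev KK (G J W : Type) := G ⊕ G × TT J W

def al (τ : TT J W) : II J W := some (Sum.inl τ)
def be (τ : TT J W) (l : J) : II J W := some (Sum.inr (τ, l))

def bs2 : KK G J W ⊕ KK G J W → G :=
  Sum.elim (Sum.elim id Prod.fst) (Sum.elim id Prod.fst)

def O2 : KK G J W ⊕ KK G J W → II J W → Bool
  | Sum.inl (Sum.inl _), some (Sum.inl τ) => τ.isLeft
  | Sum.inl (Sum.inr e), some (Sum.inr t) => decide (t.1 = e.2)
  | Sum.inr (Sum.inl _), none => true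
  | Sum.inr (Sum.inr _), none => true
  | Sum.inr (Sum.inr e), some (Sum.inl τ) => decide (τ = e.2)
  | _, _ => false

def Y2 (γ : II J W → G) : (KK G J W ⊕ KK G J W → F) →ₗ[F] (KK G J W → F) where
  toFun z := Sum.elim (vv γ bs2 O2 z) (fun e => z (Sum.inr (Sum.inr e)))
  map_add' z w := by
    funext b
    rcases b with b | b
    · simp only [vv, Pi.add_apply, Sum.elim_inl, mul_add, sum_add_distrib]
    · simp
  map_smul' c z := by
    funext b
    rcases b with b | b
    · simp only [vv, Pi.smul_apply, smul_eq_mul, mul_sum, mul_left_comm, RingHom.id_apply,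
        Sum.elim_inl]
    · simp

def pp (γ : II J W → G) (y : KK G J W → F) (e : G × TT J W) : F :=
  y (Sum.inr e) + y (Sum.inl e.1) * y (Sum.inl (e.1 + γ (al e.2)))

def cc (γ : II J W → G) (y : KK G J W → F) (e : G × TT J W) : F :=
  y (Sum.inr e) + y (Sum.inl (e.1 + γ (al e.2)))

def pi2 (r : ℕ) (γ : II J W → G) (y : KK G J W → F) : KK G J W → F :=
  Sum.elim (fun a => y (Sum.inl a) + pp γ y (a, Sum.inl none)
    + esym r (fun j => pp γ y (a, Sum.inl (some j)))) (pp γ y)

lemma pi2_inj (r : ℕ) (γ : II J W → G) : Function.Injective (pi2 r γ) := by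
  intro y y' h
  have h1 : pp γ y = pp γ y' := funext fun e => congrFun h (Sum.inr e)
  have h2 : ∀ a, y (Sum.inl a) = y' (Sum.inl a) := by
    intro a
    have := congrFun h (Sum.inl a)
    simp only [pi2, Sum.elim_inl, h1] at this
    exact add_right_cancel (add_right_cancel this)
  funext b
  rcases b with b | e
  · exact h2 b
  · have := congrFun h1 e
    simp only [pp, h2] at this
    exact add_right_cancel this

lemma pi2_eq (r : ℕ) (γ : II J W → G) (y : KK G J W → F) (a : G) :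
    pi2 r γ y (Sum.inl a) = y (Sum.inl a) * (1 + cc γ y (a, Sum.inl none)
      + esym r (fun j => cc γ y (a, Sum.inl (some j))))
      + (1 + y (Sum.inl a)) * (y (Sum.inr (a, Sum.inl none))
      + esym r (fun j => y (Sum.inr (a, Sum.inl (some j))))) := by
  simp only [pi2, Sum.elim_inl, pp, cc]
  by_cases h : y (Sum.inl a) = 0
  · simp [h]
  · rw [eq_one_of_ne h, add_self']
    simp

def gE (r : ℕ) (γ : II J W → G) (y : KK G J W → F) (e : G × TT J W) : F :=
  esym r (fun l => y (Sum.inl (e.1 + γ (be e.2 l)))) * pp γ y e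

def gA (r : ℕ) (γ : II J W → G) (j0 : J) (y : KK G J W → F) (a : G) : F :=
  esym r (fun j => cc γ y (a, Sum.inl (some j))) * (y (Sum.inl a) * cc γ y (a, Sum.inl none))
  + esym r (fun j => cc γ y (a, Sum.inl (some j))) *
      ((1 + y (Sum.inl a)) * y (Sum.inr (a, Sum.inl none)))
  + esym r (fun j => y (Sum.inr (a, Sum.inl (some j)))) *
      (cc γ y (a, Sum.inl none) * cc γ y (a, Sum.inl (some j0)))

def cls (τ : TT J W) : II J W ⊕ (KK G J W ⊕ KK G J W) → ℕ
  | Sum.inl none => 0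
  | Sum.inl (some (Sum.inl (Sum.inl none))) => 6
  | Sum.inl (some (Sum.inl _)) => 1
  | Sum.inl (some (Sum.inr _)) => 3
  | Sum.inr (Sum.inl (Sum.inl _)) => 5
  | Sum.inr (Sum.inl (Sum.inr _)) => 4
  | Sum.inr (Sum.inr (Sum.inl _)) => 0
  | Sum.inr (Sum.inr (Sum.inr e)) => if e.2 = τ then 2 else 0

def loc (γ : II J W → G) (z : KK G J W ⊕ KK G J W → F) (a : G) :
    II J W ⊕ (KK G J W ⊕ KK G J W) → F :=
  Sum.elim (RR γ bs2 O2 z a) (fun P => if bs2 P = a then z P else 0)

lemma loc_le (γ : II J W → G) (hS : Sidon γ) (z : KK G J W ⊕ KK G J W → F) (a : G) :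
    wt (loc γ z a) ≤ wt z := by
  rw [loc, wt_elim]
  refine le_trans (le_of_eq ?_) (count γ bs2 O2 hS z a)
  congr 1
  rw [wt]
  congr 1
  ext P
  simp

lemma v0 (γ : II J W → G) (h0 : γ none = 0) (hS : Sidon γ) (z : KK G J W ⊕ KK G J W → F) (a : G) :
    Y2 γ z (Sum.inl a) = RR γ bs2 O2 z a none + z (Sum.inr (Sum.inl a))
      + ∑ τ, z (Sum.inr (Sum.inr (a, τ))) := by
  have := vv_split γ bs2 O2 hS z a none
  rw [h0, add_zero] at this
  rw [Y2, LinearMap.coe_mk, AddHom.coe_mk, Sum.elim_inl, this, add_assoc]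
  have e : ∀ x : G, (∑ τ : TT J W, if x = a then z (Sum.inr (Sum.inr (x, τ))) else 0)
      = if x = a then ∑ τ : TT J W, z (Sum.inr (Sum.inr (x, τ))) else 0 := by
    intro x; split_ifs <;> simp
  congr 1
  rw [Fintype.sum_sum_type, Fintype.sum_sum_type, Fintype.sum_sum_type, Fintype.sum_prod_type,
    Fintype.sum_prod_type]
  simp only [bs2, O2, Sum.elim_inl, Sum.elim_inr, id, and_true, e]
  simp

lemma v1 (γ : II J W → G) (hS : Sidon γ) (z : KK G J W ⊕ KK G J W → F) (a : G) (τ : TT J W) :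
    Y2 γ z (Sum.inl (a + γ (al τ))) = RR γ bs2 O2 z a (al τ)
      + (if τ.isLeft then z (Sum.inl (Sum.inl a)) else 0) + z (Sum.inr (Sum.inr (a, τ))) := by
  have := vv_split γ bs2 O2 hS z a (al τ)
  rw [Y2, LinearMap.coe_mk, AddHom.coe_mk, Sum.elim_inl, this, add_assoc]
  simp [Fintype.sum_sum_type, Fintype.sum_prod_type, bs2, O2, al, ite_and]
  by_cases h : τ.isLeft = true <;> simp [h]

lemma v2 (γ : II J W → G) (hS : Sidon γ) (z : KK G J W ⊕ KK G J W → F) (a : G) (τ : TT J W)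
    (l : J) : Y2 γ z (Sum.inl (a + γ (be τ l))) = RR γ bs2 O2 z a (be τ l)
      + z (Sum.inl (Sum.inr (a, τ))) := by
  have := vv_split γ bs2 O2 hS z a (be τ l)
  rw [Y2, LinearMap.coe_mk, AddHom.coe_mk, Sum.elim_inl, this]
  simp [Fintype.sum_sum_type, Fintype.sum_prod_type, bs2, O2, be, ite_and]

lemma grp0 (γ : II J W → G) (z : KK G J W ⊕ KK G J W → F) (a : G) (τ : TT J W)
    (h : RR γ bs2 O2 z a none + z (Sum.inr (Sum.inl a))
      + ∑ σ ∈ univ.erase τ, z (Sum.inr (Sum.inr (a, σ))) ≠ 0) :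
    ∃ p, loc γ z a p ≠ 0 ∧ cls τ p = 0 := by
  by_cases h1 : RR γ bs2 O2 z a none = 0
  · by_cases h2 : z (Sum.inr (Sum.inl a)) = 0
    · rw [h1, h2, add_zero, zero_add] at h
      obtain ⟨σ, hσ, h3⟩ := exists_ne_zero_of_sum_ne_zero h
      exact ⟨Sum.inr (Sum.inr (Sum.inr (a, σ))), by simpa [loc, bs2] using h3,
        by simpa [cls] using hσ⟩
    · exact ⟨Sum.inr (Sum.inr (Sum.inl a)), by simpa [loc, bs2] using h2, rfl⟩
  · exact ⟨Sum.inl none, h1, rfl⟩

lemma edge_term (n : ℕ) (hJ : Fintype.card J + 1 = 2 * 2 ^ n) (γ : II J W → G) (h0 : γ none = 0)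
    (hS : Sidon γ) (z : KK G J W ⊕ KK G J W → F) (hz : wt z < 2 ^ n + 2) (e : G × TT J W) :
    z (Sum.inl (Sum.inr e)) * pp γ (Y2 γ z) e + gE (2 ^ n) γ (Y2 γ z) e = 0 := by
  obtain ⟨a, τ⟩ := e
  rw [gE]
  by_cases hp : pp γ (Y2 γ z) (a, τ) = 0
  · simp [hp]
  have hl := loc_le γ hS z a
  have hinj : Function.Injective
      (fun l : J => (Sum.inl (be τ l) : II J W ⊕ (KK G J W ⊕ KK G J W))) := by
    intro l l' h; simpa [be] using h
  have W2 := wt_pair (loc γ z a) _ hinj (cls τ)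
  have c3 : ∀ l, cls (G := G) τ (Sum.inl (be τ l)) = 3 := fun l => rfl
  simp only [c3] at W2
  have hu : z (Sum.inr (Sum.inr (a, τ))) ≠ 0 → ∃ p, loc γ z a p ≠ 0 ∧ cls τ p = 2 := fun h =>
    ⟨Sum.inr (Sum.inr (Sum.inr (a, τ))), by simpa [loc, bs2] using h, by simp [cls]⟩
  have hw : RR γ bs2 O2 z a (al τ) + (if τ.isLeft then z (Sum.inl (Sum.inl a)) else 0) ≠ 0 →
      ∃ p, loc γ z a p ≠ 0 ∧ (cls τ p = 1 ∨ cls τ p = 5 ∨ cls τ p = 6) := by
    intro h
    by_cases h1 : RR γ bs2 O2 z a (al τ) = 0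
    · refine ⟨Sum.inr (Sum.inl (Sum.inl a)), ?_, by simp [cls]⟩
      rw [h1, zero_add] at h
      split_ifs at h
      · simpa [loc, bs2] using h
      · exact absurd rfl h
    · refine ⟨Sum.inl (al τ), h1, ?_⟩
      rcases τ with (_ | _) | _ <;> simp [cls, al]
  have hg := grp0 γ z a τ
  have key : wt (fun l => RR γ bs2 O2 z a (be τ l)) < 2 ^ n := by
    have e1 : Y2 γ z (Sum.inr (a, τ)) = z (Sum.inr (Sum.inr (a, τ))) := rfl
    simp only [pp] at hp
    rw [e1, v0 γ h0 hS, v1 γ hS, ← add_sum_erase _ _ (mem_univ τ), add_comm (z _) (∑ σ ∈ _, _),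
      ← add_assoc] at hp
    have dec : ∀ u s t : F, u + (s + u) * (t + u) ≠ 0 →
        (u ≠ 0 ∧ s ≠ 0) ∨ (u ≠ 0 ∧ t ≠ 0) ∨ (s ≠ 0 ∧ t ≠ 0) := by decide
    have fin : wt (fun l => loc γ z a (Sum.inl (be τ l))) + 2 ≤ wt (loc γ z a) := by
      rcases dec _ _ _ hp with ⟨h1, h2⟩ | ⟨h1, h2⟩ | ⟨h1, h2⟩
      · obtain ⟨p, p1, p2⟩ := hu h1
        obtain ⟨q, q1, q2⟩ := hg h2
        exact W2 p q p1 q1 (by omega) (by intro; omega) (by intro; omega)
      · obtain ⟨p, p1, p2⟩ := hu h1
        obtain ⟨q, q1, q2⟩ := hw h2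
        exact W2 p q p1 q1 (by omega) (by intro; omega) (by intro; omega)
      · obtain ⟨p, p1, p2⟩ := hg h1
        obtain ⟨q, q1, q2⟩ := hw h2
        exact W2 p q p1 q1 (by omega) (by intro; omega) (by intro; omega)
    have : (fun l => loc γ z a (Sum.inl (be τ l))) = fun l => RR γ bs2 O2 z a (be τ l) := rfl
    rw [this] at fin
    omega
  simp only [v2 γ hS]
  rw [decode n hJ _ _ key, add_self']

lemma vert_term (n : ℕ) (hn : 1 ≤ n) (hJ : Fintype.card J + 1 = 2 * 2 ^ n) (γ : II J W → G)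
    (h0 : γ none = 0) (hS : Sidon γ) (j0 : J) (z : KK G J W ⊕ KK G J W → F)
    (hz : wt z < 2 ^ n + 2) (a : G) :
    z (Sum.inl (Sum.inl a)) * pi2 (2 ^ n) γ (Y2 γ z) (Sum.inl a)
      + gA (2 ^ n) γ j0 (Y2 γ z) a = 0 := by
  have hl := loc_le γ hS z a
  have e1 : ∀ τ, Y2 γ z (Sum.inr (a, τ)) = z (Sum.inr (Sum.inr (a, τ))) := fun _ => rfl
  have hc : ∀ o : Option J, cc γ (Y2 γ z) (a, Sum.inl o)
      = RR γ bs2 O2 z a (al (Sum.inl o)) + z (Sum.inl (Sum.inl a)) := by
    intro o
    simp only [cc]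
    rw [e1, v1 γ hS]
    simp only [Sum.isLeft_inl, if_true]
    linear_combination add_self' (z (Sum.inr (Sum.inr (a, Sum.inl o))))
  have hinj : Function.Injective
      (fun l : J => (Sum.inl (al (Sum.inl (some l))) : II J W ⊕ (KK G J W ⊕ KK G J W))) := by
    intro l l' h; simpa [al] using h
  have W2 := wt_pair (loc γ z a) _ hinj (cls (Sum.inl none))
  have c1 : ∀ l : J, cls (G := G) (W := W) (Sum.inl none) (Sum.inl (al (Sum.inl (some l)))) = 1 :=
    fun l => rfl
  simp only [c1] at W2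
  have dM : ∀ p q, loc γ z a p ≠ 0 → loc γ z a q ≠ 0 →
      cls (Sum.inl none) p ≠ cls (Sum.inl none) q → 1 ≠ cls (Sum.inl none) p →
      1 ≠ cls (Sum.inl none) q →
      esym (2 ^ n) (fun j => cc γ (Y2 γ z) (a, Sum.inl (some j))) = z (Sum.inl (Sum.inl a)) := by
    intro p q p1 q1 h1 h2 h3
    have fin := W2 p q p1 q1 h1 (fun _ => h2) (fun _ => h3)
    have : (fun l => loc γ z a (Sum.inl (al (Sum.inl (some l)))))
      = fun l => RR γ bs2 O2 z a (al (Sum.inl (some l))) := rfl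
    rw [this] at fin
    simp only [hc]
    exact decode n hJ _ _ (by omega)
  have hg := grp0 γ z a (Sum.inl none)
  have hv := v0 γ h0 hS z a
  have hv' := hv
  rw [← add_sum_erase _ _ (mem_univ (Sum.inl none)), add_comm (z _) (∑ σ ∈ _, _),
      ← add_assoc] at hv'
  have hu : z (Sum.inr (Sum.inr (a, Sum.inl none))) ≠ 0 →
      ∃ p, loc γ z a p ≠ 0 ∧ cls (Sum.inl none) p = 2 := fun h =>
    ⟨Sum.inr (Sum.inr (Sum.inr (a, Sum.inl none))), by simpa [loc, bs2] using h, by simp [cls]⟩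
  have hx : z (Sum.inl (Sum.inl a)) ≠ 0 → loc γ z a (Sum.inr (Sum.inl (Sum.inl a))) ≠ 0 :=
    fun h => by simpa [loc, bs2] using h
  rw [pi2_eq, gA]
  simp only [e1]
  set x := z (Sum.inl (Sum.inl a)) with hxd
  set v := Y2 γ z (Sum.inl a) with hvd
  set M := esym (2 ^ n) (fun j => cc γ (Y2 γ z) (a, Sum.inl (some j))) with hM
  set E := esym (2 ^ n) (fun j => z (Sum.inr (Sum.inr (a, Sum.inl (some j))))) with hE
  set u0 := z (Sum.inr (Sum.inr (a, Sum.inl none))) with hu0
  set c0 := cc γ (Y2 γ z) (a, Sum.inl none) with hc0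
  set c1 := cc γ (Y2 γ z) (a, Sum.inl (some j0)) with hc1
  have A : x * (v * (1 + c0 + M)) + M * (v * c0) = 0 := by
    by_cases h : v = 0
    · simp [h]
    have : ∃ p, loc γ z a p ≠ 0 ∧ (cls (Sum.inl none) p = 0 ∨ cls (Sum.inl none) p = 2) := by
      by_cases h1 : u0 = 0
      · rw [hv', h1, add_zero] at h
        obtain ⟨p, p1, p2⟩ := hg h
        exact ⟨p, p1, Or.inl p2⟩
      · obtain ⟨p, p1, p2⟩ := hu h1
        exact ⟨p, p1, Or.inr p2⟩
    obtain ⟨p, p1, p2⟩ := this
    by_cases h1 : x = 0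
    · by_cases h2 : c0 = 0
      · simp [h1, h2]
      · have h3 : loc γ z a (Sum.inl (al (Sum.inl none))) ≠ 0 := by
          rw [hc0, hc, h1, add_zero] at h2; exact h2
        have c6 : cls (G := G) (J := J) (W := W) (Sum.inl none) (Sum.inl (al (Sum.inl none))) = 6 := rfl
        rw [dM p _ p1 h3 (by omega) (by omega) (by omega), h1]
        simp
    · have c5 : cls (J := J) (W := W) (Sum.inl none) (Sum.inr (Sum.inl (Sum.inl a))) = 5 := rfl
      rw [dM p _ p1 (hx h1) (by omega) (by omega) (by omega), eq_one_of_ne h1]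
      linear_combination v * add_self' (1 : F) + v * add_self' c0
  have B : x * ((1 + v) * u0) + M * ((1 + v) * u0) = 0 := by
    by_cases h : (1 + v) * u0 = 0
    · simp [h]
    have dec : ∀ s u : F, (1 + (s + u)) * u ≠ 0 → s ≠ 0 ∧ u ≠ 0 := by decide
    rw [hv'] at h
    obtain ⟨h1, h2⟩ := dec _ _ h
    obtain ⟨p, p1, p2⟩ := hg h1
    obtain ⟨q, q1, q2⟩ := hu h2
    rw [dM p q p1 q1 (by omega) (by omega) (by omega), add_self']
  have C : x * ((1 + v) * E) + E * (c0 * c1) = 0 := by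
    by_cases h : E = 0
    · simp [h]
    have hw : 2 ^ n ≤ wt (fun j => z (Sum.inr (Sum.inr (a, Sum.inl (some j))))) := by
      by_contra hlt
      apply h
      rw [hE, esym_eq, Nat.choose_eq_zero_of_lt (by omega)]
      simp
    have hinj' : Function.Injective (fun l : J => (Sum.inr (Sum.inr (Sum.inr (a, Sum.inl (some l))))
        : II J W ⊕ (KK G J W ⊕ KK G J W))) := by
      intro l l' h; simpa using h
    have eq' : (fun l : J => loc γ z a (Sum.inr (Sum.inr (Sum.inr (a, Sum.inl (some l))))))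
        = fun j => z (Sum.inr (Sum.inr (a, Sum.inl (some j)))) := by
      funext l; simp [loc, bs2]
    have two : ∀ p q, p ≠ q → (∀ j, Sum.inr (Sum.inr (Sum.inr (a, Sum.inl (some j)))) ≠ p) →
        (∀ j, Sum.inr (Sum.inr (Sum.inr (a, Sum.inl (some j)))) ≠ q) → loc γ z a p ≠ 0 →
        loc γ z a q = 0 := by
      intro p q hpq n1 n2 p1
      by_contra q1
      have := wt_split (loc γ z a) _ hinj' {p, q} (by simp [p1, q1]) (by simp [n1, n2])
      rw [card_pair hpq, eq'] at this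
      omega
    by_cases h1 : x = 0
    · rw [hc0, hc1, hc, hc, h1]
      by_cases h2 : RR γ bs2 O2 z a (al (Sum.inl none)) = 0
      · simp [h2]
      · have := two (Sum.inl (al (Sum.inl none))) (Sum.inl (al (Sum.inl (some j0))))
          (by simp [al]) (by simp) (by simp) h2
        have h3 : RR γ bs2 O2 z a (al (Sum.inl (some j0))) = 0 := this
        simp [h3]
    · have t2 := fun q h2 h3 => two (Sum.inr (Sum.inl (Sum.inl a))) q h2 (by simp) h3 (hx h1)
      have r0 : ∀ s, RR γ bs2 O2 z a s = 0 := fun s => t2 (Sum.inl s) (by simp) (by simp)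
      have r1 : z (Sum.inr (Sum.inl a)) = 0 := by
        simpa [loc, bs2] using t2 (Sum.inr (Sum.inr (Sum.inl a))) (by simp) (by simp)
      have r2 : u0 = 0 := by
        simpa [loc, bs2] using t2 (Sum.inr (Sum.inr (Sum.inr (a, Sum.inl none)))) (by simp) (by simp)
      have r3 : ∀ w, z (Sum.inr (Sum.inr (a, Sum.inr w))) = 0 := fun w => by
        simpa [loc, bs2] using t2 (Sum.inr (Sum.inr (Sum.inr (a, Sum.inr w)))) (by simp) (by simp)
      have hw2 := wt_split (loc γ z a) _ hinj' {Sum.inr (Sum.inl (Sum.inl a))}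
        (by simpa using hx h1) (by simp)
      rw [card_singleton, eq'] at hw2
      have hw3 : wt (fun j => z (Sum.inr (Sum.inr (a, Sum.inl (some j))))) = 2 ^ n := by omega
      have v00 : v = 0 := by
        rw [hv, r0, r1, Fintype.sum_sum_type, Fintype.sum_option, ← hu0, r2, sum_eq_wt, hw3]
        simp only [r3, sum_const_zero, add_zero, zero_add]
        obtain ⟨m, rfl⟩ := Nat.exists_eq_add_of_le hn
        rw [ZMod.natCast_eq_zero_iff, pow_add]
        simp
      rw [hc0, hc1, hc, hc, r0, r0, v00, eq_one_of_ne h1]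
      linear_combination add_self' E
  linear_combination A + B + C

lemma deg2 {ι : Type} [Fintype ι] [DecidableEq ι] (r : ℕ) (h2 : 1 ≤ r) (γ : II J W → G) (j0 : J)
    (x y : (ι → F) → KK G J W → F) (hx : ∀ b, (fun z => x z b) ∈ Deg ι 1)
    (hv : ∀ b, (fun z => y z b) ∈ Deg ι 1) :
    (fun z => ∑ i, x z i * pi2 r γ (y z) i + (∑ a, gA r γ j0 (y z) a + ∑ e, gE r γ (y z) e))
      ∈ Deg ι (r + 2) := by
  have hc : ∀ e, (fun z => cc γ (y z) e) ∈ Deg ι 1 := by
    intro e
    have t := Submodule.add_mem _ (hv (Sum.inr e)) (hv (Sum.inl (e.1 + γ (al e.2))))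
    convert t using 1
    funext z
    simp only [cc, Pi.add_apply]
  have hp : ∀ e, (fun z => pp γ (y z) e) ∈ Deg ι 2 := by
    intro e
    have t := Submodule.add_mem _ (Deg.mono' (by omega) (hv (Sum.inr e)))
      (Deg.mul (hv (Sum.inl e.1)) (hv (Sum.inl (e.1 + γ (al e.2)))))
    convert t using 1
    funext z
    simp only [pp, Pi.add_apply, Pi.mul_apply]
  have h1v : ∀ b, (fun z => 1 + y z b) ∈ Deg ι 1 := by
    intro b
    have t := Submodule.add_mem _ (Deg.mono' (by omega) Deg.one) (hv b)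
    convert t using 1
    funext z
    simp only [Pi.add_apply, Pi.one_apply]
  have hM : ∀ a, (fun z => esym r (fun j => cc γ (y z) (a, Sum.inl (some j)))) ∈ Deg ι r :=
    fun a => Deg.esym r (fun j z => cc γ (y z) (a, Sum.inl (some j))) fun j => hc _
  have hE : ∀ a, (fun z => esym r (fun j => y z (Sum.inr (a, Sum.inl (some j))))) ∈ Deg ι r :=
    fun a => Deg.esym r (fun j z => y z (Sum.inr (a, Sum.inl (some j)))) fun j => hv _
  have hD : ∀ e : G × TT J W,
      (fun z => esym r (fun l => y z (Sum.inl (e.1 + γ (be e.2 l))))) ∈ Deg ι r :=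
    fun e => Deg.esym r (fun l z => y z (Sum.inl (e.1 + γ (be e.2 l)))) fun j => hv _
  have : (fun z => ∑ i, x z i * pi2 r γ (y z) i +
        (∑ a, gA r γ j0 (y z) a + ∑ e, gE r γ (y z) e))
        = ∑ a, ((fun z => x z (Sum.inl a)) *
            (fun z => pi2 r γ (y z) (Sum.inl a)) + fun z => gA r γ j0 (y z) a)
          + ∑ e, ((fun z => x z (Sum.inr e)) *
            (fun z => pp γ (y z) e) + fun z => gE r γ (y z) e) := by
    funext z
    rw [Fintype.sum_sum_type]
    simp only [Pi.add_apply, Finset.sum_apply, Pi.mul_apply, sum_add_distrib, pi2, Sum.elim_inr]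
    ring
  rw [this]
  have k1 : ∀ a, (fun z => pi2 r γ (y z) (Sum.inl a)) ∈ Deg ι (1 + r) := by
    intro a
    have t1 := Deg.mul (hv (Sum.inl a)) (add_mem (add_mem (Deg.mono' (Nat.zero_le r) Deg.one)
      (Deg.mono' h2 (hc (a, Sum.inl none)))) (hM a))
    have t2 := Deg.mul (h1v (Sum.inl a))
      (add_mem (Deg.mono' h2 (hv (Sum.inr (a, Sum.inl none)))) (hE a))
    have t3 := add_mem t1 t2
    convert t3 using 1
    funext z
    simp only [pi2_eq, Pi.add_apply, Pi.mul_apply, Pi.one_apply]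
  have k2 : ∀ a, (fun z => gA r γ j0 (y z) a) ∈ Deg ι (r + 2) := by
    intro a
    have t3 := add_mem (add_mem (Deg.mul (hM a) (Deg.mul (hv (Sum.inl a)) (hc (a, Sum.inl none))))
      (Deg.mul (hM a) (Deg.mul (h1v (Sum.inl a)) (hv (Sum.inr (a, Sum.inl none))))))
      (Deg.mul (hE a) (Deg.mul (hc (a, Sum.inl none)) (hc (a, Sum.inl (some j0)))))
    convert t3 using 1
    funext z
    simp only [gA, Pi.add_apply, Pi.mul_apply]
  have k3 : ∀ e, (fun z => gE r γ (y z) e) ∈ Deg ι (r + 2) := by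
    intro e
    have t3 := Deg.mul (hD e) (hp e)
    convert t3 using 1
    funext z
    simp only [gE, Pi.mul_apply]
  apply Submodule.add_mem
  · apply Submodule.sum_mem
    intro a _
    exact Submodule.add_mem _ (Deg.mono' (by omega) (Deg.mul (hx (Sum.inl a)) (k1 a))) (k2 a)
  · apply Submodule.sum_mem
    intro e _
    exact Submodule.add_mem _ (Deg.mono' (by omega) (Deg.mul (hx (Sum.inr e)) (hp e))) (k3 e)

lemma fam2 (n : ℕ) (hn : 1 ≤ n) (hJ : Fintype.card J + 1 = 2 * 2 ^ n) (γ : II J W → G)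
    (h0 : γ none = 0) (hS : Sidon γ) : HB (KK G J W ⊕ KK G J W) (2 ^ n + 2) := by
  have h2 := Nat.one_le_two_pow (n := n)
  obtain ⟨j0⟩ : Nonempty J := Fintype.card_pos_iff.1 (by omega)
  have hv : ∀ b, (fun z => Y2 γ z b) ∈ Deg (KK G J W ⊕ KK G J W) 1 := by
    intro b
    rcases b with b | b
    · exact Deg.lin _
    · exact Deg.var _
  refine hb_of_mm (Y2 γ) ?_ (pi2 (2 ^ n) γ) (pi2_inj _ γ)
    (fun y => ∑ a, gA (2 ^ n) γ j0 y a + ∑ e, gE (2 ^ n) γ y e) ?_ ?_
  · intro z hz hY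
    have hu : ∀ e, z (Sum.inr (Sum.inr e)) = 0 := fun e => congrFun hY (Sum.inr e)
    funext P
    rcases P with b | b | e
    · exact hz b
    · have := congrFun hY (Sum.inl b)
      have e : ∀ x, (∃ s, O2 (J := J) (W := W) (Sum.inr (Sum.inl x)) s = true ∧ b = x + γ s)
          ↔ b = x := by
        intro x
        constructor
        · rintro ⟨s, h1, h2⟩
          rcases s with _ | s
          · simpa [h0] using h2
          · simp [O2] at h1
        · intro h; exact ⟨none, rfl, by simpa [h0] using h⟩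
      simpa [Y2, vv, Fintype.sum_sum_type, hz, hu, bs2, e] using this
    · exact hu e
  · exact deg2 (2 ^ n) h2 γ j0 (fun z i => z (Sum.inl i)) (fun z => Y2 γ z)
      (fun b => Deg.var _) hv
  · intro z hz
    rw [Fintype.sum_sum_type]
    have a1 : ∑ a, (z (Sum.inl (Sum.inl a)) * pi2 (2 ^ n) γ (Y2 γ z) (Sum.inl a)
      + gA (2 ^ n) γ j0 (Y2 γ z) a) = 0 :=
      sum_eq_zero fun a _ => vert_term n hn hJ γ h0 hS j0 z hz a
    have a2 : ∑ e, (z (Sum.inl (Sum.inr e)) * pp γ (Y2 γ z) e + gE (2 ^ n) γ (Y2 γ z) e) = 0 :=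
      sum_eq_zero fun e _ => edge_term n hJ γ h0 hS z hz e
    rw [sum_add_distrib] at a1 a2
    have a3 : ∀ e, pi2 (2 ^ n) γ (Y2 γ z) (Sum.inr e) = pp γ (Y2 γ z) e := fun _ => rfl
    simp only [a3]
    linear_combination a1 + a2

end Fam2

end Pool.Agent.H11.Bent
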