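import Pool.Agent.H11.Bent2

set_option synthInstance.maxSize 4000

namespace Pool.Agent.H11.Bent

lemma all1 (a : ℕ) : ∃ N, ∀ m, N ≤ m → HB (Fin (2 * m)) (2 ^ a + 1) := by
  have h2 := Nat.one_le_two_pow (n := a)
  obtain ⟨N, hN, h⟩ := sidon_exists (Option (Fin (2 * 2 ^ a - 1))) none
  refine ⟨N, fun m hm => ?_⟩
  obtain ⟨γ, h0, hS⟩ := h m hm
  haveI : NeZero m := ⟨by omega⟩
  have := fam1 a (by simp; omega) γ h0 hS
  exact hb_equiv (Fintype.equivFinOfCardEq (by simp; omega)) this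

lemma some2 (a : ℕ) (ha : 1 ≤ a) (t : ℕ) : ∃ N, ∀ m, N ≤ m →
    HB (Fin (2 * (m * (2 * 2 ^ a + 1 + t)))) (2 ^ a + 2) := by
  have h2 := Nat.one_le_two_pow (n := a)
  obtain ⟨N, hN, h⟩ := sidon_exists (II (Fin (2 * 2 ^ a - 1)) (Fin t)) none
  refine ⟨N, fun m hm => ?_⟩
  obtain ⟨γ, h0, hS⟩ := h m hm
  haveI : NeZero m := ⟨by omega⟩
  have := fam2 a ha (by simp; omega) γ h0 hS
  refine hb_equiv (Fintype.equivFinOfCardEq ?_) this
  simp only [Fintype.card_sum, Fintype.card_prod, ZMod.card, Fintype.card_option, Fintype.card_fin]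
  rw [Nat.sub_add_cancel (by omega)]
  ring

lemma all2 (a : ℕ) (ha : 1 ≤ a) : ∃ N, ∀ m, N ≤ m → HB (Fin (2 * m)) (2 ^ a + 2) := by
  obtain ⟨N0, h0⟩ := some2 a ha 0
  obtain ⟨N1, h1⟩ := some2 a ha 1
  set s := 2 * 2 ^ a + 1 with hs
  refine ⟨N0 * s + N1 * (s + 1) + s * s, fun m hm => ?_⟩
  obtain ⟨d, rfl⟩ := Nat.exists_eq_add_of_le hm
  have hd := Nat.div_add_mod d s
  have hlt : d % s < s := Nat.mod_lt _ (by omega)
  obtain ⟨c, hc⟩ := Nat.exists_eq_add_of_le hlt.le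
  have := hb_sum (by omega) (h0 (N0 + (c + d / s)) (Nat.le_add_right _ _)) (h1 (N1 + d % s) (Nat.le_add_right _ _))
  refine hb_equiv (Fintype.equivFinOfCardEq ?_) this
  simp only [Fintype.card_sum, Fintype.card_fin]
  generalize d / s = q at *
  generalize d % s = w at *
  subst hd
  have : s * s = s * (w + c) := by rw [← hc]
  nlinarith

end Pool.Agent.H11.Bent
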