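import Mathlib

set_option autoImplicit false

namespace H11.Dice

open Polynomial

/-- `M_t` for `t = (a,b,c,d)` -/
noncomputable def M (p q r a b c d : ℕ) : ℤ[X] :=
  cyclotomic (p * q * r) ℤ ^ d * cyclotomic (p * q) ℤ ^ a * cyclotomic (p * r) ℤ ^ b *
    cyclotomic (q * r) ℤ ^ c

/-- `A_t` -/
noncomputable def A (p q r a b c d : ℕ) : ℤ[X] :=
  X * (cyclotomic p ℤ * cyclotomic q ℤ) ^ 2 * M p q r a b c d

/-- `B_t` -/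
noncomputable def B (p q r a b c d : ℕ) : ℤ[X] := X * cyclotomic r ℤ ^ 2 * M p q r a b c d

/-- the ten tuples of `T` -/
def T : Finset (ℕ × ℕ × ℕ × ℕ) :=
  {(2, 0, 0, 0), (2, 1, 0, 1), (2, 0, 1, 1), (2, 1, 1, 1),
    (2, 0, 2, 2), (2, 1, 1, 2), (2, 2, 0, 2), (2, 1, 2, 2), (2, 2, 1, 2), (2, 2, 2, 2)}

/-- membership in `S` -/
def InS (a b c d : ℕ) : Prop :=
  a ≤ 2 ∧ b ≤ 2 ∧ c ≤ 2 ∧ d ≤ 2 ∧ 2 + d ≤ a + b + c ∧ a + b + c ≤ 4 + d ∧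
    (a, b, c, d) ∉ T ∧ (a, b, c, d) ≠ (1, 1, 1, 1)

theorem nonneg_of_map (P : ℤ[X]) (Q : ℕ[X]) (h : P = Q.map (Nat.castRingHom ℤ)) (n : ℕ) :
    0 ≤ P.coeff n := by
  rw [h, coeff_map]; exact Int.natCast_nonneg _

theorem c2 : cyclotomic 2 ℤ = X + 1 := cyclotomic_two ℤ

theorem c3 : cyclotomic 3 ℤ = X ^ 2 + X + 1 := cyclotomic_three ℤ

theorem c7 : cyclotomic 7 ℤ = X ^ 6 + X ^ 5 + X ^ 4 + X ^ 3 + X ^ 2 + X + 1 := by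
  haveI : Fact (Nat.Prime 7) := ⟨by norm_num⟩
  rw [cyclotomic_prime]
  simp [Finset.sum_range_succ]; ring

theorem e6 : cyclotomic 6 ℤ * cyclotomic 3 ℤ = X ^ 4 + X ^ 2 + 1 := by
  have := cyclotomic_expand_eq_cyclotomic_mul (p := 2) (n := 3) (by norm_num) (by norm_num) ℤ
  rw [← this, c3]; simp; ring

theorem e14 : cyclotomic 14 ℤ * cyclotomic 2 ℤ = X ^ 7 + 1 := by
  have := cyclotomic_expand_eq_cyclotomic_mul (p := 7) (n := 2) (by norm_num) (by norm_num) ℤ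
  rw [← this, c2]; simp

theorem e21 : cyclotomic 21 ℤ * cyclotomic 3 ℤ = X ^ 14 + X ^ 7 + 1 := by
  have := cyclotomic_expand_eq_cyclotomic_mul (p := 7) (n := 3) (by norm_num) (by norm_num) ℤ
  rw [← this, c3]; simp; ring

theorem c21 : cyclotomic 21 ℤ =
    X ^ 12 - X ^ 11 + X ^ 9 - X ^ 8 + X ^ 6 - X ^ 4 + X ^ 3 - X + 1 := by
  apply mul_right_cancel₀ (cyclotomic_ne_zero 3 ℤ)
  rw [e21, c3]; ring

theorem e42 : cyclotomic 42 ℤ * cyclotomic 21 ℤ =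
    X ^ 24 - X ^ 22 + X ^ 18 - X ^ 16 + X ^ 12 - X ^ 8 + X ^ 6 - X ^ 2 + 1 := by
  have := cyclotomic_expand_eq_cyclotomic_mul (p := 2) (n := 21) (by norm_num) (by norm_num) ℤ
  rw [← this, c21]; simp; ring

theorem A_nonneg (n : ℕ) : 0 ≤ (A 2 3 7 2 2 1 1).coeff n := by
  apply nonneg_of_map _ (X * (X ^ 7 + 1) ^ 2 * (X ^ 4 + X ^ 2 + 1) * (X ^ 28 + X ^ 14 + 1))
  have : A 2 3 7 2 2 1 1 = X * (cyclotomic 14 ℤ * cyclotomic 2 ℤ) ^ 2 *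
      (cyclotomic 6 ℤ * cyclotomic 3 ℤ) ^ 2 * (cyclotomic 42 ℤ * cyclotomic 21 ℤ) := by
    unfold A M; norm_num; ring
  rw [this, e14, e6, e42]
  simp only [Polynomial.map_mul, Polynomial.map_add, Polynomial.map_pow, map_X, Polynomial.map_one]
  ring

theorem B_nonneg (n : ℕ) : 0 ≤ (B 2 3 7 0 0 1 1).coeff n := by
  apply nonneg_of_map _ (1 * X ^ 1 + 2 * X ^ 2 + 2 * X ^ 3 + 2 * X ^ 4 + 2 * X ^ 5 + 2 * X ^ 6 + 3 * X ^ 7 + 2 * X ^ 8 + 1 * X ^ 13 + 2 * X ^ 16 + 2 * X ^ 17 + 2 * X ^ 18 + 3 * X ^ 19 + 2 * X ^ 20 + 2 * X ^ 21 + 2 * X ^ 22 + 1 * X ^ 25 + 2 * X ^ 30 + 3 * X ^ 31 + 2 * X ^ 32 + 2 * X ^ 33 + 2 * X ^ 34 + 2 * X ^ 35 + 2 * X ^ 36 + 1 * X ^ 37)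
  have : B 2 3 7 0 0 1 1 = X * cyclotomic 7 ℤ ^ 2 * (cyclotomic 42 ℤ * cyclotomic 21 ℤ) := by
    unfold B M; norm_num
  rw [this, c7, e42]
  simp only [Polynomial.map_mul, Polynomial.map_add, Polynomial.map_pow, map_X, Polynomial.map_one,
    Polynomial.map_ofNat]
  ring

end H11.Dice
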