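import Mathlib

set_option autoImplicit false

namespace H11.Eci

open Equiv

/-- even-cycle-intersecting family -/
def ECI {n : ℕ} (F : Finset (Perm (Fin n))) : Prop :=
  ∀ σ ∈ F, ∀ π ∈ F, σ ≠ π → ∃ m ∈ (σ * π⁻¹).cycleType, Even m

theorem even_of_pow (g : Perm (Fin 7)) (h : g ^ 105 ≠ 1) : ∃ m ∈ g.cycleType, Even m := by
  by_contra hn
  push Not at hn
  apply h
  rw [← orderOf_dvd_iff_pow_eq_one, ← Perm.lcm_cycleType, Multiset.lcm_dvd]
  intro m hm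
  have h1 := hn m hm
  have h2 : m ≤ 7 := by
    have h3 := Multiset.single_le_sum (fun _ _ => Nat.zero_le _) m hm
    rw [Perm.sum_cycleType] at h3
    exact h3.trans (by simpa using Finset.card_le_univ g.support)
  rw [Nat.not_even_iff_odd] at h1
  interval_cases m <;> first | decide | (exfalso; revert h1; decide)

def fl : List (List (Fin 7)) := [[0, 1, 2, 3, 4, 5, 6], [5, 0, 6, 3, 1, 4, 2], [1, 2, 6, 4, 3, 5, 0], [4, 2, 6, 1, 0, 5, 3], [3, 5, 4, 0, 6, 2, 1], [6, 3, 2, 1, 5, 4, 0], [1, 0, 6, 5, 2, 4, 3], [4, 3, 0, 1, 6, 5, 2], [3, 5, 1, 0, 6, 2, 4], [0, 2, 3, 4, 1, 5, 6], [0, 1, 5, 3, 2, 6, 4], [6, 4, 1, 2, 3, 0, 5], [0, 6, 4, 3, 2, 5, 1], [2, 3, 6, 1, 4, 5, 0], [1, 5, 2, 6, 0, 3, 4], [2, 1, 4, 3, 0, 6, 5], [3, 6, 0, 5, 4, 1, 2]]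

def gl : List (List (Fin 7)) := [[0, 1, 2, 3, 4, 5, 6], [1, 4, 6, 3, 5, 0, 2], [6, 0, 1, 4, 3, 5, 2], [4, 3, 1, 6, 0, 5, 2], [3, 6, 5, 0, 2, 1, 4], [6, 3, 2, 1, 5, 4, 0], [1, 0, 4, 6, 5, 3, 2], [2, 3, 6, 1, 0, 5, 4], [3, 2, 5, 0, 6, 1, 4], [0, 4, 1, 2, 3, 5, 6], [0, 1, 4, 3, 6, 2, 5], [5, 2, 3, 4, 1, 6, 0], [0, 6, 4, 3, 2, 5, 1], [6, 3, 0, 1, 4, 5, 2], [4, 0, 2, 5, 6, 1, 3], [4, 1, 0, 3, 2, 6, 5], [2, 5, 6, 0, 4, 3, 1]]

def ff (i : Fin 17) (x : Fin 7) : Fin 7 := (fl.getD i []).getD x 0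
def gg (i : Fin 17) (x : Fin 7) : Fin 7 := (gl.getD i []).getD x 0

theorem h1 : ∀ i x, gg i (ff i x) = x := by decide +kernel
theorem h2 : ∀ i x, ff i (gg i x) = x := by decide +kernel

def P (i : Fin 17) : Perm (Fin 7) := ⟨ff i, gg i, h1 i, h2 i⟩

theorem key : ∀ i j : Fin 17, i ≠ j → ∃ x, (fun y => ff i (gg j y))^[105] x ≠ x := by
  decide +kernel

theorem pow_ne (i j : Fin 17) (h : i ≠ j) : (P i * (P j)⁻¹) ^ 105 ≠ 1 := by
  obtain ⟨x, hx⟩ := key i j h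
  intro h1
  apply hx
  have := congrArg (fun g : Perm (Fin 7) => g x) h1
  simp only [Perm.coe_pow, Perm.coe_one, id] at this
  exact this

theorem P_inj : Function.Injective P := by
  intro i j h
  by_contra hne
  apply pow_ne i j hne
  rw [h]; simp

def F0 : Finset (Perm (Fin 7)) := Finset.univ.image P

theorem F0_card : F0.card = 17 := by
  rw [F0, Finset.card_image_of_injective _ P_inj]; simp

theorem F0_eci : ECI F0 := by
  intro σ hσ π hπ hne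
  obtain ⟨i, -, rfl⟩ := Finset.mem_image.mp hσ
  obtain ⟨j, -, rfl⟩ := Finset.mem_image.mp hπ
  exact even_of_pow _ (pow_ne i j fun h => hne (by rw [h]))

theorem sylow_card (S : Sylow 2 (Perm (Fin 7))) : Nat.card S = 16 := by
  rw [Sylow.card_eq_multiplicity, Nat.card_eq_fintype_card, Fintype.card_perm, Fintype.card_fin]
  have : (Nat.factorial 7).factorization 2 = 4 := by
    have e : Nat.factorial 7 = 2 ^ 4 * 315 := by decide
    rw [e, Nat.factorization_mul_apply_of_coprime (by norm_num), Nat.prime_two.factorization_pow,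
      Nat.factorization_eq_zero_of_not_dvd (by norm_num)]
    simp
  rw [this]; norm_num

end H11.Eci
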