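import Mathlib

set_option autoImplicit false

namespace H11.Gap

open SimpleGraph

/-- `H` is a minor of `G`: disjoint connected branch sets, joined along the edges of `H` -/
def IsMinor {W V : Type} (H : SimpleGraph W) (G : SimpleGraph V) : Prop :=
  ∃ B : W → Set V, (∀ a, (G.induce (B a)).Connected) ∧ (∀ a b, a ≠ b → Disjoint (B a) (B b)) ∧
    ∀ a b, H.Adj a b → ∃ x ∈ B a, ∃ y ∈ B b, G.Adj x y

/-- finite graphs -/
abbrev FinGraph := Σ m : ℕ, SimpleGraph (Fin m)

/-- a suitable set: non-empty, every member has an edge -/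
def Suitable (𝓗 : Set FinGraph) : Prop := 𝓗.Nonempty ∧ ∀ H ∈ 𝓗, ∃ a b, H.2.Adj a b

/-- no minor in `𝓗` -/
def Free (𝓗 : Set FinGraph) {V : Type} (G : SimpleGraph V) : Prop := ∀ H ∈ 𝓗, ¬ IsMinor H.2 G

/-- edge-maximal `𝓗`-free -/
def EdgeMax (𝓗 : Set FinGraph) {V : Type} (G : SimpleGraph V) : Prop :=
  Free 𝓗 G ∧ ∀ u v, u ≠ v → ¬ G.Adj u v → ¬ Free 𝓗 (G ⊔ edge u v)

/-- `E_𝓗(n)` -/
def E (𝓗 : Set FinGraph) (n : ℕ) : Set ℕ :=
  {e | ∃ G : SimpleGraph (Fin n), EdgeMax 𝓗 G ∧ G.edgeSet.ncard = e}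

/-- `gap_𝓗(n) = max E_𝓗(n) - min E_𝓗(n)` -/
noncomputable def gap (𝓗 : Set FinGraph) (n : ℕ) : ℕ := sSup (E 𝓗 n) - sInf (E 𝓗 n)

def H0 : Set FinGraph :=
  {H | H.2.Connected ∧ ¬ ∃ x y, ∀ a b, H.2.Adj a b → a = x ∨ a = y ∨ b = x ∨ b = y}

variable {V : Type}

def Cov (G : SimpleGraph V) (v x y : V) : Prop :=
  ∀ a b, G.Reachable v a → G.Adj a b → a = x ∨ a = y ∨ b = x ∨ b = y

def P (G : SimpleGraph V) : Prop := ∀ v, ∃ x y, Cov G v x y

theorem free_of_P (G : SimpleGraph V) (h : P G) : Free H0 G := by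
  classical
  rintro ⟨m, H⟩ ⟨hc, hn⟩ ⟨B, hB1, hB2, hB3⟩
  simp only at hc hn hB3
  obtain ⟨w0⟩ := hc.nonempty
  obtain ⟨⟨v0, hv0⟩⟩ := (hB1 w0).nonempty
  have hin : ∀ w, ∀ p ∈ B w, ∀ q ∈ B w, G.Reachable p q := by
    intro w p hp q hq
    exact ((hB1 w).preconnected ⟨p, hp⟩ ⟨q, hq⟩).map (Embedding.induce (B w)).toHom
  have hall : ∀ {c d : Fin m} (_ : H.Walk c d), ∀ p ∈ B c, ∀ q ∈ B d, G.Reachable p q := by
    intro c d W
    induction W with
    | nil => exact hin _
    | cons hcd _ ih =>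
      intro p hp q hq
      obtain ⟨x, hx, y, hy, hxy⟩ := hB3 _ _ hcd
      exact ((hin _ p hp x hx).trans hxy.reachable).trans (ih y hy q hq)
  obtain ⟨x, y, hxy⟩ := h v0
  let s : V → Fin m := fun z => if hz : ∃ w, z ∈ B w then hz.choose else w0
  have hs : ∀ z w, z ∈ B w → w = s z := by
    intro z w hz
    have hex : ∃ w, z ∈ B w := ⟨w, hz⟩
    simp only [s, dif_pos hex]
    by_contra hne
    exact Set.disjoint_left.mp (hB2 _ _ hne) hz hex.choose_spec
  refine hn ⟨s x, s y, fun a b hab => ?_⟩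
  obtain ⟨p, hp, q, hq, hpq⟩ := hB3 a b hab
  obtain ⟨W⟩ := hc.preconnected w0 a
  rcases hxy p q (hall W v0 hv0 p hp) hpq with rfl | rfl | rfl | rfl
  · exact Or.inl (hs _ _ hp)
  · exact Or.inr (Or.inl (hs _ _ hp))
  · exact Or.inr (Or.inr (Or.inl (hs _ _ hq)))
  · exact Or.inr (Or.inr (Or.inr (hs _ _ hq)))

theorem P_of_free [Finite V] (G : SimpleGraph V) (h : Free H0 G) : P G := by
  intro v
  by_contra hn
  obtain ⟨m, ⟨e⟩⟩ := Finite.exists_equiv_fin {a // G.Reachable v a}
  let f : Fin m → V := fun i => (e.symm i).1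
  have hf : Function.Injective f := Subtype.val_injective.comp e.symm.injective
  have hr : ∀ a, G.Reachable v a → ∃ i, f i = a := fun a ha => ⟨e ⟨a, ha⟩, by simp [f]⟩
  have hr' : ∀ i, G.Reachable v (f i) := fun i => (e.symm i).2
  let H : SimpleGraph (Fin m) := G.comap f
  have lift : ∀ {a b : V} (_ : G.Walk a b) (i j : Fin m), f i = a → f j = b → H.Reachable i j := by
    intro a b W
    induction W with
    | nil => intro i j hi hj; rw [hf (hi.trans hj.symm)]
    | @cons a c b hac _ ih =>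
      intro i j hi hj
      obtain ⟨k, hk⟩ := hr c ((hi ▸ hr' i).trans hac.reachable)
      have : H.Adj i k := by change G.Adj (f i) (f k); rw [hi, hk]; exact hac
      exact this.reachable.trans (ih k j hk hj)
  refine h ⟨m, H⟩ ⟨?_, ?_⟩ ⟨fun i => {f i}, fun i => ?_, fun i j hij => ?_, fun i j hij => ?_⟩
  · haveI : Nonempty (Fin m) := ⟨e ⟨v, Reachable.refl v⟩⟩
    refine ⟨fun i j => ?_⟩
    obtain ⟨W⟩ := (hr' i).symm.trans (hr' j)
    exact lift W i j rfl rfl
  · rintro ⟨x, y, hxy⟩
    refine hn ⟨f x, f y, fun a b ha hab => ?_⟩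
    obtain ⟨i, rfl⟩ := hr a ha
    obtain ⟨j, rfl⟩ := hr b (ha.trans hab.reachable)
    rcases hxy i j hab with h | h | h | h <;> simp [h]
  · haveI : Nonempty ({f i} : Set V) := ⟨⟨f i, rfl⟩⟩
    refine ⟨fun a b => ?_⟩
    have : a = b := Subtype.ext (a.2.trans b.2.symm)
    rw [this]
  · simpa using fun h => hij (hf h)
  · exact ⟨f i, rfl, f j, rfl, hij⟩

theorem add_edge (G : SimpleGraph V) (h : P G) (x y w : V) (h1 : Cov G x x y) (h2 : Cov G w x y) :
    P (G ⊔ edge x w) := by
  intro v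
  by_cases hv : G.Reachable x v ∨ G.Reachable w v
  · refine ⟨x, y, fun a b ha hab => ?_⟩
    have key : ∀ {c d : V} (_ : (G ⊔ edge x w).Walk c d),
        (G.Reachable x c ∨ G.Reachable w c) → (G.Reachable x d ∨ G.Reachable w d) := by
      intro c d W
      induction W with
      | nil => exact id
      | cons hcd _ ih =>
        intro hc
        apply ih
        rcases hcd with hcd | hcd
        · exact hc.imp (fun h => h.trans hcd.reachable) (fun h => h.trans hcd.reachable)
        · rw [edge_adj] at hcd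
          rcases hcd.1 with ⟨-, rfl⟩ | ⟨-, rfl⟩
          · exact Or.inr (Reachable.refl _)
          · exact Or.inl (Reachable.refl _)
    obtain ⟨W⟩ := ha
    rcases hab with hab | hab
    · exact (key W hv).elim (fun h => h1 a b h hab) (fun h => h2 a b h hab)
    · rw [edge_adj] at hab
      rcases hab.1 with ⟨rfl, -⟩ | ⟨-, rfl⟩ <;> simp
  · obtain ⟨p, q, hpq⟩ := h v
    have step : ∀ c d, G.Reachable v c → (G ⊔ edge x w).Adj c d → G.Adj c d := by
      intro c d hc hcd
      rcases hcd with hcd | hcd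
      · exact hcd
      · rw [edge_adj] at hcd
        rcases hcd.1 with ⟨rfl, -⟩ | ⟨rfl, -⟩
        · exact absurd (Or.inl hc.symm) hv
        · exact absurd (Or.inr hc.symm) hv
    have key : ∀ {c d : V} (_ : (G ⊔ edge x w).Walk c d), G.Reachable v c → G.Reachable v d := by
      intro c d W
      induction W with
      | nil => exact id
      | cons hcd _ ih => exact fun hc => ih (hc.trans (step _ _ hc hcd).reachable)
    refine ⟨p, q, fun a b ha hab => ?_⟩
    obtain ⟨W⟩ := ha
    have ha' := key W (Reachable.refl v)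
    exact hpq a b ha' (step _ _ ha' hab)

theorem Cov.symm {G : SimpleGraph V} {v x y : V} (h : Cov G v x y) : Cov G v y x := by
  intro a b ha hab
  have := h a b ha hab
  tauto

theorem Cov.move {G : SimpleGraph V} {v w x y : V} (h : Cov G v x y) (hr : G.Reachable v w) :
    Cov G w x y := fun a b ha hab => h a b (hr.trans ha) hab

theorem norm1 {G : SimpleGraph V} {v x y : V} (h : Cov G v x y) :
    ∃ x', G.Reachable v x' ∧ Cov G v x' y := by
  by_cases hx : G.Reachable v x
  · exact ⟨x, hx, h⟩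
  · refine ⟨v, Reachable.refl v, fun a b ha hab => ?_⟩
    rcases h a b ha hab with rfl | h | rfl | h
    · exact absurd ha hx
    · simp [h]
    · exact absurd (ha.trans hab.reachable) hx
    · simp [h]

theorem norm {G : SimpleGraph V} (h : P G) (v : V) :
    ∃ x y, G.Reachable v x ∧ G.Reachable v y ∧ Cov G v x y := by
  obtain ⟨x, y, hxy⟩ := h v
  obtain ⟨x', h1, h2⟩ := norm1 hxy
  obtain ⟨y', h3, h4⟩ := norm1 h2.symm
  exact ⟨x', y', h1, h3, h4.symm⟩

theorem struct [Finite V] [Nontrivial V] (G : SimpleGraph V) (h : EdgeMax H0 G) (v : V) :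
    ∃ x y, x ≠ y ∧ G.Reachable v x ∧ G.Reachable v y ∧ Cov G v x y ∧
      (∀ a, G.Reachable v a → a ≠ x → G.Adj x a) ∧ (∀ a, G.Reachable v a → a ≠ y → G.Adj y a) := by
  have hP := P_of_free G h.1
  have fill : ∀ x y w, Cov G x x y → Cov G w x y → w ≠ x → G.Adj x w := by
    intro x y w h1 h2 hne
    by_contra hn
    exact h.2 x w hne.symm hn (free_of_P _ (add_edge G hP x y w h1 h2))
  have hnb : ∃ u, G.Adj v u := by
    by_contra hn
    push Not at hn
    have iso : ∀ a, G.Reachable v a → a = v := by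
      rintro a ⟨W⟩
      cases W with
      | nil => rfl
      | cons h _ => exact absurd h (hn _)
    obtain ⟨w, hw⟩ := exists_ne v
    obtain ⟨x, y, h1, -, h3⟩ := norm hP w
    refine hn x (fill x y v (h3.move h1) (fun a b ha hab => ?_) ?_).symm
    · rw [iso a ha] at hab; exact absurd hab (hn _)
    · rintro rfl; exact hw (iso w h1.symm)
  obtain ⟨u, hu⟩ := hnb
  obtain ⟨x, y, h1, h2, h3⟩ := norm hP v
  have : ∃ y', x ≠ y' ∧ G.Reachable v y' ∧ Cov G v x y' := by
    by_cases hxy : x = y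
    · subst hxy
      have hc : ∀ z, Cov G v x z := fun z a b ha hab => by
        have := h3 a b ha hab
        tauto
      by_cases hxv : x = v
      · exact ⟨u, hxv ▸ hu.ne, hu.reachable, hc u⟩
      · exact ⟨v, hxv, Reachable.refl v, hc v⟩
    · exact ⟨y, hxy, h2, h3⟩
  obtain ⟨y', h4, h5, h6⟩ := this
  exact ⟨x, y', h4, h1, h5, h6, fun a ha hne => fill x y' a (h6.move h1) (h6.move ha) hne,
    fun a ha hne => fill y' x a (h6.symm.move h5) (h6.symm.move ha) hne⟩

theorem count [Fintype V] [Nontrivial V] (G : SimpleGraph V) (h : EdgeMax H0 G) :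
    G.edgeSet.ncard + 3 * Nat.card G.ConnectedComponent = 2 * Fintype.card V := by
  classical
  have h1 := G.sum_degrees_eq_twice_card_edges
  have h2 : ∀ C : G.ConnectedComponent,
      ∑ a ∈ Finset.univ.filter (fun a => G.connectedComponentMk a = C), (G.degree a : ℤ) =
        4 * ((Finset.univ.filter (fun a => G.connectedComponentMk a = C)).card : ℤ) - 6 := by
    intro C
    induction C using ConnectedComponent.ind with
    | _ v =>
    obtain ⟨x, y, hxy, hx, hy, hc, ax, ay⟩ := struct G h v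
    set K := Finset.univ.filter (fun a => G.connectedComponentMk a = G.connectedComponentMk v)
    have hK : ∀ a, a ∈ K ↔ G.Reachable v a := by
      intro a
      simp only [K, Finset.mem_filter, Finset.mem_univ, true_and, ConnectedComponent.eq]
      exact ⟨fun h => h.symm, fun h => h.symm⟩
    have full : ∀ z, G.Reachable v z → (∀ a, G.Reachable v a → a ≠ z → G.Adj z a) →
        (G.degree z : ℤ) = K.card - 1 := by
      intro z hz az
      have : G.neighborFinset z = K.erase z := by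
        ext a
        simp only [mem_neighborFinset, Finset.mem_erase, hK]
        exact ⟨fun h => ⟨h.ne.symm, hz.trans h.reachable⟩, fun h => az a h.2 h.1⟩
      rw [← card_neighborFinset_eq_degree, this, Finset.card_erase_of_mem ((hK z).mpr hz)]
      have := Finset.card_pos.mpr ⟨z, (hK z).mpr hz⟩
      omega
    have hxK := (hK x).mpr hx
    have hyK : y ∈ K.erase x := Finset.mem_erase.mpr ⟨hxy.symm, (hK y).mpr hy⟩
    rw [← Finset.add_sum_erase _ _ hxK, ← Finset.add_sum_erase _ _ hyK, full x hx ax, full y hy ay,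
      Finset.sum_congr rfl (g := fun _ => (2 : ℤ))]
    · have c1 := Finset.card_erase_of_mem hxK
      have c2 := Finset.card_erase_of_mem hyK
      have c3 := Finset.card_pos.mpr ⟨y, hyK⟩
      simp only [Finset.sum_const, nsmul_eq_mul]
      omega
    · intro a ha
      simp only [Finset.mem_erase, hK] at ha
      have : G.neighborFinset a = {x, y} := by
        ext b
        simp only [mem_neighborFinset, Finset.mem_insert, Finset.mem_singleton]
        constructor
        · intro hab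
          have := hc a b ha.2.2 hab
          tauto
        · rintro (rfl | rfl)
          · exact (ax a ha.2.2 ha.2.1).symm
          · exact (ay a ha.2.2 ha.1).symm
      rw [← card_neighborFinset_eq_degree, this, Finset.card_pair hxy]; rfl
  have h3 := Finset.sum_fiberwise (s := Finset.univ) (g := G.connectedComponentMk)
    (f := fun a => (G.degree a : ℤ))
  have h4 := Finset.sum_fiberwise (s := Finset.univ) (g := G.connectedComponentMk)
    (f := fun _ => (1 : ℤ))
  simp only [h2, Finset.sum_sub_distrib, ← Finset.mul_sum, Finset.sum_const, Finset.card_univ,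
    nsmul_eq_mul, mul_one] at h3 h4
  rw [h4] at h3
  have h5 : (∑ a, (G.degree a : ℤ)) = 2 * G.edgeFinset.card := by exact_mod_cast h1
  rw [← coe_edgeFinset, Set.ncard_coe_finset, Nat.card_eq_fintype_card]
  omega

theorem extend [Finite V] (G : SimpleGraph V) (h : P G) : ∃ G', G ≤ G' ∧ EdgeMax H0 G' := by
  obtain ⟨G', h1, h2⟩ := Finite.exists_le_maximal (p := fun G : SimpleGraph V => Free H0 G)
    (free_of_P G h)
  refine ⟨G', h1, h2.1, fun u v hne hn hf => hn ?_⟩
  exact h2.2 hf le_sup_left (Or.inr ((edge_adj _ _ _ _).mpr ⟨Or.inl ⟨rfl, rfl⟩, hne⟩))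

theorem big (n : ℕ) (hn : 2 ≤ n) : 2 * n - 3 ∈ E H0 n := by
  haveI : Nontrivial (Fin n) := Fin.nontrivial_iff_two_le.mpr hn
  let z : Fin n := ⟨0, by omega⟩
  let G : SimpleGraph (Fin n) := fromRel (fun a _ => a = z)
  obtain ⟨G', h1, h2⟩ := extend G (fun v => ⟨z, z, fun a b _ hab => by
    rw [fromRel_adj] at hab; tauto⟩)
  refine ⟨G', h2, ?_⟩
  have hc := count G' h2
  have hz : ∀ a, G'.Reachable z a := by
    intro a
    by_cases ha : z = a
    · rw [ha]
    · exact (h1 ((fromRel_adj _ _ _).mpr ⟨ha, Or.inl rfl⟩)).reachable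
  have hp : G'.Preconnected := fun a b => (hz a).symm.trans (hz b)
  haveI := hp.subsingleton_connectedComponent
  haveI : Nonempty G'.ConnectedComponent := ⟨G'.connectedComponentMk z⟩
  rw [Nat.card_unique, Fintype.card_fin] at hc
  omega

theorem small (n : ℕ) (hn : 2 ≤ n) : ∃ e ∈ E H0 n, e ≤ n + 2 := by
  haveI : Nontrivial (Fin n) := Fin.nontrivial_iff_two_le.mpr hn
  let G : SimpleGraph (Fin n) := fromRel (fun a b => (a : ℕ) / 3 = b / 3)
  have hG : ∀ a b : Fin n, G.Adj a b ↔ (a : ℕ) ≠ b ∧ (a : ℕ) / 3 = b / 3 := by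
    intro a b
    rw [fromRel_adj, Ne, Fin.ext_iff]
    constructor
    · rintro ⟨h1, h2 | h2⟩ <;> exact ⟨h1, by omega⟩
    · rintro ⟨h1, h2⟩; exact ⟨h1, Or.inl h2⟩
  have hP : P G := by
    intro v
    have hv := v.2
    have key : ∀ {c d : Fin n} (_ : G.Walk c d), (c : ℕ) / 3 = d / 3 := by
      intro c d W
      induction W with
      | nil => rfl
      | cons h _ ih => exact ((hG _ _).mp h).2.trans ih
    refine ⟨⟨3 * (v / 3), by omega⟩, ⟨min (3 * (v / 3) + 1) (n - 1), by omega⟩, ?_⟩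
    rintro a b ⟨W⟩ hab
    have h1 := key W
    have h2 := (hG _ _).mp hab
    have := a.2
    have := b.2
    simp only [Fin.ext_iff]
    omega
  obtain ⟨G', h1, h2⟩ := extend G hP
  refine ⟨_, ⟨G', h2, rfl⟩, ?_⟩
  have hc := count G' h2
  have hP' := P_of_free G' h2.1
  let t : Fin (n / 3) → Fin 3 → Fin n := fun j i => ⟨3 * j + i, by have := j.2; have := i.2; omega⟩
  have ht : ∀ j i i', i ≠ i' → G'.Adj (t j i) (t j i') := by
    intro j i i' hne
    apply h1
    rw [hG]
    have := i.2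
    have := i'.2
    have : (i : ℕ) ≠ i' := fun h => hne (Fin.ext h)
    simp only [t]
    omega
  have hinj : Function.Injective (fun j => G'.connectedComponentMk (t j 0)) := by
    intro j k hjk
    have hr : G'.Reachable (t j 0) (t k 0) := ConnectedComponent.eq.mp hjk
    obtain ⟨x, y, hxy⟩ := hP' (t j 0)
    have a1 := hxy _ _ (Reachable.refl _) (ht j 0 1 (by decide))
    have a2 := hxy _ _ (Reachable.refl _) (ht j 0 2 (by decide))
    have a3 := hxy _ _ (ht j 0 1 (by decide)).reachable (ht j 1 2 (by decide))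
    have b1 := hxy _ _ hr (ht k 0 1 (by decide))
    have b2 := hxy _ _ hr (ht k 0 2 (by decide))
    have b3 := hxy _ _ (hr.trans (ht k 0 1 (by decide)).reachable) (ht k 1 2 (by decide))
    simp only [t, Fin.ext_iff, Fin.val_zero, Fin.val_one, Fin.val_two] at a1 a2 a3 b1 b2 b3 ⊢
    omega
  have := Nat.card_le_card_of_injective _ hinj
  simp only [Nat.card_eq_fintype_card (α := Fin _), Fintype.card_fin] at this hc
  omega

theorem E_bdd (n : ℕ) (hn : 2 ≤ n) : ∀ e ∈ E H0 n, ∃ c, e + 3 * c = 2 * n := by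
  haveI : Nontrivial (Fin n) := Fin.nontrivial_iff_two_le.mpr hn
  rintro e ⟨G, h, rfl⟩
  exact ⟨_, by simpa using count G h⟩

theorem main (n : ℕ) (hn : 2 ≤ n) : n ≤ gap H0 n + 5 ∧ 3 * (E H0 n).ncard ≤ gap H0 n + 3 := by
  have hb : BddAbove (E H0 n) := ⟨2 * n, fun e he => by
    obtain ⟨c, hc⟩ := E_bdd n hn e he; omega⟩
  obtain ⟨e, he, he2⟩ := small n hn
  have h1 := le_csSup hb (big n hn)
  have h2 := Nat.sInf_le he
  refine ⟨by unfold gap; omega, ?_⟩
  obtain ⟨c0, hc0⟩ := E_bdd n hn _ (Nat.sInf_mem ⟨e, he⟩)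
  have h3 : (E H0 n).ncard ≤ (↑(Finset.range (gap H0 n / 3 + 1)) : Set ℕ).ncard := by
    apply Set.ncard_le_ncard_of_injOn (fun a => (a - sInf (E H0 n)) / 3)
    · intro a ha
      have := le_csSup hb ha
      simp only [Finset.coe_range, Set.mem_Iio, gap]
      omega
    · intro a ha b hb' hab
      obtain ⟨c, hc⟩ := E_bdd n hn a ha
      obtain ⟨d, hd⟩ := E_bdd n hn b hb'
      have := Nat.sInf_le ha
      have := Nat.sInf_le hb'
      simp only at hab
      omega
  rw [Set.ncard_coe_finset, Finset.card_range] at h3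
  omega

theorem suitable : Suitable H0 := by
  constructor
  · refine ⟨⟨4, ⊤⟩, connected_top, ?_⟩
    simp only [top_adj]
    decide
  · rintro ⟨m, H⟩ ⟨h1, h2⟩
    by_contra hn
    obtain ⟨x⟩ := h1.nonempty
    exact h2 ⟨x, x, fun a b hab => absurd ⟨a, b, hab⟩ hn⟩

end H11.Gap
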