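import Mathlib

/-! Insertion calculus for 1324-avoiding permutations written as lists. -/
set_option autoImplicit false
namespace Pool.Agent.H11.Inv

def bump (v x : ℕ) : ℕ := if x < v then x else x + 1

def ins (p v : ℕ) (l : List ℕ) : List ℕ :=
  (l.take p).map (bump v) ++ v :: (l.drop p).map (bump v)

def g (l : List ℕ) (i : ℕ) : ℕ := l.getD i 0

lemma bump_cases (v x : ℕ) : (x < v ∧ bump v x = x) ∨ (v ≤ x ∧ bump v x = x + 1) := by
  unfold bump; split_ifs <;> omega

lemma bump_inj (v : ℕ) : Function.Injective (bump v) := by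
  intro x y h
  have := bump_cases v x; have := bump_cases v y; omega

@[simp] lemma ins_length (p v : ℕ) (l : List ℕ) : (ins p v l).length = l.length + 1 := by
  simp [ins]; omega

lemma g_ins {p v : ℕ} {l : List ℕ} (hp : p ≤ l.length) {i : ℕ} (hi : i < l.length + 1) :
    (i = p ∧ g (ins p v l) i = v) ∨
    (∃ i0, i0 < l.length ∧ g (ins p v l) i = bump v (g l i0) ∧
      ((i < p ∧ i0 = i) ∨ (p < i ∧ i = i0 + 1))) := by
  rcases lt_trichotomy i p with h | h | h
  · right
    refine ⟨i, by omega, ?_, Or.inl ⟨h, rfl⟩⟩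
    have h1 : i < l.length := by omega
    unfold g ins
    rw [List.getD_append _ _ _ _ (by simp; omega)]
    simp [List.getD_eq_getElem?_getD, List.getElem?_take, h, h1]
  · left
    subst h
    refine ⟨rfl, ?_⟩
    unfold g ins
    rw [List.getD_append_right _ _ _ _ (by simp)]
    simp [Nat.min_eq_left hp]
  · right
    obtain ⟨i0, rfl⟩ : ∃ i0, i = i0 + 1 := ⟨i - 1, by omega⟩
    refine ⟨i0, by omega, ?_, Or.inr ⟨h, rfl⟩⟩
    have h1 : i0 < l.length := by omega
    unfold g ins
    rw [List.getD_append_right _ _ _ _ (by simp; omega)]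
    have h2 : i0 + 1 - ((l.take p).map (bump v)).length = (i0 - p) + 1 := by simp; omega
    rw [h2]
    have h3 : p + (i0 - p) = i0 := by omega
    simp [List.getD_eq_getElem?_getD, List.getElem?_drop, h3, h1]

/-- `l` lists `0, …, length - 1` in some order. -/
def IsP (l : List ℕ) : Prop := l.Nodup ∧ ∀ x ∈ l, x < l.length

lemma ins_perm (p v : ℕ) (l : List ℕ) : (ins p v l).Perm (v :: l.map (bump v)) := by
  unfold ins
  refine List.perm_middle.trans (List.Perm.cons _ ?_)
  rw [← List.map_append, List.take_append_drop]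

lemma IsP.ins {l : List ℕ} (h : IsP l) (p : ℕ) {v : ℕ} (hv : v ≤ l.length) : IsP (ins p v l) := by
  refine ⟨(ins_perm p v l).nodup_iff.2 ?_, fun x hx => ?_⟩
  · refine List.nodup_cons.2 ⟨?_, h.1.map (bump_inj v)⟩
    intro hm
    obtain ⟨x, -, hx⟩ := List.mem_map.1 hm
    have := bump_cases v x; omega
  · rw [ins_length]
    rcases List.mem_cons.1 ((ins_perm p v l).mem_iff.1 hx) with rfl | hm
    · omega
    · obtain ⟨y, hy, rfl⟩ := List.mem_map.1 hm
      have := h.2 y hy; have := bump_cases v y; omega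

lemma IsP.g_lt {l : List ℕ} (h : IsP l) {i : ℕ} (hi : i < l.length) : g l i < l.length := by
  apply h.2
  unfold g
  rw [List.getD_eq_getElem _ _ hi]
  exact List.getElem_mem _

def Av (l : List ℕ) : Prop :=
  ∀ i j k h, i < j → j < k → k < h → h < l.length →
    g l i < g l k → g l k < g l j → g l j < g l h → False

lemma Av.ins {l : List ℕ} (H : Av l) {p v : ℕ} (hp : p ≤ l.length)
    (r1 : ∀ j k h, p ≤ j → j < k → k < h → h < l.length → v ≤ g l k → g l k < g l j →
      g l j < g l h → False)
    (r2 : ∀ i k h, i < p → p ≤ k → k < h → h < l.length → g l i < g l k → g l k < v →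
      v ≤ g l h → False)
    (r3 : ∀ i j h, i < j → j < p → p ≤ h → h < l.length → g l i < v → v ≤ g l j →
      g l j < g l h → False)
    (r4 : ∀ i j k, i < j → j < k → k < p → g l i < g l k → g l k < g l j → g l j < v → False) :
    Av (ins p v l) := by
  intro i j k h hij hjk hkh hh h1 h2 h3
  rw [ins_length] at hh
  rcases g_ins (v := v) hp (show i < _ by omega) with ⟨ei, gi⟩ | ⟨i0, li, gi, ci⟩ <;>
  rcases g_ins (v := v) hp (show j < _ by omega) with ⟨ej, gj⟩ | ⟨j0, lj, gj, cj⟩ <;>
  rcases g_ins (v := v) hp (show k < _ by omega) with ⟨ek, gk⟩ | ⟨k0, lk, gk, ck⟩ <;>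
  rcases g_ins (v := v) hp hh with ⟨eh, gh⟩ | ⟨h0, lh, gh, ch⟩ <;>
  try omega
  · have := bump_cases v (g l j0); have := bump_cases v (g l k0); have := bump_cases v (g l h0)
    exact r1 j0 k0 h0 (by omega) (by omega) (by omega) lh (by omega) (by omega) (by omega)
  · have := bump_cases v (g l i0); have := bump_cases v (g l k0); have := bump_cases v (g l h0)
    exact r2 i0 k0 h0 (by omega) (by omega) (by omega) lh (by omega) (by omega) (by omega)
  · have := bump_cases v (g l i0); have := bump_cases v (g l j0); have := bump_cases v (g l h0)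
    exact r3 i0 j0 h0 (by omega) (by omega) (by omega) lh (by omega) (by omega) (by omega)
  · have := bump_cases v (g l i0); have := bump_cases v (g l j0); have := bump_cases v (g l k0)
    exact r4 i0 j0 k0 (by omega) (by omega) (by omega) (by omega) (by omega) (by omega)
  · have := bump_cases v (g l i0); have := bump_cases v (g l j0); have := bump_cases v (g l k0)
    have := bump_cases v (g l h0)
    exact H i0 j0 k0 h0 (by omega) (by omega) (by omega) lh (by omega) (by omega) (by omega)

/-- increasing from position `d` on -/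
def IncFrom (l : List ℕ) (d : ℕ) : Prop :=
  ∀ i j, d ≤ i → i < j → j < l.length → g l i < g l j
/-- entries at positions `< a` with values `< b` avoid 132 -/
def N132 (l : List ℕ) (a b : ℕ) : Prop :=
  ∀ i j k, i < j → j < k → k < a → k < l.length → g l j < b → g l i < g l k → g l k < g l j → False
/-- entries with values `≥ c` avoid 213 -/
def N213 (l : List ℕ) (c : ℕ) : Prop :=
  ∀ i j k, i < j → j < k → k < l.length → c ≤ g l j → g l j < g l i → g l i < g l k → False
def Kb (l : List ℕ) (K : ℕ) : Prop := ∀ i, i < l.length → g l i ≤ i + K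

lemma N132.mono {l : List ℕ} {a b a' b' : ℕ} (h : N132 l a b) (ha : a' ≤ a) (hb : b' ≤ b) :
    N132 l a' b' := fun i j k h1 h2 h3 h4 h5 => h i j k h1 h2 (by omega) h4 (by omega)

lemma N213.mono {l : List ℕ} {c c' : ℕ} (h : N213 l c) (hc : c ≤ c') : N213 l c' :=
  fun i j k h1 h2 h3 h4 => h i j k h1 h2 h3 (by omega)

lemma Kb.ins {l : List ℕ} {K p v : ℕ} (h : Kb l K) (hp : p ≤ l.length) (hv : v ≤ p + (K + 1)) :
    Kb (ins p v l) (K + 1) := by
  intro i hi
  rw [ins_length] at hi
  rcases g_ins (v := v) hp hi with ⟨ei, gi⟩ | ⟨i0, li, gi, ci⟩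
  · omega
  · have := bump_cases v (g l i0); have := h i0 li; omega

/-! ### Stage L : new minima -/

structure SL (l : List ℕ) (d t : ℕ) : Prop where
  isP : IsP l
  inc : IncFrom l d
  n132 : N132 l l.length l.length
  kb : Kb l t

lemma SL.step {l : List ℕ} {d t p : ℕ} (h : SL l d t) (hd : d ≤ p) (hp : p ≤ l.length) :
    SL (ins p 0 l) p (t + 1) := by
  refine ⟨h.isP.ins p (Nat.zero_le _), ?_, ?_, h.kb.ins hp (Nat.zero_le _)⟩
  · intro i j h1 h2 h3
    rw [ins_length] at h3
    rcases g_ins (v := 0) hp (show i < _ by omega) with ⟨ei, gi⟩ | ⟨i0, li, gi, ci⟩ <;>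
    rcases g_ins (v := 0) hp h3 with ⟨ej, gj⟩ | ⟨j0, lj, gj, cj⟩ <;> try omega
    · have := bump_cases 0 (g l j0); omega
    · have := bump_cases 0 (g l i0); have := bump_cases 0 (g l j0)
      have := h.inc i0 j0 (by omega) (by omega) lj
      omega
  · intro i j k h1 h2 h3 h4 h5 h6 h7
    rw [ins_length] at h4
    rcases g_ins (v := 0) hp (show i < _ by omega) with ⟨ei, gi⟩ | ⟨i0, li, gi, ci⟩ <;>
    rcases g_ins (v := 0) hp (show j < _ by omega) with ⟨ej, gj⟩ | ⟨j0, lj, gj, cj⟩ <;>
    rcases g_ins (v := 0) hp h4 with ⟨ek, gk⟩ | ⟨k0, lk, gk, ck⟩ <;> try omega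
    · have := bump_cases 0 (g l j0); have := bump_cases 0 (g l k0)
      have := h.inc j0 k0 (by omega) (by omega) lk
      omega
    · have := bump_cases 0 (g l i0); have := bump_cases 0 (g l j0); have := bump_cases 0 (g l k0)
      exact h.n132 i0 j0 k0 (by omega) (by omega) lk lk (h.isP.g_lt lj) (by omega) (by omega)

def stL : List ℕ → List ℕ → List ℕ
  | [], l => l
  | d :: ds, l => ins d 0 (stL ds l)

@[simp] lemma stL_length (ds l : List ℕ) : (stL ds l).length = l.length + ds.length := by
  induction ds with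
  | nil => simp [stL]
  | cons d ds ih => simp [stL, ih]; omega

lemma g_range {m i : ℕ} (hi : i < m) : g (List.range m) i = i := by
  unfold g; rw [List.getD_eq_getElem _ _ (by simpa using hi)]; simp

lemma SL_range (m : ℕ) : SL (List.range m) 0 0 := by
  refine ⟨⟨List.nodup_range, fun x hx => by simpa using hx⟩, ?_, ?_, ?_⟩
  · intro i j _ h2 h3
    simp at h3
    rw [g_range h3, g_range (by omega)]; exact h2
  · intro i j k _ h2 h3 _ _ _ h7
    simp at h3
    rw [g_range h3, g_range (by omega)] at h7; omega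
  · intro i hi
    simp at hi
    rw [g_range hi]; omega

/-- weakly decreasing lists with entries `≤ M` -/
def Dec (M : ℕ) : List ℕ → Prop
  | [] => True
  | d :: ds => d ≤ M ∧ Dec d ds

lemma Dec.mono {M M' : ℕ} {ds : List ℕ} (h : Dec M ds) (hM : M ≤ M') : Dec M' ds := by
  cases ds with
  | nil => trivial
  | cons d ds => exact ⟨h.1.trans hM, h.2⟩

lemma SL.mono {l : List ℕ} {d d' t : ℕ} (h : SL l d t) (hd : d ≤ d') : SL l d' t :=
  ⟨h.isP, fun i j h1 => h.inc i j (by omega), h.n132, h.kb⟩

lemma SL_stL (m : ℕ) : ∀ (ds : List ℕ) (M : ℕ), M ≤ m → Dec M ds →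
    SL (stL ds (List.range m)) M ds.length
  | [], M, _, _ => (SL_range m).mono (Nat.zero_le _)
  | d :: ds, M, hM, h => by
    have ih := SL_stL m ds d (h.1.trans hM) h.2
    exact (ih.step le_rfl (by simp; have := h.1; omega)).mono h.1

/-! ### Stage T : new last entries -/

structure ST (l : List ℕ) (a c θ t : ℕ) : Prop where
  isP : IsP l
  av : Av l
  npos : N132 l a l.length
  nval : N132 l l.length (l.length - c)
  kb : Kb l t
  first : g l 0 ≤ θ

lemma ST.step {l : List ℕ} {a c θ t c' : ℕ} (h : ST l a c θ t) (hc : c ≤ c')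
    (ha : a ≤ l.length) (hθ : θ + c' < l.length) :
    ST (ins l.length (l.length - c') l) a c' θ (t + 1) := by
  set v := l.length - c' with hv
  have hp : l.length ≤ l.length := le_rfl
  refine ⟨h.isP.ins _ (by omega), ?_, ?_, ?_, h.kb.ins hp (by omega), ?_⟩
  · refine h.av.ins hp ?_ ?_ ?_ ?_
    · intros; omega
    · intros; omega
    · intros; omega
    · intro i j k h1 h2 h3 h4 h5 h6
      exact h.nval i j k h1 h2 h3 h3 (by omega) h4 h5
  · intro i j k h1 h2 h3 h4 h5 h6 h7
    rw [ins_length] at h4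
    rcases g_ins (v := v) hp (show i < _ by omega) with ⟨ei, gi⟩ | ⟨i0, li, gi, ci⟩ <;>
    rcases g_ins (v := v) hp (show j < _ by omega) with ⟨ej, gj⟩ | ⟨j0, lj, gj, cj⟩ <;>
    rcases g_ins (v := v) hp h4 with ⟨ek, gk⟩ | ⟨k0, lk, gk, ck⟩ <;> try omega
    have := bump_cases v (g l i0); have := bump_cases v (g l j0); have := bump_cases v (g l k0)
    exact h.npos i0 j0 k0 (by omega) (by omega) (by omega) lk (h.isP.g_lt lj) (by omega) (by omega)
  · intro i j k h1 h2 h3 h4 h5 h6 h7
    rw [ins_length] at h4 h5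
    rcases g_ins (v := v) hp (show i < _ by omega) with ⟨ei, gi⟩ | ⟨i0, li, gi, ci⟩ <;>
    rcases g_ins (v := v) hp (show j < _ by omega) with ⟨ej, gj⟩ | ⟨j0, lj, gj, cj⟩ <;>
    rcases g_ins (v := v) hp h4 with ⟨ek, gk⟩ | ⟨k0, lk, gk, ck⟩ <;> try omega
    have := bump_cases v (g l i0); have := bump_cases v (g l j0); have := bump_cases v (g l k0)
    exact h.nval i0 j0 k0 (by omega) (by omega) lk lk (by omega) (by omega) (by omega)
  · rcases g_ins (v := v) hp (show 0 < _ by omega) with ⟨ei, gi⟩ | ⟨i0, li, gi, ci⟩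
    · omega
    · have := bump_cases v (g l i0); have := h.first
      have h0 : i0 = 0 := by omega
      subst h0; omega

def stT : List ℕ → List ℕ → List ℕ
  | [], l => l
  | c :: cs, l => ins (stT cs l).length ((stT cs l).length - c) (stT cs l)

@[simp] lemma stT_length (cs l : List ℕ) : (stT cs l).length = l.length + cs.length := by
  induction cs with
  | nil => simp [stT]
  | cons d ds ih => simp [stT, ih]; omega

lemma ST.mono {l : List ℕ} {a c c' θ t : ℕ} (h : ST l a c θ t) (hc : c ≤ c') : ST l a c' θ t :=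
  ⟨h.isP, h.av, h.npos, h.nval.mono le_rfl (by omega), h.kb, h.first⟩

lemma ST_stT {l : List ℕ} {d θ : ℕ} (h : SL l d θ) (h0 : 0 < l.length) :
    ∀ (cs : List ℕ) (M : ℕ), θ + M < l.length → Dec M cs →
      ST (stT cs l) l.length M θ (θ + cs.length)
  | [], M, _, _ => by
    refine ⟨h.isP, ?_, h.n132, h.n132.mono le_rfl (by simp [stT]), h.kb, ?_⟩
    · intro i j k hh h1 h2 h3 h4 h5 h6 h7
      simp only [stT] at *
      exact h.n132 i j k h1 h2 (by omega) (by omega) (h.isP.g_lt (by omega)) h5 h6
    · simpa [stT] using h.kb 0 h0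
  | c :: cs, M, hM, hd => by
    have ih := ST_stT h h0 cs c (by have := hd.1; omega) hd.2
    exact (ih.step le_rfl (by simp) (by simp; have := hd.1; omega)).mono hd.1

/-! ### Stage H : new maxima -/

/-- validity of an instruction list -/
def V (m : ℕ) : ℕ → ℕ → List (ℕ × Bool) → Prop
  | _, _, [] => True
  | lo, s, x :: r => lo ≤ x.1 ∧ x.1 ≤ m ∧ (x.2 = true → s ≤ x.1) ∧
      V m (if x.2 = true then x.1 + 1 else x.1) (if s ≤ x.1 then x.1 + 1 else s + 1) r

def Pos (l : List ℕ) (K s : ℕ) : Prop := ∀ i, i < l.length → g l i ≤ i + K ∨ l.length ≤ i + s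

def Cut' (l : List ℕ) (t e w : ℕ) : Prop :=
  (∀ i, i + e < l.length → l.length ≤ g l i + t ∨ g l i < w) ∧
  (∀ i, i < l.length → l.length ≤ g l i + t → i + e < l.length)

structure SH (l : List ℕ) (lo s θ K : ℕ) : Prop where
  isP : IsP l
  av : Av l
  npos : N132 l (l.length - lo) l.length
  first : g l 0 ≤ θ
  pos : Pos l K s

lemma SH.step {l : List ℕ} {lo s θ K e : ℕ} (h : SH l lo s θ K) (he : lo ≤ e)
    (hl : e < l.length) :
    SH (ins (l.length - e) l.length l) e (if s ≤ e then e + 1 else s + 1) θ K := by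
  set v := l.length with hv
  set p := l.length - e with hpp
  have hp : p ≤ l.length := by omega
  refine ⟨h.isP.ins _ le_rfl, ?_, ?_, ?_, ?_⟩
  · refine h.av.ins hp ?_ ?_ ?_ ?_
    · intro j k hh h1 h2 h3 h4 h5
      have := h.isP.g_lt (show k < l.length by omega); omega
    · intro i k hh h1 h2 h3 h4 h5 h6 h7
      have := h.isP.g_lt h4; omega
    · intro i j hh h1 h2 h3 h4 h5 h6
      have := h.isP.g_lt (show j < l.length by omega); omega
    · intro i j k h1 h2 h3 h4 h5 h6
      exact h.npos i j k h1 h2 (by omega) (by omega) h6 h4 h5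
  · intro i j k h1 h2 h3 h4 h5 h6 h7
    rw [ins_length] at h3 h4 h5
    rcases g_ins (v := v) hp (show i < _ by omega) with ⟨ei, gi⟩ | ⟨i0, li, gi, ci⟩ <;>
    rcases g_ins (v := v) hp (show j < _ by omega) with ⟨ej, gj⟩ | ⟨j0, lj, gj, cj⟩ <;>
    rcases g_ins (v := v) hp h4 with ⟨ek, gk⟩ | ⟨k0, lk, gk, ck⟩ <;> try omega
    have := bump_cases v (g l i0); have := bump_cases v (g l j0); have := bump_cases v (g l k0)
    exact h.npos i0 j0 k0 (by omega) (by omega) (by omega) lk (h.isP.g_lt lj) (by omega)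
      (by omega)
  · rcases g_ins (v := v) hp (show 0 < _ by omega) with ⟨ei, gi⟩ | ⟨i0, li, gi, ci⟩
    · omega
    · have := bump_cases v (g l i0); have := h.first; have := h.isP.g_lt li
      have h0 : i0 = 0 := by omega
      subst h0; omega
  · intro i hi
    rw [ins_length] at hi ⊢
    rcases g_ins (v := v) hp hi with ⟨ei, gi⟩ | ⟨i0, li, gi, ci⟩
    · split_ifs <;> omega
    · have := bump_cases v (g l i0); have := h.pos i0 li; have := h.isP.g_lt li
      split_ifs <;> omega

lemma SH.mono {l : List ℕ} {lo lo' s θ K : ℕ} (h : SH l lo s θ K) (hl : lo ≤ lo') :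
    SH l lo' s θ K :=
  ⟨h.isP, h.av, h.npos.mono (by omega) le_rfl, h.first, h.pos⟩

lemma Cut'.step {l : List ℕ} {t e w e' : ℕ} (hP : IsP l) (h : Cut' l t e w) (he : e ≤ e')
    (hl : e' < l.length) : Cut' (ins (l.length - e') l.length l) (t + 1) e w := by
  set v := l.length with hv
  set p := l.length - e' with hpp
  have hp : p ≤ l.length := by omega
  constructor
  · intro i hi
    rw [ins_length] at hi ⊢
    rcases g_ins (v := v) hp (show i < _ by omega) with ⟨ei, gi⟩ | ⟨i0, li, gi, ci⟩
    · omega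
    · have := bump_cases v (g l i0); have := h.1 i0 (by omega); have := hP.g_lt li
      omega
  · intro i hi h2
    rw [ins_length] at hi h2 ⊢
    rcases g_ins (v := v) hp hi with ⟨ei, gi⟩ | ⟨i0, li, gi, ci⟩
    · omega
    · have := bump_cases v (g l i0); have := hP.g_lt li
      have := h.2 i0 li (by omega)
      omega

lemma SH.cut {l : List ℕ} {lo s θ K e w : ℕ} (h : SH l lo s θ K) (hs : s ≤ e)
    (hl : e < l.length) (hw : l.length + K ≤ w + e) :
    Cut' (ins (l.length - e) l.length l) 1 e w := by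
  set v := l.length with hv
  set p := l.length - e with hpp
  have hp : p ≤ l.length := by omega
  constructor
  · intro i hi
    rw [ins_length] at hi ⊢
    rcases g_ins (v := v) hp (show i < _ by omega) with ⟨ei, gi⟩ | ⟨i0, li, gi, ci⟩
    · omega
    · have := bump_cases v (g l i0); have := h.pos i0 li; have := h.isP.g_lt li
      omega
  · intro i hi h2
    rw [ins_length] at hi h2 ⊢
    rcases g_ins (v := v) hp hi with ⟨ei, gi⟩ | ⟨i0, li, gi, ci⟩
    · omega
    · have := bump_cases v (g l i0); have := h.isP.g_lt li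
      omega

def stH : List (ℕ × Bool) → List ℕ → List ℕ
  | [], l => l
  | x :: r, l => stH r (ins (l.length - x.1) l.length l)

@[simp] lemma stH_length (r : List (ℕ × Bool)) : ∀ l : List ℕ,
    (stH r l).length = l.length + r.length := by
  induction r with
  | nil => simp [stH]
  | cons d ds ih => intro l; simp [stH, ih]; omega

/-- the marked instructions, last first, as pairs (rank from the end, code) -/
def cuts : List (ℕ × Bool) → List (ℕ × ℕ)
  | [] => []
  | x :: r => cuts r ++ (if x.2 = true then [(r.length + 1, x.1)] else [])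

lemma SH_stH {m θ K B : ℕ} : ∀ (r : List (ℕ × Bool)) (l : List ℕ) (lo s : ℕ),
    SH l lo s θ K → V m lo s r → m < l.length → l.length + r.length + K ≤ B →
    (∃ lo' s', SH (stH r l) lo' s' θ K) ∧
    (∀ t e w, Cut' l t e w → e ≤ lo → Cut' (stH r l) (t + r.length) e w) ∧
    (∀ x ∈ cuts r, Cut' (stH r l) x.1 x.2 (B - x.2))
  | [], l, lo, s, h, _, _, _ => ⟨⟨lo, s, h⟩, fun t e w hc _ => hc, by simp [cuts]⟩
  | x :: r, l, lo, s, h, hV, hm, hB => by
    obtain ⟨h1, h2, h3, h4⟩ := hV
    have hl : x.1 < l.length := by omega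
    have hs := h.step h1 hl
    simp only [List.length_cons] at hB
    obtain ⟨i1, i2, i3⟩ := SH_stH (B := B) r _ _ _
      (hs.mono (lo' := if x.2 = true then x.1 + 1 else x.1) (by split_ifs <;> omega)) h4
      (by simp; omega) (by simp; omega)
    refine ⟨i1, fun t e w hc he => ?_, fun y hy => ?_⟩
    · have := i2 _ _ _ (hc.step h.isP (he.trans h1) hl) (by split_ifs <;> omega)
      simp only [stH, List.length_cons]
      rwa [show t + (r.length + 1) = t + 1 + r.length by omega]
    · simp only [cuts, List.mem_append] at hy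
      rcases hy with hy | hy
      · exact i3 y hy
      · split_ifs at hy with hb
        · simp only [List.mem_singleton] at hy
          subst hy
          have := i2 _ _ _ (h.cut (w := B - x.1) (h3 hb) hl (by omega)) (by simp [hb])
          simp only [stH]
          rwa [show r.length + 1 = 1 + r.length by omega]
        · simp at hy

lemma cuts_le : ∀ (r : List (ℕ × Bool)), ∀ x ∈ cuts r, x.1 ≤ r.length
  | [] => by simp [cuts]
  | y :: r => by
    intro x hx
    simp only [cuts, List.mem_append] at hx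
    rcases hx with hx | hx
    · have := cuts_le r x hx; simp; omega
    · split_ifs at hx
      · simp only [List.mem_singleton] at hx; subst hx; simp
      · simp at hx

lemma cuts_sorted : ∀ (r : List (ℕ × Bool)), (cuts r).Pairwise (fun x y => x.1 ≤ y.1)
  | [] => by simp [cuts]
  | y :: r => by
    simp only [cuts]
    refine List.pairwise_append.2 ⟨cuts_sorted r, ?_, ?_⟩
    · split_ifs <;> simp
    · intro a ha b hb
      split_ifs at hb
      · simp only [List.mem_singleton] at hb; subst hb
        have := cuts_le r a ha; simp; omega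
      · simp at hb

/-! ### Stage E : new first entries -/

def Cut (l : List ℕ) (t w s : ℕ) : Prop :=
  ∀ i j, i < j → j < l.length → l.length ≤ g l j + t → g l i + t < l.length →
    g l i < w ∨ g l i < s

lemma Cut'.cut {l : List ℕ} {t e w : ℕ} (h : Cut' l t e w) (s : ℕ) : Cut l t w s := by
  intro i j h1 h2 h3 h4
  have := h.2 j h2 h3
  have := h.1 i (by omega)
  omega

structure SE (l : List ℕ) (lo : ℕ) : Prop where
  isP : IsP l
  av : Av l
  n213 : N213 l lo

lemma SE.av_ins {l : List ℕ} {lo v : ℕ} (h : SE l lo) (hc : lo ≤ v) : Av (ins 0 v l) := by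
  refine h.av.ins (Nat.zero_le _) ?_ ?_ ?_ ?_
  · intro j k hh h1 h2 h3 h4 h5 h6 h7
    exact h.n213 j k hh h2 h3 h4 (by omega) h6 h7
  · intros; omega
  · intros; omega
  · intros; omega

lemma SE.stepE {l : List ℕ} {lo v : ℕ} (h : SE l lo) (hc : lo ≤ v) (hv : v ≤ l.length) :
    SE (ins 0 v l) v := by
  have hp : 0 ≤ l.length := Nat.zero_le _
  refine ⟨h.isP.ins _ hv, h.av_ins hc, ?_⟩
  intro i j k h1 h2 h4 h5 h6 h7
  rw [ins_length] at h4
  rcases g_ins (v := v) hp (show i < _ by omega) with ⟨ei, gi⟩ | ⟨i0, li, gi, ci⟩ <;>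
  rcases g_ins (v := v) hp (show j < _ by omega) with ⟨ej, gj⟩ | ⟨j0, lj, gj, cj⟩ <;>
  rcases g_ins (v := v) hp h4 with ⟨ek, gk⟩ | ⟨k0, lk, gk, ck⟩ <;> try omega
  have := bump_cases v (g l i0); have := bump_cases v (g l j0); have := bump_cases v (g l k0)
  exact h.n213 i0 j0 k0 (by omega) (by omega) lk (by omega) (by omega) (by omega)

lemma SE.stepP {l : List ℕ} {c t w : ℕ} (h : SE l c) (hc : Cut l t w (c + 1)) (hw : w ≤ c + 1)
    (ht : c + t ≤ l.length) : SE (ins 0 (l.length - t) l) (c + 1) := by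
  have hp : 0 ≤ l.length := Nat.zero_le _
  set v := l.length - t with hv
  refine ⟨h.isP.ins _ (by omega), h.av_ins (by omega), ?_⟩
  intro i j k h1 h2 h4 h5 h6 h7
  rw [ins_length] at h4
  rcases g_ins (v := v) hp (show i < _ by omega) with ⟨ei, gi⟩ | ⟨i0, li, gi, ci⟩ <;>
  rcases g_ins (v := v) hp (show j < _ by omega) with ⟨ej, gj⟩ | ⟨j0, lj, gj, cj⟩ <;>
  rcases g_ins (v := v) hp h4 with ⟨ek, gk⟩ | ⟨k0, lk, gk, ck⟩ <;> try omega
  · have := bump_cases v (g l j0); have := bump_cases v (g l k0)
    have := hc j0 k0 (by omega) lk (by omega) (by omega)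
    omega
  · have := bump_cases v (g l i0); have := bump_cases v (g l j0); have := bump_cases v (g l k0)
    exact h.n213 i0 j0 k0 (by omega) (by omega) lk (by omega) (by omega) (by omega)

lemma Cut.stepE {l : List ℕ} {t w s c : ℕ} (h : Cut l t w s) (hc : c + t ≤ l.length) :
    Cut (ins 0 c l) t (w + 1) (if s ≤ c then c + 1 else s + 1) := by
  have hp : 0 ≤ l.length := Nat.zero_le _
  intro i j h1 h2 h3 h4
  rw [ins_length] at h2 h3 h4
  rcases g_ins (v := c) hp (show i < _ by omega) with ⟨ei, gi⟩ | ⟨i0, li, gi, ci⟩ <;>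
  rcases g_ins (v := c) hp h2 with ⟨ej, gj⟩ | ⟨j0, lj, gj, cj⟩ <;> try omega
  · split_ifs <;> omega
  · have := bump_cases c (g l i0); have := bump_cases c (g l j0)
    have := h i0 j0 (by omega) lj (by omega) (by omega)
    split_ifs <;> omega

lemma Cut.stepP {l : List ℕ} {t t' w s : ℕ} (h : Cut l t' w s) (ht : t ≤ t') (hl : t' ≤ l.length) :
    Cut (ins 0 (l.length - t) l) (t' + 1) w s := by
  have hp : 0 ≤ l.length := Nat.zero_le _
  set v := l.length - t with hv
  intro i j h1 h2 h3 h4
  rw [ins_length] at h2 h3 h4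
  rcases g_ins (v := v) hp (show i < _ by omega) with ⟨ei, gi⟩ | ⟨i0, li, gi, ci⟩ <;>
  rcases g_ins (v := v) hp h2 with ⟨ej, gj⟩ | ⟨j0, lj, gj, cj⟩ <;> try omega
  have := bump_cases v (g l i0); have := bump_cases v (g l j0)
  have := h i0 j0 (by omega) lj (by omega) (by omega)
  omega

/-- the values prepended in stage E; `n` is the current length, `p` the number of marks so far -/
def vals : List (ℕ × Bool) → List ℕ → ℕ → ℕ → List ℕ
  | [], _, _, _ => []
  | x :: r, gs, n, p =>
    if x.2 = true then x.1 :: (n + 1 - (gs.headD 0 + p)) :: vals r gs.tail (n + 2) (p + 1)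
    else x.1 :: vals r gs (n + 1) p

def stE : List ℕ → List ℕ → List ℕ
  | [], l => l
  | v :: vs, l => stE vs (ins 0 v l)

@[simp] lemma stE_length (vs : List ℕ) : ∀ l : List ℕ,
    (stE vs l).length = l.length + vs.length := by
  induction vs with
  | nil => simp [stE]
  | cons d ds ih => intro l; simp [stE, ih]; omega

def marks (r : List (ℕ × Bool)) : List ℕ := (r.filter (fun x => x.2)).map (fun x => x.1)

lemma SE.mono {l : List ℕ} {lo lo' : ℕ} (h : SE l lo) (hl : lo ≤ lo') : SE l lo' :=
  ⟨h.isP, h.av, h.n213.mono hl⟩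

lemma SE_stE {m B J : ℕ} : ∀ (r : List (ℕ × Bool)) (cs : List (ℕ × ℕ)) (l : List ℕ)
    (lo s p j : ℕ), SE l lo → V m lo s r → j + r.length ≤ J → m < l.length →
    cs.Pairwise (fun x y => x.1 ≤ y.1) →
    (∀ x ∈ cs, m + (x.1 + p) < l.length ∧ Cut l (x.1 + p) (B - x.2 + j) s) →
    List.Forall₂ (fun c (x : ℕ × ℕ) => B - x.2 + J ≤ c + 1) (marks r) cs →
    ∃ lo', SE (stE (vals r (cs.map (fun x => x.1)) l.length p) l) lo'
  | [], _, l, lo, _, _, _, h, _, _, _, _, _, _ => ⟨lo, h⟩
  | x :: r, cs, l, lo, s, p, j, h, hV, hj, hm, hs, hc, hF => by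
    obtain ⟨h1, h2, h3, h4⟩ := hV
    simp only [List.length_cons] at hj
    have hE := h.stepE h1 (by omega)
    have hc1 : ∀ y ∈ cs, Cut (ins 0 x.1 l) (y.1 + p) (B - y.2 + (j + 1))
        (if s ≤ x.1 then x.1 + 1 else s + 1) := fun y hy =>
      (hc y hy).2.stepE (by have := (hc y hy).1; omega)
    by_cases hb : x.2 = true
    · simp only [marks, List.filter_cons, hb, if_true, List.map_cons] at hF
      obtain ⟨y, cs', rfl, hy, hF'⟩ : ∃ y cs', cs = y :: cs' ∧ B - y.2 + J ≤ x.1 + 1 ∧
          List.Forall₂ (fun c (x : ℕ × ℕ) => B - x.2 + J ≤ c + 1) (marks r) cs' := by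
        cases hF with
        | cons a b => exact ⟨_, _, rfl, a, b⟩
      have hsx := h3 hb
      simp only [hb, if_true, hsx] at h4 hc1
      have hy1 := (hc y (by simp)).1
      have hP := hE.stepP (hc1 y (by simp)) (by omega) (by simp; omega)
      have := SE_stE (B := B) (J := J) r cs' _ _ _ (p + 1) (j + 1) hP h4 (by omega)
        (by simp; omega) (List.pairwise_cons.1 hs).2 (fun z hz => by
          have hz1 := (hc z (by simp [hz])).1
          refine ⟨by simp; omega, ?_⟩
          exact (hc1 z (by simp [hz])).stepP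
            (by have := (List.pairwise_cons.1 hs).1 z hz; omega) (by simp; omega)) hF'
      simpa [vals, hb, stE] using this
    · simp only [marks, List.filter_cons, hb] at hF
      simp only [hb] at h4
      have := SE_stE (B := B) (J := J) r cs _ _ _ p (j + 1) hE h4 (by omega)
        (by simp; omega) hs (fun z hz => ⟨by have := (hc z hz).1; simp; omega, hc1 z hz⟩) hF
      simpa [vals, hb, stE] using this

end Pool.Agent.H11.Inv
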