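import Pool.Agent.H11.Inv1

/-! Inversion counts and injectivity of the construction. -/
set_option autoImplicit false
namespace Pool.Agent.H11.Inv

def inv : List ℕ → ℕ
  | [] => 0
  | x :: l => l.countP (fun y => y < x) + inv l

lemma inv_map_bump (v : ℕ) : ∀ l : List ℕ, inv (l.map (bump v)) = inv l
  | [] => rfl
  | x :: l => by
    simp only [List.map_cons, inv, inv_map_bump v l, List.countP_map]
    congr 1
    apply List.countP_congr
    intro y _
    have := bump_cases v x; have := bump_cases v y
    simp only [Function.comp, decide_eq_true_eq]; omega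

lemma inv_middle (v : ℕ) (B : List ℕ) : ∀ A : List ℕ,
    inv (A ++ v :: B) = inv (A ++ B) + A.countP (fun y => v < y) + B.countP (fun y => y < v)
  | [] => by simp [inv]; omega
  | x :: A => by
    simp only [List.cons_append, inv, inv_middle v B A, List.countP_append, List.countP_cons]
    by_cases h : v < x <;> simp [h] <;> omega

lemma inv_ins (p v : ℕ) (l : List ℕ) : inv (ins p v l) =
    inv l + (l.take p).countP (fun y => v ≤ y) + (l.drop p).countP (fun y => y < v) := by
  unfold ins
  rw [inv_middle, ← List.map_append, List.take_append_drop, inv_map_bump, List.countP_map,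
    List.countP_map]
  congr 1
  · congr 1
    apply List.countP_congr
    intro y _
    have := bump_cases v y
    simp only [Function.comp, decide_eq_true_eq]; omega
  · apply List.countP_congr
    intro y _
    have := bump_cases v y
    simp only [Function.comp, decide_eq_true_eq]; omega

lemma countP_le_of_subset {l : List ℕ} (h : l.Nodup) (P : ℕ → Bool) (s : List ℕ)
    (hs : ∀ x ∈ l, P x = true → x ∈ s) : l.countP P ≤ s.length := by
  rw [List.countP_eq_length_filter]
  refine (List.subperm_of_subset (h.filter _) ?_).length_le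
  intro x hx
  rw [List.mem_filter] at hx
  exact hs x hx.1 hx.2

lemma inv_stL (l : List ℕ) : ∀ ds : List ℕ, inv (stL ds l) ≤ inv l + ds.sum
  | [] => by simp [stL]
  | d :: ds => by
    have ih := inv_stL l ds
    have h1 : ((stL ds l).take d).countP (fun y => 0 ≤ y) ≤ d :=
      List.countP_le_length.trans (by simp)
    simp only [stL, inv_ins, List.sum_cons]
    have h2 : ((stL ds l).drop d).countP (fun y => y < 0) = 0 := by simp
    omega

lemma isP_stT {l : List ℕ} (h : IsP l) : ∀ cs : List ℕ, IsP (stT cs l)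
  | [] => h
  | c :: cs => (isP_stT h cs).ins _ (Nat.sub_le _ _)

lemma inv_stT {l : List ℕ} (h : IsP l) : ∀ cs : List ℕ, inv (stT cs l) ≤ inv l + cs.sum
  | [] => by simp [stT]
  | c :: cs => by
    have ih := inv_stT h cs
    have hP := isP_stT h cs
    set L := stT cs l with hL
    have h1 : L.countP (fun y => L.length - c ≤ y) ≤ c := by
      refine (countP_le_of_subset hP.1 _ (List.range' (L.length - c) c) ?_).trans (by simp)
      intro x hx h2
      have := hP.2 x hx
      simp only [decide_eq_true_eq] at h2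
      rw [List.mem_range'_1]; omega
    simp only [stT, ← hL, inv_ins, List.sum_cons, List.take_length, List.drop_length,
      List.countP_nil]
    omega

lemma inv_stH : ∀ (r : List (ℕ × Bool)) (l : List ℕ), IsP l →
    inv (stH r l) ≤ inv l + (r.map (fun x => x.1)).sum
  | [], l, _ => by simp [stH]
  | x :: r, l, h => by
    have ih := inv_stH r _ (h.ins (l.length - x.1) le_rfl)
    have h1 : (l.take (l.length - x.1)).countP (fun y => l.length ≤ y) = 0 := by
      rw [List.countP_eq_zero]
      intro y hy
      have := h.2 y (List.mem_of_mem_take hy)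
      simp; omega
    have h2 : (l.drop (l.length - x.1)).countP (fun y => y < l.length) ≤ x.1 :=
      List.countP_le_length.trans (by simp; omega)
    rw [inv_ins] at ih
    simp only [stH, List.map_cons, List.sum_cons]
    omega

lemma nodup_ins {l : List ℕ} (h : l.Nodup) (p v : ℕ) : (ins p v l).Nodup := by
  refine (ins_perm p v l).nodup_iff.2 ?_
  refine List.nodup_cons.2 ⟨?_, h.map (bump_inj v)⟩
  intro hm
  obtain ⟨x, -, hx⟩ := List.mem_map.1 hm
  have := bump_cases v x; omega

lemma inv_stE : ∀ (vs : List ℕ) (l : List ℕ), l.Nodup → inv (stE vs l) ≤ inv l + vs.sum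
  | [], l, _ => by simp [stE]
  | v :: vs, l, h => by
    have ih := inv_stE vs _ (nodup_ins h 0 v)
    have h2 : l.countP (fun y => y < v) ≤ v := by
      refine (countP_le_of_subset h _ (List.range v) ?_).trans (by simp)
      intro x _ h2
      simpa using h2
    rw [inv_ins] at ih
    simp only [stE, List.sum_cons]
    simp only [List.take_zero, List.countP_nil, List.drop_zero] at ih
    omega

lemma marks_cons (x : ℕ × Bool) (r : List (ℕ × Bool)) :
    marks (x :: r) = if x.2 = true then x.1 :: marks r else marks r := by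
  unfold marks; rw [List.filter_cons]; split_ifs <;> simp

lemma vals_length : ∀ (r : List (ℕ × Bool)) (gs : List ℕ) (n p : ℕ),
    (vals r gs n p).length = r.length + (marks r).length
  | [], _, _, _ => by simp [vals, marks]
  | x :: r, gs, n, p => by
    simp only [vals, marks_cons]
    split_ifs <;> simp [vals_length r] <;> omega

lemma vals_sum (N : ℕ) : ∀ (r : List (ℕ × Bool)) (gs : List ℕ) (n p : ℕ),
    n + r.length + (marks r).length ≤ N →
    (vals r gs n p).sum ≤ (r.map (fun x => x.1)).sum + (marks r).length * N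
  | [], _, _, _, _ => by simp [vals]
  | x :: r, gs, n, p, h => by
    simp only [vals, marks_cons] at h ⊢
    split_ifs at h ⊢
    · simp only [List.length_cons] at h
      have := vals_sum N r gs.tail (n + 2) (p + 1) (by omega)
      simp only [List.sum_cons, List.map_cons, List.length_cons, Nat.add_mul]
      omega
    · simp only [List.length_cons] at h
      have := vals_sum N r gs (n + 1) p (by omega)
      simp only [List.sum_cons, List.map_cons]
      omega

lemma inv_range (m : ℕ) : inv (List.range m) = 0 := by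
  induction m with
  | zero => rfl
  | succ m ih =>
    rw [List.range_succ, inv_middle, List.append_nil, ih]
    simp only [List.countP_nil, add_zero, zero_add, List.countP_eq_zero]
    intro y hy
    simp at hy ⊢; omega

/-! ### injectivity -/

lemma ins_inj_val {p p' v : ℕ} {l l' : List ℕ} (hp : p ≤ l.length) (hp' : p' ≤ l'.length)
    (h : ins p v l = ins p' v l') : p = p' ∧ l = l' := by
  have hn : ∀ A : List ℕ, v ∉ A.map (bump v) := fun A hm => by
    obtain ⟨x, -, hx⟩ := List.mem_map.1 hm
    have := bump_cases v x; omega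
  unfold ins at h
  obtain ⟨h1, -, h3⟩ := (List.append_cons_inj_of_notMem (hn _) (hn _)).1 h
  have h1' := List.map_injective_iff.2 (bump_inj v) h1
  have h3' := List.map_injective_iff.2 (bump_inj v) h3
  refine ⟨?_, ?_⟩
  · have := congrArg List.length h1'
    simp at this; omega
  · rw [← List.take_append_drop p l, h1', h3', List.take_append_drop]

lemma ins_inj_pos {p v v' : ℕ} {l l' : List ℕ} (hp : p ≤ l.length)
    (h : ins p v l = ins p v' l') : v = v' ∧ l = l' := by
  have hl : l.length = l'.length := by simpa using congrArg List.length h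
  have h0 := h
  unfold ins at h
  obtain ⟨-, h2⟩ := List.append_inj h (by simp [hl])
  have hv : v = v' := (List.cons.inj h2).1
  subst hv
  exact ⟨rfl, (ins_inj_val hp (hl ▸ hp) h0).2⟩

lemma stL_inj {l : List ℕ} : ∀ (ds ds' : List ℕ) (M M' : ℕ), M ≤ l.length → M' ≤ l.length →
    Dec M ds → Dec M' ds' → ds.length = ds'.length → stL ds l = stL ds' l → ds = ds'
  | [], [], _, _, _, _, _, _, _, _ => rfl
  | [], _ :: _, _, _, _, _, _, _, h, _ => by simp at h
  | _ :: _, [], _, _, _, _, _, _, h, _ => by simp at h
  | d :: ds, d' :: ds', M, M', hM, hM', h1, h2, hl, h => by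
    obtain ⟨e1, e2⟩ := ins_inj_val (by simp; have := h1.1; omega) (by simp; have := h2.1; omega) h
    rw [e1, stL_inj ds ds' d d' (h1.1.trans hM) (h2.1.trans hM') h1.2 h2.2 (by simpa using hl) e2]

lemma stT_inj {l l' : List ℕ} (hll : l.length = l'.length) : ∀ (cs cs' : List ℕ) (M M' : ℕ),
    M ≤ l.length → M' ≤ l.length → Dec M cs → Dec M' cs' → cs.length = cs'.length →
    stT cs l = stT cs' l' → cs = cs' ∧ l = l'
  | [], [], _, _, _, _, _, _, _, h => ⟨rfl, h⟩
  | [], _ :: _, _, _, _, _, _, _, h, _ => by simp at h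
  | _ :: _, [], _, _, _, _, _, _, h, _ => by simp at h
  | d :: ds, d' :: ds', M, M', hM, hM', h1, h2, hl, h => by
    have hl' : ds.length = ds'.length := by simpa using hl
    have hlen : (stT ds' l').length = (stT ds l).length := by simp [hll, hl']
    simp only [stT] at h
    rw [hlen] at h
    obtain ⟨e1, e2⟩ := ins_inj_pos le_rfl h
    obtain ⟨e3, e4⟩ := stT_inj hll ds ds' d d' (h1.1.trans hM) (h2.1.trans hM') h1.2 h2.2 hl' e2
    have := h1.1; have := h2.1
    simp at e1
    exact ⟨by rw [e3, show d = d' by omega], e4⟩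

lemma stH_inj : ∀ (r r' : List (ℕ × Bool)) (l l' : List ℕ), l.length = l'.length →
    (∀ x ∈ r, x.1 ≤ l.length) → (∀ x ∈ r', x.1 ≤ l.length) → r.length = r'.length →
    stH r l = stH r' l' → r.map (fun x => x.1) = r'.map (fun x => x.1) ∧ l = l'
  | [], [], _, _, _, _, _, _, h => ⟨rfl, h⟩
  | [], _ :: _, _, _, _, _, _, h, _ => by simp at h
  | _ :: _, [], _, _, _, _, _, h, _ => by simp at h
  | x :: r, x' :: r', l, l', hll, h1, h2, hl, h => by
    simp only [stH] at h
    obtain ⟨e1, e2⟩ := stH_inj r r' _ _ (by simp [hll])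
      (fun y hy => by have := h1 y (by simp [hy]); simp; omega)
      (fun y hy => by have := h2 y (by simp [hy]); simp; omega) (by simpa using hl) h
    rw [← hll] at e2
    obtain ⟨e3, e4⟩ := ins_inj_val (Nat.sub_le _ _) (by omega) e2
    have := h1 x (by simp); have := h2 x' (by simp)
    exact ⟨by simp only [List.map_cons, e1, show x.1 = x'.1 by omega], e4⟩

lemma cuts_inj : ∀ (r r' : List (ℕ × Bool)), r.map (fun x => x.1) = r'.map (fun x => x.1) →
    (cuts r).map (fun x => x.1) = (cuts r').map (fun x => x.1) → r = r'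
  | [], [], _, _ => rfl
  | [], _ :: _, h, _ => by simp at h
  | _ :: _, [], h, _ => by simp at h
  | (c, b) :: r, (c', b') :: r', h, h2 => by
    simp only [List.map_cons, List.cons.injEq] at h
    obtain ⟨rfl, h⟩ := h
    have hl : r.length = r'.length := by simpa using congrArg List.length h
    have key : ∀ (s : List (ℕ × Bool)) (t : List ℕ), s.length = r.length →
        (cuts s).map (fun x => x.1) ≠ t ++ [r.length + 1] := fun s t hs he => by
      have : r.length + 1 ∈ (cuts s).map (fun x => x.1) := by rw [he]; simp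
      obtain ⟨y, hy, hy2⟩ := List.mem_map.1 this
      have := cuts_le s y hy
      omega
    cases b <;> cases b' <;> simp only [cuts, List.map_append] at h2
    · simp at h2
      rw [cuts_inj r r' h h2]
    · simp only [Bool.false_eq_true, if_false, List.map_nil, List.append_nil, if_true,
        List.map_cons, ← hl] at h2
      exact absurd h2 (key r _ rfl)
    · simp only [Bool.false_eq_true, if_false, List.map_nil, List.append_nil, if_true,
        List.map_cons] at h2
      exact absurd h2.symm (key r' _ hl.symm)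
    · simp only [if_true, List.map_cons, List.map_nil, hl] at h2
      rw [cuts_inj r r' h (List.append_cancel_right h2)]

lemma stE_inj : ∀ (vs vs' : List ℕ) (l l' : List ℕ), vs.length = vs'.length →
    stE vs l = stE vs' l' → vs = vs' ∧ l = l'
  | [], [], _, _, _, h => ⟨rfl, h⟩
  | [], _ :: _, _, _, h, _ => by simp at h
  | _ :: _, [], _, _, h, _ => by simp at h
  | v :: vs, v' :: vs', l, l', hl, h => by
    simp only [stE] at h
    obtain ⟨e1, e2⟩ := stE_inj vs vs' _ _ (by simpa using hl) h
    obtain ⟨e3, e4⟩ := ins_inj_pos (Nat.zero_le _) e2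
    exact ⟨by rw [e1, e3], e4⟩

lemma vals_head {m : ℕ} {r : List (ℕ × Bool)} (h : ∀ x ∈ r, x.1 ≤ m) (gs : List ℕ) (n p v : ℕ)
    (t : List ℕ) (he : vals r gs n p = v :: t) : v ≤ m := by
  cases r with
  | nil => simp [vals] at he
  | cons x r =>
    have := h x (by simp)
    simp only [vals] at he
    split_ifs at he <;> (have := (List.cons.inj he).1; omega)

lemma vals_inj {m : ℕ} : ∀ (r r' : List (ℕ × Bool)) (gs gs' : List ℕ) (n p : ℕ),
    (∀ x ∈ r, x.1 ≤ m) → (∀ x ∈ r', x.1 ≤ m) → (∀ y ∈ gs, m + (y + p) ≤ n) →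
    (∀ y ∈ gs', m + (y + p) ≤ n) → gs.length = (marks r).length → gs'.length = (marks r').length →
    vals r gs n p = vals r' gs' n p → r = r' ∧ gs = gs'
  | [], [], gs, gs', _, _, _, _, _, _, h1, h2, _ => by
    simp [marks] at h1 h2; simp [h1, h2]
  | [], x :: _, _, _, _, _, _, _, _, _, _, _, h => by
    simp only [vals] at h; split_ifs at h <;> simp at h
  | x :: _, [], _, _, _, _, _, _, _, _, _, _, h => by
    simp only [vals] at h; split_ifs at h <;> simp at h
  | (c, b) :: r, (c', b') :: r', gs, gs', n, p, h1, h2, h3, h4, h5, h6, h => by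
    have h1' : ∀ x ∈ r, x.1 ≤ m := fun x hx => h1 x (by simp [hx])
    have h2' : ∀ x ∈ r', x.1 ≤ m := fun x hx => h2 x (by simp [hx])
    cases b <;> cases b' <;>
      simp only [vals, marks_cons, Bool.false_eq_true, if_false, if_true, List.cons.injEq,
        List.length_cons] at h h5 h6
    · obtain ⟨e1, e2⟩ := vals_inj r r' gs gs' (n + 1) p h1' h2'
        (fun y hy => by have := h3 y hy; omega) (fun y hy => by have := h4 y hy; omega) h5 h6 h.2
      exact ⟨by rw [e1, h.1], e2⟩
    · obtain ⟨y, gs', rfl⟩ := List.exists_cons_of_length_eq_add_one h6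
      have := vals_head h1' _ _ _ _ _ h.2
      have := h4 y (by simp)
      simp at *; omega
    · obtain ⟨y, gs, rfl⟩ := List.exists_cons_of_length_eq_add_one h5
      have := vals_head h2' _ _ _ _ _ h.2.symm
      have := h3 y (by simp)
      simp at *; omega
    · obtain ⟨y, gs, rfl⟩ := List.exists_cons_of_length_eq_add_one h5
      obtain ⟨y', gs', rfl⟩ := List.exists_cons_of_length_eq_add_one h6
      obtain ⟨e0, e1, e2⟩ := h
      simp only [List.headD_cons, List.tail_cons] at e1 e2
      obtain ⟨e3, e4⟩ := vals_inj r r' gs gs' (n + 2) (p + 1) h1' h2'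
        (fun z hz => by have := h3 z (by simp [hz]); omega)
        (fun z hz => by have := h4 z (by simp [hz]); omega) (by simpa using h5)
        (by simpa using h6) e2
      have := h3 y (by simp); have := h4 y' (by simp)
      exact ⟨by rw [e0, e3], by rw [e4, show y = y' by omega]⟩

lemma V_le {m : ℕ} : ∀ (r : List (ℕ × Bool)) (lo s : ℕ), V m lo s r → ∀ x ∈ r, x.1 ≤ m
  | [], _, _, _ => by simp
  | y :: r, _, _, h => by
    intro x hx
    rcases List.mem_cons.1 hx with rfl | hx
    · exact h.2.1
    · exact V_le r _ _ h.2.2.2 x hx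

lemma cuts_snd : ∀ r : List (ℕ × Bool), (cuts r).map (fun x => x.2) = (marks r).reverse
  | [] => rfl
  | x :: r => by
    simp only [cuts, marks_cons, List.map_append, cuts_snd r]
    split_ifs <;> simp

/-! ### the whole construction -/

def core (m : ℕ) (ds cs : List ℕ) (H : List (ℕ × Bool)) : List ℕ :=
  stH H (stT cs (stL ds (List.range m)))

def build (m : ℕ) (ds cs : List ℕ) (H E : List (ℕ × Bool)) : List ℕ :=
  stE (vals E ((cuts H).map (fun x => x.1)) (core m ds cs H).length 0) (core m ds cs H)

/-- admissible data -/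
structure Adm (m θ J P jH jE : ℕ) (ds cs : List ℕ) (H E : List (ℕ × Bool)) : Prop where
  hds : Dec (m - 1) ds
  hcs : Dec (m - 1) cs
  lds : ds.length = θ
  lcs : cs.length = θ
  vH : V m (θ + 1) 0 H
  vE : V m (θ + 1) 0 E
  lH : H.length = jH
  lE : E.length = jE
  mH : (marks H).length = P
  mE : (marks E).length = P
  cond : List.Forall₂ (fun c e => m + 4 * θ + J - e + J ≤ c + 1) (marks E) (marks H).reverse

lemma core_length (m : ℕ) (ds cs : List ℕ) (H : List (ℕ × Bool)) :
    (core m ds cs H).length = m + ds.length + cs.length + H.length := by simp [core]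

lemma Adm.length {m θ J P jH jE : ℕ} {ds cs : List ℕ} {H E : List (ℕ × Bool)}
    (h : Adm m θ J P jH jE ds cs H E) :
    (build m ds cs H E).length = m + 2 * θ + jH + jE + P := by
  simp [build, core_length, vals_length, h.lds, h.lcs, h.lH, h.lE, h.mE]; omega

lemma Adm.good {m θ J P jH jE : ℕ} {ds cs : List ℕ} {H E : List (ℕ × Bool)}
    (h : Adm m θ J P jH jE ds cs H E) (hm : 1 ≤ m) (hθ : 1 ≤ θ) (hH : jH ≤ J) (hE : jE ≤ J) :
    IsP (build m ds cs H E) ∧ Av (build m ds cs H E) := by
  have h1 := SL_stL m ds (m - 1) (by omega) h.hds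
  rw [h.lds] at h1
  have h2 := ST_stT h1 (by simp; omega) cs (m - 1) (by simp [h.lds]; omega) h.hcs
  rw [h.lcs] at h2
  set l2 := stT cs (stL ds (List.range m)) with hl2
  have hlen : l2.length = m + 2 * θ := by simp [hl2, h.lds, h.lcs]; omega
  have h3 : SH l2 (θ + 1) 0 θ (θ + θ) :=
    ⟨h2.isP, h2.av, h2.npos.mono (by simp [h.lds]; omega) le_rfl, h2.first,
      fun i hi => Or.inl (h2.kb i hi)⟩
  obtain ⟨⟨lo', s', h4⟩, -, h5⟩ := SH_stH (B := m + 4 * θ + J) H l2 _ _ h3 h.vH (by omega)
    (by rw [h.lH]; omega)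
  have hc : stH H l2 = core m ds cs H := rfl
  rw [hc] at h4 h5
  have hcl : (core m ds cs H).length = m + 2 * θ + jH := by
    simp [core_length, h.lds, h.lcs, h.lH]; omega
  have h6 : SE (core m ds cs H) (θ + 1) := by
    refine ⟨h4.isP, h4.av, ?_⟩
    intro i j k h1 h2 h3 h5 h6 h7
    have := h4.first
    rcases Nat.eq_zero_or_pos i with rfl | hi
    · omega
    · exact h4.av 0 i j k hi h1 h2 h3 (by omega) h6 h7
  obtain ⟨lo, h7⟩ := SE_stE (m := m) (B := m + 4 * θ + J) (J := J) E (cuts H) _ _ 0 0 0 h6 h.vE
    (by rw [h.lE]; omega) (by omega) (cuts_sorted H)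
    (fun x hx => ⟨by have := cuts_le H x hx; have := h.lH; omega, (h5 x hx).cut 0⟩)
    (by have := h.cond; rw [← cuts_snd, List.forall₂_map_right_iff] at this; exact this)
  exact ⟨h7.isP, h7.av⟩

lemma Adm.inv_le {m θ J P jH jE : ℕ} {ds cs : List ℕ} {H E : List (ℕ × Bool)}
    (h : Adm m θ J P jH jE ds cs H E) :
    inv (build m ds cs H E) ≤ ds.sum + cs.sum + (H.map (fun x => x.1)).sum +
      (E.map (fun x => x.1)).sum + P * (m + 2 * θ + jH + jE + P) := by
  have h1 := SL_stL m ds (m - 1) (by omega) h.hds
  have a1 := inv_stL (List.range m) ds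
  have a2 := inv_stT h1.isP cs
  have p2 := isP_stT h1.isP cs
  have a3 := inv_stH H _ p2
  have p3 : (core m ds cs H).Nodup := by
    have : ∀ (r : List (ℕ × Bool)) (l : List ℕ), l.Nodup → (stH r l).Nodup := by
      intro r
      induction r with
      | nil => intro l hl; exact hl
      | cons x r ih => intro l hl; exact ih _ (nodup_ins hl _ _)
    exact this _ _ p2.1
  have a4 := inv_stE (vals E ((cuts H).map (fun x => x.1)) (core m ds cs H).length 0) _ p3
  have a5 := vals_sum (m + 2 * θ + jH + jE + P) E ((cuts H).map (fun x => x.1))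
    (core m ds cs H).length 0 (by simp [core_length, h.lds, h.lcs, h.lH, h.lE, h.mE]; omega)
  rw [inv_range] at a1
  rw [h.mE] at a5
  unfold build
  unfold core at a4 a5 ⊢
  omega

lemma Adm.inj {m θ J P jH jE : ℕ} {ds cs ds' cs' : List ℕ} {H E H' E' : List (ℕ × Bool)}
    (h : Adm m θ J P jH jE ds cs H E) (h' : Adm m θ J P jH jE ds' cs' H' E')
    (he : build m ds cs H E = build m ds' cs' H' E') :
    ds = ds' ∧ cs = cs' ∧ H = H' ∧ E = E' := by
  have hcl : (core m ds cs H).length = m + 2 * θ + jH := by
    simp [core_length, h.lds, h.lcs, h.lH]; omega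
  have hcl' : (core m ds' cs' H').length = m + 2 * θ + jH := by
    simp [core_length, h'.lds, h'.lcs, h'.lH]; omega
  unfold build at he
  obtain ⟨e1, e2⟩ := stE_inj _ _ _ _ (by simp [vals_length, h.lE, h'.lE, h.mE, h'.mE]) he
  rw [hcl, hcl'] at e1
  have hlc : ∀ r : List (ℕ × Bool), (cuts r).length = (marks r).length := fun r => by
    simpa using congrArg List.length (cuts_snd r)
  obtain ⟨e3, e4⟩ := vals_inj (m := m) _ _ _ _ _ _ (V_le _ _ _ h.vE) (V_le _ _ _ h'.vE)
    (fun y hy => by
      obtain ⟨x, hx, rfl⟩ := List.mem_map.1 hy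
      have := cuts_le H x hx; have := h.lH; omega)
    (fun y hy => by
      obtain ⟨x, hx, rfl⟩ := List.mem_map.1 hy
      have := cuts_le H' x hx; have := h'.lH; omega)
    (by simp [hlc, h.mH, h.mE]) (by simp [hlc, h'.mH, h'.mE]) e1
  unfold core at e2
  obtain ⟨e5, e6⟩ := stH_inj _ _ _ _ (by simp [h.lds, h.lcs, h'.lds, h'.lcs])
    (fun x hx => by have := V_le _ _ _ h.vH x hx; simp; omega)
    (fun x hx => by have := V_le _ _ _ h'.vH x hx; simp; omega) (by rw [h.lH, h'.lH]) e2
  obtain ⟨e7, e8⟩ := stT_inj (by simp [h.lds, h'.lds]) _ _ _ _ (by simp; omega) (by simp; omega)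
    h.hcs h'.hcs (by rw [h.lcs, h'.lcs]) e6
  exact ⟨stL_inj _ _ _ _ (by simp) (by simp) h.hds h'.hds (by rw [h.lds, h'.lds]) e8, e7,
    cuts_inj _ _ e5 e4, e3⟩

end Pool.Agent.H11.Inv
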