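import Pool.Agent.H11.Inv2

/-! Weighted families. -/
set_option autoImplicit false
namespace Pool.Agent.H11.Inv
open Finset

/-! ### decreasing lists and the Gaussian binomial -/

def DS : ℕ → ℕ → Finset (List ℕ)
  | 0, _ => {[]}
  | j + 1, M => (range (M + 1)).biUnion (fun x => (DS j x).image (fun l => x :: l))

lemma mem_DS : ∀ (j M : ℕ) (l : List ℕ), l ∈ DS j M ↔ l.length = j ∧ Dec M l
  | 0, M, l => by
    simp only [DS, mem_singleton, List.length_eq_zero_iff]
    exact ⟨fun h => ⟨h, h ▸ trivial⟩, fun h => h.1⟩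
  | j + 1, M, l => by
    simp only [DS, mem_biUnion, mem_range, mem_image, mem_DS j]
    constructor
    · rintro ⟨x, hx, t, ⟨h1, h2⟩, rfl⟩
      exact ⟨by simp [h1], by omega, h2⟩
    · rintro ⟨h1, h2⟩
      cases l with
      | nil => simp at h1
      | cons x t => exact ⟨x, by have := h2.1; omega, t, ⟨by simpa using h1, h2.2⟩, rfl⟩

noncomputable def Wt (q : ℝ) (j M : ℕ) : ℝ := ∑ l ∈ DS j M, q ^ l.sum

lemma Wt_succ (q : ℝ) (j M : ℕ) : Wt q (j + 1) M = ∑ x ∈ range (M + 1), q ^ x * Wt q j x := by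
  unfold Wt
  rw [DS, sum_biUnion]
  · refine sum_congr rfl fun x _ => ?_
    rw [sum_image (fun a _ b _ h => (List.cons.inj h).2), mul_sum]
    simp [pow_add]
  · intro x _ y _ hxy
    simp only [Function.onFun, disjoint_left, mem_image]
    rintro _ ⟨a, -, rfl⟩ ⟨b, -, h⟩
    exact hxy (List.cons.inj h).1.symm

lemma Wt_closed (q : ℝ) : ∀ j M : ℕ,
    Wt q j M * ∏ i ∈ range j, (1 - q ^ (i + 1)) = ∏ i ∈ range j, (1 - q ^ (M + i + 1))
  | 0, M => by simp [Wt, DS]
  | j + 1, M => by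
    induction M with
    | zero =>
      have := Wt_closed q j 0
      rw [Wt_succ, prod_range_succ, prod_range_succ, ← this]
      simp; ring
    | succ M ih =>
      have h1 := Wt_closed q j (M + 1)
      have h2 : Wt q (j + 1) (M + 1) = Wt q (j + 1) M + q ^ (M + 1) * Wt q j (M + 1) := by
        rw [Wt_succ, sum_range_succ, ← Wt_succ]
      rw [h2, add_mul, ih, prod_range_succ' (fun i => 1 - q ^ (M + i + 1)),
        prod_range_succ (fun i => 1 - q ^ (M + 1 + i + 1)),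
        prod_range_succ (fun i => 1 - q ^ (i + 1))]
      have h3 : ∏ i ∈ range j, (1 - q ^ (M + (i + 1) + 1)) =
          ∏ i ∈ range j, (1 - q ^ (M + 1 + i + 1)) :=
        prod_congr rfl fun i _ => by rw [show M + (i + 1) + 1 = M + 1 + i + 1 by ring]
      rw [h3, ← h1]
      ring

/-! ### instruction families -/

abbrev IL := List (ℕ × Bool)

noncomputable def wt (q y : ℝ) (l : IL) : ℝ := q ^ (l.map (fun x => x.1)).sum * y ^ l.length

noncomputable def GF (q y : ℝ) (A : Finset IL) : ℝ := ∑ l ∈ A, wt q y l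

def cat (A B : Finset IL) : Finset IL := (A ×ˢ B).image (fun x => x.1 ++ x.2)

lemma mem_cat {A B : Finset IL} {l : IL} : l ∈ cat A B ↔ ∃ a ∈ A, ∃ b ∈ B, a ++ b = l := by
  simp only [cat, mem_image, mem_product, Prod.exists]
  constructor
  · rintro ⟨a, b, ⟨h1, h2⟩, h⟩; exact ⟨a, h1, b, h2, h⟩
  · rintro ⟨a, h1, b, h2, h⟩; exact ⟨a, b, ⟨h1, h2⟩, h⟩

def Rng (A : Finset IL) (c0 c1 : ℕ) : Prop := ∀ l ∈ A, ∀ x ∈ l, c0 ≤ x.1 ∧ x.1 < c1

lemma wt_nonneg {q y : ℝ} (hq : 0 ≤ q) (hy : 0 ≤ y) (l : IL) : 0 ≤ wt q y l := by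
  unfold wt; positivity

lemma GF_nonneg {q y : ℝ} (hq : 0 ≤ q) (hy : 0 ≤ y) (A : Finset IL) : 0 ≤ GF q y A :=
  sum_nonneg fun l _ => wt_nonneg hq hy l

lemma GF_cat (q y : ℝ) {A B : Finset IL} {c0 c1 c2 : ℕ} (hA : Rng A c0 c1) (hB : Rng B c1 c2) :
    GF q y (cat A B) = GF q y A * GF q y B := by
  have key : ∀ a ∈ A, ∀ b ∈ B, (a ++ b).filter (fun x => x.1 < c1) = a := by
    intro a ha b hb
    rw [List.filter_append, List.filter_eq_self.2, List.filter_eq_nil_iff.2, List.append_nil]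
    · intro x hx; have := (hB b hb x hx).1; simp; omega
    · intro x hx; have := (hA a ha x hx).2; simp; omega
  unfold GF cat
  rw [sum_image, sum_product, sum_mul_sum]
  · refine sum_congr rfl fun a _ => sum_congr rfl fun b _ => ?_
    simp only [wt, List.map_append, List.sum_append, List.length_append, pow_add]; ring
  · rintro ⟨a, b⟩ h ⟨a', b'⟩ h' he
    simp only [coe_product, Set.mem_prod, mem_coe] at h h' he
    have e : a = a' := by rw [← key a h.1 b h.2, he, key a' h'.1 b' h'.2]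
    subst e
    rw [List.append_cancel_left he]

def Tr (m a u : ℕ) (A : Finset IL) (c0 c1 : ℕ) : Prop :=
  ∀ l ∈ A, ∀ (r : IL) (lo s : ℕ), lo ≤ c0 → (s + l.length + r.length ≤ a ∨ s ≤ c0 + 1) →
    u + l.length + r.length ≤ a →
    (∀ lo' s', lo' ≤ c1 → (s' + r.length ≤ a ∨ s' ≤ c1 + 1) → V m lo' s' r) → V m lo s (l ++ r)

structure Gd (q y : ℝ) (m a u : ℕ) (A : Finset IL) (c0 c1 : ℕ) (W ρ : ℝ) : Prop where
  le : c0 ≤ c1
  rng : Rng A c0 c1
  w0 : 0 ≤ W
  r0 : 0 ≤ ρ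
  low : W ≤ GF q 1 A
  up : GF q y A ≤ ρ * GF q 1 A
  tr : Tr m a u A c0 c1

lemma Gd.cat {q y : ℝ} (hq : 0 ≤ q) (hy : 0 ≤ y) {m a u : ℕ} {A B : Finset IL} {c0 c1 c2 : ℕ}
    {W ρ W' ρ' : ℝ} (h : Gd q y m a u A c0 c1 W ρ) (h' : Gd q y m a u B c1 c2 W' ρ') :
    Gd q y m a u (cat A B) c0 c2 (W * W') (ρ * ρ') := by
  refine ⟨h.le.trans h'.le, ?_, mul_nonneg h.w0 h'.w0, mul_nonneg h.r0 h'.r0, ?_, ?_, ?_⟩
  · intro l hl x hx
    obtain ⟨s, hs, t, ht, rfl⟩ := mem_cat.1 hl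
    have := h.le; have := h'.le
    rcases List.mem_append.1 hx with hx | hx
    · have := h.rng s hs x hx; omega
    · have := h'.rng t ht x hx; omega
  · rw [GF_cat q 1 h.rng h'.rng]
    exact mul_le_mul h.low h'.low h'.w0 (GF_nonneg hq zero_le_one _)
  · rw [GF_cat q 1 h.rng h'.rng, GF_cat q y h.rng h'.rng]
    calc _ ≤ (ρ * GF q 1 A) * (ρ' * GF q 1 B) :=
          mul_le_mul h.up h'.up (GF_nonneg hq hy _) (mul_nonneg h.r0 (GF_nonneg hq zero_le_one _))
      _ = _ := by ring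
  · intro l hl r lo s h1 h2 h3 h4
    obtain ⟨s1, hs, t, ht, rfl⟩ := mem_cat.1 hl
    simp only [List.length_append] at h2 h3
    rw [List.append_assoc]
    refine h.tr s1 hs _ lo s h1 (by simp only [List.length_append]; omega)
      (by simp only [List.length_append]; omega) fun lo' s' h5 h6 => ?_
    simp only [List.length_append] at h6
    exact h'.tr t ht r lo' s' h5 (by omega) (by omega) h4

lemma Gd.mono {q y : ℝ} (hq : 0 ≤ q) {m a u : ℕ} {A : Finset IL} {c0 c1 : ℕ}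
    {W ρ W' ρ' : ℝ} (h : Gd q y m a u A c0 c1 W ρ) (h0 : 0 ≤ W') (hW : W' ≤ W) (hρ : ρ ≤ ρ') :
    Gd q y m a u A c0 c1 W' ρ' :=
  ⟨h.le, h.rng, h0, h.r0.trans hρ, hW.trans h.low,
    h.up.trans (mul_le_mul_of_nonneg_right hρ (GF_nonneg hq zero_le_one _)), h.tr⟩

lemma Gd.union {q y : ℝ} {m a u : ℕ} {A B : Finset IL} {c0 c1 : ℕ}
    {W ρ W' : ℝ} (h : Gd q y m a u A c0 c1 W ρ) (h' : Gd q y m a u B c0 c1 W' ρ)
    (hd : Disjoint A B) : Gd q y m a u (A ∪ B) c0 c1 (W + W') ρ := by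
  refine ⟨h.le, ?_, add_nonneg h.w0 h'.w0, h.r0, ?_, ?_, ?_⟩
  · intro l hl
    rcases mem_union.1 hl with hl | hl
    exacts [h.rng l hl, h'.rng l hl]
  · unfold GF; rw [sum_union hd]; exact add_le_add h.low h'.low
  · have := h.up; have := h'.up
    unfold GF at *; rw [sum_union hd, sum_union hd]; linarith
  · intro l hl
    rcases mem_union.1 hl with hl | hl
    exacts [h.tr l hl, h'.tr l hl]

lemma Gd.nil (q y : ℝ) (m a u c : ℕ) : Gd q y m a u {[]} c c 1 1 := by
  refine ⟨le_rfl, by simp [Rng], zero_le_one, zero_le_one, by simp [GF, wt], by simp [GF, wt], ?_⟩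
  intro l hl r lo s h1 h2 _ h4
  simp only [mem_singleton] at hl
  subst hl
  exact h4 lo s h1 (by simpa using h2)

noncomputable def ph (q η : ℝ) (c : ℕ) : ℝ := Real.exp (-(η * q ^ c)) / (1 - q ^ c)
noncomputable def Ps (q η : ℝ) (c0 c1 : ℕ) : ℝ := ∏ c ∈ Ico c0 c1, ph q η c
noncomputable def Tt (q : ℝ) (c0 c1 : ℕ) : ℝ := ∏ c ∈ Ico c0 c1, Real.exp (6 * q ^ c)

lemma exp_neg_le {a : ℝ} (h0 : 0 ≤ a) (h : a ≤ 1 / 2) : Real.exp (-(2 * a)) ≤ 1 - a := by
  have h1 := Real.add_one_le_exp (2 * a)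
  rw [Real.exp_neg, inv_le_comm₀ (Real.exp_pos _) (by linarith)]
  refine le_trans ?_ h1
  rw [inv_le_comm₀ (by linarith) (by linarith), ← one_div, div_le_iff₀ (by linarith)]
  nlinarith

def low (K c : ℕ) : Finset IL := (range (K + 1)).image (fun k => List.replicate k (c, false))

lemma V_low {m a c : ℕ} (hc : c ≤ m) (r : IL)
    (hr : ∀ lo' s', lo' ≤ c + 1 → s' + r.length ≤ a → V m lo' s' r) :
    ∀ k lo s, lo ≤ c → s + k + r.length ≤ a → c + 1 + k + r.length ≤ a →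
      V m lo s (List.replicate k (c, false) ++ r)
  | 0, lo, s, h1, h2, _ => hr lo s (by omega) (by omega)
  | k + 1, lo, s, h1, h2, h3 => by
    rw [List.replicate_succ, List.cons_append]
    refine ⟨h1, hc, by simp, ?_⟩
    exact V_low hc r hr k _ _ (by simp) (by dsimp only; split_ifs <;> omega) (by omega)

lemma GF_low (q y : ℝ) (K c : ℕ) : GF q y (low K c) = ∑ k ∈ range (K + 1), (q ^ c * y) ^ k := by
  unfold GF low
  rw [sum_image (fun a _ b _ h => by simpa using congrArg List.length h)]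
  refine sum_congr rfl fun k _ => ?_
  simp only [wt, List.map_replicate, List.sum_replicate, smul_eq_mul, List.length_replicate,
    mul_pow, ← pow_mul, mul_comm k c]

lemma Gd_low {q : ℝ} (hq : 0 ≤ q) {m a u K c : ℕ} (hx : q ^ c ≤ 1 / 2) (hc : c ≤ m)
    (hu : c < u) : Gd q (3 / 2) m a u (low K c) c (c + 1) (ph q (2 * (1 / 2) ^ K) c)
      (Real.exp (6 * q ^ c)) := by
  have hx0 : 0 ≤ q ^ c := pow_nonneg hq c
  set x := q ^ c with hxd
  have hg : ∀ z : ℝ, (∑ k ∈ range (K + 1), z ^ k) * (1 - z) = 1 - z ^ (K + 1) := fun z => by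
    have := geom_sum_mul_neg z (K + 1); linarith
  have h1 : 1 ≤ ∑ k ∈ range (K + 1), x ^ k := by
    rw [sum_range_succ']; simp only [pow_zero, le_add_iff_nonneg_left]; positivity
  refine ⟨by omega, ?_, ?_, (Real.exp_pos _).le, ?_, ?_, ?_⟩
  · intro l hl z hz
    obtain ⟨k, -, rfl⟩ := mem_image.1 hl
    rw [List.eq_of_mem_replicate hz]; simp
  · unfold ph; exact div_nonneg (Real.exp_pos _).le (by linarith)
  · rw [GF_low, mul_one, ph, div_le_iff₀ (by linarith), hg]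
    have h2 : x ^ (K + 1) ≤ (1 / 2) ^ K * x := by
      rw [pow_succ]; exact mul_le_mul_of_nonneg_right (pow_le_pow_left₀ hx0 hx K) hx0
    have h3 : (1 / 2 : ℝ) ^ K ≤ 1 := pow_le_one₀ (by norm_num) (by norm_num)
    have h4 := exp_neg_le (a := (1 / 2) ^ K * x) (by positivity) (by nlinarith)
    rw [mul_assoc]; linarith
  · rw [GF_low, GF_low, mul_one]
    have h2 := hg (x * (3 / 2))
    have h3 : 0 ≤ (x * (3 / 2)) ^ (K + 1) := by positivity
    have h4 : 0 ≤ ∑ k ∈ range (K + 1), (x * (3 / 2)) ^ k := by positivity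
    have h5 : ∑ k ∈ range (K + 1), (x * (3 / 2)) ^ k ≤ 6 * x + 1 := by
      by_contra hh
      push_neg at hh
      nlinarith
    have h6 := Real.add_one_le_exp (6 * x)
    nlinarith [Real.exp_pos (6 * x)]
  · intro l hl r lo s h1 h2 h3 h4
    obtain ⟨k, -, rfl⟩ := mem_image.1 hl
    simp only [List.length_replicate] at h2 h3
    exact V_low (a := a) hc r (fun lo' s' h5 h6 => h4 lo' s' h5 (Or.inl h6)) k lo s h1
      (by omega) (by omega)

def un (c : ℕ) : Finset IL :=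
  {[], [(c, false)], [(c + 1, false)], [(c, false), (c, false)], [(c, false), (c + 1, false)],
    [(c + 1, false), (c + 1, false)]}

lemma GF_un (q y : ℝ) (c : ℕ) : GF q y (un c) = 1 + y * (q ^ c + q ^ (c + 1)) +
    y ^ 2 * ((q ^ c) ^ 2 + q ^ c * q ^ (c + 1) + (q ^ (c + 1)) ^ 2) := by
  unfold GF un
  rw [sum_insert (by simp), sum_insert (by simp), sum_insert (by simp), sum_insert (by simp),
    sum_insert (by simp), sum_singleton]
  simp [wt, pow_add]; ring

lemma Ps_two (q η : ℝ) (c : ℕ) : Ps q η c (c + 2) = ph q η c * ph q η (c + 1) := by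
  unfold Ps; rw [prod_Ico_succ_top (by omega), prod_Ico_succ_top (by omega)]; simp

lemma Tt_two (q : ℝ) (c : ℕ) :
    Tt q c (c + 2) = Real.exp (6 * q ^ c) * Real.exp (6 * q ^ (c + 1)) := by
  unfold Tt; rw [prod_Ico_succ_top (by omega), prod_Ico_succ_top (by omega)]; simp

lemma ph_nonneg {q η : ℝ} {c : ℕ} (hx : q ^ c ≤ 1 / 2) : 0 ≤ ph q η c :=
  div_nonneg (Real.exp_pos _).le (by linarith)

lemma Gd_un {q η : ℝ} (hq : 0 ≤ q) (hq1 : q ≤ 1) {m a u c : ℕ} (hx : q ^ c ≤ 1 / 2)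
    (hη : 8 * (q ^ c) ^ 2 ≤ η) (hc : c + 1 ≤ m) :
    Gd q (3 / 2) m a u (un c) c (c + 2) (Ps q η c (c + 2)) (Tt q c (c + 2)) := by
  have hx0 : 0 ≤ q ^ c := pow_nonneg hq c
  have hz0 : 0 ≤ q ^ (c + 1) := pow_nonneg hq _
  have hzx : q ^ (c + 1) ≤ q ^ c := pow_le_pow_of_le_one hq hq1 (by omega)
  rw [Ps_two, Tt_two]
  refine ⟨by omega, ?_, mul_nonneg (ph_nonneg hx) (ph_nonneg (by linarith)), by positivity,
    ?_, ?_, ?_⟩
  · intro l hl z hz
    simp only [un, mem_insert, mem_singleton] at hl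
    rcases hl with rfl | rfl | rfl | rfl | rfl | rfl <;> simp at hz <;>
      (try rcases hz with rfl | rfl) <;> simp
  · rw [GF_un]
    unfold ph
    set x := q ^ c
    set z := q ^ (c + 1)
    rw [div_mul_div_comm, div_le_iff₀ (mul_pos (by linarith) (by linarith))]
    have hη0 : 0 ≤ η := le_trans (by positivity) hη
    have h1 : Real.exp (-(η * z)) ≤ 1 := Real.exp_le_one_iff.2 (by nlinarith)
    have hx3 : x ^ 3 ≤ (1 / 2) ^ 3 := pow_le_pow_left₀ hx0 hx 3
    have h2 := exp_neg_le (a := 4 * x ^ 3) (by positivity) (by linarith)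
    have h3 : Real.exp (-(η * x)) ≤ Real.exp (-(2 * (4 * x ^ 3))) :=
      Real.exp_le_exp.2 (by nlinarith)
    have h4 : Real.exp (-(η * x)) * Real.exp (-(η * z)) ≤ 1 - 4 * x ^ 3 := by
      nlinarith [Real.exp_pos (-(η * x))]
    refine h4.trans ?_
    have e : (1 + 1 * (x + z) + 1 ^ 2 * (x ^ 2 + x * z + z ^ 2)) * ((1 - x) * (1 - z)) =
        1 - (x ^ 3 + x ^ 2 * z + x * z ^ 2 + z ^ 3) + x * z * (x ^ 2 + x * z + z ^ 2) := by ring
    rw [e]
    have a1 : x ^ 2 * z ≤ x ^ 3 := by nlinarith [sq_nonneg x]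
    have a2 : z ^ 2 ≤ x ^ 2 := pow_le_pow_left₀ hz0 hzx 2
    have a3 : x * z ^ 2 ≤ x ^ 3 := by nlinarith
    have a4 : z ^ 3 ≤ x ^ 3 := pow_le_pow_left₀ hz0 hzx 3
    have a5 : 0 ≤ x * z * (x ^ 2 + x * z + z ^ 2) := by positivity
    linarith
  · rw [GF_un, GF_un, ← Real.exp_add]
    set x := q ^ c
    set z := q ^ (c + 1)
    have h6 := Real.add_one_le_exp (6 * x + 6 * z)
    have h7 : 1 ≤ 1 + 1 * (x + z) + 1 ^ 2 * (x ^ 2 + x * z + z ^ 2) := by
      have : 0 ≤ 1 * (x + z) + 1 ^ 2 * (x ^ 2 + x * z + z ^ 2) := by positivity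
      linarith
    have h8 : x ^ 2 + x * z + z ^ 2 ≤ x + z := by nlinarith
    nlinarith [Real.exp_pos (6 * x + 6 * z)]
  · intro l hl r lo s h1 h2 h3 h4
    simp only [un, mem_insert, mem_singleton] at hl
    rcases hl with rfl | rfl | rfl | rfl | rfl | rfl <;>
      simp only [List.length_cons, List.length_nil] at h2 h3 <;>
      simp only [List.nil_append, List.cons_append, V, Bool.false_eq_true, if_false,
        false_imp_iff, true_and]
    · exact h4 _ _ (by omega) (by omega)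
    · exact ⟨by omega, by omega, h4 _ _ (by omega) (by split_ifs <;> omega)⟩
    · exact ⟨by omega, by omega, h4 _ _ (by omega) (by split_ifs <;> omega)⟩
    all_goals
      exact ⟨by omega, by omega, by omega, by omega, h4 _ _ (by omega) (by split_ifs <;> omega)⟩

lemma ph_le_two {q η : ℝ} (hq : 0 ≤ q) (hη : 0 ≤ η) {c : ℕ} (hx : q ^ c ≤ 1 / 2) :
    ph q η c ≤ 2 := by
  unfold ph
  rw [div_le_iff₀ (by linarith)]
  have : Real.exp (-(η * q ^ c)) ≤ 1 := Real.exp_le_one_iff.2 (by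
    have : 0 ≤ η * q ^ c := by positivity
    linarith)
  linarith

lemma Gd_mark {q η : ℝ} (hq : 0 ≤ q) (hq1 : q ≤ 1) {m a u c : ℕ} (hx : q ^ c ≤ 1 / 2)
    (hη : 0 ≤ η) (hc : c + 1 ≤ m) (ha : a ≤ c) :
    Gd q (3 / 2) m a u {[(c + 1, true)]} c (c + 2) (Ps q η c (c + 2) * (q ^ (c + 1) / 4))
      (Tt q c (c + 2) * (3 / 2)) := by
  have hx0 : 0 ≤ q ^ c := pow_nonneg hq c
  have hz0 : 0 ≤ q ^ (c + 1) := pow_nonneg hq _
  have hzx : q ^ (c + 1) ≤ q ^ c := pow_le_pow_of_le_one hq hq1 (by omega)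
  rw [Ps_two, Tt_two]
  have p1 := ph_nonneg (η := η) hx
  have p2 : 0 ≤ ph q η (c + 1) := ph_nonneg (by linarith)
  refine ⟨by omega, by simp [Rng], by positivity, by positivity, ?_, ?_, ?_⟩
  · have a1 := ph_le_two hq hη hx
    have a2 : ph q η (c + 1) ≤ 2 := ph_le_two hq hη (by linarith)
    have : ph q η c * ph q η (c + 1) ≤ 4 := by nlinarith
    simp only [GF, wt, sum_singleton, List.map_cons, List.map_nil, List.sum_cons, List.sum_nil,
      add_zero, one_pow, mul_one]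
    nlinarith
  · simp only [GF, wt, sum_singleton, List.map_cons, List.map_nil, List.sum_cons, List.sum_nil,
      add_zero, one_pow, mul_one, List.length_singleton, pow_one]
    rw [← Real.exp_add]
    have := Real.one_le_exp (x := 6 * q ^ c + 6 * q ^ (c + 1)) (by positivity)
    nlinarith
  · intro l hl r lo s h1 h2 h3 h4
    simp only [mem_singleton] at hl
    subst hl
    simp only [List.length_cons, List.length_nil] at h2 h3
    simp only [List.nil_append, List.cons_append, V, if_true, true_imp_iff]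
    exact ⟨by omega, by omega, by omega, h4 _ _ (by omega) (by split_ifs <;> omega)⟩

def Low (K : ℕ) : ℕ → ℕ → Finset IL
  | _, 0 => {[]}
  | c, n + 1 => cat (low K c) (Low K (c + 1) n)

def Un : ℕ → ℕ → Finset IL
  | _, 0 => {[]}
  | c, n + 1 => cat (un c) (Un (c + 2) n)

def Blk : ℕ → ℕ → Finset IL
  | _, 0 => ∅
  | c, n + 1 => cat {[(c + 1, true)]} (Un (c + 2) n) ∪ cat (un c) (Blk (c + 2) n)

def Blks (w : ℕ) : ℕ → ℕ → Finset IL
  | _, 0 => {[]}
  | c, k + 1 => cat (Blk c w) (Blks w (c + 2 * w) k)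

lemma Ps_mul (q η : ℝ) {a b c : ℕ} (h1 : a ≤ b) (h2 : b ≤ c) :
    Ps q η a b * Ps q η b c = Ps q η a c := prod_Ico_consecutive _ h1 h2

lemma Tt_mul (q : ℝ) {a b c : ℕ} (h1 : a ≤ b) (h2 : b ≤ c) :
    Tt q a b * Tt q b c = Tt q a c := prod_Ico_consecutive _ h1 h2

lemma Gd_Low {q : ℝ} (hq : 0 ≤ q) (hq1 : q ≤ 1) {m a u K : ℕ} (hum : u ≤ m) :
    ∀ n c : ℕ, q ^ c ≤ 1 / 2 → c + n ≤ u →
    Gd q (3 / 2) m a u (Low K c n) c (c + n) (Ps q (2 * (1 / 2) ^ K) c (c + n)) (Tt q c (c + n))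
  | 0, c, _, _ => by simpa [Low, Ps, Tt] using Gd.nil q (3 / 2) m a u c
  | n + 1, c, hx, hc => by
    have ih := Gd_Low (a := a) (K := K) hq hq1 hum n (c + 1)
      ((pow_le_pow_of_le_one hq hq1 (by omega)).trans hx) (by omega)
    have := (Gd_low (a := a) (K := K) hq hx (show c ≤ m by omega) (show c < u by omega)).cat hq
      (by norm_num) ih
    rw [show c + 1 + n = c + (n + 1) by ring] at this
    rw [← Ps_mul q _ (show c ≤ c + 1 by omega) (by omega),
      ← Tt_mul q (show c ≤ c + 1 by omega) (by omega)]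
    simpa [Low, Ps, Tt] using this

lemma Gd_Un {q η : ℝ} (hq : 0 ≤ q) (hq1 : q ≤ 1) {m a u : ℕ} :
    ∀ n c : ℕ, q ^ c ≤ 1 / 2 → 8 * (q ^ c) ^ 2 ≤ η → c + 2 * n ≤ m →
    Gd q (3 / 2) m a u (Un c n) c (c + 2 * n) (Ps q η c (c + 2 * n)) (Tt q c (c + 2 * n))
  | 0, c, _, _, _ => by simpa [Un, Ps, Tt] using Gd.nil q (3 / 2) m a u c
  | n + 1, c, hx, hη, hc => by
    have h1 : q ^ (c + 2) ≤ q ^ c := pow_le_pow_of_le_one hq hq1 (by omega)
    have ih := Gd_Un (a := a) (u := u) (m := m) (η := η) hq hq1 n (c + 2) (h1.trans hx)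
      (le_trans (by gcongr) hη) (by omega)
    have := (Gd_un (a := a) (u := u) hq hq1 hx hη (show c + 1 ≤ m by omega)).cat hq
      (by norm_num) ih
    rw [show c + 2 + 2 * n = c + 2 * (n + 1) by ring] at this
    rw [← Ps_mul q _ (show c ≤ c + 2 by omega) (by omega),
      ← Tt_mul q (show c ≤ c + 2 by omega) (by omega)]
    exact this

lemma Ps_nonneg {q η : ℝ} (hq : 0 ≤ q) (hq1 : q ≤ 1) {c : ℕ} (hx : q ^ c ≤ 1 / 2) (d : ℕ) :
    0 ≤ Ps q η c d :=
  prod_nonneg fun _ hi => ph_nonneg ((pow_le_pow_of_le_one hq hq1 (mem_Ico.1 hi).1).trans hx)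

lemma Tt_nonneg (q : ℝ) (c d : ℕ) : 0 ≤ Tt q c d := prod_nonneg fun _ _ => (Real.exp_pos _).le

lemma Gd_Blk {q η : ℝ} (hq : 0 ≤ q) (hq1 : q ≤ 1) {m a u : ℕ} :
    ∀ n c : ℕ, q ^ c ≤ 1 / 2 → 8 * (q ^ c) ^ 2 ≤ η → c + 2 * n ≤ m → a ≤ c →
    Gd q (3 / 2) m a u (Blk c n) c (c + 2 * n) (Ps q η c (c + 2 * n) * (n * q ^ (c + 2 * n) / 4))
      (Tt q c (c + 2 * n) * (3 / 2))
  | 0, c, _, _, _, _ => by
    refine ⟨by omega, by simp [Rng, Blk], by simp, ?_, by simp [Blk, GF], by simp [Blk, GF],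
      by simp [Tr, Blk]⟩
    have := Tt_nonneg q c (c + 2 * 0); positivity
  | n + 1, c, hx, hη, hc, ha => by
    have h1 : q ^ (c + 2) ≤ q ^ c := pow_le_pow_of_le_one hq hq1 (by omega)
    have hη0 : 0 ≤ η := le_trans (by positivity) hη
    have ih := Gd_Blk (a := a) (u := u) (m := m) (η := η) hq hq1 n (c + 2) (h1.trans hx)
      (le_trans (by gcongr) hη) (by omega) (by omega)
    have iu := Gd_Un (a := a) (u := u) (m := m) (η := η) hq hq1 n (c + 2) (h1.trans hx)
      (le_trans (by gcongr) hη) (by omega)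
    have g1 := (Gd_mark (a := a) (u := u) hq hq1 hx hη0 (show c + 1 ≤ m by omega) ha).cat hq
      (by norm_num) iu
    have g2 := (Gd_un (a := a) (u := u) hq hq1 hx hη (show c + 1 ≤ m by omega)).cat hq
      (by norm_num) ih
    have hd : Disjoint (cat {[(c + 1, true)]} (Un (c + 2) n)) (cat (un c) (Blk (c + 2) n)) := by
      rw [disjoint_left]
      intro l h2 h3
      obtain ⟨s, hs, t, -, rfl⟩ := mem_cat.1 h2
      obtain ⟨s', hs', t', ht', he⟩ := mem_cat.1 h3
      simp only [mem_singleton] at hs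
      subst hs
      have hm : (c + 1, true) ∈ s' ++ t' := by rw [he]; simp
      rcases List.mem_append.1 hm with hm | hm
      · simp only [un, mem_insert, mem_singleton] at hs'
        rcases hs' with rfl | rfl | rfl | rfl | rfl | rfl <;> simp at hm
      · have := (ih.rng t' ht' _ hm).1
        simp at this
    rw [show c + 2 + 2 * n = c + 2 * (n + 1) by ring] at g1 g2
    rw [mul_right_comm (Tt q c (c + 2)), Tt_mul q (by omega) (by omega), mul_right_comm,
      Ps_mul q η (by omega) (by omega)] at g1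
    rw [← mul_assoc, ← mul_assoc, Tt_mul q (by omega) (by omega),
      Ps_mul q η (by omega) (by omega)] at g2
    have hP := Ps_nonneg (η := η) hq hq1 hx (c + 2 * (n + 1))
    refine (g1.union g2 hd).mono hq (by positivity) ?_ le_rfl
    rw [← mul_add]
    refine mul_le_mul_of_nonneg_left ?_ hP
    have : q ^ (c + 2 * (n + 1)) ≤ q ^ (c + 1) := pow_le_pow_of_le_one hq hq1 (by omega)
    push_cast
    linarith

lemma Gd_Blks {q η : ℝ} (hq : 0 ≤ q) (hq1 : q ≤ 1) {m a u w : ℕ} :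
    ∀ k c : ℕ, q ^ c ≤ 1 / 2 → 8 * (q ^ c) ^ 2 ≤ η → c + 2 * w * k ≤ m → a ≤ c →
    Gd q (3 / 2) m a u (Blks w c k) c (c + 2 * w * k)
      (Ps q η c (c + 2 * w * k) * (((w : ℝ) / 4) ^ k * q ^ (c * k + w * k * (k + 1))))
      (Tt q c (c + 2 * w * k) * (3 / 2) ^ k)
  | 0, c, _, _, _, _ => by simpa [Blks, Ps, Tt] using Gd.nil q (3 / 2) m a u c
  | k + 1, c, hx, hη, hc, ha => by
    have h1 : q ^ (c + 2 * w) ≤ q ^ c := pow_le_pow_of_le_one hq hq1 (by omega)
    have e : c + 2 * w + 2 * w * k = c + 2 * w * (k + 1) := by ring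
    have ih := Gd_Blks (a := a) (u := u) (m := m) (η := η) (w := w) hq hq1 k (c + 2 * w)
      (h1.trans hx) (le_trans (by gcongr) hη) (by omega) (by omega)
    have := (Gd_Blk (a := a) (u := u) (m := m) hq hq1 w c hx hη (by omega) ha).cat hq
      (by norm_num) ih
    rw [e] at this
    rw [← Ps_mul q _ (show c ≤ c + 2 * w by omega) (by omega),
      ← Tt_mul q (show c ≤ c + 2 * w by omega) (by omega)]
    convert this using 1
    · rfl
    · rw [show c * (k + 1) + w * (k + 1) * (k + 1 + 1) =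
        (c + 2 * w) + ((c + 2 * w) * k + w * k * (k + 1)) by ring, pow_add q (c + 2 * w)]
      ring
    · ring

/-! ### marks -/

lemma marks_append (a b : IL) : marks (a ++ b) = marks a ++ marks b := by simp [marks]

lemma marks_Low (K : ℕ) : ∀ n c, ∀ l ∈ Low K c n, marks l = []
  | 0, c, l, hl => by simp only [Low, mem_singleton] at hl; subst hl; rfl
  | n + 1, c, l, hl => by
    obtain ⟨s, hs, t, ht, rfl⟩ := mem_cat.1 hl
    obtain ⟨k, -, rfl⟩ := mem_image.1 hs
    rw [marks_append, marks_Low K n _ t ht]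
    simp [marks]

lemma marks_un (c : ℕ) : ∀ l ∈ un c, marks l = [] := by
  intro l hl
  simp only [un, mem_insert, mem_singleton] at hl
  rcases hl with rfl | rfl | rfl | rfl | rfl | rfl <;> simp [marks]

lemma marks_Un : ∀ n c, ∀ l ∈ Un c n, marks l = []
  | 0, c, l, hl => by simp only [Un, mem_singleton] at hl; subst hl; rfl
  | n + 1, c, l, hl => by
    obtain ⟨s, hs, t, ht, rfl⟩ := mem_cat.1 hl
    rw [marks_append, marks_Un n _ t ht, marks_un c s hs]; rfl

lemma marks_Blk : ∀ n c, ∀ l ∈ Blk c n, ∃ x, c ≤ x ∧ marks l = [x]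
  | 0, c, l, hl => by simp [Blk] at hl
  | n + 1, c, l, hl => by
    rcases mem_union.1 hl with hl | hl
    · obtain ⟨s, hs, t, ht, rfl⟩ := mem_cat.1 hl
      simp only [mem_singleton] at hs
      subst hs
      exact ⟨c + 1, by omega, by rw [marks_append, marks_Un n _ t ht]; rfl⟩
    · obtain ⟨s, hs, t, ht, rfl⟩ := mem_cat.1 hl
      obtain ⟨x, h1, h2⟩ := marks_Blk n _ t ht
      exact ⟨x, by omega, by rw [marks_append, marks_un c s hs, h2]; rfl⟩

lemma marks_Blks (w : ℕ) : ∀ k c, ∀ l ∈ Blks w c k, (marks l).length = k ∧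
    ∀ i (hi : i < (marks l).length), c + 2 * w * i ≤ (marks l)[i]
  | 0, c, l, hl => by simp only [Blks, mem_singleton] at hl; subst hl; simp [marks]
  | k + 1, c, l, hl => by
    obtain ⟨s, hs, t, ht, rfl⟩ := mem_cat.1 hl
    obtain ⟨x, h1, h2⟩ := marks_Blk w c s hs
    obtain ⟨h3, h4⟩ := marks_Blks w k _ t ht
    have e : marks (s ++ t) = x :: marks t := by rw [marks_append, h2]; rfl
    refine ⟨by simp [e, h3], fun i hi => ?_⟩
    simp only [e] at hi ⊢
    cases i with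
    | zero => simpa using h1
    | succ i =>
      have := h4 i (by simpa using hi)
      simp only [List.getElem_cons_succ]
      rw [Nat.mul_succ]; omega

/-! ### fixing the length -/

lemma pigeon {q y ρ : ℝ} (hq : 0 ≤ q) (hy : 1 ≤ y) {A : Finset IL} {J : ℕ}
    (h : GF q y A ≤ ρ * GF q 1 A) (hρ : 2 * ρ ≤ y ^ (J + 1)) :
    ∃ j ≤ J, GF q 1 A ≤ 2 * (J + 1) * GF q 1 (A.filter (fun l => l.length = j)) := by
  have hG := GF_nonneg hq zero_le_one A
  have hy0 : 0 < y ^ (J + 1) := by positivity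
  have h1 : y ^ (J + 1) * GF q 1 (A.filter (fun l => ¬ l.length ≤ J)) ≤ GF q y A := by
    unfold GF
    rw [mul_sum]
    refine le_trans (sum_le_sum fun l hl => ?_) (sum_le_sum_of_subset_of_nonneg
      (filter_subset (fun l => ¬ l.length ≤ J) A) fun l _ _ => wt_nonneg hq (by linarith) l)
    have := (mem_filter.1 hl).2
    simp only [wt, one_pow, mul_one]
    rw [mul_comm]
    exact mul_le_mul_of_nonneg_left (pow_le_pow_right₀ hy (by omega)) (by positivity)
  have h2 : GF q 1 (A.filter (fun l => ¬ l.length ≤ J)) ≤ GF q 1 A / 2 := by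
    by_contra hh
    have hh := lt_of_not_ge hh
    nlinarith
  have h3 : GF q 1 (A.filter (fun l => l.length ≤ J)) + GF q 1 (A.filter (fun l => ¬ l.length ≤ J))
      = GF q 1 A := sum_filter_add_sum_filter_not _ _ _
  have h4 : GF q 1 (A.filter (fun l => l.length ≤ J)) =
      ∑ j ∈ range (J + 1), GF q 1 (A.filter (fun l => l.length = j)) := by
    unfold GF
    rw [← sum_fiberwise_of_maps_to (s := A.filter (fun l => l.length ≤ J)) (t := range (J + 1))
      (g := fun l => l.length) (fun l hl => by have := (mem_filter.1 hl).2; simp; omega)]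
    refine sum_congr rfl fun j hj => sum_congr ?_ fun _ _ => rfl
    ext l
    have := mem_range.1 hj
    simp only [mem_filter]
    constructor
    · rintro ⟨⟨a, -⟩, b⟩; exact ⟨a, b⟩
    · rintro ⟨a, b⟩; exact ⟨⟨a, by omega⟩, b⟩
  by_contra hh
  push_neg at hh
  have h5 : ∑ j ∈ range (J + 1), 2 * ((J : ℝ) + 1) * GF q 1 (A.filter (fun l => l.length = j)) <
      ∑ _j ∈ range (J + 1), GF q 1 A :=
    sum_lt_sum_of_nonempty (by simp) fun j hj => hh j (by have := mem_range.1 hj; omega)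
  rw [← mul_sum, ← h4, sum_const, card_range, nsmul_eq_mul] at h5
  push_cast at h5
  have : (0 : ℝ) < J + 1 := by positivity
  nlinarith

end Pool.Agent.H11.Inv
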