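import Pool.Agent.H11.Inv3

/-! Lists versus permutations; the stable upper bound. -/
set_option autoImplicit false
namespace Pool.Agent.H11.Inv
open Finset

def IP (F : ℕ → ℕ) (N : ℕ) : Finset (ℕ × ℕ) :=
  (range N ×ˢ range N).filter (fun p => p.1 < p.2 ∧ F p.2 < F p.1)

lemma mem_IP {F : ℕ → ℕ} {N : ℕ} {p : ℕ × ℕ} :
    p ∈ IP F N ↔ p.1 < p.2 ∧ p.2 < N ∧ F p.2 < F p.1 := by
  simp only [IP, mem_filter, mem_product, mem_range]; omega

@[simp] lemma g_cons_zero (x : ℕ) (l : List ℕ) : g (x :: l) 0 = x := rfl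
@[simp] lemma g_cons_succ (x : ℕ) (l : List ℕ) (i : ℕ) : g (x :: l) (i + 1) = g l i := rfl

lemma countP_eq_sum (x : ℕ) : ∀ l : List ℕ,
    l.countP (fun y => y < x) = ∑ j ∈ range l.length, if g l j < x then 1 else 0
  | [] => by simp
  | y :: l => by
    rw [List.countP_cons, countP_eq_sum x l, List.length_cons, sum_range_succ']
    simp only [g_cons_succ, g_cons_zero, decide_eq_true_eq]
    congr

lemma inv_eq_card : ∀ l : List ℕ, inv l = (IP (g l) l.length).card := by
  have key : ∀ l : List ℕ, inv l = ∑ i ∈ range l.length, ∑ j ∈ range l.length,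
      if i < j ∧ g l j < g l i then 1 else 0 := by
    intro l
    induction l with
    | nil => simp [inv]
    | cons x l ih =>
      rw [inv, ih, countP_eq_sum, List.length_cons, sum_range_succ', add_comm]
      congr 1
      · refine sum_congr rfl fun i _ => ?_
        rw [sum_range_succ']
        simp only [g_cons_succ, add_lt_add_iff_right, Nat.not_lt_zero, false_and, if_false,
          add_zero]
      · rw [sum_range_succ']
        simp only [g_cons_succ, g_cons_zero, Nat.zero_lt_succ, true_and, lt_irrefl, false_and,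
          if_false, add_zero]
  intro l
  rw [key, IP, card_filter, sum_product]

def AvP {n : ℕ} (σ : Equiv.Perm (Fin n)) : Prop :=
  ¬ ∃ a b c d : Fin n, a < b ∧ b < c ∧ c < d ∧ σ a < σ c ∧ σ c < σ b ∧ σ b < σ d

def invP {n : ℕ} (σ : Equiv.Perm (Fin n)) : ℕ :=
  (univ.filter (fun p : Fin n × Fin n => p.1 < p.2 ∧ σ p.2 < σ p.1)).card

def toL {n : ℕ} (σ : Equiv.Perm (Fin n)) : List ℕ := List.ofFn (fun i => (σ i : ℕ))

@[simp] lemma toL_length {n : ℕ} (σ : Equiv.Perm (Fin n)) : (toL σ).length = n := by simp [toL]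

lemma g_toL {n : ℕ} (σ : Equiv.Perm (Fin n)) {i : ℕ} (hi : i < n) :
    g (toL σ) i = σ ⟨i, hi⟩ := by
  unfold g; rw [List.getD_eq_getElem _ _ (by simpa using hi)]; simp [toL]

lemma invP_eq {n : ℕ} (σ : Equiv.Perm (Fin n)) : invP σ = (IP (g (toL σ)) n).card := by
  unfold invP
  refine card_bij (fun p _ => (p.1.val, p.2.val)) ?_ ?_ ?_
  · intro p hp
    have := (mem_filter.1 hp).2
    rw [mem_IP]
    refine ⟨this.1, p.2.2, ?_⟩
    rw [g_toL σ p.1.2, g_toL σ p.2.2]; exact this.2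
  · intro p _ p' _ h
    simp only [Prod.mk.injEq] at h
    exact Prod.ext (Fin.ext h.1) (Fin.ext h.2)
  · intro p hp
    obtain ⟨h1, h2, h3⟩ := mem_IP.1 hp
    refine ⟨(⟨p.1, by omega⟩, ⟨p.2, h2⟩), mem_filter.2 ⟨mem_univ _, h1, ?_⟩, rfl⟩
    rw [g_toL σ h2, g_toL σ (show p.1 < n by omega)] at h3; exact h3

lemma av_toL {n : ℕ} (σ : Equiv.Perm (Fin n)) : Av (toL σ) ↔ AvP σ := by
  constructor
  · rintro h ⟨a, b, c, d, h1, h2, h3, h4, h5, h6⟩
    refine h a b c d h1 h2 h3 (by simp) ?_ ?_ ?_ <;>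
      simp only [g_toL σ a.2, g_toL σ b.2, g_toL σ c.2, g_toL σ d.2] <;> assumption
  · intro h i j k t h1 h2 h3 h4 h5 h6 h7
    rw [toL_length] at h4
    rw [g_toL σ (show i < n by omega), g_toL σ (show k < n by omega)] at h5
    rw [g_toL σ (show j < n by omega), g_toL σ (show k < n by omega)] at h6
    rw [g_toL σ (show j < n by omega), g_toL σ h4] at h7
    exact h ⟨_, _, _, _, h1, h2, h3, h5, h6, h7⟩

lemma exists_toL {l : List ℕ} (h : IsP l) {n : ℕ} (hn : l.length = n) :
    ∃ σ : Equiv.Perm (Fin n), toL σ = l := by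
  subst hn
  let f : Fin l.length → Fin l.length := fun i => ⟨l[i], h.2 _ (List.getElem_mem _)⟩
  have hf : Function.Injective f := fun i j hij => by
    have : l[i] = l[j] := congrArg Fin.val hij
    exact Fin.ext ((List.Nodup.getElem_inj_iff h.1).1 this)
  refine ⟨Equiv.ofBijective f (Finite.injective_iff_bijective.1 hf), ?_⟩
  simp [toL, f]

lemma toL_inj {n : ℕ} : Function.Injective (toL : Equiv.Perm (Fin n) → List ℕ) := by
  intro σ τ h
  have := List.ofFn_injective h
  exact Equiv.ext fun i => Fin.ext (congrFun this i)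

open Classical in
noncomputable def Zp (q : ℝ) (n K : ℕ) : ℝ :=
  ∑ σ ∈ univ.filter (fun σ : Equiv.Perm (Fin n) => AvP σ ∧ invP σ ≤ K), q ^ invP σ

lemma invP_le {n : ℕ} (σ : Equiv.Perm (Fin n)) : invP σ ≤ n * n :=
  (card_filter_le _ _).trans (by simp)

lemma le_Zp {q : ℝ} (hq : 0 ≤ q) {n : ℕ} (S : Finset (List ℕ))
    (hS : ∀ l ∈ S, IsP l ∧ Av l ∧ l.length = n) : ∑ l ∈ S, q ^ inv l ≤ Zp q n (n * n) := by
  classical
  have : Zp q n (n * n) = ∑ l ∈ (univ.filter (fun σ : Equiv.Perm (Fin n) =>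
      AvP σ ∧ invP σ ≤ n * n)).image toL, q ^ inv l := by
    rw [sum_image (fun a _ b _ h => toL_inj h)]
    unfold Zp
    refine sum_congr (by congr) fun σ _ => ?_
    rw [invP_eq, inv_eq_card, toL_length]
  rw [this]
  refine sum_le_sum_of_subset_of_nonneg (fun l hl => ?_) fun _ _ _ => by positivity
  obtain ⟨h1, h2, h3⟩ := hS l hl
  obtain ⟨σ, rfl⟩ := exists_toL h1 h3
  exact mem_image.2 ⟨σ, mem_filter.2 ⟨mem_univ _, (av_toL σ).1 h2, invP_le σ⟩, rfl⟩

/-! ### the stable range -/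

structure BF (F : ℕ → ℕ) (N : ℕ) : Prop where
  inj : ∀ i j, i < N → j < N → F i = F j → i = j
  lt : ∀ i, i < N → F i < N
  surj : ∀ v, v < N → ∃ j, j < N ∧ F j = v
  av : ∀ i j k h, i < j → j < k → k < h → h < N → F i < F k → F k < F j → F j < F h → False

def IsCut (F : ℕ → ℕ) (N z : ℕ) : Prop :=
  (∀ i, i < z → F i < F z) ∧ (∀ j, z < j → j < N → F z < F j)

lemma BF.exists_cut {F : ℕ → ℕ} {N K : ℕ} (h : BF F N) (hK : (IP F N).card ≤ K) (Z : Finset ℕ)
    (hZ : ∀ z ∈ Z, z < N) (hc : 2 * K < Z.card) : ∃ z ∈ Z, IsCut F N z := by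
  by_contra hh
  push_neg at hh
  have : Z ⊆ (IP F N).image Prod.fst ∪ (IP F N).image Prod.snd := by
    intro z hz
    have h1 := hh z hz
    have hzN := hZ z hz
    simp only [IsCut, not_and_or, not_forall, not_lt] at h1
    rcases h1 with ⟨i, hi, h2⟩ | ⟨j, hj, hjN, h2⟩
    · refine mem_union_right _ (mem_image.2 ⟨(i, z), mem_IP.2 ⟨hi, hzN, ?_⟩, rfl⟩)
      have := h.inj i z (by omega) hzN
      simp only; omega
    · refine mem_union_left _ (mem_image.2 ⟨(z, j), mem_IP.2 ⟨hj, hjN, ?_⟩, rfl⟩)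
      have := h.inj j z hjN hzN
      simp only; omega
  have h2 := (card_le_card this).trans (card_union_le _ _)
  have h3 := card_image_le (s := IP F N) (f := Prod.fst)
  have h4 := card_image_le (s := IP F N) (f := Prod.snd)
  omega

lemma BF.cut {F : ℕ → ℕ} {K : ℕ} (h : BF F (4 * K + 1)) (hK : (IP F (4 * K + 1)).card ≤ K) :
    IsCut F (4 * K + 1) (2 * K) := by
  obtain ⟨z1, h1, c1⟩ := h.exists_cut hK (range (2 * K + 1)) (fun z hz => by simp at hz; omega)
    (by simp)
  obtain ⟨z2, h2, c2⟩ := h.exists_cut hK (Ico (2 * K) (4 * K + 1))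
    (fun z hz => by simp at hz; omega) (by simp; omega)
  simp only [mem_range, mem_Ico] at h1 h2
  rcases Nat.lt_or_ge z1 (2 * K) with e1 | e1
  swap
  · rwa [show z1 = 2 * K by omega] at c1
  rcases Nat.lt_or_ge (2 * K) z2 with e2 | e2
  swap
  · rwa [show z2 = 2 * K by omega] at c2
  have a1 := c1.2 (2 * K) e1 (by omega)
  have a2 := c2.1 (2 * K) e2
  constructor
  · intro i hi
    by_contra hh
    have := h.inj i (2 * K) (by omega) (by omega)
    rcases lt_trichotomy i z1 with e | e | e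
    · have := c1.1 i e; omega
    · subst e; omega
    · exact h.av z1 i (2 * K) z2 e hi e2 h2.2 a1 (by omega) (c2.1 i (by omega))
  · intro j hj hjN
    by_contra hh
    have := h.inj j (2 * K) (by omega) (by omega)
    rcases lt_trichotomy j z2 with e | e | e
    · exact h.av z1 (2 * K) j z2 e1 hj e h2.2 (c1.2 j (by omega) hjN) (by omega) a2
    · subst e; omega
    · have := c2.2 j e hjN; omega

/-- Lehmer code -/
def cd (F : ℕ → ℕ) (i : ℕ) : ℕ := ((range (F i)).filter (fun v => ∀ j ∈ range i, F j ≠ v)).card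

lemma cd_inj {F F' : ℕ → ℕ} {N z : ℕ} (h : BF F N) (h' : BF F' N) (hz : z ≤ N)
    (he : ∀ i, i < z → cd F i = cd F' i) : ∀ i, i < z → F i = F' i := by
  intro i
  induction i using Nat.strong_induction_on with
  | _ i ih =>
    intro hi
    have key : ∀ {G G' : ℕ → ℕ}, BF G N → (∀ j, j < i → G j = G' j) → G i < G' i →
        cd G i < cd G' i := by
      intro G G' hG hj hlt
      refine card_lt_card ⟨fun v hv => ?_, fun hs => ?_⟩
      · simp only [mem_filter, mem_range] at hv ⊢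
        exact ⟨by omega, fun j hj' => hj j hj' ▸ hv.2 j hj'⟩
      · have : G i ∈ (range (G' i)).filter (fun v => ∀ j ∈ range i, G' j ≠ v) := by
          simp only [mem_filter, mem_range]
          refine ⟨hlt, fun j hj' e => ?_⟩
          have := hG.inj j i (by omega) (by omega) ((hj j hj').trans e)
          omega
        have := hs this
        simp at this
    have e := he i hi
    rcases lt_trichotomy (F i) (F' i) with c | c | c
    · have := key h (fun j hj => ih j hj (by omega)) c; omega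
    · exact c
    · have := key h' (fun j hj => (ih j hj (by omega)).symm) c; omega

lemma cd_anti {F : ℕ → ℕ} {N z : ℕ} (h : BF F N) (hz : z < N) (hc : IsCut F N z) {i : ℕ}
    (hi : i + 1 < z) : cd F (i + 1) ≤ cd F i := by
  refine card_le_card fun v hv => ?_
  simp only [mem_filter, mem_range] at hv ⊢
  refine ⟨?_, fun j hj => hv.2 j (by omega)⟩
  by_contra hh
  have h1 := hv.2 i (by omega)
  obtain ⟨k, hk, rfl⟩ := h.surj v (by have := h.lt (i + 1) (by omega); omega)
  have h2 : i + 1 < k := by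
    by_contra h3
    rcases Nat.lt_or_ge k (i + 1) with e | e
    · exact hv.2 k e rfl
    · have : k = i + 1 := by omega
      subst this; omega
  have h3 := hc.1 (i + 1) hi
  have h4 : k < z := by
    by_contra h5
    rcases Nat.lt_or_ge z k with e | e
    · have := hc.2 k e hk; omega
    · have : k = z := by omega
      subst this; omega
  exact h.av i (i + 1) k z (by omega) h2 h4 hz (by omega) hv.1 h3

lemma sum_cd_le {F : ℕ → ℕ} {N z : ℕ} (h : BF F N) (hz : z ≤ N) :
    ∑ i ∈ range z, cd F i ≤ ((IP F N).filter (fun p => p.1 < z)).card := by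
  rw [card_eq_sum_card_fiberwise (f := Prod.fst) (t := range z)
    (fun p hp => by simpa using (mem_filter.1 (mem_coe.1 hp)).2)]
  refine sum_le_sum fun i hi => ?_
  have hi' := mem_range.1 hi
  refine card_le_card_of_surjOn (fun p => F p.2) ?_
  intro v hv
  simp only [coe_filter, mem_range, Set.mem_setOf_eq] at hv
  obtain ⟨k, hk, rfl⟩ := h.surj v (by have := h.lt i (by omega); omega)
  refine ⟨(i, k), ?_, rfl⟩
  simp only [coe_filter, mem_filter, Set.mem_setOf_eq, mem_IP, and_true]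
  refine ⟨⟨?_, hk, hv.1⟩, hi'⟩
  by_contra h3
  rcases Nat.lt_or_ge k i with e | e
  · exact hv.2 k e rfl
  · have : k = i := by omega
    subst this; omega

lemma Dec_map (a : ℕ → ℕ) : ∀ (n s M : ℕ), a s ≤ M → (∀ i, s ≤ i → i + 1 < s + n → a (i + 1) ≤ a i) →
    Dec M ((List.range' s n).map a)
  | 0, _, _, _, _ => trivial
  | 1, _, _, h, _ => ⟨h, trivial⟩
  | n + 2, s, M, h, h2 => by
    rw [List.range'_succ, List.map_cons]
    exact ⟨h, Dec_map a (n + 1) (s + 1) (a s) (h2 s le_rfl (by omega))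
      fun i h3 h4 => h2 i (by omega) (by omega)⟩

def lf (F : ℕ → ℕ) (z : ℕ) : List ℕ := (List.range' 0 z).map (cd F)

lemma lf_sum (F : ℕ → ℕ) (z : ℕ) : (lf F z).sum = ∑ i ∈ range z, cd F i := by
  rw [lf, ← List.range_eq_range']; rfl

lemma lf_mem {F : ℕ → ℕ} {N z : ℕ} (h : BF F N) (hz : z < N) (hc : IsCut F N z) :
    lf F z ∈ DS z N := by
  rw [mem_DS]
  refine ⟨by simp [lf], Dec_map _ _ _ _ ?_ fun i _ hi => cd_anti h hz hc (by omega)⟩
  exact (card_filter_le _ _).trans (by have := h.lt 0 (by omega); simp; omega)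

lemma lf_inj {F F' : ℕ → ℕ} {N z : ℕ} (h : BF F N) (h' : BF F' N) (hz : z ≤ N)
    (he : lf F z = lf F' z) : ∀ i, i < z → F i = F' i :=
  cd_inj h h' hz fun i hi => List.map_inj_left.1 he i (by simpa using hi)

def rc (F : ℕ → ℕ) (N : ℕ) (i : ℕ) : ℕ := N - 1 - F (N - 1 - i)

lemma BF.rc {F : ℕ → ℕ} {N : ℕ} (h : BF F N) : BF (rc F N) N := by
  refine ⟨fun i j hi hj e => ?_, fun i hi => ?_, fun v hv => ?_, ?_⟩
  · unfold Inv.rc at e
    have := h.lt (N - 1 - i) (by omega); have := h.lt (N - 1 - j) (by omega)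
    have := h.inj (N - 1 - i) (N - 1 - j) (by omega) (by omega) (by omega)
    omega
  · unfold Inv.rc; omega
  · obtain ⟨j, hj, e⟩ := h.surj (N - 1 - v) (by omega)
    refine ⟨N - 1 - j, by omega, ?_⟩
    unfold Inv.rc
    rw [show N - 1 - (N - 1 - j) = j by omega, e]; omega
  · intro i j k t h1 h2 h3 h4 h5 h6 h7
    unfold Inv.rc at h5 h6 h7
    exact h.av (N - 1 - t) (N - 1 - k) (N - 1 - j) (N - 1 - i) (by omega) (by omega) (by omega)
      (by omega) (by omega) (by omega) (by omega)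

lemma IsCut.rc {F : ℕ → ℕ} {z : ℕ} (h : BF F (2 * z + 1)) (hc : IsCut F (2 * z + 1) z) :
    IsCut (rc F (2 * z + 1)) (2 * z + 1) z := by
  have e : 2 * z + 1 - 1 - z = z := by omega
  constructor
  · intro i hi
    unfold Inv.rc
    have := hc.2 (2 * z + 1 - 1 - i) (by omega) (by omega)
    have := h.lt (2 * z + 1 - 1 - i) (by omega)
    rw [e]; omega
  · intro j hj hjN
    unfold Inv.rc
    have := hc.1 (2 * z + 1 - 1 - j) (by omega)
    have := h.lt z (by omega)
    rw [e]; omega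

lemma sum_two_le {F : ℕ → ℕ} {z : ℕ} (h : BF F (2 * z + 1)) (hc : IsCut F (2 * z + 1) z) :
    (lf F z).sum + (lf (rc F (2 * z + 1)) z).sum ≤ (IP F (2 * z + 1)).card := by
  set N := 2 * z + 1 with hN
  rw [lf_sum, lf_sum]
  have h1 := sum_cd_le (z := z) h (by omega)
  have h2 := sum_cd_le (z := z) h.rc (by omega)
  have h3 : ((IP (rc F N) N).filter (fun p => p.1 < z)).card ≤
      ((IP F N).filter (fun p => ¬ p.1 < z)).card := by
    refine card_le_card_of_injOn (fun p => (N - 1 - p.2, N - 1 - p.1)) ?_ ?_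
    · intro p hp
      simp only [coe_filter, Set.mem_setOf_eq, mem_IP, Inv.rc] at hp ⊢
      refine ⟨⟨by omega, by omega, by omega⟩, fun hh => ?_⟩
      have := hc.1 _ hh
      have := hc.2 (N - 1 - p.1) (by omega) (by omega)
      omega
    · intro p hp p' hp' e
      simp only [coe_filter, Set.mem_setOf_eq, mem_IP, Prod.mk.injEq] at hp hp' e
      exact Prod.ext (by omega) (by omega)
  have h4 := card_filter_add_card_filter_not (s := IP F N) (fun p => p.1 < z)
  omega

lemma BF_toL {n : ℕ} {σ : Equiv.Perm (Fin n)} (h : AvP σ) : BF (g (toL σ)) n := by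
  refine ⟨fun i j hi hj e => ?_, fun i hi => ?_, fun v hv => ?_, ?_⟩
  · rw [g_toL σ hi, g_toL σ hj] at e
    exact congrArg Fin.val (σ.injective (Fin.ext e))
  · rw [g_toL σ hi]; exact Fin.is_lt _
  · exact ⟨σ.symm ⟨v, hv⟩, Fin.is_lt _, by rw [g_toL σ (Fin.is_lt _)]; simp⟩
  · have := (av_toL σ).2 h
    intro i j k t h1 h2 h3 h4
    exact this i j k t h1 h2 h3 (by simpa using h4)

lemma Zp_le {q : ℝ} (hq : 0 ≤ q) (hq1 : q ≤ 1) (K : ℕ) :
    Zp q (4 * K + 1) K ≤ Wt q (2 * K) (4 * K + 1) ^ 2 := by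
  classical
  set N := 4 * K + 1 with hN
  have hN2 : N = 2 * (2 * K) + 1 := by omega
  set φ : Equiv.Perm (Fin N) → List ℕ × List ℕ :=
    fun σ => (lf (g (toL σ)) (2 * K), lf (rc (g (toL σ)) N) (2 * K)) with hφ
  set S := univ.filter (fun σ : Equiv.Perm (Fin N) => AvP σ ∧ invP σ ≤ K) with hS
  have hb : ∀ σ ∈ S, BF (g (toL σ)) N ∧ IsCut (g (toL σ)) N (2 * K) := fun σ hσ => by
    have := (mem_filter.1 hσ).2
    exact ⟨BF_toL this.1, (BF_toL this.1).cut (invP_eq σ ▸ this.2)⟩
  have hinj : Set.InjOn φ S := by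
    intro σ hσ τ hτ e
    simp only [hφ, Prod.mk.injEq] at e
    obtain ⟨b1, -⟩ := hb σ hσ
    obtain ⟨b2, -⟩ := hb τ hτ
    have e1 := lf_inj b1 b2 (by omega) e.1
    have e2 := lf_inj b1.rc b2.rc (by omega) e.2
    have e3 : ∀ i, i < N → i ≠ 2 * K → g (toL σ) i = g (toL τ) i := by
      intro i hi hne
      rcases Nat.lt_or_ge i (2 * K) with c | c
      · exact e1 i c
      · have := e2 (N - 1 - i) (by omega)
        unfold Inv.rc at this
        rw [show N - 1 - (N - 1 - i) = i by omega] at this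
        have := b1.lt i hi; have := b2.lt i hi
        omega
    refine Equiv.ext fun i => Fin.ext ?_
    rw [← g_toL σ i.2, ← g_toL τ i.2]
    by_cases c : (i : ℕ) = 2 * K
    · obtain ⟨j, hj, e4⟩ := b2.surj _ (b1.lt i i.2)
      by_cases c2 : j = 2 * K
      · rw [← e4, c2, c]
      · have := b1.inj j i hj i.2 ((e3 j hj c2).trans e4)
        omega
    · exact e3 i i.2 c
  calc Zp q N K = ∑ σ ∈ S, q ^ invP σ := by unfold Zp; congr
    _ ≤ ∑ σ ∈ S, q ^ (φ σ).1.sum * q ^ (φ σ).2.sum := by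
        refine sum_le_sum fun σ hσ => ?_
        rw [← pow_add]
        refine pow_le_pow_of_le_one hq hq1 ?_
        obtain ⟨b1, b2⟩ := hb σ hσ
        rw [invP_eq]
        have := sum_two_le (F := g (toL σ)) (z := 2 * K) (hN2 ▸ b1) (hN2 ▸ b2)
        rwa [← hN2] at this
    _ = ∑ x ∈ S.image φ, q ^ x.1.sum * q ^ x.2.sum := by rw [sum_image hinj]
    _ ≤ ∑ x ∈ DS (2 * K) N ×ˢ DS (2 * K) N, q ^ x.1.sum * q ^ x.2.sum := by
        refine sum_le_sum_of_subset_of_nonneg (fun x hx => ?_) fun _ _ _ => by positivity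
        obtain ⟨σ, hσ, rfl⟩ := mem_image.1 hx
        obtain ⟨b1, b2⟩ := hb σ hσ
        refine mem_product.2 ⟨lf_mem b1 (by omega) b2, lf_mem b1.rc (by omega) ?_⟩
        have := IsCut.rc (F := g (toL σ)) (z := 2 * K) (hN2 ▸ b1) (hN2 ▸ b2)
        rwa [← hN2] at this
    _ = _ := by rw [sum_product, sq, Wt, sum_mul_sum]

end Pool.Agent.H11.Inv
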