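import Pool.Agent.H11.Inv4

/-! Inversion monotonicity fails for the pattern 1324. -/
set_option autoImplicit false
namespace Pool.Agent.H11.Inv
open Finset

open Classical in
noncomputable def cnt (k n : ℕ) : ℕ :=
  (univ.filter (fun σ : Equiv.Perm (Fin n) => AvP σ ∧ invP σ = k)).card

lemma Zp_eq (q : ℝ) (n K : ℕ) : Zp q n K = ∑ k ∈ range (K + 1), (cnt k n : ℝ) * q ^ k := by
  classical
  unfold Zp
  rw [← sum_fiberwise_of_maps_to (t := range (K + 1)) (g := fun σ => invP σ)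
    (fun σ hσ => by have := (mem_filter.1 hσ).2.2; simp; omega)]
  refine sum_congr rfl fun k hk => ?_
  have hk' := mem_range.1 hk
  rw [sum_congr (s₂ := univ.filter (fun σ : Equiv.Perm (Fin n) => AvP σ ∧ invP σ = k))
    (g := fun _ => q ^ k)]
  · rw [sum_const, nsmul_eq_mul]; unfold cnt; congr
  · ext σ
    simp only [mem_filter, mem_univ, true_and]
    constructor
    · rintro ⟨⟨a, -⟩, b⟩; exact ⟨a, b⟩
    · rintro ⟨a, b⟩; exact ⟨⟨a, by omega⟩, b⟩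
  · intro σ hσ
    rw [(mem_filter.1 hσ).2.2]

lemma Zp_mono (H : ∀ k, Monotone (cnt k)) {q : ℝ} (hq : 0 ≤ q) {n N : ℕ} (h : n ≤ N) (K : ℕ) :
    Zp q n K ≤ Zp q N K := by
  rw [Zp_eq, Zp_eq]
  exact sum_le_sum fun k _ => mul_le_mul_of_nonneg_right (by exact_mod_cast H k h) (by positivity)

lemma family {q : ℝ} (hq : 0 ≤ q) (hq1 : q ≤ 1) {m θ J P j a w : ℕ} (hm : 1 ≤ m) (hθ : 1 ≤ θ)
    (hj : j ≤ J) (F : Finset IL)
    (hF : ∀ l ∈ F, V m (θ + 1) 0 l ∧ l.length = j ∧ (marks l).length = P ∧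
      ∀ i (hi : i < (marks l).length), a + 2 * w * i ≤ (marks l)[i])
    (hJ : J ≤ a + 1) (hc : m + 4 * θ + 2 * J + 2 * w ≤ 2 * a + 2 * w * P + 1) :
    (Wt q θ (m - 1) * GF q 1 F) ^ 2 * q ^ (P * (m + 2 * θ + j + j + P)) ≤
      Zp q (m + 2 * θ + j + j + P) ((m + 2 * θ + j + j + P) * (m + 2 * θ + j + j + P)) := by
  set n := m + 2 * θ + j + j + P with hn
  set T := (DS θ (m - 1) ×ˢ F) ×ˢ (DS θ (m - 1) ×ˢ F) with hT
  have hA : ∀ x ∈ T, Adm m θ J P j j x.1.1 x.2.1 x.1.2 x.2.2 := by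
    rintro ⟨⟨ds, H⟩, ⟨cs, E⟩⟩ hx
    simp only [hT, mem_product, mem_DS] at hx
    obtain ⟨⟨⟨a1, a2⟩, a3⟩, ⟨b1, b2⟩, b3⟩ := hx
    obtain ⟨c1, c2, c3, c4⟩ := hF H a3
    obtain ⟨d1, d2, d3, d4⟩ := hF E b3
    refine ⟨a2, b2, a1, b1, c1, d1, c2, d2, c3, d3, ?_⟩
    refine List.forall₂_of_length_eq_of_get (by simp [c3, d3]) fun i h1 h2 => ?_
    dsimp only at h1 h2 ⊢
    simp only [List.get_eq_getElem, List.getElem_reverse]
    have e1 := d4 i h1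
    have e2 := c4 ((marks H).length - 1 - i) (by simp at h2; omega)
    obtain ⟨t, ht⟩ : ∃ t, P = i + 1 + t := ⟨P - (i + 1), by omega⟩
    have e3 : (marks H).length - 1 - i = t := by omega
    have e4 : 2 * w * P = 2 * w * i + 2 * w + 2 * w * t := by rw [ht]; ring
    have e5 : 2 * w * ((marks H).length - 1 - i) = 2 * w * t := by rw [e3]
    omega
  set f : (List ℕ × IL) × (List ℕ × IL) → List ℕ := fun x => build m x.1.1 x.2.1 x.1.2 x.2.2
  have hinj : Set.InjOn f T := by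
    rintro ⟨⟨ds, H⟩, ⟨cs, E⟩⟩ hx ⟨⟨ds', H'⟩, ⟨cs', E'⟩⟩ hy e
    obtain ⟨rfl, rfl, rfl, rfl⟩ := (hA _ hx).inj (hA _ hy) e
    rfl
  refine le_trans ?_ (le_Zp hq (T.image f) fun l hl => ?_)
  · rw [sum_image hinj]
    have e : Wt q θ (m - 1) * GF q 1 F = ∑ x ∈ DS θ (m - 1) ×ˢ F,
        q ^ x.1.sum * q ^ (x.2.map (fun z => z.1)).sum := by
      rw [sum_product, Wt, GF, sum_mul_sum]; simp [wt]
    rw [e, sq, sum_mul_sum, ← sum_product', sum_mul]
    refine sum_le_sum fun x hx => ?_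
    rw [← pow_add, ← pow_add, ← pow_add, ← pow_add]
    refine pow_le_pow_of_le_one hq hq1 ?_
    have := (hA x hx).inv_le
    simp only [f]
    rw [← hn] at this
    omega
  · obtain ⟨x, hx, rfl⟩ := mem_image.1 hl
    have := (hA x hx).good hm hθ hj hj
    exact ⟨this.1, this.2, (hA x hx).length⟩

noncomputable def Aq (q : ℝ) (c0 c1 : ℕ) : ℝ := ∏ c ∈ Ico c0 c1, (1 - q ^ c)
noncomputable def sg (q : ℝ) (c0 c1 : ℕ) : ℝ := ∑ c ∈ Ico c0 c1, q ^ c

lemma Aq_pos {q : ℝ} (hq : 0 ≤ q) (hq1 : q < 1) {c0 : ℕ} (h : 1 ≤ c0) (c1 : ℕ) : 0 < Aq q c0 c1 :=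
  prod_pos fun c hc => by
    have := pow_lt_one₀ hq hq1 (n := c) (by have := (mem_Ico.1 hc).1; omega)
    linarith

lemma Aq_le_one {q : ℝ} (hq : 0 ≤ q) (hq1 : q ≤ 1) (c0 c1 : ℕ) : Aq q c0 c1 ≤ 1 :=
  prod_le_one (fun c _ => by have := pow_le_one₀ hq hq1 (n := c); linarith)
    fun c _ => by have := pow_nonneg hq c; linarith

lemma le_Aq {q : ℝ} (hq : 0 ≤ q) (hq1 : q ≤ 1) {c0 : ℕ} (h : q ^ c0 ≤ 1 / 2) (c1 : ℕ) :
    Real.exp (-(2 * sg q c0 c1)) ≤ Aq q c0 c1 := by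
  unfold sg Aq
  rw [mul_sum, ← sum_neg_distrib, Real.exp_sum]
  exact prod_le_prod (fun _ _ => (Real.exp_pos _).le) fun c hc =>
    exp_neg_le (pow_nonneg hq c) ((pow_le_pow_of_le_one hq hq1 (mem_Ico.1 hc).1).trans h)

lemma sg_le {q X : ℝ} (hq : 0 ≤ q) (hq1 : q < 1) (hX : 1 ≤ X * (1 - q)) (c0 c1 : ℕ) :
    sg q c0 c1 ≤ X * q ^ c0 := by
  refine (geom_sum_Ico_le_of_lt_one hq hq1).trans ?_
  rw [div_le_iff₀ (by linarith)]
  have := pow_nonneg hq c0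
  nlinarith

lemma Ps_eq (q η : ℝ) (c0 c1 : ℕ) :
    Ps q η c0 c1 = Real.exp (-(η * sg q c0 c1)) / Aq q c0 c1 := by
  unfold Ps ph sg Aq
  rw [prod_div_distrib, mul_sum, ← sum_neg_distrib, Real.exp_sum]

lemma Tt_eq (q : ℝ) (c0 c1 : ℕ) : Tt q c0 c1 = Real.exp (6 * sg q c0 c1) := by
  unfold Tt sg; rw [mul_sum, Real.exp_sum]

lemma Aq_mul (q : ℝ) {a b c : ℕ} (h1 : a ≤ b) (h2 : b ≤ c) :
    Aq q a b * Aq q b c = Aq q a c := prod_Ico_consecutive _ h1 h2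

lemma Wt_Aq (q : ℝ) (j M : ℕ) : Wt q j M * Aq q 1 (j + 1) = Aq q (M + 1) (M + 1 + j) := by
  unfold Aq
  rw [prod_Ico_eq_prod_range, prod_Ico_eq_prod_range]
  have := Wt_closed q j M
  simp only [add_tsub_cancel_right, add_tsub_cancel_left]
  convert this using 2
  · exact prod_congr rfl fun i _ => by rw [add_comm]
  · rw [add_right_comm]

lemma Wt_nonneg {q : ℝ} (hq : 0 ≤ q) (j M : ℕ) : 0 ≤ Wt q j M :=
  sum_nonneg fun _ _ => pow_nonneg hq _

lemma chernoff (D P : ℕ) (hD : 1 ≤ D) (hP : P ≤ D) :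
    2 * (Real.exp (6 * D) * (3 / 2) ^ P) ≤ (3 / 2 : ℝ) ^ (20 * D + 1) := by
  have h1 : Real.exp (6 * D) ≤ (730 : ℝ) ^ D := by
    rw [show (6 * D : ℝ) = D * 6 by ring, Real.exp_nat_mul]
    refine pow_le_pow_left₀ (Real.exp_pos _).le ?_ D
    have : Real.exp 6 = Real.exp 1 ^ 6 := by rw [← Real.exp_nat_mul]; norm_num
    rw [this]
    calc Real.exp 1 ^ 6 ≤ 3 ^ 6 := pow_le_pow_left₀ (Real.exp_pos _).le
          (Real.exp_one_lt_d9.le.trans (by norm_num)) 6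
      _ ≤ 730 := by norm_num
  have h2 : (3 / 2 : ℝ) ^ P ≤ (3 / 2) ^ D := pow_le_pow_right₀ (by norm_num) hP
  have h3 : (2 : ℝ) ≤ 2 ^ D := by
    calc (2 : ℝ) = 2 ^ 1 := by norm_num
      _ ≤ 2 ^ D := pow_le_pow_right₀ (by norm_num) hD
  calc 2 * (Real.exp (6 * D) * (3 / 2) ^ P) ≤ 2 ^ D * (730 ^ D * (3 / 2) ^ D) := by gcongr
    _ = (2 * (730 * (3 / 2))) ^ D := by rw [mul_pow, mul_pow]
    _ ≤ ((3 / 2) ^ 20) ^ D := pow_le_pow_left₀ (by norm_num) (by norm_num) D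
    _ = (3 / 2) ^ (20 * D) := by rw [← pow_mul]
    _ ≤ _ := pow_le_pow_right₀ (by norm_num) (by omega)

theorem key (H : ∀ k, Monotone (cnt k)) {q : ℝ} (hq : 0 ≤ q) (hq1 : q < 1)
    {D U w P n1 n3 : ℕ} (hD : 1 ≤ D) (hqD : q ^ D = 1 / 2) (hX : 1 ≤ (2 * D : ℝ) * (1 - q))
    (h1 : D + 1 + n1 = U * D) (h2 : 2 * w * P = (U + 4) * D + 2 * w)
    (h3 : (U + 20) * D + 2 * w * P + 2 * n3 = 3 * U * D) (h4 : 4 * w ≤ D) (hP : P ≤ D) :
    Real.exp (-(52 * (D * (1 / 2) ^ (3 * U)))) *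
      (((w : ℝ) / 4) ^ 2 * (1 / 2) ^ (2 * (3 * U) + 88)) ^ P ≤ (2 * (20 * D + 1 : ℝ)) ^ 2 := by
  have hle := hq1.le
  set u := U * D with hu
  set a := (U + 20) * D with ha
  set m := 3 * U * D with hm
  have hau : a = u + 2 * (10 * D) := by rw [ha, hu]; ring
  have hm3 : m = 3 * u := by rw [hm, hu]; ring
  have hpow : ∀ c, D ≤ c → q ^ c ≤ 1 / 2 := fun c hc => hqD ▸ pow_le_pow_of_le_one hq hle hc
  set η : ℝ := 8 * (q ^ u) ^ 2 with hη
  have hηc : ∀ c, u ≤ c → 8 * (q ^ c) ^ 2 ≤ η := fun c hc => by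
    have := pow_le_pow_of_le_one hq hle hc
    rw [hη]; gcongr
  have g1 := Gd_Low (m := m) (a := a) (u := u) (K := 3 * U) hq hle (by omega) n1 (D + 1)
    (hpow _ (by omega)) (by omega)
  have g2 := Gd_Un (m := m) (a := a) (u := u) hq hle (10 * D) u (hpow _ (by omega)) (hηc _ le_rfl)
    (by omega)
  have g3 := Gd_Blks (m := m) (a := a) (u := u) (w := w) hq hle P a (hpow _ (by omega))
    (hηc _ (by omega)) (by omega) le_rfl
  have g4 := Gd_Un (m := m) (a := a) (u := u) hq hle n3 (a + 2 * w * P) (hpow _ (by omega))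
    (hηc _ (by omega)) (by omega)
  rw [h1] at g1
  rw [← hau] at g2
  rw [h3] at g4
  have y0 : (0 : ℝ) ≤ 3 / 2 := by norm_num
  have G := g1.cat hq y0 (g2.cat hq y0 (g3.cat hq y0 g4))
  set Fam := cat (Low (3 * U) (D + 1) n1) (cat (Un u (10 * D)) (cat (Blks w a P)
    (Un (a + 2 * w * P) n3))) with hFam
  set gain : ℝ := ((w : ℝ) / 4) ^ P * q ^ (a * P + w * P * (P + 1)) with hgain
  have eW : Ps q (2 * (1 / 2) ^ (3 * U)) (D + 1) u * (Ps q η u a *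
      (Ps q η a (a + 2 * w * P) * gain * Ps q η (a + 2 * w * P) m)) =
      Ps q (2 * (1 / 2) ^ (3 * U)) (D + 1) u * Ps q η u m * gain := by
    rw [← Ps_mul q η (show u ≤ a by omega) (show a ≤ m by omega),
      ← Ps_mul q η (show a ≤ a + 2 * w * P by omega) (show _ ≤ m by omega)]; ring
  have eT : Tt q (D + 1) u * (Tt q u a * (Tt q a (a + 2 * w * P) * (3 / 2) ^ P *
      Tt q (a + 2 * w * P) m)) = Tt q (D + 1) m * (3 / 2) ^ P := by
    rw [← Tt_mul q (show D + 1 ≤ u by omega) (show u ≤ m by omega),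
      ← Tt_mul q (show u ≤ a by omega) (show a ≤ m by omega),
      ← Tt_mul q (show a ≤ a + 2 * w * P by omega) (show _ ≤ m by omega)]; ring
  rw [eW, eT] at G
  have hD' : (1 : ℝ) ≤ D := by exact_mod_cast hD
  have s1 : ∀ c, sg q (D + 1) c ≤ D := fun c => by
    have := sg_le hq hq1 hX (D + 1) c
    have := hpow (D + 1) (by omega)
    nlinarith
  obtain ⟨j, hj, hG⟩ := pigeon (J := 20 * D) hq (by norm_num) G.up (by
    refine le_trans ?_ (chernoff D P hD hP)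
    rw [Tt_eq]
    have := s1 m
    gcongr)
  set F := Fam.filter (fun l => l.length = j) with hF
  have hfam := family (m := m) (θ := D) (J := 20 * D) (P := P) (j := j) (a := a) (w := w) hq hle
    (by omega) hD hj F (fun l hl => by
      obtain ⟨l1, l2⟩ := mem_filter.1 hl
      refine ⟨?_, l2, ?_⟩
      · have := G.tr l l1 [] (D + 1) 0 le_rfl (Or.inr (by omega)) (by simp; omega)
          (fun _ _ _ _ => trivial)
        simpa using this
      · obtain ⟨s, hs, t, ht, rfl⟩ := mem_cat.1 l1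
        obtain ⟨s2, hs2, t2, ht2, rfl⟩ := mem_cat.1 ht
        obtain ⟨s3, hs3, t3, ht3, rfl⟩ := mem_cat.1 ht2
        have e : marks (s ++ (s2 ++ (s3 ++ t3))) = marks s3 := by
          simp [marks_append, marks_Low _ _ _ s hs, marks_Un _ _ s2 hs2, marks_Un _ _ t3 ht3]
        simp only [e]
        exact marks_Blks w P a s3 hs3) (by omega) (by
      have : (U + 4) * D = u + 4 * D := by rw [hu]; ring
      omega)
  set n := m + 2 * D + j + j + P with hn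
  have hn1 : n ≤ n * n := Nat.le_mul_self n
  have hup := (hfam.trans (Zp_mono H hq (show n ≤ 4 * (n * n) + 1 by omega) _)).trans
    (Zp_le hq hle (n * n))
  set K := n * n with hK
  -- numerical part
  set δ : ℝ := D * (1 / 2) ^ (3 * U) with hδ
  have hqm : q ^ m = (1 / 2) ^ (3 * U) := by rw [hm, mul_comm, pow_mul, hqD]
  have sm : ∀ c, sg q m c ≤ 2 * δ := fun c => by
    have := sg_le hq hq1 hX m c
    rw [hqm] at this; rw [hδ]; linarith
  have Am : ∀ c, Real.exp (-(4 * δ)) ≤ Aq q m c := fun c =>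
    le_trans (Real.exp_le_exp.2 (by have := sm c; linarith)) (le_Aq hq hle (hpow _ (by omega)) c)
  have p1 := Aq_pos hq hq1 (le_refl 1) (D + 1)
  have p2 := Aq_pos hq hq1 (show 1 ≤ D + 1 by omega) u
  have p3 := Aq_pos hq hq1 (show 1 ≤ u by omega) m
  have p4 := Aq_pos hq hq1 (show 1 ≤ m by omega) (2 * K + 1)
  have eA : Aq q 1 (2 * K + 1) =
      Aq q 1 (D + 1) * Aq q (D + 1) u * Aq q u m * Aq q m (2 * K + 1) := by
    rw [Aq_mul q (by omega) (by omega), Aq_mul q (by omega) (by omega),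
      Aq_mul q (by omega) (by omega)]
  have w1 : Wt q (2 * K) (4 * K + 1) * Aq q 1 (2 * K + 1) ≤ 1 := by
    rw [Wt_Aq]; exact Aq_le_one hq hle _ _
  have w2 : Real.exp (-(4 * δ)) ≤ Wt q D (m - 1) * Aq q 1 (D + 1) := by
    rw [Wt_Aq, show m - 1 + 1 = m by omega]; exact Am _
  have gain0 : 0 ≤ gain := by positivity
  have w3 : Real.exp (-(2 * δ)) * Real.exp (-(16 * δ)) * gain ≤
      2 * (20 * D + 1) * GF q 1 F * (Aq q (D + 1) u * Aq q u m) := by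
    have b1 := G.low.trans hG
    rw [Ps_eq, Ps_eq, div_mul_div_comm, div_mul_eq_mul_div, div_le_iff₀ (mul_pos p2 p3)] at b1
    push_cast at b1
    refine le_trans ?_ b1
    have b2 : 2 * (1 / 2) ^ (3 * U) * sg q (D + 1) u ≤ 2 * δ := by
      have := s1 u
      have : (0 : ℝ) ≤ (1 / 2) ^ (3 * U) := by positivity
      rw [hδ]; nlinarith
    have b3 : η * sg q u m ≤ 16 * δ := by
      have := sg_le hq hq1 hX u m
      have e : δ = D * ((q ^ u) ^ 2 * q ^ u) := by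
        rw [hδ, ← hqm, hm3]; ring
      rw [e, hη]
      have : (0 : ℝ) ≤ (q ^ u) ^ 2 := by positivity
      nlinarith
    gcongr
  have GF0 := GF_nonneg hq zero_le_one F
  have Wt0 := Wt_nonneg hq D (m - 1)
  have Wt1 := Wt_nonneg hq (2 * K) (4 * K + 1)
  have w4 : Real.exp (-(26 * δ)) * gain ≤
      2 * (20 * D + 1) * (Wt q D (m - 1) * GF q 1 F * Aq q 1 (2 * K + 1)) := by
    have b1 := mul_le_mul (mul_le_mul w2 w3 (by positivity) (by positivity)) (Am (2 * K + 1))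
      (by positivity) (by positivity)
    have e : Real.exp (-(26 * δ)) = Real.exp (-(4 * δ)) * Real.exp (-(2 * δ)) *
        Real.exp (-(16 * δ)) * Real.exp (-(4 * δ)) := by
      rw [← Real.exp_add, ← Real.exp_add, ← Real.exp_add]; congr 1; ring
    rw [e, eA]
    exact le_of_eq_of_le (by ring) (b1.trans_eq (by ring))
  have w5 : (Wt q D (m - 1) * GF q 1 F * Aq q 1 (2 * K + 1)) ^ 2 * q ^ (P * n) ≤ 1 := by
    have pA := Aq_pos hq hq1 (le_refl 1) (2 * K + 1)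
    calc _ = (Wt q D (m - 1) * GF q 1 F) ^ 2 * q ^ (P * n) * Aq q 1 (2 * K + 1) ^ 2 := by ring
      _ ≤ Wt q (2 * K) (4 * K + 1) ^ 2 * Aq q 1 (2 * K + 1) ^ 2 := by gcongr
      _ = (Wt q (2 * K) (4 * K + 1) * Aq q 1 (2 * K + 1)) ^ 2 := by ring
      _ ≤ 1 := pow_le_one₀ (by positivity) w1
  have w6 : (((w : ℝ) / 4) ^ 2 * (1 / 2) ^ (2 * (3 * U) + 88)) ^ P ≤ gain ^ 2 * q ^ (P * n) := by
    have e : gain ^ 2 * q ^ (P * n) =
        (((w : ℝ) / 4) ^ 2 * q ^ (2 * a + 2 * w * P + 2 * w + n)) ^ P := by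
      rw [hgain, mul_pow, mul_pow, mul_assoc, ← pow_mul q, ← pow_mul q, ← pow_add, ← pow_mul,
        ← pow_mul, mul_comm P 2]
      congr 2; ring
    rw [e]
    refine pow_le_pow_left₀ (by positivity) (mul_le_mul_of_nonneg_left ?_ (by positivity)) P
    rw [← hqD, ← pow_mul]
    refine pow_le_pow_of_le_one hq hle ?_
    have e1 : (U + 4) * D = u + 4 * D := by rw [hu]; ring
    have e2 : D * (2 * (3 * U) + 88) = 6 * u + 88 * D := by rw [hu]; ring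
    omega
  have e52 : Real.exp (-(52 * δ)) = Real.exp (-(26 * δ)) ^ 2 := by
    rw [sq, ← Real.exp_add]; congr 1; ring
  calc _ ≤ Real.exp (-(52 * δ)) * (gain ^ 2 * q ^ (P * n)) := by gcongr
    _ = (Real.exp (-(26 * δ)) * gain) ^ 2 * q ^ (P * n) := by rw [e52]; ring
    _ ≤ (2 * (20 * D + 1) * (Wt q D (m - 1) * GF q 1 F * Aq q 1 (2 * K + 1))) ^ 2 *
          q ^ (P * n) := by gcongr
    _ = (2 * (20 * D + 1 : ℝ)) ^ 2 *
          ((Wt q D (m - 1) * GF q 1 F * Aq q 1 (2 * K + 1)) ^ 2 * q ^ (P * n)) := by ring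
    _ ≤ (2 * (20 * D + 1 : ℝ)) ^ 2 * 1 := by gcongr
    _ = _ := mul_one _

lemma exists_q {D : ℕ} (hD : 1 ≤ D) :
    ∃ q : ℝ, 0 ≤ q ∧ q < 1 ∧ q ^ D = 1 / 2 ∧ 1 ≤ (2 * D : ℝ) * (1 - q) := by
  have hD' : (1 : ℝ) ≤ D := by exact_mod_cast hD
  set q : ℝ := (1 / 2 : ℝ) ^ ((D : ℝ)⁻¹) with hq
  have h0 : 0 ≤ q := Real.rpow_nonneg (by norm_num) _
  have h1 : q ^ D = 1 / 2 := Real.rpow_inv_natCast_pow (by norm_num) (by omega)
  have hb : (1 / (2 * D) : ℝ) ≤ 1 / 2 := by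
    rw [div_le_div_iff₀ (by linarith) (by norm_num)]; linarith
  have hb0 : (0 : ℝ) < 1 / (2 * D) := by positivity
  have h2 : q ≤ 1 - 1 / (2 * D) := by
    refine le_of_pow_le_pow_left₀ (n := D) (by omega) (by linarith) ?_
    have := one_add_mul_le_pow (a := -(1 / (2 * D) : ℝ)) (by linarith) D
    rw [h1]
    have e : (D : ℝ) * -(1 / (2 * D)) = -(1 / 2) := by field_simp
    rw [e, ← sub_eq_add_neg, ← sub_eq_add_neg] at this
    linarith
  refine ⟨q, h0, by linarith, h1, ?_⟩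
  have e : (2 * D : ℝ) * (1 / (2 * D)) = 1 := by field_simp
  nlinarith

theorem main' (H : ∀ k, Monotone (cnt k)) (U' U w d' d : ℕ) (hUR : (2 : ℝ) ^ 54 ≤ U)
    (hU' : U = U' + 25) (hd' : d = d' + 1) (hwU : 3 * U + 47 < w)
    (hwR : (w : ℝ) = 2 ^ (3 * U) * 2 ^ 47) (hd : d = 402 * w) : False := by
  have hwd : w * d = w * d' + w := by rw [hd']; ring
  have hd2 : 2 ≤ d := by omega
  have hwd2 : w * 2 ≤ w * d := Nat.mul_le_mul_left w hd2
  have hD : 1 ≤ 2 * (w * d) := by omega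
  obtain ⟨q, q0, q1, q2, q3⟩ := exists_q hD
  obtain ⟨n1, hn1⟩ : ∃ n1, U * (2 * (w * d)) = 2 * (w * d) + 1 + n1 :=
    Nat.exists_eq_add_of_le (by
      have := Nat.mul_le_mul_right (2 * (w * d)) (show 2 ≤ U by omega)
      omega)
  have := key H q0 q1 (U := U) (w := w) (P := (U + 4) * d + 1) (n1 := n1)
    (n3 := U' * (w * d) + w * d') hD q2 q3 hn1.symm (by ring) (by rw [hU', hd']; ring) (by omega)
    (by
      have := Nat.mul_le_mul_right d (show U + 4 ≤ w by omega)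
      omega)
  have hx : (2 : ℝ) ^ (3 * U) * (1 / 2) ^ (3 * U) = 1 := by rw [← mul_pow]; simp
  have e1 : ((w : ℝ) / 4) ^ 2 * (1 / 2) ^ (2 * (3 * U) + 88) = 4 := by
    rw [pow_add, mul_comm 2 (3 * U), pow_mul _ (3 * U) 2, hwR]
    generalize (2 : ℝ) ^ (3 * U) = A at hx ⊢
    generalize (1 / 2 : ℝ) ^ (3 * U) = B at hx ⊢
    calc _ = (A * B) ^ 2 * 4 := by ring
      _ = 4 := by rw [hx]; norm_num
  have e2 : ((2 * (w * d) : ℕ) : ℝ) * (1 / 2) ^ (3 * U) = 2 ^ 48 * d := by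
    push_cast
    rw [hwR]
    generalize (2 : ℝ) ^ (3 * U) = A at hx ⊢
    generalize (1 / 2 : ℝ) ^ (3 * U) = B at hx ⊢
    calc _ = (A * B) * (2 ^ 48 * d) := by ring
      _ = _ := by rw [hx, one_mul]
  rw [e1, e2] at this
  have e3 : Real.exp (((U + 4) * d + 1 : ℕ) : ℝ) ≤ 4 ^ ((U + 4) * d + 1) := by
    rw [← Real.exp_one_pow]
    exact pow_le_pow_left₀ (Real.exp_pos _).le (Real.exp_one_lt_d9.le.trans (by norm_num)) _
  have hdR : (d : ℝ) = 402 * w := by exact_mod_cast hd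
  have hw1 : (1 : ℝ) ≤ w := by exact_mod_cast (show 1 ≤ w by omega)
  have e4 : Real.exp d ≤ Real.exp (-(52 * (2 ^ 48 * d))) * Real.exp (((U + 4) * d + 1 : ℕ) : ℝ) := by
    rw [← Real.exp_add]
    refine Real.exp_le_exp.2 ?_
    push_cast
    have h0 : (0 : ℝ) ≤ d := by positivity
    have := mul_le_mul_of_nonneg_right hUR h0
    linarith
  have e5 := Real.pow_div_factorial_le_exp (x := (d : ℝ)) (by positivity) 4
  have e6 : (d : ℝ) ^ 4 / (Nat.factorial 4 : ℕ) ≤ (2 * (20 * ((2 * (w * d) : ℕ) : ℝ) + 1)) ^ 2 :=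
    e5.trans (e4.trans (le_trans (by gcongr) this))
  rw [show Nat.factorial 4 = 24 by rfl] at e6
  push_cast at e6
  rw [hdR] at e6
  have h2 : (1 : ℝ) ≤ w ^ 2 := one_le_pow₀ hw1
  have e7 : (402 * (w : ℝ)) ^ 4 / 24 = 402 ^ 4 / 24 * (w ^ 2) ^ 2 := by ring
  have e8 : (2 * (20 * (2 * ((w : ℝ) * (402 * w))) + 1)) ^ 2 = (32160 * w ^ 2 + 2) ^ 2 := by ring
  rw [e7, e8] at e6
  generalize (w : ℝ) ^ 2 = z at h2 e6
  nlinarith

theorem not_monotone : ¬ ∀ k, Monotone (cnt k) := fun H => by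
  obtain ⟨U, hU⟩ : ∃ U : ℕ, (2 : ℝ) ^ 54 ≤ U := exists_nat_ge _
  obtain ⟨w, hw, hw2⟩ : ∃ w : ℕ, 3 * (U + 25) + 47 < w ∧ (w : ℝ) = 2 ^ (3 * (U + 25)) * 2 ^ 47 :=
    ⟨2 ^ (3 * (U + 25) + 47), Nat.lt_two_pow_self, by rw [Nat.cast_pow, pow_add]; rfl⟩
  exact main' H U (U + 25) w (402 * w - 1) (402 * w) (by push_cast; linarith) rfl (by omega) hw hw2
    rfl

end Pool.Agent.H11.Inv
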