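import Mathlib

set_option autoImplicit false

namespace H11.Loc

open SimpleGraph

/-- distance from the vertex `u` to the colour class `i` of the colouring `c` -/
noncomputable def code {V C : Type} (G : SimpleGraph V) (c : V → C) (u : V) (i : C) : ℕ :=
  sInf ((fun w => G.dist u w) '' {w | c w = i})

/-- a locating colouring: proper, every colour used, distinct vertices have distinct codes -/
def IsLocating {V C : Type} (G : SimpleGraph V) (c : V → C) : Prop :=
  Function.Surjective c ∧ (∀ u v, G.Adj u v → c u ≠ c v) ∧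
    ∀ u v, (∀ i, code G c u i = code G c v i) → u = v

/-- the locating chromatic number -/
noncomputable def chiL {V : Type} (G : SimpleGraph V) : ℕ :=
  sInf {k : ℕ | ∃ c : V → Fin k, IsLocating G c}

theorem chiL_le {V C : Type} [Fintype C] (G : SimpleGraph V) (c : V → C) (h : IsLocating G c) :
    chiL G ≤ Fintype.card C := by
  apply Nat.sInf_le
  let e := Fintype.equivFin C
  refine ⟨e ∘ c, e.surjective.comp h.1, fun u v huv h' => h.2.1 u v huv (e.injective h'), ?_⟩
  intro u v huv
  apply h.2.2
  intro i
  have := huv (e i)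
  have hs : {w | (e ∘ c) w = e i} = {w | c w = i} := by
    ext w; simp
  unfold code at this ⊢
  rwa [hs] at this

theorem code_single {V C : Type} (G : SimpleGraph V) (c : V → C) (u w : V)
    (hw : ∀ z, c z = c w → z = w) : code G c u (c w) = G.dist u w := by
  unfold code
  have : {z | c z = c w} = {w} := by
    ext z; simp only [Set.mem_setOf_eq, Set.mem_singleton_iff]
    exact ⟨hw z, fun h => by rw [h]⟩
  rw [this, Set.image_singleton, csInf_singleton]

theorem chiL_spec {V : Type} [Fintype V] (G : SimpleGraph V) (hG : G.Connected) :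
    ∃ c : V → Fin (chiL G), IsLocating G c := by
  have hne : {k : ℕ | ∃ c : V → Fin k, IsLocating G c}.Nonempty := by
    let e := Fintype.equivFin V
    refine ⟨Fintype.card V, e, e.surjective, fun u v huv h => huv.ne (e.injective h), ?_⟩
    intro u v huv
    have := huv (e u)
    rw [code_single G e u u (fun z hz => e.injective hz),
      code_single G e v u (fun z hz => e.injective hz), dist_self] at this
    exact (hG.dist_eq_zero_iff.mp this.symm).symm
  exact Nat.sInf_mem hne

theorem card_le {V : Type} [Fintype V] (G : SimpleGraph V) (hG : G.Connected) (D : ℕ)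
    (hD : ∀ u v, G.dist u v < D) : Fintype.card V ≤ D ^ chiL G := by
  obtain ⟨c, hc⟩ := chiL_spec G hG
  have hlt : ∀ u i, code G c u i < D := by
    intro u i
    obtain ⟨w, hw⟩ := hc.1 i
    exact lt_of_le_of_lt (Nat.sInf_le ⟨w, hw, rfl⟩) (hD u w)
  let f : V → (Fin (chiL G) → Fin D) := fun u i => ⟨code G c u i, hlt u i⟩
  have hf : Function.Injective f := by
    intro u v h
    apply hc.2.2
    intro i
    exact congrArg Fin.val (congrFun h i)
  simpa using Fintype.card_le_of_injective f hf

/-- the l1 distance -/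
def l1 {a D : ℕ} (x y : Fin a → Fin D) : ℤ := ∑ i, |((x i : ℕ) : ℤ) - (y i : ℕ)|

theorem l1_comm {a D : ℕ} (x y : Fin a → Fin D) : l1 x y = l1 y x := by
  unfold l1; exact Finset.sum_congr rfl fun i _ => abs_sub_comm _ _

theorem l1_self {a D : ℕ} (x : Fin a → Fin D) : l1 x x = 0 := by simp [l1]

theorem l1_nonneg {a D : ℕ} (x y : Fin a → Fin D) : 0 ≤ l1 x y :=
  Finset.sum_nonneg fun _ _ => abs_nonneg _

theorem l1_tri {a D : ℕ} (x y z : Fin a → Fin D) : l1 x z ≤ l1 x y + l1 y z := by
  unfold l1; rw [← Finset.sum_add_distrib]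
  exact Finset.sum_le_sum fun i _ => abs_sub_le _ _ _

theorem l1_update {a D : ℕ} (x y : Fin a → Fin D) (i : Fin a) (w : Fin D) :
    l1 (Function.update x i w) y + |((x i : ℕ) : ℤ) - (y i : ℕ)| =
      l1 x y + |((w : ℕ) : ℤ) - (y i : ℕ)| := by
  unfold l1
  rw [← Finset.add_sum_erase _ _ (Finset.mem_univ i), ← Finset.add_sum_erase _ _ (Finset.mem_univ i)]
  have : ∑ j ∈ Finset.univ.erase i, |((Function.update x i w j : ℕ) : ℤ) - (y j : ℕ)| =
      ∑ j ∈ Finset.univ.erase i, |((x j : ℕ) : ℤ) - (y j : ℕ)| := by
    apply Finset.sum_congr rfl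
    intro j hj
    rw [Function.update_of_ne (Finset.ne_of_mem_erase hj)]
  rw [this, Function.update_self]; ring

/-- the grid graph -/
def grid (a D : ℕ) : SimpleGraph (Fin a → Fin D) where
  Adj x y := l1 x y = 1
  symm := ⟨fun x y h => by rw [l1_comm]; exact h⟩
  loopless := ⟨fun x h => by rw [l1_self] at h; exact absurd h (by norm_num)⟩

theorem desc {a D : ℕ} (x y : Fin a → Fin D) (h : x ≠ y) :
    ∃ z, (grid a D).Adj x z ∧ l1 z y + 1 = l1 x y := by
  obtain ⟨i, hi⟩ := Function.ne_iff.mp h
  have hi' : (x i : ℕ) ≠ y i := fun h => hi (Fin.ext h)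
  have hx := (x i).2
  have hy := (y i).2
  rcases lt_or_gt_of_ne hi' with h1 | h1
  · refine ⟨Function.update x i ⟨x i + 1, by omega⟩, ?_, ?_⟩
    · change l1 _ _ = 1
      rw [l1_comm]
      have := l1_update x x i ⟨x i + 1, by omega⟩
      rw [l1_self] at this
      simpa using this
    · have := l1_update x y i ⟨x i + 1, by omega⟩
      simp only at this
      rw [abs_of_nonpos (by omega), abs_of_nonpos (by push_cast; omega)] at this
      push_cast at this; omega
  · refine ⟨Function.update x i ⟨x i - 1, by omega⟩, ?_, ?_⟩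
    · change l1 _ _ = 1
      rw [l1_comm]
      have := l1_update x x i ⟨x i - 1, by omega⟩
      rw [l1_self] at this
      simp only at this
      rw [abs_of_nonneg (by omega), abs_of_nonpos (by omega)] at this
      omega
    · have := l1_update x y i ⟨x i - 1, by omega⟩
      simp only at this
      rw [abs_of_nonneg (by omega), abs_of_nonneg (by omega)] at this
      omega

theorem walk_up {a D : ℕ} (y : Fin a → Fin D) : ∀ n : ℕ, ∀ x, l1 x y = n →
    ∃ p : (grid a D).Walk x y, p.length = n := by
  intro n
  induction n with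
  | zero =>
    intro x hx
    by_cases h : x = y
    · subst h; exact ⟨Walk.nil, rfl⟩
    · obtain ⟨z, -, hz⟩ := desc x y h
      have := l1_nonneg z y
      push_cast at hx; omega
  | succ n ih =>
    intro x hx
    have h : x ≠ y := by rintro rfl; rw [l1_self] at hx; push_cast at hx; omega
    obtain ⟨z, hxz, hz⟩ := desc x y h
    obtain ⟨p, hp⟩ := ih z (by push_cast at hx; omega)
    exact ⟨Walk.cons hxz p, by simp [hp]⟩

theorem grid_conn (a D : ℕ) (hD : 0 < D) : (grid a D).Connected := by
  haveI : Nonempty (Fin a → Fin D) := ⟨fun _ => ⟨0, hD⟩⟩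
  refine ⟨fun x y => ?_⟩
  obtain ⟨n, hn⟩ := Int.eq_ofNat_of_zero_le (l1_nonneg x y)
  obtain ⟨p, -⟩ := walk_up y n x hn
  exact ⟨p⟩

theorem grid_dist {a D : ℕ} (x y : Fin a → Fin D) : ((grid a D).dist x y : ℤ) = l1 x y := by
  obtain ⟨n, hn⟩ := Int.eq_ofNat_of_zero_le (l1_nonneg x y)
  obtain ⟨p, hp⟩ := walk_up y n x hn
  apply le_antisymm
  · have := dist_le p
    omega
  · have low : ∀ {u v : Fin a → Fin D} (q : (grid a D).Walk u v), l1 u v ≤ q.length := by
      intro u v q
      induction q with
      | nil => simp [l1_self]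
      | @cons u w v h q ih =>
        have h1 : l1 u w = 1 := h
        have := l1_tri u w v
        simp only [Walk.length_cons]; push_cast; omega
    obtain ⟨q, hq⟩ := (p.reachable).exists_walk_length_eq_dist
    have := low q
    omega

theorem l1_le {a D : ℕ} (x y : Fin a → Fin D) : l1 x y ≤ a * D - a := by
  unfold l1
  calc _ ≤ ∑ _i : Fin a, ((D : ℤ) - 1) := by
        apply Finset.sum_le_sum
        intro i _
        have := (x i).2
        have := (y i).2
        rw [abs_le]; constructor <;> omega
    _ = _ := by simp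

theorem prod_dist {α β : Type} (G : SimpleGraph α) (H : SimpleGraph β) (hG : G.Connected)
    (hH : H.Connected) (x y : α × β) :
    (G □ H).dist x y = G.dist x.1 y.1 + H.dist x.2 y.2 := by
  have h := edist_boxProd (G := G) (H := H) x y
  rw [← ((hG.boxProd hH).preconnected x y).coe_dist_eq_edist,
    ← (hG.preconnected _ _).coe_dist_eq_edist, ← (hH.preconnected _ _).coe_dist_eq_edist] at h
  exact_mod_cast h

theorem prod_lower (a : ℕ) (ha : 1 ≤ a) (D : ℕ) (hD : (2 * a) ^ (2 * a) < D) :
    2 * a ≤ chiL (grid a D □ grid a D) := by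
  have hD0 : 0 < D := by omega
  have hc := grid_conn a D hD0
  have h := card_le (grid a D □ grid a D) (hc.boxProd hc) (2 * a * D) (by
    intro u v
    rw [prod_dist _ _ hc hc]
    have h1 := grid_dist u.1 v.1
    have h2 := grid_dist u.2 v.2
    have h3 := l1_le u.1 v.1
    have h4 := l1_le u.2 v.2
    have : (((grid a D).dist u.1 v.1 + (grid a D).dist u.2 v.2 : ℕ) : ℤ) < ((2 * a * D : ℕ) : ℤ) := by
      push_cast
      have : (1 : ℤ) ≤ a := by exact_mod_cast ha
      nlinarith
    exact_mod_cast this)
  by_contra hlt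
  push Not at hlt
  set k := chiL (grid a D □ grid a D)
  simp only [Fintype.card_prod, Fintype.card_pi, Fintype.card_fin, Finset.prod_const,
    Finset.card_univ] at h
  have e1 : D ^ a * D ^ a = D ^ (2 * a - 1) * D := by
    rw [← pow_add, ← pow_succ]; congr 1; omega
  have e2 : (2 * a * D) ^ k ≤ (2 * a) ^ (2 * a) * D ^ (2 * a - 1) := by
    rw [mul_pow]
    apply Nat.mul_le_mul
    · exact Nat.pow_le_pow_right (by omega) (by omega)
    · exact Nat.pow_le_pow_right hD0 (by omega)
  have e3 : 0 < D ^ (2 * a - 1) := pow_pos hD0 _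
  have : D ^ (2 * a - 1) * D ≤ D ^ (2 * a - 1) * (2 * a) ^ (2 * a) := by
    rw [← e1, mul_comm (D ^ (2 * a - 1))]; exact h.trans e2
  have := Nat.le_of_mul_le_mul_left this e3
  omega

theorem l1_parity {a D : ℕ} (x y : Fin a → Fin D) :
    (l1 x y - ((∑ i, ((x i : ℕ) : ℤ)) - ∑ i, ((y i : ℕ) : ℤ))) % 2 = 0 := by
  unfold l1
  rw [← Finset.sum_sub_distrib, ← Finset.sum_sub_distrib]
  apply Int.emod_eq_zero_of_dvd
  apply Finset.dvd_sum
  intro i _
  rcases abs_cases (((x i : ℕ) : ℤ) - (y i : ℕ)) with h | h <;> omega

theorem grid_upper (a : ℕ) (ha : 1 ≤ a) (D : ℕ) (hD : 4 ≤ D) : chiL (grid a D) ≤ a + 3 := by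
  classical
  let z : Fin a → Fin D := fun _ => ⟨0, by omega⟩
  let t : Fin D := ⟨D - 1, by omega⟩
  let L : Option (Fin a) → (Fin a → Fin D) := fun o =>
    match o with
    | none => z
    | some i => Function.update z i t
  have hL : Function.Injective L := by
    rintro (_ | i) (_ | j) h
    · rfl
    · have := congrArg Fin.val (congrFun h j)
      simp [L, z, t] at this; omega
    · have := congrArg Fin.val (congrFun h i)
      simp [L, z, t] at this; omega
    · by_contra hne
      have hij : i ≠ j := fun h => hne (by rw [h])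
      have := congrArg Fin.val (congrFun h i)
      simp [L, z, t, Function.update_of_ne hij] at this; omega
  let c : (Fin a → Fin D) → Option (Fin a) ⊕ Bool := fun x =>
    if h : ∃ o, L o = x then Sum.inl h.choose else Sum.inr (decide ((∑ i, ((x i : ℕ) : ℤ)) % 2 = 0))
  have hcL : ∀ o, c (L o) = Sum.inl o := by
    intro o
    have h : ∃ o', L o' = L o := ⟨o, rfl⟩
    simp only [c, dif_pos h]
    rw [hL h.choose_spec]
  have hinl : ∀ x o, c x = Sum.inl o → x = L o := by
    intro x o hx
    by_cases h : ∃ o, L o = x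
    · simp only [c, dif_pos h] at hx
      rw [← Sum.inl.inj hx, h.choose_spec]
    · simp [c, dif_neg h] at hx
  have hc : IsLocating (grid a D) c := by
    refine ⟨?_, ?_, ?_⟩
    · have key : ∀ (w : Fin D), (w : ℕ) ≠ 0 → (w : ℕ) ≠ D - 1 →
          c (Function.update z ⟨0, ha⟩ w) = Sum.inr (decide (((w : ℕ) : ℤ) % 2 = 0)) := by
        intro w h0 h1
        have h : ¬ ∃ o, L o = Function.update z ⟨0, ha⟩ w := by
          rintro ⟨_ | i, hi⟩
          · have := congrArg Fin.val (congrFun hi ⟨0, ha⟩)
            simp [L, z] at this; omega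
          · have := congrArg Fin.val (congrFun hi ⟨0, ha⟩)
            by_cases hi0 : (⟨0, ha⟩ : Fin a) = i
            · subst hi0
              simp [L, t] at this; omega
            · simp [L, z, Function.update_of_ne hi0] at this; omega
        simp only [c, dif_neg h]
        congr 3
        rw [← Finset.add_sum_erase _ _ (Finset.mem_univ (⟨0, ha⟩ : Fin a)), Function.update_self,
          Finset.sum_eq_zero, add_zero]
        intro j hj
        rw [Function.update_of_ne (Finset.ne_of_mem_erase hj)]
        simp [z]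
      rintro (o | b)
      · exact ⟨L o, hcL o⟩
      · cases b
        · exact ⟨_, (key ⟨1, by omega⟩ (by simp) (by simp; omega)).trans (by simp)⟩
        · exact ⟨_, (key ⟨2, by omega⟩ (by simp) (by simp; omega)).trans (by simp)⟩
    · intro u v huv h
      have h1 : l1 u v = 1 := huv
      rcases hu : c u with o | b
      · have e1 := hinl u o hu
        have e2 := hinl v o (h ▸ hu)
        exact huv.ne (e1.trans e2.symm)
      · have hu' : ¬ ∃ o, L o = u := by
          rintro ⟨o, rfl⟩; rw [hcL] at hu; cases hu
        have hv' : ¬ ∃ o, L o = v := by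
          rintro ⟨o, rfl⟩; rw [hcL, hu] at h; cases h
        simp only [c, dif_neg hu', dif_neg hv', Sum.inr.injEq, decide_eq_decide] at h
        have := l1_parity u v
        omega
    · intro u v huv
      have key : ∀ o, l1 (L o) u = l1 (L o) v := by
        intro o
        have := huv (c (L o))
        have hs : ∀ w, c w = c (L o) → w = L o := fun w hw => hinl w o (hw.trans (hcL o))
        rw [code_single _ c u _ hs, code_single _ c v _ hs] at this
        rw [l1_comm, ← grid_dist, this, grid_dist, l1_comm]
      funext i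
      have h0 : l1 z u = l1 z v := key none
      have h1 : l1 (Function.update z i t) u = l1 (Function.update z i t) v := key (some i)
      have h2 := l1_update z u i t
      have h3 := l1_update z v i t
      have hu := (u i).2
      have hv := (v i).2
      have hz : ((z i : ℕ) : ℤ) = 0 := rfl
      have ht : ((t : ℕ) : ℤ) = D - 1 := by simp only [t]; omega
      rw [hz, ht, abs_of_nonpos (by omega), abs_of_nonneg (by omega)] at h2 h3
      apply Fin.ext; omega
  simpa using chiL_le _ c hc

theorem main (s : ℕ) : ∃ (V : Type) (_ : Fintype V) (G : SimpleGraph V), G.Connected ∧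
    chiL G + s ≤ chiL (G □ G) := by
  refine ⟨Fin (s + 3) → Fin ((2 * (s + 3)) ^ (2 * (s + 3)) + 4), inferInstance, grid _ _,
    grid_conn _ _ (by omega), ?_⟩
  have h1 := grid_upper (s + 3) (by omega) ((2 * (s + 3)) ^ (2 * (s + 3)) + 4) (by omega)
  have h2 := prod_lower (s + 3) (by omega) ((2 * (s + 3)) ^ (2 * (s + 3)) + 4) (by omega)
  omega

end H11.Loc
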