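import Pool.Agent.H11.BD5

/-! Marks' lemma for the free product of two cyclic groups of order three (labelled version) -/

namespace H11.Mk
open Classical H11.BD

abbrev T := List Bool → Fin 5
abbrev X := Fin 5 × (Bool → Bool → T)
abbrev D := Bool × List Bool → Fin 5

def sub (t : T) (j : Bool) : T := fun w => t (j :: w)
def node (k : Fin 5) (f : Bool → T) : T
  | [] => k
  | j :: w => f j w

lemma node_sub (t : T) : node (t []) (sub t) = t := by
  funext w; cases w <;> rfl

def rot (s : Bool) (x : X) : X :=
  (x.2 s false [], fun s' j => if s' = s then (if j then node x.1 (x.2 (!s)) else x.2 s true)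
    else sub (x.2 s false) j)

lemma rot3 (s : Bool) (x : X) : rot s (rot s (rot s x)) = x := by
  obtain ⟨k, f⟩ := x
  refine Prod.ext ?_ (funext fun s' => funext fun j => ?_)
  · cases s <;> rfl
  · cases s <;> cases s' <;> cases j <;> first | rfl | exact node_sub _

lemma rot_inj (s : Bool) : Function.Injective (rot s) := fun x y h => by
  rw [← rot3 s x, h, rot3]

lemma meas_ev (s j : Bool) (w : List Bool) : Measurable fun x : X => x.2 s j w :=
  (measurable_pi_apply w).comp ((measurable_pi_apply j).comp
    ((measurable_pi_apply s).comp measurable_snd))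

lemma meas_rot (s : Bool) : Measurable (rot s) := by
  refine (meas_ev s false []).prodMk (measurable_pi_lambda _ fun s' => measurable_pi_lambda _ fun j =>
    measurable_pi_lambda _ fun w => ?_)
  by_cases h : s' = s
  · simp only [h, if_true]
    cases j
    · exact meas_ev s true w
    · cases w with
      | nil => exact measurable_fst
      | cons j w => exact meas_ev (!s) j w
  · simp only [h, if_false]
    exact meas_ev s false (j :: w)

def mk (s : Bool) (k : Fin 5) (u v : D) : X :=
  (k, fun s' j w => if s' = s then u (j, w) else v (j, w))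

def W (s : Bool) (k : Fin 5) (Z : Set X) : Prop :=
  ∃ τ : D → D, (∀ u u' j, (∀ i : Bool × List Bool, i.2.length ≤ j.2.length → u i = u' i) →
    τ u j = τ u' j) ∧ ∀ u, mk s k u (τ u) ∈ Z

lemma det (k : Fin 5) {S : Set X} (hS : MeasurableSet S) : W true k Sᶜ ∨ W false k S := by
  have hm : Measurable fun q : D × D => mk false k q.1 q.2 := by
    refine measurable_const.prodMk (measurable_pi_lambda _ fun s' => measurable_pi_lambda _ fun j =>
      measurable_pi_lambda _ fun w => ?_)
    cases s'
    · exact (measurable_pi_apply (j, w)).comp measurable_fst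
    · exact (measurable_pi_apply (j, w)).comp measurable_snd
  rcases lab_det (fun i : Bool × List Bool => i.2.length) (fun i : Bool × List Bool => i.2.length)
    _ (hm hS.compl) with ⟨σ, a, b⟩ | ⟨τ, a, b⟩
  · left
    refine ⟨σ, fun u u' j h => a u u' j fun i hi => h i hi.le, fun u => ?_⟩
    have e : mk true k u (σ u) = mk false k (σ u) u := by
      refine Prod.ext rfl (funext fun s' => ?_)
      cases s' <;> rfl
    rw [e]; exact b u
  · right
    exact ⟨τ, a, fun u => not_not.1 (b u)⟩

lemma tri (s : Bool) (k : Fin 3 → Fin 5) (Z : Set X) (h : ∀ i, W s (k i) Z) :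
    ∃ x : Fin 3 → X, ∀ i, x i ∈ Z ∧ (x i).1 = k i ∧ rot s (x i) = x (i + 1) := by
  choose τ t1 t2 using h
  let nx : Fin 3 → Bool → Fin 3 := fun i j => if j then i + 2 else i + 1
  let U : (Fin 3 × Bool × List Bool → Fin 5) → Fin 3 → D := fun g i q =>
    node (k (nx i q.1)) (fun j w => g (nx i q.1, j, w)) q.2
  obtain ⟨g, hg⟩ := causal_fix (fun q : Fin 3 × Bool × List Bool => q.2.2.length)
    (fun g q => τ q.1 (U g q.1) q.2) (by
      rintro u u' ⟨i, j, w⟩ hu
      refine t1 i _ _ (j, w) ?_
      rintro ⟨j', w'⟩ hw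
      cases w' with
      | nil => rfl
      | cons j'' w' =>
        refine hu _ ?_
        simp only [List.length_cons] at *
        omega)
  have e : ∀ i, τ i (U g i) = fun q => g (i, q) := fun i => funext fun q => congrFun hg (i, q)
  refine ⟨fun i => mk s (k i) (U g i) (τ i (U g i)), fun i => ⟨t2 i _, rfl, ?_⟩⟩
  simp only [e]
  refine Prod.ext ?_ (funext fun s' => funext fun j => funext fun w => ?_)
  · simp [rot, mk, U, node, nx]
  · have e1 : i + 1 + 1 = i + 2 := by revert i; decide
    have e2 : i + 1 + 2 = i := by revert i; decide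
    cases s <;> cases s' <;> cases j <;> simp [rot, mk, U, nx, sub, node, e1, e2]

theorem marks {S : Set X} (hS : MeasurableSet S) : ∃ (s : Bool) (x : Fin 3 → X),
    (∀ i, (x i ∈ S ↔ s = false) ∧ (x i).1 ≠ (x (i + 1)).1 ∧ rot s (x i) = x (i + 1)) := by
  have pig : ∀ f : Fin 5 → Bool, ∃ a b c, a ≠ b ∧ b ≠ c ∧ c ≠ a ∧ f a = f b ∧ f a = f c := by
    decide
  obtain ⟨a, b, c, h1, h2, h3, h4, h5⟩ := pig fun k => decide (W false k S)
  have hk : ∀ i : Fin 3, ![a, b, c] i ≠ ![a, b, c] (i + 1) := by
    intro i; fin_cases i <;> simpa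
  simp only [decide_eq_decide] at h4 h5
  by_cases h : W false a S
  · obtain ⟨x, hx⟩ := tri false ![a, b, c] S (by
      intro i; fin_cases i
      · exact h
      · exact h4.1 h
      · exact h5.1 h)
    exact ⟨false, x, fun i => ⟨by simp [(hx i).1], by rw [(hx i).2.1, (hx _).2.1]; exact hk i,
      (hx i).2.2⟩⟩
  · obtain ⟨x, hx⟩ := tri true ![a, b, c] Sᶜ (by
      intro i; fin_cases i
      · exact (det a hS).resolve_right h
      · exact (det b hS).resolve_right fun h' => h (h4.2 h')
      · exact (det c hS).resolve_right fun h' => h (h5.2 h'))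
    exact ⟨true, x, fun i => ⟨by simpa using (hx i).1, by rw [(hx i).2.1, (hx _).2.1]; exact hk i,
      (hx i).2.2⟩⟩

end H11.Mk
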