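import Mathlib

set_option autoImplicit false

namespace H11.NN

variable {n : ℕ}

/-- the pair `(x,y)`, `x < y`, is an edge of the ordered graph `G` -/
def IsEdge (G : SimpleGraph (Fin n)) (e : Fin n × Fin n) : Prop := e.1 < e.2 ∧ G.Adj e.1 e.2

/-- vertex-disjoint -/
def Disj (e f : Fin n × Fin n) : Prop := e.1 ≠ f.1 ∧ e.1 ≠ f.2 ∧ e.2 ≠ f.1 ∧ e.2 ≠ f.2

/-- one interval contains the other -/
def Nested (e f : Fin n × Fin n) : Prop := (e.1 ≤ f.1 ∧ f.2 ≤ e.2) ∨ (f.1 ≤ e.1 ∧ e.2 ≤ f.2)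

/-- the intervals are disjoint -/
def Sep (e f : Fin n × Fin n) : Prop := e.2 < f.1 ∨ f.2 < e.1

/-- crossing edges -/
def Cross (e f : Fin n × Fin n) : Prop :=
  (e.1 < f.1 ∧ f.1 < e.2 ∧ e.2 < f.2) ∨ (f.1 < e.1 ∧ e.1 < f.2 ∧ f.2 < e.2)

/-- `G` contains a non-nested `k`-matching -/
def HasNN (G : SimpleGraph (Fin n)) (k : ℕ) : Prop :=
  ∃ M : Finset (Fin n × Fin n), M.card = k ∧ (∀ e ∈ M, IsEdge G e) ∧
    ∀ e ∈ M, ∀ f ∈ M, e ≠ f → Disj e f ∧ ¬ Nested e f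

/-- `G` contains a strongly non-nested `k`-matching (`p` names the parts) -/
def HasSNN (G : SimpleGraph (Fin n)) (k : ℕ) : Prop :=
  ∃ M : Finset (Fin n × Fin n), M.card = k ∧ (∀ e ∈ M, IsEdge G e) ∧
    ∃ p : Fin n × Fin n → ℕ, ∀ e ∈ M, ∀ f ∈ M, e ≠ f →
      Disj e f ∧ (p e = p f → Cross e f) ∧ (p e ≠ p f → Sep e f)

/-- `ex_<(n, ¬Nest-M_k)` -/
noncomputable def exNN (n k : ℕ) : ℕ :=
  sSup {m | ∃ G : SimpleGraph (Fin n), ¬ HasNN G k ∧ G.edgeSet.ncard = m}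

/-- `ex_<(n, ¬Nest*-M_k)` -/
noncomputable def exSNN (n k : ℕ) : ℕ :=
  sSup {m | ∃ G : SimpleGraph (Fin n), ¬ HasSNN G k ∧ G.edgeSet.ncard = m}

theorem nn_of_snn (G : SimpleGraph (Fin n)) (k : ℕ) (h : HasSNN G k) : HasNN G k := by
  obtain ⟨M, h1, h2, p, h3⟩ := h
  refine ⟨M, h1, h2, fun e he f hf hne => ⟨(h3 e he f hf hne).1, ?_⟩⟩
  obtain ⟨-, h4, h5⟩ := h3 e he f hf hne
  have he' := (h2 e he).1
  have hf' := (h2 f hf).1
  unfold Nested
  by_cases hp : p e = p f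
  · have := h4 hp
    unfold Cross at this
    omega
  · have := h5 hp
    unfold Sep at this
    omega

def E : List (Fin 11 × Fin 11) := [(0, 4), (0, 5), (0, 6), (0, 7), (0, 8), (0, 9), (0, 10), (1, 2), (1, 3), (1, 4), (1, 5), (1, 6), (1, 7), (1, 8), (1, 9), (1, 10), (2, 3), (2, 4), (2, 5), (2, 6), (2, 9), (2, 10), (3, 4), (3, 5), (3, 6), (3, 9), (3, 10), (4, 5), (4, 6), (4, 7), (4, 8), (4, 9), (4, 10), (5, 6), (5, 7), (5, 8), (5, 9), (5, 10), (6, 7), (6, 8), (6, 9), (6, 10), (7, 8), (7, 9), (8, 9)]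

def G0 : SimpleGraph (Fin 11) where
  Adj x y := (x, y) ∈ E ∨ (y, x) ∈ E
  symm := ⟨fun _ _ h => h.symm⟩
  loopless := ⟨by decide⟩

instance : DecidableRel G0.Adj := fun x y => by unfold G0; infer_instance

theorem G0_card : G0.edgeSet.ncard = 45 := by
  rw [← SimpleGraph.coe_edgeFinset, Set.ncard_coe_finset]
  decide +kernel

def ok (e f : Fin 11 × Fin 11) : Bool := decide (e.1 < f.1 ∧ e.2 < f.2 ∧ e.2 ≠ f.1)

theorem key : ∀ a ∈ E, ∀ b ∈ E, ok a b = true → ∀ c ∈ E, ok b c = true → ok a c = true →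
    ∀ d ∈ E, ok c d = true → ok b d = true → ok a d = true →
    ∀ e ∈ E, ok d e = true → ok c e = true → ok b e = true → ok a e = true → False := by
  decide +kernel

theorem mem_E : ∀ e : Fin 11 × Fin 11, IsEdge G0 e → e ∈ E := by
  unfold IsEdge
  decide +kernel

theorem not_nn : ¬ HasNN G0 5 := by
  rintro ⟨M, h1, h2, h3⟩
  have hc : (M.map toLex.toEmbedding).card = 5 := by simpa using h1
  let f := (M.map toLex.toEmbedding).orderEmbOfFin hc
  have hm : ∀ i, ofLex (f i) ∈ M := by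
    intro i
    have := (M.map toLex.toEmbedding).orderEmbOfFin_mem hc i
    obtain ⟨a, ha, h⟩ := Finset.mem_map.mp this
    have : ofLex (f i) = a := by
      change ofLex (_ : Lex (Fin 11 × Fin 11)) = a
      rw [← h]; rfl
    rwa [this]
  have hok : ∀ i j, i < j → ok (ofLex (f i)) (ofLex (f j)) = true := by
    intro i j hij
    have hlt : f i < f j := f.strictMono hij
    have hle := Prod.Lex.monotone_fst _ _ hlt.le
    obtain ⟨hd, hn⟩ := h3 _ (hm i) _ (hm j) (fun h => hlt.ne (ofLex.injective h))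
    unfold Disj at hd
    unfold Nested at hn
    simp only [ok, decide_eq_true_eq]
    omega
  exact key _ (mem_E _ (h2 _ (hm 0))) _ (mem_E _ (h2 _ (hm 1))) (hok 0 1 (by decide))
    _ (mem_E _ (h2 _ (hm 2))) (hok 1 2 (by decide)) (hok 0 2 (by decide))
    _ (mem_E _ (h2 _ (hm 3))) (hok 2 3 (by decide)) (hok 1 3 (by decide)) (hok 0 3 (by decide))
    _ (mem_E _ (h2 _ (hm 4))) (hok 3 4 (by decide)) (hok 2 4 (by decide)) (hok 1 4 (by decide))
    (hok 0 4 (by decide))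

theorem bdd (P : SimpleGraph (Fin n) → Prop) :
    BddAbove {m | ∃ G : SimpleGraph (Fin n), P G ∧ G.edgeSet.ncard = m} :=
  Set.Finite.bddAbove ((Set.finite_range (fun G : SimpleGraph (Fin n) => G.edgeSet.ncard)).subset
    (by rintro t ⟨G, -, rfl⟩; exact ⟨G, rfl⟩))

theorem main : 45 ≤ exNN 11 5 ∧ 45 ≤ exSNN 11 5 :=
  ⟨le_csSup (bdd _) ⟨G0, not_nn, G0_card⟩,
    le_csSup (bdd _) ⟨G0, fun h => not_nn (nn_of_snn _ _ h), G0_card⟩⟩

end H11.NN
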