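import Mathlib

set_option autoImplicit false

namespace H11.PD

open SimpleGraph

variable {V : Type}

/-- distance to the zero set of a potential -/
theorem sInf_eq_pot (T : SimpleGraph V) (hT : T.Connected) (Φ : V → ℤ) (h0 : ∀ x, 0 ≤ Φ x)
    (hl : ∀ x y, T.Adj x y → Φ x ≤ Φ y + 1)
    (hd : ∀ x, Φ x ≠ 0 → ∃ y, T.Adj x y ∧ Φ y + 1 = Φ x) (x : V) :
    ((sInf ((fun v => T.dist x v) '' {v | Φ v = 0}) : ℕ) : ℤ) = Φ x := by
  have up : ∀ n : ℕ, ∀ x, Φ x = n → ∃ v, Φ v = 0 ∧ T.dist x v ≤ n := by
    intro n
    induction n with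
    | zero => intro x hx; exact ⟨x, by simpa using hx, by simp⟩
    | succ n ih =>
      intro x hx
      obtain ⟨y, hxy, hy⟩ := hd x (by rw [hx]; push_cast; omega)
      obtain ⟨v, hv, hyv⟩ := ih y (by push_cast at hx; omega)
      refine ⟨v, hv, ?_⟩
      have h1 : T.dist x y = 1 := dist_eq_one_iff_adj.mpr hxy
      have := hT.dist_triangle (u := x) (v := y) (w := v)
      omega
  have low : ∀ {a b : V} (p : T.Walk a b), Φ a ≤ Φ b + p.length := by
    intro a b p
    induction p with
    | nil => simp
    | cons h p ih =>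
      have := hl _ _ h
      simp only [Walk.length_cons]; push_cast; omega
  obtain ⟨n, hn⟩ := Int.eq_ofNat_of_zero_le (h0 x)
  obtain ⟨v, hv, hxv⟩ := up n x hn
  have hne : ((fun v => T.dist x v) '' {v | Φ v = 0}).Nonempty := ⟨_, v, hv, rfl⟩
  apply le_antisymm
  · have : sInf ((fun v => T.dist x v) '' {v | Φ v = 0}) ≤ T.dist x v := Nat.sInf_le ⟨v, hv, rfl⟩
    omega
  · obtain ⟨w, hw, hw2⟩ := Nat.sInf_mem hne
    obtain ⟨p, hp⟩ := hT.exists_walk_length_eq_dist x w
    have := low p
    simp only [Set.mem_setOf_eq] at hw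
    simp only at hw2
    rw [← hw2, ← hp]; omega

/-- the tree of a parent function -/
def ptree (par : V → V) : SimpleGraph V := SimpleGraph.fromRel (fun x y => y = par x)

theorem ptree_adj (par : V → V) (x y : V) :
    (ptree par).Adj x y ↔ x ≠ y ∧ (y = par x ∨ x = par y) := by
  simp [ptree, fromRel_adj]

theorem ptree_isTree [Finite V] (par : V → V) (r : V) (η : V → ℤ) (h0 : ∀ x, 0 ≤ η x)
    (hr : par r = r) (hp : ∀ x, x ≠ r → η (par x) + 1 = η x) : (ptree par).IsTree := by
  have hadj : ∀ x, x ≠ r → (ptree par).Adj x (par x) := by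
    intro x hx
    rw [ptree_adj]
    refine ⟨fun h => ?_, Or.inl rfl⟩
    have := hp x hx
    rw [← h] at this; omega
  have hconn : (ptree par).Connected := by
    have key : ∀ n : ℕ, ∀ x, η x ≤ n → (ptree par).Reachable x r := by
      intro n
      induction n with
      | zero =>
        intro x hx
        by_cases hxr : x = r
        · rw [hxr]
        · have := hp x hxr; have := h0 (par x); push_cast at hx; omega
      | succ n ih =>
        intro x hx
        by_cases hxr : x = r
        · rw [hxr]
        · have h1 := hp x hxr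
          exact (hadj x hxr).reachable.trans (ih (par x) (by push_cast at hx; omega))
    haveI : Nonempty V := ⟨r⟩
    refine ⟨fun a b => ?_⟩
    obtain ⟨n, hn⟩ := Int.eq_ofNat_of_zero_le (h0 a)
    obtain ⟨m, hm⟩ := Int.eq_ofNat_of_zero_le (h0 b)
    exact (key n a hn.le).trans (key m b hm.le).symm
  rw [isTree_iff_connected_and_card]
  refine ⟨hconn, ?_⟩
  let F : {x : V // x ≠ r} → (ptree par).edgeSet := fun x => ⟨s(x.1, par x.1), hadj x.1 x.2⟩
  have hF : Function.Bijective F := by
    constructor
    · rintro ⟨x, hx⟩ ⟨y, hy⟩ h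
      have h' : s(x, par x) = s(y, par y) := congrArg Subtype.val h
      rw [Sym2.eq_iff] at h'
      rcases h' with ⟨h1, _⟩ | ⟨h1, h2⟩
      · exact Subtype.ext h1
      · have a := hp x hx
        have b := hp y hy
        rw [h2] at a; rw [← h1] at b; omega
    · rintro ⟨e, he⟩
      induction e using Sym2.ind with
      | _ a b =>
        rw [mem_edgeSet, ptree_adj] at he
        obtain ⟨hne, h | h⟩ := he
        · have ha : a ≠ r := by rintro rfl; exact hne (by rw [h, hr])
          exact ⟨⟨a, ha⟩, Subtype.ext (by simp [F, h])⟩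
        · have hb : b ≠ r := by rintro rfl; exact hne (by rw [h, hr])
          exact ⟨⟨b, hb⟩, Subtype.ext (by simp only [F]; rw [← h, Sym2.eq_swap])⟩
  rw [← Nat.card_eq_of_bijective F hF]
  classical
  haveI := Fintype.ofFinite V
  rw [Nat.card_eq_fintype_card, Nat.card_eq_fintype_card, Fintype.card_subtype_compl,
    Fintype.card_subtype_eq]
  have : 0 < Fintype.card V := Fintype.card_pos_iff.mpr ⟨r⟩
  omega

theorem leaf_dist (G : SimpleGraph V) (hG : G.Connected) (x v w : V) (hv : G.Adj x v)
    (hx : ∀ y, G.Adj x y → y = v) (hw : w ≠ x) : G.dist x w = G.dist v w + 1 := by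
  apply le_antisymm
  · have h1 : G.dist x v = 1 := dist_eq_one_iff_adj.mpr hv
    have := hG.dist_triangle (u := x) (v := v) (w := w)
    omega
  · obtain ⟨p, hp⟩ := hG.exists_walk_length_eq_dist x w
    cases p with
    | nil => exact absurd rfl hw
    | cons h q =>
      have := hx _ h
      subst this
      have := dist_le q
      simp only [Walk.length_cons] at hp
      omega

/-- counting bound in the graph `G` -/
theorem count_bound [Fintype V] (G : SimpleGraph V) (hG : G.Connected) (u v : V) (huv : G.Adj u v)
    {ι : Type} [Fintype ι] (lf : ι → V) (hlf : Function.Injective lf)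
    (hl1 : ∀ i, G.Adj (lf i) v) (hl2 : ∀ i y, G.Adj (lf i) y → y = v)
    {κ : Type} [Fintype κ] (b : κ → V) (hb : Function.Injective b) (hbu : ∀ t, G.dist (b t) u ≤ 3)
    (m : ℕ) (hm : m ≤ Fintype.card ι + 2) (g : V → Fin m) (hg : Function.Surjective g)
    (hres : ∀ u w : V, (∀ i : Fin m, sInf ((fun v => G.dist u v) '' {v | g v = i}) =
        sInf ((fun v => G.dist w v) '' {v | g v = i})) → u = w) :
    Fintype.card κ ≤ 6 ^ Fintype.card ι * 7 ^ 2 := by
  classical
  set D : V → Fin m → ℕ := fun x i => sInf ((fun v => G.dist x v) '' {v | g v = i}) with hD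
  have hne : ∀ x i, ((fun v => G.dist x v) '' {v | g v = i}).Nonempty := by
    intro x i
    obtain ⟨w, hw⟩ := hg i
    exact ⟨_, w, hw, rfl⟩
  have hle : ∀ x w, D x (g w) ≤ G.dist x w := fun x w => Nat.sInf_le ⟨w, rfl, rfl⟩
  have hlip : ∀ x y i, D x i ≤ G.dist x y + D y i := by
    intro x y i
    obtain ⟨w, hw, hw2⟩ := Nat.sInf_mem (hne y i)
    have h1 := hle x w
    have h2 := hG.dist_triangle (u := x) (v := y) (w := w)
    simp only [Set.mem_setOf_eq] at hw
    have h3 : D y i = G.dist y w := hw2.symm
    rw [hw] at h1; omega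
  have hinj : Function.Injective (g ∘ lf) := by
    intro i j hij
    apply hlf
    apply hres
    intro c
    simp only [Function.comp] at hij
    by_cases hc : g (lf i) = c
    · have h1 := hle (lf i) (lf i)
      have h2 := hle (lf j) (lf j)
      rw [dist_self] at h1 h2
      rw [hc] at h1; rw [← hij, hc] at h2
      change D (lf i) c = D (lf j) c
      omega
    · congr 1
      apply Set.image_congr
      intro w hw
      simp only [Set.mem_setOf_eq] at hw
      rw [leaf_dist G hG _ v w (hl1 i) (hl2 i) (by rintro rfl; exact hc hw),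
        leaf_dist G hG _ v w (hl1 j) (hl2 j) (by rintro rfl; exact hc (hij.trans hw))]
  let A : Finset (Fin m) := Finset.univ.image (g ∘ lf)
  have hA : A.card = Fintype.card ι := by
    rw [Finset.card_image_of_injective _ hinj, Finset.card_univ]
  let S : Fin m → Finset ℕ := fun c => if c ∈ A then Finset.range 6 else Finset.Icc (D u c - 3) (D u c + 3)
  have hmem : ∀ t, D (b t) ∈ Fintype.piFinset S := by
    intro t
    rw [Fintype.mem_piFinset]
    intro c
    simp only [S]
    split_ifs with hc
    · obtain ⟨i, -, hi⟩ := Finset.mem_image.mp hc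
      have h1 := hle (b t) (lf i)
      have h2 := hG.dist_triangle (u := b t) (v := u) (w := lf i)
      have h3 := hG.dist_triangle (u := u) (v := v) (w := lf i)
      have h4 : G.dist u v = 1 := dist_eq_one_iff_adj.mpr huv
      have h5 : G.dist v (lf i) = 1 := dist_eq_one_iff_adj.mpr (hl1 i).symm
      have h6 := hbu t
      simp only [Function.comp] at hi
      rw [hi] at h1
      rw [Finset.mem_range]; omega
    · have h1 := hlip (b t) u c
      have h2 := hlip u (b t) c
      have h3 := hbu t
      rw [dist_comm] at h2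
      rw [Finset.mem_Icc]; omega
  have hcard : Fintype.card κ ≤ (Fintype.piFinset S).card := by
    rw [← Finset.card_univ]
    apply Finset.card_le_card_of_injOn (fun t => D (b t)) (fun t _ => hmem t)
    intro t _ t' _ h
    exact hb (hres _ _ (fun i => congrFun h i))
  refine hcard.trans ?_
  rw [Fintype.card_piFinset]
  calc ∏ c, (S c).card ≤ ∏ c : Fin m, (if c ∈ A then 6 else 7) := by
        apply Finset.prod_le_prod'
        intro c _
        simp only [S]
        split_ifs
        · simp
        · rw [Nat.card_Icc]; omega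
    _ = 6 ^ A.card * 7 ^ (m - A.card) := by
        rw [Finset.prod_ite, Finset.prod_const, Finset.prod_const]
        congr 2
        · congr 1; ext c; simp
        · rw [Finset.filter_not, Finset.card_sdiff_of_subset (Finset.filter_subset _ _)]
          simp
    _ ≤ 6 ^ Fintype.card ι * 7 ^ 2 := by
        rw [hA]
        exact Nat.mul_le_mul_left _ (Nat.pow_le_pow_right (by norm_num) (by omega))

end H11.PD
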