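import Pool.Agent.H11.PD1

set_option autoImplicit false

namespace H11.PD

inductive W (N : ℕ) : Type
  | ball (t : Fin (N + 1) → ℤ)
  | pr (z : Fin (N + 1) → ℤ) (i : ℕ) (s : ℕ)
  | path (a : ℕ)
  | leaf (o : Option (Fin (N + 1)))

variable {N : ℕ}

/-- value of `z` at a natural index -/
def at' (z : Fin (N + 1) → ℤ) (i : ℕ) : ℤ := if h : i < N + 1 then z ⟨i, h⟩ else 0

@[simp] theorem at'_val (z : Fin (N + 1) → ℤ) (j : Fin (N + 1)) : at' z j = z j := by
  simp [at', j.2]

def valid : W N → Prop
  | .ball t => -3 ≤ t (Fin.last N) ∧ ∀ j, t (Fin.last N) ≤ t j ∧ t j ≤ -t (Fin.last N)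
  | .pr z i s => z (Fin.last N) = -3 ∧ (∀ j, -3 ≤ z j ∧ z j ≤ 3) ∧ i ≤ N ∧
      (s : ℤ) ≤ N + 5 + at' z i - (i + 1)
  | .path a => 1 ≤ a ∧ a ≤ N + 5
  | .leaf _ => True

def par : W N → W N
  | .ball t => if t (Fin.last N) = 0 then .path 1 else .ball (fun j => t j - Int.sign (t j))
  | .pr z i s => if s = 0 then (if i = 0 then .ball z else .pr z (i - 1) 0) else .pr z i (s - 1)
  | .path a => if a = N + 5 then .leaf none else .path (a + 1)
  | .leaf none => .leaf none
  | .leaf (some _) => .path (N + 5)

def eta : W N → ℤ
  | .ball t => N + 6 - t (Fin.last N)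
  | .pr _ i s => N + 10 + i + s
  | .path a => N + 6 - a
  | .leaf none => 0
  | .leaf (some _) => 2

def phi (j : Fin (N + 1)) : W N → ℤ
  | .ball t => N + 5 + t j
  | .pr z i s => if (j : ℕ) = i then N + 5 + z j - (i + 1) - s
      else if i < j then N + 5 + z j - (i + 1) + s else N + 5 + z j - (j + 1) + (i - j) + s
  | .path a => N + 6 - a
  | .leaf o => if o = some j then 0 else 2

theorem sign_cases (a : ℤ) : (0 < a ∧ Int.sign a = 1) ∨ (a = 0 ∧ Int.sign a = 0) ∨
    (a < 0 ∧ Int.sign a = -1) := by
  rcases lt_trichotomy a 0 with h | h | h
  · exact Or.inr (Or.inr ⟨h, Int.sign_eq_neg_one_of_neg h⟩)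
  · exact Or.inr (Or.inl ⟨h, by simp [h]⟩)
  · exact Or.inl ⟨h, Int.sign_eq_one_of_pos h⟩

theorem at'_bd {z : Fin (N + 1) → ℤ} (h : ∀ j, -3 ≤ z j ∧ z j ≤ 3) (i : ℕ) :
    -3 ≤ at' z i ∧ at' z i ≤ 3 := by
  unfold at'; split_ifs
  · exact h _
  · omega

theorem par_valid (x : W N) (hx : valid x) : valid (par x) := by
  cases x with
  | ball t =>
    obtain ⟨h1, h2⟩ := hx
    simp only [par]
    split_ifs with h
    · exact ⟨le_rfl, by omega⟩
    · have a := sign_cases (t (Fin.last N))
      have b := h2 (Fin.last N)
      refine ⟨by simp only; omega, fun j => ?_⟩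
      have c := sign_cases (t j)
      have d := h2 j
      simp only
      constructor <;> omega
  | pr z i s =>
    obtain ⟨h1, h2, h3, h4⟩ := hx
    simp only [par]
    split_ifs with hs hi
    · exact ⟨by omega, fun j => by have := h2 j; constructor <;> omega⟩
    · refine ⟨h1, h2, by omega, ?_⟩
      have := at'_bd h2 (i - 1)
      omega
    · exact ⟨h1, h2, h3, by omega⟩
  | path a =>
    obtain ⟨h1, h2⟩ := hx
    simp only [par]
    split_ifs with h
    · trivial
    · exact ⟨by omega, by omega⟩
  | leaf o =>
    cases o with
    | none => trivial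
    | some j => exact ⟨by omega, le_rfl⟩

theorem eta_nonneg (x : W N) (hx : valid x) : 0 ≤ eta x := by
  cases x with
  | ball t => have := hx.2 (Fin.last N); simp only [eta]; omega
  | pr z i s => simp only [eta]; omega
  | path a => have := hx.2; simp only [eta]; omega
  | leaf o => cases o <;> simp [eta]

theorem eta_par (x : W N) (hx : valid x) (hr : x ≠ .leaf none) : eta (par x) + 1 = eta x := by
  cases x with
  | ball t =>
    have b := hx.2 (Fin.last N)
    simp only [par]
    split_ifs with h
    · simp only [eta]; omega
    · have a := sign_cases (t (Fin.last N))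
      simp only [eta]; omega
  | pr z i s =>
    obtain ⟨h1, h2, h3, h4⟩ := hx
    simp only [par]
    split_ifs with hs hi <;> simp only [eta] <;> omega
  | path a =>
    simp only [par]
    split_ifs with h <;> simp only [eta] <;> omega
  | leaf o =>
    cases o with
    | none => exact absurd rfl hr
    | some j => simp only [par, eta]; omega

theorem eta_zero (x : W N) (hx : valid x) (h : eta x = 0) : x = .leaf none := by
  cases x with
  | ball t => have := hx.2 (Fin.last N); simp only [eta] at h; omega
  | pr z i s => simp only [eta] at h; omega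
  | path a => have := hx.2; simp only [eta] at h; omega
  | leaf o => cases o <;> simp_all [eta]

theorem phi_nonneg (j : Fin (N + 1)) (x : W N) (hx : valid x) : 0 ≤ phi j x := by
  cases x with
  | ball t => have := hx.2 j; have := hx.1; simp only [phi]; omega
  | pr z i s =>
    obtain ⟨h1, h2, h3, h4⟩ := hx
    have := h2 j
    have := j.2
    simp only [phi]
    split_ifs with a b
    · rw [← a, at'_val] at h4; omega
    · omega
    · omega
  | path a => have := hx.2; simp only [phi]; omega
  | leaf o => simp only [phi]; split_ifs <;> omega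

theorem phi_zero (j j' : Fin (N + 1)) (x : W N) (hx : valid x) (h : phi j x = 0)
    (h' : phi j' x = 0) : j = j' := by
  cases x with
  | ball t => have := hx.2 j; have := hx.1; simp only [phi] at h; omega
  | pr z i s =>
    obtain ⟨h1, h2, h3, h4⟩ := hx
    have := h2 j
    have := h2 j'
    have := j.2
    have := j'.2
    simp only [phi] at h h'
    apply Fin.ext
    split_ifs at h h' <;> omega
  | path a => have := hx.2; simp only [phi] at h; omega
  | leaf o =>
    simp only [phi] at h h'
    split_ifs at h h' with a b <;> simp_all

theorem phi_par (j : Fin (N + 1)) (x : W N) (hx : valid x) (hr : x ≠ .leaf none) :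
    phi j x ≤ phi j (par x) + 1 ∧ phi j (par x) ≤ phi j x + 1 := by
  cases x with
  | ball t =>
    have b := hx.2 j
    simp only [par]
    split_ifs with h
    · simp only [phi]; omega
    · have a := sign_cases (t j)
      simp only [phi]; omega
  | pr z i s =>
    simp only [par]
    split_ifs with hs hi <;> simp only [phi] <;> split_ifs <;> omega
  | path a =>
    simp only [par]
    split_ifs with h <;> simp only [phi]
    · simp; omega
    · omega
  | leaf o =>
    cases o with
    | none => exact absurd rfl hr
    | some j' => simp only [par, phi]; split_ifs <;> omega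

theorem phi_down (j : Fin (N + 1)) (x : W N) (hx : valid x) (h : phi j x ≠ 0) :
    ∃ y, valid y ∧ (y = par x ∨ x = par y) ∧ phi j y + 1 = phi j x := by
  cases x with
  | ball t =>
    obtain ⟨h1, h2⟩ := hx
    have b := h2 j
    have bl := h2 (Fin.last N)
    by_cases hj : 0 < t j
    · refine ⟨par (.ball t), par_valid _ ⟨h1, h2⟩, Or.inl rfl, ?_⟩
      have a := sign_cases (t j)
      simp only [par]
      rw [if_neg (by omega)]
      simp only [phi]; omega
    · by_cases h3 : t (Fin.last N) = -3
      · have hb : ∀ j, -3 ≤ t j ∧ t j ≤ 3 := fun j => by have := h2 j; constructor <;> omega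
        refine ⟨.pr t 0 0, ⟨h3, hb, by omega, ?_⟩, Or.inr (by simp [par]), ?_⟩
        · have := at'_bd hb 0; omega
        · simp only [phi]; split_ifs <;> omega
      · refine ⟨.ball (fun i => if t i ≤ 0 then t i - 1 else t i + 1), ⟨?_, fun i => ?_⟩,
          Or.inr ?_, ?_⟩
        · simp only; split_ifs <;> omega
        · have := h2 i
          simp only; split_ifs <;> constructor <;> omega
        · simp only [par]
          rw [if_neg (by split_ifs <;> omega)]
          congr 1
          funext i
          have a := sign_cases (if t i ≤ 0 then t i - 1 else t i + 1)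
          split_ifs at a ⊢ <;> omega
        · simp only [phi]; split_ifs <;> omega
  | pr z i s =>
    obtain ⟨h1, h2, h3, h4⟩ := hx
    have hj := j.2
    have hz := h2 j
    by_cases a : (j : ℕ) = i
    · refine ⟨.pr z i (s + 1), ⟨h1, h2, h3, ?_⟩, Or.inr (by simp [par]), ?_⟩
      · simp only [phi, if_pos a] at h
        subst a
        rw [at'_val] at h4 ⊢; push_cast; omega
      · simp only [phi, if_pos a]; push_cast; omega
    · by_cases c : i < j ∧ s = 0
      · refine ⟨.pr z (i + 1) 0, ⟨h1, h2, by omega, ?_⟩, Or.inr (by simp [par, c.2]), ?_⟩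
        · have := at'_bd h2 (i + 1); push_cast; omega
        · simp only [phi]; split_ifs <;> omega
      · refine ⟨par (.pr z i s), par_valid _ ⟨h1, h2, h3, h4⟩, Or.inl rfl, ?_⟩
        simp only [par]
        split_ifs with hs hi <;> simp only [phi] <;> split_ifs <;> omega
  | path a =>
    by_cases ha : a = N + 5
    · refine ⟨.leaf (some j), trivial, Or.inr (by simp [par, ha]), ?_⟩
      simp only [phi]; simp; omega
    · refine ⟨par (.path a), par_valid _ hx, Or.inl rfl, ?_⟩
      simp only [par, if_neg ha, phi]; omega
  | leaf o =>
    simp only [phi] at h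
    refine ⟨.path (N + 5), ⟨by omega, le_rfl⟩, ?_, ?_⟩
    · cases o with
      | none => exact Or.inr (by simp [par])
      | some j' => exact Or.inl (by simp [par])
    · simp only [phi]; split_ifs at h ⊢ <;> omega

theorem resolve (x y : W N) (hx : valid x) (hy : valid y) (he : eta x = eta y)
    (hp : ∀ j, phi j x = phi j y) : x = y := by
  cases x with
  | ball t =>
    have a := hx.2 (Fin.last N)
    have a1 := hx.1
    cases y with
    | ball t' => congr 1; funext j; have := hp j; simp only [phi] at this; omega
    | pr z i s => simp only [eta] at he; omega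
    | path b => have := hy.1; simp only [eta] at he; omega
    | leaf o => cases o <;> simp only [eta] at he <;> omega
  | pr z i s =>
    cases y with
    | ball t' => have := hy.1; simp only [eta] at he; omega
    | pr z' i' s' =>
      obtain ⟨h1, h2, h3, h4⟩ := hx
      obtain ⟨h1', h2', h3', h4'⟩ := hy
      have hl := hp (Fin.last N)
      simp only [eta] at he
      simp only [phi, Fin.val_last] at hl
      have : i = i' ∧ s = s' := by split_ifs at hl <;> omega
      obtain ⟨rfl, rfl⟩ := this
      congr 1
      funext j
      have := hp j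
      simp only [phi] at this
      split_ifs at this <;> omega
    | path b => simp only [eta] at he; omega
    | leaf o => cases o <;> simp only [eta] at he <;> omega
  | path a =>
    have := hx.1
    have := hx.2
    cases y with
    | ball t' => have := hy.2 (Fin.last N); simp only [eta] at he; omega
    | pr z i s => simp only [eta] at he; omega
    | path b => simp only [eta] at he; congr 1; omega
    | leaf o =>
      cases o with
      | none => simp only [eta] at he; omega
      | some j => have := hp j; simp only [eta] at he; simp [phi] at this; omega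
  | leaf o =>
    cases y with
    | ball t' => have := hy.2 (Fin.last N); cases o <;> simp only [eta] at he <;> omega
    | pr z i s => cases o <;> simp only [eta] at he <;> omega
    | path b =>
      have := hy.2
      cases o with
      | none => simp only [eta] at he; omega
      | some j => have := hp j; simp only [eta] at he; simp [phi] at this; omega
    | leaf o' =>
      cases o with
      | none => cases o' with
        | none => rfl
        | some j => simp [eta] at he
      | some j =>
        have := hp j
        simp only [phi, if_true] at this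
        split_ifs at this with h
        · rw [h]
        · omega

theorem valid_finite : {x : W N | valid x}.Finite := by
  have hP := Finset.finite_toSet (Fintype.piFinset fun _ : Fin (N + 1) => Finset.Icc (-3 : ℤ) 3)
  have h1 := hP.image (W.ball (N := N))
  have h2 := (hP.prod ((Set.finite_Iic (N + 10)).prod (Set.finite_Iic (N + 10)))).image
    (fun p : (Fin (N + 1) → ℤ) × ℕ × ℕ => W.pr p.1 p.2.1 p.2.2)
  have h3 := (Set.finite_Iic (N + 10)).image (W.path (N := N))
  have h4 := Set.finite_range (W.leaf (N := N))
  refine (((h1.union h2).union h3).union h4).subset ?_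
  intro x hx
  cases x with
  | ball t =>
    refine Or.inl (Or.inl (Or.inl ⟨t, ?_, rfl⟩))
    simp only [Finset.mem_coe, Fintype.mem_piFinset, Finset.mem_Icc]
    intro j; have := hx.2 j; have := hx.1; constructor <;> omega
  | pr z i s =>
    obtain ⟨h1, h2, h3, h4⟩ := hx
    refine Or.inl (Or.inl (Or.inr ⟨(z, i, s), ⟨?_, ?_, ?_⟩, rfl⟩))
    · simpa only [Finset.mem_coe, Fintype.mem_piFinset, Finset.mem_Icc] using h2
    · simp only [Set.mem_Iic]; omega
    · have := at'_bd h2 i
      simp only [Set.mem_Iic]; omega
  | path a => exact Or.inl (Or.inr ⟨a, by have := hx.2; simp only [Set.mem_Iic]; omega, rfl⟩)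
  | leaf o => exact Or.inr ⟨o, rfl⟩

end H11.PD
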