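import Mathlib

open Matrix Module

namespace H11.PM

variable {F : Type*} [Field F] {m n : Type} [Fintype m] [Fintype n]

/-- A partial matrix has entries `some a` (specified) or `none` (unspecified); `B` completes `A`
if it agrees with every specified entry. -/
def IsCompl (A : Matrix m n (Option F)) (B : Matrix m n F) : Prop :=
  ∀ i j a, A i j = some a → B i j = a

/-- The minimal rank: the least rank of a completion. -/
noncomputable def mr (A : Matrix m n (Option F)) : ℕ := sInf {r | ∃ B, IsCompl A B ∧ B.rank = r}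

/-- `A ⊗ I_b`: blocks `a I_b` at specified positions, fully unspecified blocks elsewhere. -/
def tens (A : Matrix m n (Option F)) (b : ℕ) : Matrix (m × Fin b) (n × Fin b) (Option F) :=
  fun p q => (A p.1 q.1).map fun a => if p.2 = q.2 then a else 0

/-- The fractional minimal rank `inf_{b ≥ 1} mr (A ⊗ I_b) / b`. -/
noncomputable def fmr (A : Matrix m n (Option F)) : ℝ := ⨅ b : ℕ+, (mr (tens A b) : ℝ) / (b : ℕ)

/-- Triangular patterns. -/
def Tri (T : Set (m × n)) : Prop := ∀ p ∈ T, ∀ q ∈ T, (p.1, q.2) ∈ T ∨ (q.1, p.2) ∈ T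

open Classical in
/-- `A|T` keeps only the known entries indexed by `T`. -/
noncomputable def restr (A : Matrix m n (Option F)) (T : Set (m × n)) : Matrix m n (Option F) :=
  fun i j => if (i, j) ∈ T then A i j else none

/-- The triangular minimal rank: the largest `mr (A|T)` over the maximal triangular subpatterns
`T` of the pattern of knowns. -/
noncomputable def tmr (A : Matrix m n (Option F)) : ℕ :=
  sSup {r | ∃ T, Maximal (fun S => Tri S ∧ S ⊆ {p | A p.1 p.2 ≠ none}) T ∧ mr (restr A T) = r}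

theorem mr_le {A : Matrix m n (Option F)} {k : Type} [Fintype k] (P : Matrix m k F)
    (Q : Matrix k n F) (h : IsCompl A (P * Q)) : mr A ≤ Fintype.card k :=
  (Nat.sInf_le (s := {r | ∃ B, IsCompl A B ∧ B.rank = r}) ⟨_, h, rfl⟩).trans
    ((rank_mul_le_left _ _).trans (rank_le_card_width _))

theorem exists_mr (A : Matrix m n (Option F)) : ∃ B, IsCompl A B ∧ B.rank = mr A :=
  Nat.sInf_mem (s := {r | ∃ B, IsCompl A B ∧ B.rank = r})
    ⟨_, .of fun i j => (A i j).getD 0, fun i j a h => by simp [h], rfl⟩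

theorem fmr_le (A : Matrix m n (Option F)) (b : ℕ+) : fmr A ≤ (mr (tens A b) : ℝ) / (b : ℕ) :=
  ciInf_le ⟨0, by rintro _ ⟨b, rfl⟩; positivity⟩ b

theorem fmr_le_mr (A : Matrix m n (Option F)) : fmr A ≤ mr A := by
  obtain ⟨B, hB, h⟩ := exists_mr A
  refine (fmr_le A 1).trans ?_
  have : mr (tens A 1) ≤ (B.submatrix Prod.fst Prod.fst).rank := Nat.sInf_le ⟨_, fun p q a ha => by
    obtain ⟨c, hc, rfl⟩ := Option.map_eq_some_iff.1 ha
    rw [if_pos (Subsingleton.elim _ _)]; exact hB _ _ _ hc, rfl⟩
  have h2 := this.trans (rank_submatrix_le B _ _)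
  rw [← h]
  exact (div_le_self (by positivity) (by simp)).trans ((Nat.cast_le (α := ℝ)).2 h2)

theorem mem_range (N : Matrix m n F) {β : Type} [Fintype β] (f : β → n) (v : β → F) :
    N.submatrix id f *ᵥ v ∈ LinearMap.range N.mulVecLin := by
  have : LinearMap.range (N.submatrix id f).mulVecLin ≤ LinearMap.range N.mulVecLin := by
    rw [range_mulVecLin, range_mulVecLin]
    exact Submodule.span_mono (by rintro _ ⟨j, rfl⟩; exact ⟨f j, rfl⟩)
  exact this ⟨v, rfl⟩

theorem key (N : Matrix m n F) {β : Type} [Fintype β] [DecidableEq β] (e : β → m) (f : β → n)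
    (h : N.submatrix e f = 1) :
    Fintype.card β + finrank F (LinearMap.range N.mulVecLin ⊓
      LinearMap.ker (LinearMap.funLeft F F e) : Submodule F (m → F)) = N.rank := by
  have h1 := LinearMap.finrank_range_add_finrank_ker
    ((LinearMap.funLeft F F e).domRestrict (LinearMap.range N.mulVecLin))
  rw [LinearMap.range_eq_top.2 fun v => ⟨⟨_, mem_range N f v⟩, by
    conv_rhs => rw [← one_mulVec v, ← h]
    rfl⟩, finrank_top, finrank_fintype_fun_eq_card,
    LinearMap.ker_domRestrict, ← Submodule.finrank_map_subtype_eq,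
    Submodule.map_comap_subtype] at h1
  exact h1

theorem schur (N : Matrix m n F) {β : Type} [Fintype β] [DecidableEq β] (e : β → m) (f : β → n)
    (h : N.submatrix e f = 1) (hr : N.rank ≤ Fintype.card β) :
    N = N.submatrix id f * N.submatrix e id := by
  classical
  have h1 := key N e f h
  have h2 := Submodule.finrank_eq_zero.1 (show finrank F (LinearMap.range N.mulVecLin ⊓
      LinearMap.ker (LinearMap.funLeft F F e) : Submodule F (m → F)) = 0 by omega)
  refine (toLin'.injective (LinearMap.ext fun v => ?_))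
  rw [toLin'_apply, toLin'_apply, ← mulVec_mulVec, ← sub_eq_zero, ← Submodule.mem_bot F, ← h2]
  refine ⟨sub_mem ⟨v, rfl⟩ (mem_range N f _), ?_⟩
  have : (N.submatrix e f) *ᵥ (N.submatrix e id *ᵥ v) = N.submatrix e id *ᵥ v := by
    rw [h, one_mulVec]
  exact (sub_eq_zero.2 this.symm :)

theorem three (N : Matrix m m F) {β : Type} [Fintype β] [DecidableEq β] (e : Fin 3 → β → m)
    (L : Matrix β β F) (h00 : N.submatrix (e 0) (e 0) = 1) (h01 : N.submatrix (e 0) (e 1) = 1)
    (h11 : N.submatrix (e 1) (e 1) = 1) (h12 : N.submatrix (e 1) (e 2) = 1)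
    (hL : L * (N.submatrix (e 2) (e 0) - N.submatrix (e 2) (e 2)) = 1) :
    3 * Fintype.card β ≤ 2 * N.rank := by
  have h0 := key N _ _ h00
  have h1 := key N _ _ h11
  set K0 := LinearMap.range N.mulVecLin ⊓ LinearMap.ker (LinearMap.funLeft F F (e 0))
  set K1 := LinearMap.range N.mulVecLin ⊓ LinearMap.ker (LinearMap.funLeft F F (e 1))
  let g := (N.submatrix id (e 0) - N.submatrix id (e 2)).mulVecLin
  have hg : Function.Injective g := (injective_iff_map_eq_zero g).2 fun v hv => by
    have : (N.submatrix (e 2) (e 0) - N.submatrix (e 2) (e 2)) *ᵥ v = 0 :=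
      funext fun s => congrFun hv (e 2 s)
    rw [← one_mulVec v, ← hL, ← mulVec_mulVec, this, mulVec_zero]
  have hr : LinearMap.range g ≤ K0 ⊔ K1 := by
    rintro _ ⟨v, rfl⟩
    have a0 : (N.submatrix (e 0) (e 0)) *ᵥ v - (N.submatrix (e 0) (e 1)) *ᵥ v = 0 := by
      rw [h00, h01, sub_self]
    have a1 : (N.submatrix (e 1) (e 1)) *ᵥ v - (N.submatrix (e 1) (e 2)) *ᵥ v = 0 := by
      rw [h11, h12, sub_self]
    refine Submodule.mem_sup.2 ⟨_, ⟨sub_mem (mem_range N (e 0) v) (mem_range N (e 1) v), a0⟩,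
      _, ⟨sub_mem (mem_range N (e 1) v) (mem_range N (e 2) v), a1⟩, ?_⟩
    simp [g, sub_mulVec]
  have h2 := Submodule.finrank_mono hr
  have h3 := Submodule.finrank_add_le_finrank_add_finrank K0 K1
  rw [LinearMap.finrank_range_of_inj hg, finrank_fintype_fun_eq_card] at h2
  omega

end H11.PM
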