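import Mathlib

set_option autoImplicit false

namespace H11.Pat

/-- `|w|_v`: number of (possibly overlapping) occurrences of `v` as a factor of `w` -/
def occ (w v : List Bool) : ℕ :=
  (List.range (w.length + 1)).countP (fun p => (w.drop p).take v.length = v)

/-- `(n)_2`: binary expansion, most significant digit first, no leading zeros, empty for `0` -/
def bin (n : ℕ) : List Bool := (Nat.bits n).reverse

/-- `[w]_2` -/
def val (w : List Bool) : ℕ := w.foldl (fun a b => 2 * a + b.toNat) 0

/-- `i`: the number of leading zeros -/
def lead (v : List Bool) : ℕ := (v.takeWhile (fun b => b = false)).length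

/-- `j`: the number of trailing zeros -/
def trail (v : List Bool) : ℕ := (v.reverse.takeWhile (fun b => b = false)).length

/-- `e_v(n) = |0^i (n)_2|_v` -/
def e (v : List Bool) (n : ℕ) : ℕ := occ (List.replicate (lead v) false ++ bin n) v

/-- `A_v(0,d)` -/
noncomputable def A (v : List Bool) (d : ℕ) : ℕ := sInf {l | 1 ≤ l ∧ Odd (e v (l * d))}

/-- the admissible pairs `(x,y)` -/
def Good (v x y : List Bool) : Prop :=
  x.length = v.length - 1 ∧ y.length = v.length - 1 ∧
    Odd (occ (List.replicate (lead v) false ++ x) v + occ (y ++ x) v +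
      occ (y ++ List.replicate (trail v) false) v)

/-- `(x,y)` is the lexicographically least admissible pair -/
def IsMinPair (v x y : List Bool) : Prop :=
  Good v x y ∧ ∀ x' y', Good v x' y' → val x < val x' ∨ (val x = val x' ∧ val y ≤ val y')

/-- `C_v` computed from `x_min` -/
def C (v x : List Bool) : ℚ := (val x : ℚ) / 2 ^ (v.length - 1 + trail v)

/-- `B_v` computed from `x_min`, `y_min` -/
def B (v x y : List Bool) : ℚ := (val y : ℚ) - 2 ^ trail v * C v x

def v0 : List Bool := [true, false, false, false, false]
def x0 : List Bool := [false, false, false, true]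

instance (v x y : List Bool) : Decidable (Good v x y) := by unfold Good; infer_instance

theorem minpair : IsMinPair v0 x0 x0 := by
  refine ⟨by decide, ?_⟩
  intro x y h
  obtain ⟨hx, hy, -⟩ := id h
  match x, y, hx, hy with
  | [a, b, c, d], [a', b', c', d'], _, _ =>
    revert h
    revert a b c d a' b' c' d'
    decide +kernel

theorem A_eq : A v0 2115 = 11 := by
  have h11 : 11 ∈ {l | 1 ≤ l ∧ Odd (e v0 (l * 2115))} := by
    constructor
    · norm_num
    · decide +kernel
  apply le_antisymm (Nat.sInf_le h11)
  apply le_csInf ⟨_, h11⟩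
  rintro l ⟨h1, h2⟩
  by_contra hl
  have key : ∀ l < 11, 1 ≤ l → ¬ Odd (e v0 (l * 2115)) := by decide +kernel
  exact key l (by omega) h1 h2

end H11.Pat
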