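import Pool.Agent.H11.BD5

/-! token flows on ported graphs -/

namespace H11.Pdx
open Classical

abbrev Wd := List (Fin 5)
instance : MeasurableSpace Wd := ⊤
instance : DiscreteMeasurableSpace Wd := ⟨fun _ => trivial⟩
instance : MeasurableSpace (Multiset Wd) := ⊤
instance : DiscreteMeasurableSpace (Multiset Wd) := ⟨fun _ => trivial⟩

section
variable {X : Type} (mv : X → Fin 5 → X) (rt : X → Fin 5 → Fin 5)

def walk : X → Wd → X
  | x, [] => x
  | x, p :: w => walk (mv x p) w

lemma walk_append (x : X) (u v : Wd) : walk mv x (u ++ v) = walk mv (walk mv x u) v := by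
  induction u generalizing x with
  | nil => rfl
  | cons p u ih => exact ih _

def RR (init : X → Multiset Wd) : ℕ → X → Multiset Wd
  | 0, x => init x
  | k + 1, x => ∑ p, ((RR init k (mv x p)).filter (fun w => w.head? = some (rt x p))).map List.tail

def out (init : X → Multiset Wd) (k : ℕ) (x : X) (p : Fin 5) : ℕ :=
  ((RR mv rt init k x).filter (fun w => w.head? = some p)).card

def hh (init : X → Multiset Wd) (ρ : ℕ) (x : X) (p : Fin 5) : ℤ :=
  ∑ k ∈ Finset.range (ρ + 1), ((out mv rt init k (mv x p) (rt x p) : ℤ) - out mv rt init k x p)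

lemma card_split (s : Multiset Wd) :
    s.card = ∑ p, (s.filter (fun w => w.head? = some p)).card + s.count [] := by
  induction s using Multiset.induction_on with
  | empty => simp
  | cons w s ih =>
    simp only [Multiset.card_cons, Multiset.filter_cons, Multiset.card_add, Finset.sum_add_distrib,
      Multiset.count_cons, ih]
    cases w with
    | nil => simp; omega
    | cons q w =>
      have : ∑ p : Fin 5, (if (q :: w).head? = some p then ({q :: w} : Multiset Wd) else 0).card = 1 := by
        simp [apply_ite Multiset.card]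
      rw [this]; simp; omega

lemma node_sum (init : X → Multiset Wd) (ρ : ℕ) (x : X) :
    ∑ p, hh mv rt init ρ x p = (RR mv rt init (ρ + 1) x).card - (init x).card +
      ∑ k ∈ Finset.range (ρ + 1), ((RR mv rt init k x).count [] : ℤ) := by
  have h1 : ∀ k, ∑ p, ((out mv rt init k (mv x p) (rt x p) : ℤ) - out mv rt init k x p) =
      ((RR mv rt init (k + 1) x).card - (RR mv rt init k x).card : ℤ) +
        (RR mv rt init k x).count [] := by
    intro k
    have a : (RR mv rt init (k + 1) x).card = ∑ p, out mv rt init k (mv x p) (rt x p) := by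
      simp only [RR, out]
      rw [Multiset.card_sum]
      simp
    have b := card_split (RR mv rt init k x)
    rw [Finset.sum_sub_distrib, a, b]
    simp only [out]
    push_cast
    ring
  unfold hh
  rw [Finset.sum_comm, Finset.sum_congr rfl (fun k _ => h1 k), Finset.sum_add_distrib,
    Finset.sum_range_sub (fun k => ((RR mv rt init k x).card : ℤ))]
  rfl

lemma RR_add (a b : X → Multiset Wd) (k : ℕ) (x : X) :
    RR mv rt (a + b) k x = RR mv rt a k x + RR mv rt b k x := by
  induction k generalizing x with
  | zero => rfl
  | succ k ih => simp only [RR, ih, Multiset.filter_add, Multiset.map_add, Finset.sum_add_distrib]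

variable {mv rt} (h1 : ∀ x p, mv (mv x p) (rt x p) = x) (h2 : ∀ x p, rt (mv x p) (rt x p) = p)
include h1 h2

lemma hh_anti (init : X → Multiset Wd) (ρ : ℕ) (x : X) (p : Fin 5) :
    hh mv rt init ρ (mv x p) (rt x p) = - hh mv rt init ρ x p := by
  unfold hh
  rw [h1, h2, ← Finset.sum_neg_distrib]
  exact Finset.sum_congr rfl fun k _ => by ring

lemma RR_mem (init : X → Multiset Wd) (u : Wd) : ∀ (k : ℕ) (z : X), u ∈ RR mv rt init k z →
    [] ∈ RR mv rt init (k + u.length) (walk mv z u) := by
  induction u with
  | nil => exact fun k z h => h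
  | cons p u ih =>
    intro k z h
    have : u ∈ RR mv rt init (k + 1) (mv z p) := by
      simp only [RR]
      refine Multiset.mem_sum.2 ⟨rt z p, Finset.mem_univ _, Multiset.mem_map.2 ⟨p :: u, ?_, rfl⟩⟩
      rw [h1, h2]
      exact Multiset.mem_filter.2 ⟨h, rfl⟩
    have := ih (k + 1) _ this
    rwa [show k + 1 + u.length = k + (p :: u).length by simp; omega] at this

lemma end_ge (init : X → Multiset Wd) (ρ : ℕ) (x z0 z1 : X) (v0 v1 : Wd) (hz : z0 ≠ z1)
    (a0 : v0 ∈ init z0) (a1 : v1 ∈ init z1) (b0 : walk mv z0 v0 = x) (b1 : walk mv z1 v1 = x)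
    (c0 : v0.length ≤ ρ) (c1 : v1.length ≤ ρ) :
    2 ≤ ∑ k ∈ Finset.range (ρ + 1), ((RR mv rt init k x).count [] : ℤ) := by
  have key : ∀ (init : X → Multiset Wd) z v, v ∈ init z → walk mv z v = x → v.length ≤ ρ →
      1 ≤ ∑ k ∈ Finset.range (ρ + 1), ((RR mv rt init k x).count [] : ℤ) := by
    intro init z v a b c
    have := RR_mem h1 h2 init v 0 z a
    rw [b, zero_add, ← Multiset.one_le_count_iff_mem] at this
    refine le_trans (by exact_mod_cast this) (Finset.single_le_sum
      (f := fun k => ((RR mv rt init k x).count [] : ℤ)) (fun _ _ => by positivity)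
      (Finset.mem_range.2 (Nat.lt_succ_of_le c)))
  have e : init = (fun z => if z = z0 then init z else 0) + (fun z => if z = z0 then 0 else init z) := by
    funext z
    simp only [Pi.add_apply]
    split_ifs <;> simp
  have k0 := key (fun z => if z = z0 then init z else 0) z0 v0 (by simpa) b0 c0
  have k1 := key (fun z => if z = z0 then 0 else init z) z1 v1 (by simpa [hz.symm]) b1 c1
  rw [e]
  simp only [RR_add, Multiset.count_add]
  push_cast
  rw [Finset.sum_add_distrib]
  omega

omit h2 in
lemma RR_inv (init : X → Multiset Wd) (S : Set X) (ρ : ℕ)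
    (h : ∀ x, ∀ w ∈ init x, walk mv x w ∈ S ∧ w.length ≤ ρ) (k : ℕ) :
    ∀ x, ∀ w ∈ RR mv rt init k x, walk mv x w ∈ S ∧ w.length ≤ ρ := by
  induction k with
  | zero => exact h
  | succ k ih =>
    intro x w hw
    simp only [RR] at hw
    obtain ⟨p, _, hp⟩ := Multiset.mem_sum.1 hw
    obtain ⟨w', hw', rfl⟩ := Multiset.mem_map.1 hp
    obtain ⟨a, b⟩ := Multiset.mem_filter.1 hw'
    have := ih _ _ a
    cases w' with
    | nil => simp at b
    | cons q w' =>
      obtain rfl : q = rt x p := by simpa using b
      simp only [walk, h1, List.length_cons] at this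
      exact ⟨this.1, by simp only [List.tail_cons]; omega⟩

end

section
variable {X : Type} [MeasurableSpace X] {mv : X → Fin 5 → X} {rt : X → Fin 5 → Fin 5}
  (m1 : ∀ p, Measurable fun x => mv x p) (m2 : ∀ p, Measurable fun x => rt x p)

include m1 in
lemma meas_walk {w : X → Wd} (hw : Measurable w) : Measurable fun x => walk mv x (w x) := by
  have : ∀ u : Wd, Measurable fun x => walk mv x u := by
    intro u
    induction u with
    | nil => exact measurable_id
    | cons p u ih => exact ih.comp (m1 p)
  exact (measurable_from_prod_countable_left (f := fun q : X × Wd => walk mv q.1 q.2) this).comp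
    (measurable_id.prodMk hw)

include m1 m2

lemma meas_RR {init : X → Multiset Wd} (hi : Measurable init) (k : ℕ) :
    Measurable (RR mv rt init k) := by
  induction k with
  | zero => exact hi
  | succ k ih =>
    let F : (Fin 5 → Multiset Wd × Fin 5) → Multiset Wd := fun f =>
      ∑ p, (((f p).1).filter (fun w => w.head? = some (f p).2)).map List.tail
    let G : X → Fin 5 → Multiset Wd × Fin 5 := fun x p => (RR mv rt init k (mv x p), rt x p)
    have hF : Measurable F := measurable_of_countable F
    have hG : Measurable G := by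
      refine measurable_pi_lambda _ fun p => ?_
      have a : Measurable fun x => RR mv rt init k (mv x p) := ih.comp (m1 p)
      exact a.prodMk (m2 p)
    have e : RR mv rt init (k + 1) = F ∘ G := by
      funext x
      simp only [RR, Function.comp, F, G]
    rw [e]
    exact hF.comp hG

lemma meas_hh {init : X → Multiset Wd} (hi : Measurable init) (ρ : ℕ) (p : Fin 5) :
    Measurable fun x => hh mv rt init ρ x p := by
  have : ∀ k (f : X → X) (g : X → Fin 5), Measurable f → Measurable g →
      Measurable fun x => (out mv rt init k (f x) (g x) : ℤ) := by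
    intro k f g hf hg
    exact (measurable_of_countable (fun q : Multiset Wd × Fin 5 =>
      ((q.1.filter (fun w => w.head? = some q.2)).card : ℤ))).comp
      (((meas_RR m1 m2 hi k).comp hf).prodMk hg)
  exact Finset.measurable_sum _ fun k _ =>
    (this k _ _ (m1 p) (m2 p)).sub (this k _ _ measurable_id measurable_const)

end

end H11.Pdx
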