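import Pool.Agent.H11.Pdx1

/-! the space of ported trees with out-degree 3 and in-degree 2, and the game argument -/

namespace H11.Pdx
open Classical H11.BD

abbrev Br := List (Fin 4) → Fin 5
abbrev Pt := Fin 5 → Br

def sub (t : Br) (m : Fin 4) : Br := fun w => t (m :: w)
def node (r : Fin 5) (f : Fin 4 → Br) : Br
  | [] => r
  | m :: w => f m w

lemma sub_node (r : Fin 5) (f : Fin 4 → Br) : sub (node r f) = f := rfl
lemma node_sub (t : Br) : node (t []) (sub t) = t := by
  funext w; cases w <;> rfl

def ins (r : Fin 5) (t : Br) (f : Fin 4 → Br) : Pt := Fin.insertNth (α := fun _ => Br) r t f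

lemma ins_same (r : Fin 5) (t : Br) (f : Fin 4 → Br) : ins r t f r = t := Fin.insertNth_apply_same ..
lemma ins_ab (r : Fin 5) (t : Br) (f : Fin 4 → Br) (m : Fin 4) : ins r t f (r.succAbove m) = f m :=
  Fin.insertNth_apply_succAbove ..
lemma ins_self (x : Pt) (r : Fin 5) : ins r (x r) (fun m => x (r.succAbove m)) = x := by
  funext p
  induction p using Fin.succAboveCases r with
  | x => exact ins_same ..
  | p m => exact ins_ab ..

def mv0 (x : Pt) (p : Fin 5) : Pt :=
  ins (x p []) (node p fun m => x (p.succAbove m)) (sub (x p))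

lemma rt_mv0 (x : Pt) (p : Fin 5) : mv0 x p (x p []) [] = p := by
  rw [mv0, ins_same]; rfl

lemma mv0_mv0 (x : Pt) (p : Fin 5) : mv0 (mv0 x p) (x p []) = x := by
  rw [mv0, rt_mv0]
  have a : mv0 x p (x p []) = node p fun m => x (p.succAbove m) := by rw [mv0, ins_same]
  have b : (fun m => mv0 x p ((x p []).succAbove m)) = sub (x p) := by
    funext m; rw [mv0, ins_ab]
  rw [a, b, node_sub, sub_node, ins_self]

def isOut (p : Fin 5) : Bool := decide (p.val < 3)
def step (k : Bool) (m : Fin 4) : Bool := if k then decide (m.val < 3) else decide (m.val < 2)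
def kind : Bool → List (Fin 4) → Bool
  | k, [] => k
  | k, m :: w => kind (step k m) w
def VB (k : Bool) (t : Br) : Prop := ∀ w, isOut (t w) = !(kind k w)
def Valid (x : Pt) : Prop := ∀ p, VB (isOut p) (x p)
def dec (k : Bool) (t : Br) : Br := fun w =>
  if isOut (t w) = !(kind k w) then t w else if kind k w then 3 else 0

lemma step_eq : ∀ (r : Fin 5) (m : Fin 4), step (!isOut r) m = isOut (r.succAbove m) := by decide

lemma VB_dec (k : Bool) (t : Br) : VB k (dec k t) := by
  intro w
  unfold dec
  split_ifs with h1 h2
  · exact h1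
  · rw [h2]; rfl
  · simp only [Bool.not_eq_true] at h2; rw [h2]; rfl

lemma VB_node {r : Fin 5} {f : Fin 4 → Br} (h : ∀ m, VB (isOut (r.succAbove m)) (f m)) :
    VB (!isOut r) (node r f) := by
  intro w
  cases w with
  | nil => simp [node, kind]
  | cons m w => simp only [node, kind, step_eq]; exact h m w

lemma valid_ins {r : Fin 5} {t : Br} {f : Fin 4 → Br} (h1 : VB (isOut r) t)
    (h2 : ∀ m, VB (isOut (r.succAbove m)) (f m)) : Valid (ins r t f) := by
  intro p
  induction p using Fin.succAboveCases r with
  | x => rwa [ins_same]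
  | p m => rw [ins_ab]; exact h2 m

lemma Valid.rt {x : Pt} (h : Valid x) (p : Fin 5) : isOut (x p []) = !isOut p := h p []

lemma Valid.mv {x : Pt} (h : Valid x) (p : Fin 5) : Valid (mv0 x p) := by
  refine valid_ins ?_ (fun m w => ?_)
  · rw [h.rt]; exact VB_node fun m => h _
  · rw [← step_eq, h.rt, Bool.not_not]; exact h p (m :: w)

lemma dec_node (r : Fin 5) (f : Fin 4 → Br) :
    dec (!isOut r) (node r f) = node r fun m => dec (isOut (r.succAbove m)) (f m) := by
  funext w
  cases w with
  | nil => simp [dec, node, kind]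
  | cons m w => simp only [dec, node, kind, step_eq]

def X : Type := ℤ × {x : Pt // Valid x}

instance : MeasurableSpace X := inferInstanceAs (MeasurableSpace (ℤ × {x : Pt // Valid x}))

lemma meas_valid : MeasurableSet {x : Pt | Valid x} := by
  simp only [Valid, VB, Set.setOf_forall]
  refine MeasurableSet.iInter fun p => MeasurableSet.iInter fun w => ?_
  have : Measurable fun x : Pt => x p w := (measurable_pi_apply w).comp (measurable_pi_apply p)
  exact this (MeasurableSet.of_discrete (s := {a | isOut a = !kind (isOut p) w}))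

instance : StandardBorelSpace X := by
  haveI : StandardBorelSpace {x : Pt // Valid x} := meas_valid.standardBorel
  exact inferInstanceAs (StandardBorelSpace (ℤ × {x : Pt // Valid x}))

def mv (x : X) (p : Fin 5) : X := (x.1 + if isOut p then 1 else -1, ⟨mv0 x.2.1 p, x.2.2.mv p⟩)
def rt (x : X) (p : Fin 5) : Fin 5 := x.2.1 p []

lemma rt_out (x : X) (p : Fin 5) : isOut (rt x p) = !isOut p := x.2.2.rt p

lemma mv_mv (x : X) (p : Fin 5) : mv (mv x p) (rt x p) = x := by
  refine Prod.ext ?_ (Subtype.ext (mv0_mv0 _ _))
  show x.1 + (if isOut p then 1 else -1) + (if isOut (rt x p) then 1 else -1) = x.1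
  rw [rt_out]
  cases isOut p <;> simp

lemma rt_mv (x : X) (p : Fin 5) : rt (mv x p) (rt x p) = p := rt_mv0 _ _

lemma meas_ins {Y : Type} [MeasurableSpace Y] (r : Fin 5) {t : Y → Br} {f : Y → Fin 4 → Br}
    (ht : Measurable t) (hf : ∀ m, Measurable fun y => f y m) :
    Measurable fun y => ins r (t y) (f y) := by
  refine measurable_pi_lambda _ fun p => ?_
  induction p using Fin.succAboveCases r with
  | x => simpa only [ins_same] using ht
  | p m => simpa only [ins_ab] using hf m

lemma meas_mv0 (p : Fin 5) : Measurable fun x : Pt => mv0 x p := by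
  have a : ∀ r : Fin 5, Measurable fun x : Pt =>
      ins r (node p fun m => x (p.succAbove m)) (sub (x p)) := by
    intro r
    refine meas_ins r (measurable_pi_lambda _ fun w => ?_) (fun m => measurable_pi_lambda _ fun w => ?_)
    · cases w with
      | nil => exact measurable_const
      | cons m w => exact (measurable_pi_apply w).comp (measurable_pi_apply (p.succAbove m))
    · exact (measurable_pi_apply (m :: w)).comp (measurable_pi_apply p)
  let F : Pt × Fin 5 → Pt := fun q => ins q.2 (node p fun m => q.1 (p.succAbove m)) (sub (q.1 p))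
  have hF : Measurable F := measurable_from_prod_countable_left a
  have b : Measurable fun x : Pt => x p [] := (measurable_pi_apply []).comp (measurable_pi_apply p)
  exact hF.comp (measurable_id.prodMk b)

lemma meas_pt : Measurable fun x : X => x.2.1 := measurable_subtype_coe.comp measurable_snd
lemma meas_lev : Measurable fun x : X => x.1 := measurable_fst

lemma meas_mv (p : Fin 5) : Measurable fun x : X => mv x p := by
  refine Measurable.prodMk (meas_lev.add_const _) ?_
  exact Measurable.subtype_mk ((meas_mv0 p).comp meas_pt)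

lemma meas_rt (p : Fin 5) : Measurable fun x : X => rt x p := by
  have b : Measurable fun x : Pt => x p [] := (measurable_pi_apply []).comp (measurable_pi_apply p)
  exact b.comp meas_pt

lemma meas_dec (k : Bool) : Measurable (dec k) := by
  refine measurable_pi_lambda _ fun w => ?_
  exact (measurable_of_countable (fun a : Fin 5 =>
    if isOut a = !(kind k w) then a else if kind k w then 3 else 0)).comp (measurable_pi_apply w)

/-- the point seen from the tail of an edge -/
def pt (l : ℤ) (i : Fin 5) (u : Br) (v : Fin 4 × List (Fin 4) → Fin 5) : X :=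
  (l, ⟨ins i (dec (isOut i) u) (fun m => dec (isOut (i.succAbove m)) fun w => v (m, w)),
    valid_ins (VB_dec _ _) fun _ => VB_dec _ _⟩)

lemma meas_ptf (l : ℤ) (i : Fin 5) :
    Measurable fun q : Br × (Fin 4 × List (Fin 4) → Fin 5) => pt l i q.1 q.2 := by
  refine Measurable.prodMk measurable_const (Measurable.subtype_mk ?_)
  refine meas_ins i ((meas_dec _).comp measurable_fst) fun m => (meas_dec _).comp ?_
  exact measurable_pi_lambda _ fun w => (measurable_pi_apply (m, w)).comp measurable_snd

section
variable (h : X → Fin 5 → ℤ)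

def HW (l c : ℤ) (i : Fin 5) : Prop :=
  ∃ σ : (Fin 4 × List (Fin 4) → Fin 5) → Br,
    (∀ v v' w, (∀ j : Fin 4 × List (Fin 4), j.2.length < w.length → v j = v' j) → σ v w = σ v' w) ∧
    ∀ v, h (pt l i (σ v) v) i ≤ c

variable {h} (hm : ∀ p, Measurable fun x => h x p)
  (anti : ∀ x p, h (mv x p) (rt x p) = - h x p)
  (nd : ∀ x : X, (if x.1 = 0 then 1 else -1) ≤ ∑ p, h x p)
include hm anti nd

lemma game_step (l c c' : ℤ) (H : ∀ i, isOut i = true → HW h l c i)
    (hc : 3 * c - 2 * (c' + 1) < if l = 0 then 1 else -1) (i0 : Fin 5) (hi0 : isOut i0 = true) :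
    HW h (l - 1) c' i0 := by
  have hX : MeasurableSet {q : Br × (Fin 4 × List (Fin 4) → Fin 5) |
      h (pt (l - 1) i0 q.1 q.2) i0 ≤ c'} :=
    ((hm i0).comp (meas_ptf (l - 1) i0)) (MeasurableSet.of_discrete (s := {a | a ≤ c'}))
  rcases lab_det List.length (fun j : Fin 4 × List (Fin 4) => j.2.length) _ hX with hw | ⟨τ, t1, t2⟩
  · exact hw
  exfalso
  have : ∀ i, ∃ σ : (Fin 4 × List (Fin 4) → Fin 5) → Br,
      (∀ v v' w, (∀ j : Fin 4 × List (Fin 4), j.2.length < w.length → v j = v' j) →
        σ v w = σ v' w) ∧ (isOut i = true → ∀ v, h (pt l i (σ v) v) i ≤ c) := by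
    intro i
    by_cases hi : isOut i = true
    · obtain ⟨σ, a, b⟩ := H i hi
      exact ⟨σ, a, fun _ => b⟩
    · exact ⟨fun _ _ => 0, fun _ _ _ _ => rfl, fun h => (hi h).elim⟩
  choose σ s1 s2 using this
  let Φ : (Fin 5 × List (Fin 4) → Fin 5) → (Fin 5 × List (Fin 4) → Fin 5) := fun b q =>
    if isOut q.1 then σ q.1 (fun j => b (q.1.succAbove j.1, j.2)) q.2
    else node i0 (fun m w => τ (node q.1 fun m w => b (q.1.succAbove m, w)) (m, w)) q.2
  obtain ⟨b, hb⟩ := causal_fix (fun q : Fin 5 × List (Fin 4) => q.2.length) Φ (by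
    rintro u u' ⟨p, w⟩ hu
    simp only [Φ]
    split_ifs
    · exact s1 p _ _ w fun j hj => hu _ hj
    · cases w with
      | nil => rfl
      | cons m w =>
        refine t1 _ _ (m, w) fun w' hw' => ?_
        cases w' with
        | nil => rfl
        | cons m' w' =>
          refine hu _ ?_
          simp only [List.length_cons] at *
          omega)
  let z : X := (l, ⟨fun p => dec (isOut p) fun w => b (p, w), fun _ => VB_dec _ _⟩)
  have ho : ∀ p, isOut p = true → h z p ≤ c := by
    intro p hp
    have e : (fun w => b (p, w)) = σ p (fun j => b (p.succAbove j.1, j.2)) := by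
      funext w
      rw [← congrFun hb (p, w)]
      simp only [Φ, hp, if_true]
    have := s2 p hp (fun j => b (p.succAbove j.1, j.2))
    have e2 : pt l p (σ p fun j => b (p.succAbove j.1, j.2)) (fun j => b (p.succAbove j.1, j.2)) = z := by
      refine Prod.ext rfl (Subtype.ext ?_)
      rw [← e]
      exact ins_self z.2.1 p
    rwa [e2] at this
  have hi : ∀ p, isOut p = false → h z p ≤ -(c' + 1) := by
    intro p hp
    set u : Br := node p fun m w => b (p.succAbove m, w) with hu
    have e : (fun w => b (p, w)) = node i0 (fun m w => τ u (m, w)) := by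
      funext w
      rw [← congrFun hb (p, w)]
      simp only [Φ, hp, hu]
      rfl
    have e1 : z.2.1 p = node i0 fun m => dec (isOut (i0.succAbove m)) fun w => τ u (m, w) := by
      show dec (isOut p) (fun w => b (p, w)) = _
      rw [e, hp, ← dec_node, hi0]; rfl
    have e2 : rt z p = i0 := by rw [rt, e1]; rfl
    have e3 : mv z p = pt (l - 1) i0 u (τ u) := by
      refine Prod.ext ?_ (Subtype.ext ?_)
      · show l + (if isOut p then 1 else -1) = l - 1
        rw [hp]; rfl
      · show mv0 z.2.1 p = ins i0 (dec (isOut i0) u)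
          (fun m => dec (isOut (i0.succAbove m)) fun w => τ u (m, w))
        have : dec (isOut i0) u = node p fun m => z.2.1 (p.succAbove m) := by
          rw [hi0, show true = !isOut p by rw [hp]; rfl, hu, dec_node]
        rw [mv0, this, show z.2.1 p [] = i0 from e2, e1, sub_node]
    have a := anti z p
    have t := t2 u
    rw [e2, e3] at a
    simp only [Set.mem_setOf_eq, not_le] at t
    omega
  have n := nd z
  rw [Fin.sum_univ_five] at n
  have := ho 0 rfl
  have := ho 1 rfl
  have := ho 2 rfl
  have := hi 3 rfl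
  have := hi 4 rfl
  have e : z.1 = l := rfl
  rw [e] at n
  omega

theorem no_h (N : ℕ) (van : ∀ (x : X) p, (N : ℤ) < |x.1| → h x p = 0) : False := by
  have A : ∀ n : ℕ, n ≤ N + 1 → ∀ i, isOut i = true → HW h (N + 1 - n) 0 i := by
    intro n
    induction n with
    | zero =>
      intro _ i _
      refine ⟨fun _ _ => 0, fun _ _ _ _ => rfl, fun v => le_of_eq (van _ _ ?_)⟩
      show (N : ℤ) < |(N : ℤ) + 1 - (0 : ℕ)|
      rw [lt_abs]; omega
    | succ n ih =>
      intro hn i hi
      have := game_step hm anti nd _ 0 0 (ih (by omega)) (by split_ifs <;> omega) i hi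
      convert this using 1
      push_cast; ring
  have B : ∀ n : ℕ, ∀ i, isOut i = true → HW h (-1 - n) (-1) i := by
    intro n
    induction n with
    | zero =>
      intro i hi
      have := game_step hm anti nd _ 0 (-1) (A (N + 1) le_rfl) (by
        rw [if_pos (by push_cast; ring)]; omega) i hi
      convert this using 1
      push_cast; ring
    | succ n ih =>
      intro i hi
      have := game_step hm anti nd _ (-1) (-1) ih (by split_ifs <;> omega) i hi
      convert this using 1
      push_cast; ring
  obtain ⟨σ, _, hs⟩ := B N 0 rfl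
  have := hs default
  rw [van _ _ (by show (N : ℤ) < |-1 - (N : ℤ)|; rw [lt_abs]; omega)] at this
  omega

end

end H11.Pdx
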