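import Pool.Agent.H11.Pdx2

/-! the group of bounded-displacement Borel automorphisms -/

namespace H11.Pdx
open Classical

def Q (γ : X → X) : Prop :=
  ∃ (ρ : ℕ) (w : X → Wd), Measurable w ∧ (∀ x, (w x).length ≤ ρ) ∧ ∀ x, γ x = walk mv x (w x)

lemma Q.meas {γ : X → X} (h : Q γ) : Measurable γ := by
  obtain ⟨_, w, hw, _, e⟩ := h
  rw [funext e]
  exact meas_walk meas_mv hw

lemma Q.comp {γ δ : X → X} (h : Q γ) (h' : Q δ) : Q (γ ∘ δ) := by
  have hδ := h'.meas
  obtain ⟨ρ, w, hw, a, e⟩ := h
  obtain ⟨ρ', w', hw', a', e'⟩ := h'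
  refine ⟨ρ' + ρ, fun x => w' x ++ w (δ x), ?_, fun x => ?_, fun x => ?_⟩
  · exact (measurable_of_countable (fun q : Wd × Wd => q.1 ++ q.2)).comp
      (hw'.prodMk (hw.comp hδ))
  · rw [List.length_append]; exact add_le_add (a' x) (a _)
  · rw [walk_append, ← e', ← e]; rfl

def G : Subgroup (Equiv.Perm X) where
  carrier := {γ | Q γ ∧ Q (γ⁻¹ : Equiv.Perm X)}
  mul_mem' := fun {a b} ha hb => ⟨ha.1.comp hb.1, by rw [mul_inv_rev]; exact hb.2.comp ha.2⟩
  one_mem' := ⟨⟨0, fun _ => [], measurable_const, fun _ => le_rfl, fun _ => rfl⟩,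
    ⟨0, fun _ => [], measurable_const, fun _ => le_rfl, fun _ => rfl⟩⟩
  inv_mem' := fun {a} ha => ⟨ha.2, by rw [inv_inv]; exact ha.1⟩

lemma lev_mv (x : X) (p : Fin 5) : (mv x p).1 = x.1 + 1 ∨ (mv x p).1 = x.1 - 1 := by
  show x.1 + (if isOut p then 1 else -1) = _ ∨ x.1 + (if isOut p then 1 else -1) = _
  cases isOut p <;> simp [sub_eq_add_neg]

lemma lev_walk (w : Wd) : ∀ x : X, |(walk mv x w).1 - x.1| ≤ w.length := by
  induction w with
  | nil => intro x; simp [walk]
  | cons p w ih =>
    intro x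
    have := ih (mv x p)
    have := lev_mv x p
    simp only [walk, List.length_cons, abs_le] at *
    push_cast
    omega

noncomputable def sw (i j : Fin 5) (e : ℤ) (x : X) : Wd :=
  if x.1 % 2 = e % 2 ∧ rt x i = j then [i] else if x.1 % 2 ≠ e % 2 ∧ rt x j = i then [j] else []

lemma sw_inv (i j : Fin 5) (e : ℤ) : Function.Involutive fun x => walk mv x (sw i j e x) := by
  intro x
  by_cases h1 : x.1 % 2 = e % 2 ∧ rt x i = j
  · have a : sw i j e x = [i] := if_pos h1
    have l := lev_mv x i
    have b : sw i j e (mv x i) = [j] := by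
      unfold sw
      rw [if_neg (by omega), if_pos ⟨by omega, by rw [← h1.2, rt_mv]⟩]
    simp only [a, walk, b]
    rw [← h1.2, mv_mv]
  · by_cases h2 : x.1 % 2 ≠ e % 2 ∧ rt x j = i
    · have a : sw i j e x = [j] := by unfold sw; rw [if_neg h1, if_pos h2]
      have l := lev_mv x j
      have b : sw i j e (mv x j) = [i] := by
        unfold sw
        rw [if_pos ⟨by omega, by rw [← h2.2, rt_mv]⟩]
      simp only [a, walk, b]
      rw [← h2.2, mv_mv]
    · have a : sw i j e x = [] := by unfold sw; rw [if_neg h1, if_neg h2]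
      simp only [a, walk]

lemma meas_par (e : ℤ) : MeasurableSet {x : X | x.1 % 2 = e % 2} :=
  meas_lev (MeasurableSet.of_discrete (s := {a : ℤ | a % 2 = e % 2}))

lemma meas_rt_eq (i j : Fin 5) : MeasurableSet {x : X | rt x i = j} :=
  meas_rt i (MeasurableSet.of_discrete (s := {j}))

lemma sw_Q (i j : Fin 5) (e : ℤ) : Q fun x => walk mv x (sw i j e x) := by
  refine ⟨1, sw i j e, ?_, fun x => ?_, fun _ => rfl⟩
  · exact Measurable.ite ((meas_par e).inter (meas_rt_eq i j)) measurable_const
      (Measurable.ite ((meas_par e).compl.inter (meas_rt_eq j i)) measurable_const measurable_const)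
  · unfold sw; split_ifs <;> simp

noncomputable def sG (i j : Fin 5) (e : ℤ) : G := ⟨(sw_inv i j e).toPerm, sw_Q i j e, sw_Q i j e⟩

lemma sG_smul {i j : Fin 5} {e : ℤ} {x : X} (h1 : x.1 % 2 = e % 2) (h2 : rt x i = j) :
    sG i j e • x = mv x i := by
  show walk mv x (sw i j e x) = _
  rw [show sw i j e x = [i] from if_pos ⟨h1, h2⟩]; rfl

lemma G_meas (g : G) : Measurable fun x : X => g • x := g.2.1.meas

theorem no_paradox {ι : Type} [Finite ι] (B : ι → Set X) (γ : ι → G) (hB : ∀ i, MeasurableSet (B i))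
    (hd : ∀ i j z, z ∈ B i → z ∈ B j → i = j)
    (h2 : ∀ x, ∃ i j, i ≠ j ∧ γ i • x ∈ B i ∧ γ j • x ∈ B j) : False := by
  haveI := Fintype.ofFinite ι
  choose r w hw hr he using fun i => (γ i).2.2
  let ρ := Finset.univ.sup r
  have hρ : ∀ i x, (w i x).length ≤ ρ := fun i x => (hr i x).trans (Finset.le_sup (Finset.mem_univ i))
  let tk : X → ι → Multiset Wd := fun z i =>
    if z ∈ B i ∧ (walk mv z (w i z)).1 = 0 then {w i z} else 0
  let init : X → Multiset Wd := fun z => ∑ i, tk z i
  have hi : Measurable init := by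
    have a : Measurable tk := by
      refine measurable_pi_lambda _ fun i => Measurable.ite ((hB i).inter ?_) ?_ measurable_const
      · exact (meas_lev.comp (meas_walk meas_mv (hw i))) (MeasurableSet.of_discrete (s := {0}))
      · exact (measurable_of_countable (fun u : Wd => ({u} : Multiset Wd))).comp (hw i)
    exact (measurable_of_countable (fun f : ι → Multiset Wd => ∑ i, f i)).comp a
  have hc : ∀ z, (init z).card ≤ 1 := by
    intro z
    by_cases hz : ∃ i, z ∈ B i
    · obtain ⟨i, hz⟩ := hz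
      have : init z = tk z i := Finset.sum_eq_single i (fun j _ hj =>
        if_neg fun h => hj (hd _ _ _ h.1 hz)) (by simp)
      rw [this]
      simp only [tk]
      split_ifs <;> simp
    · have : init z = 0 := Finset.sum_eq_zero fun j _ => if_neg fun h => hz ⟨j, h.1⟩
      simp [this]
  have hinv := RR_inv (rt := rt) mv_mv init {x | x.1 = 0} ρ (by
    intro x u hu
    obtain ⟨i, _, hi⟩ := Multiset.mem_sum.1 hu
    simp only [tk] at hi
    split_ifs at hi with h
    · rw [Multiset.mem_singleton.1 hi]; exact ⟨h.2, hρ i x⟩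
    · simp at hi)
  have hz : ∀ k (x : X) p, (ρ : ℤ) < |x.1| → out mv rt init k x p = 0 := by
    intro k x p hx
    have : RR mv rt init k x = 0 := by
      refine Multiset.eq_zero_of_forall_notMem fun u hu => ?_
      obtain ⟨a, b⟩ := hinv k x u hu
      have c := lev_walk u x
      rw [show (walk mv x u).1 = 0 from a, zero_sub, abs_neg] at c
      omega
    simp [out, this]
  refine no_h (h := hh mv rt init ρ) (meas_hh meas_mv meas_rt hi ρ) (hh_anti mv_mv rt_mv init ρ)
    (fun x => ?_) (ρ + 1) (fun x p hx => ?_)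
  · rw [node_sum]
    have a := hc x
    split_ifs with h0
    · obtain ⟨i, j, hij, a0, a1⟩ := h2 x
      have k : ∀ i, walk mv (γ i • x) (w i (γ i • x)) = x := fun i => by
        rw [← he]; exact (γ i).1.symm_apply_apply x
      have m : ∀ i, γ i • x ∈ B i → w i (γ i • x) ∈ init (γ i • x) := fun i hi =>
        Multiset.mem_sum.2 ⟨i, Finset.mem_univ _, by
          simp only [tk]; rw [if_pos ⟨hi, by rw [k, h0]⟩]; exact Multiset.mem_singleton_self _⟩
      have := end_ge mv_mv rt_mv init ρ x (γ i • x) (γ j • x) _ _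
        (fun e => hij (hd _ _ _ a0 (e ▸ a1))) (m i a0) (m j a1) (k i) (k j) (hρ _ _) (hρ _ _)
      omega
    · have : 0 ≤ ∑ k ∈ Finset.range (ρ + 1), ((RR mv rt init k x).count [] : ℤ) :=
        Finset.sum_nonneg fun _ _ => by positivity
      omega
  · refine Finset.sum_eq_zero fun k _ => ?_
    have l := lev_mv x p
    push_cast at hx
    rw [hz k x p (by omega), hz k (mv x p) _ (by rw [lt_abs] at *; omega)]
    simp

end H11.Pdx
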