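import Pool.Agent.H11.PsData

namespace H11.Ps
open Pool.Agent.H5.CanR

def ea (k : ℕ) : ℕ :=
  [0, 0, 0, 0, 0, 0, 0, 1, 1, 1, 1, 1, 1, 2, 2, 2, 2, 2, 3, 3, 3, 3, 4, 4, 4, 5, 5, 6].getD k 0
def eb (k : ℕ) : ℕ :=
  [1, 2, 3, 4, 5, 6, 7, 2, 3, 4, 5, 6, 7, 3, 4, 5, 6, 7, 4, 5, 6, 7, 5, 6, 7, 6, 7, 7].getD k 0

open Classical in
noncomputable def cnt (A : ℕ → ℕ → Prop) (i : ℕ) : ℕ :=
  ∑ k ∈ Finset.range i, if A (ea k) (eb k) then 1 else 0

def P (A : ℕ → ℕ → Prop) (T : ℕ → ℕ → ℕ → Prop) (v : ℕ) : Prop :=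
  if v < 65 then A ((v - 1) / 8) ((v - 1) % 8)
  else if v < 577 then T ((v - 65) / 64) ((v - 65) / 8 % 8) ((v - 65) % 8)
  else (v - 577) % 16 ≤ cnt A ((v - 577) / 16)

def L (A : ℕ → ℕ → Prop) (T : ℕ → ℕ → ℕ → Prop) (l : ℕ) : Prop :=
  2 ≤ l ∧ if l % 2 = 0 then P A T (l / 2) else ¬ P A T (l / 2)

theorem good (A : ℕ → ℕ → Prop) (T : ℕ → ℕ → ℕ → Prop) : Good (L A T) := by
  refine ⟨fun h => by have := h.1; omega, fun h => by have := h.1; omega, fun l h1 h2 => ?_⟩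
  have e1 : (l ^^^ 1) / 2 = l / 2 := by simp [Nat.xor_div_two]
  have e2 : (l ^^^ 1) % 2 = (l + 1) % 2 := by simp [Nat.xor_mod_two_eq]
  obtain ⟨-, h1⟩ := h1
  obtain ⟨-, h2⟩ := h2
  rw [e1, e2] at h2
  by_cases h : l % 2 = 0
  · rw [if_pos h] at h1; rw [if_neg (by omega)] at h2; exact h2 h1
  · rw [if_neg h] at h1; rw [if_pos (by omega)] at h2; exact h1 h2

def m (c l : ℕ) : Bool := (List.range 8).any fun k => sl c k == l

variable {A : ℕ → ℕ → Prop} {T : ℕ → ℕ → ℕ → Prop}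

theorem pos {c v : ℕ} (h : m c (2 * v) = true) (hv : 1 ≤ v) (hp : P A T v) : Sat (L A T) c := by
  simp only [m, List.any_eq_true, beq_iff_eq] at h
  obtain ⟨k, -, e⟩ := h
  refine ⟨k, ?_⟩
  rw [e]
  exact ⟨by omega, by rw [if_pos (by omega)]; simpa using hp⟩

theorem neg {c v : ℕ} (h : m c (2 * v + 1) = true) (hv : 1 ≤ v) (hp : ¬ P A T v) :
    Sat (L A T) c := by
  simp only [m, List.any_eq_true, beq_iff_eq] at h
  obtain ⟨k, -, e⟩ := h
  refine ⟨k, ?_⟩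
  rw [e]
  refine ⟨by omega, ?_⟩
  rw [if_neg (by omega), show (2 * v + 1) / 2 = v by omega]
  exact hp

def vh (a b : ℕ) : ℕ := 1 + 8 * min a b + max a b
def vt (a b x : ℕ) : ℕ := 65 + 64 * min a b + 8 * max a b + x
def vs (i j : ℕ) : ℕ := 577 + 16 * i + j

theorem Ph (sA : ∀ a b, A a b → A b a) {a b : ℕ} (ha : a < 8) (hb : b < 8) :
    P A T (vh a b) ↔ A a b := by
  unfold P vh
  rw [if_pos (by omega), show (1 + 8 * min a b + max a b - 1) / 8 = min a b by omega,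
    show (1 + 8 * min a b + max a b - 1) % 8 = max a b by omega]
  rcases le_total a b with h | h
  · rw [min_eq_left h, max_eq_right h]
  · rw [min_eq_right h, max_eq_left h]; exact ⟨sA _ _, sA _ _⟩

theorem Pt (sT : ∀ a b x, T a b x → T b a x) {a b x : ℕ} (ha : a < 8) (hb : b < 8) (hx : x < 8) :
    P A T (vt a b x) ↔ T a b x := by
  unfold P vt
  rw [if_neg (by omega), if_pos (by omega),
    show (65 + 64 * min a b + 8 * max a b + x - 65) / 64 = min a b by omega,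
    show (65 + 64 * min a b + 8 * max a b + x - 65) / 8 % 8 = max a b by omega,
    show (65 + 64 * min a b + 8 * max a b + x - 65) % 8 = x by omega]
  rcases le_total a b with h | h
  · rw [min_eq_left h, max_eq_right h]
  · rw [min_eq_right h, max_eq_left h]; exact ⟨sT _ _ _, sT _ _ _⟩

theorem Ps {i j : ℕ} (hj : j < 16) : P A T (vs i j) ↔ j ≤ cnt A i := by
  unfold P vs
  rw [if_neg (by omega), if_neg (by omega), show (577 + 16 * i + j - 577) % 16 = j by omega,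
    show (577 + 16 * i + j - 577) / 16 = i by omega]

def ok' (c t a b x y z : ℕ) : Bool :=
  if t = 6 then decide (a < 28) && decide (1 ≤ b) && decide (b < 16) && m c (2 * vs (a + 1) b + 1) &&
    (a == 0 || m c (2 * vs a b)) && m c (2 * vh (ea a) (eb a))
  else if t = 7 then decide (1 ≤ b) && decide (b < 15) && m c (2 * vs (a + 1) (b + 1) + 1) &&
    (a == 0 || (m c (2 * vs a (b + 1)) && m c (2 * vs a b)))
  else if t = 8 then m c (2 * vs 28 14)
  else decide (a < 8) && decide (b < 8) && decide (x < 8) && decide (y < 8) && decide (z < 8) &&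
    if t = 0 then x != y && x != z && y != z && m c (2 * vt a b x + 1) && m c (2 * vt a b y + 1) &&
      m c (2 * vt a b z + 1)
    else if t = 1 then x != y && m c (2 * vt a b x + 1) && m c (2 * vt a b y + 1) && m c (2 * vh x y)
    else if t = 2 then m c (2 * vt a b x + 1) &&
      (List.range 8).all fun w => w == a || w == b || w == x || m c (2 * vt a b w)
    else if t = 3 then m c (2 * vh a b + 1) &&
      (List.range 8).all fun w => w == a || w == b || m c (2 * vt a b w)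
    else if t = 4 then b != x && m c (2 * vh a b + 1) && m c (2 * vh a x + 1) &&
      m c (2 * vt a b x) && m c (2 * vt a x b)
    else decide (1 ≤ a) && decide (a ≤ 4) && m c (2 * vh 0 a)

def ok (c p : ℕ) : Bool :=
  ok' c (p % 32) (p / 32 % 32) (p / 1024 % 32) (p / 32768 % 32) (p / 1048576 % 32)
    (p / 33554432 % 32)

theorem chk : allR (fun i => ok (PsData.db.get i) (PsData.par.get i)) 11 0 1300 = true := by
  decide +kernel

theorem eab : ∀ a < 28, ea a < 8 ∧ eb a < 8 := by decide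

theorem core (sA : ∀ a b, A a b → A b a) (sT : ∀ a b x, T a b x → T b a x)
    (h0 : ∀ a b x y z, x < 8 → y < 8 → z < 8 → x ≠ y → x ≠ z → y ≠ z → T a b x → T a b y →
      ¬ T a b z)
    (h1 : ∀ a b x y, x < 8 → y < 8 → x ≠ y → T a b x → T a b y → A x y)
    (h2 : ∀ a b x, x < 8 → T a b x → ∃ w < 8, w ≠ a ∧ w ≠ b ∧ w ≠ x ∧ T a b w)
    (h3 : ∀ a b, A a b → ∃ w < 8, w ≠ a ∧ w ≠ b ∧ T a b w)
    (h4 : ∀ v a b, a < 8 → b < 8 → a ≠ b → A v a → A v b → T v a b ∨ T v b a)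
    (h5 : ∀ a, 1 ≤ a → a ≤ 4 → A 0 a) (h8 : 14 ≤ cnt A 28) : False := by
  refine PsData.unsat (L A T) (good A T) fun i hi => ?_
  have := allR_sound chk (by norm_num) i (by omega) hi
  unfold ok at this
  generalize PsData.db.get i = c at this ⊢
  generalize PsData.par.get i % 32 = t at this
  generalize PsData.par.get i / 32 % 32 = a at this
  generalize PsData.par.get i / 1024 % 32 = b at this
  generalize PsData.par.get i / 32768 % 32 = x at this
  generalize PsData.par.get i / 1048576 % 32 = y at this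
  generalize PsData.par.get i / 33554432 % 32 = z at this
  have vh1 : ∀ a b, 1 ≤ vh a b := fun a b => by unfold vh; omega
  have vt1 : ∀ a b x, 1 ≤ vt a b x := fun a b x => by unfold vt; omega
  have vs1 : ∀ a b, 1 ≤ vs a b := fun a b => by unfold vs; omega
  have c0 : cnt A 0 = 0 := by simp [cnt]
  unfold ok' at this
  split_ifs at this <;>
    try simp only [Bool.and_eq_true, Bool.or_eq_true, decide_eq_true_eq, beq_iff_eq, bne_iff_ne,
      List.all_eq_true, List.mem_range] at this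
  · obtain ⟨⟨⟨⟨⟨a1, b1⟩, b2⟩, m1⟩, m2⟩, m3⟩ := this
    by_cases s : b ≤ cnt A (a + 1)
    · by_cases e : A (ea a) (eb a)
      · exact pos m3 (vh1 _ _) ((Ph sA (eab a a1).1 (eab a a1).2).2 e)
      · have : cnt A (a + 1) = cnt A a := by
          simp only [cnt, Finset.sum_range_succ, if_neg e, add_zero]
        rcases m2 with rfl | m2
        · omega
        · exact pos m2 (vs1 _ _) ((Ps b2).2 (by omega))
    · exact neg m1 (vs1 _ _) (by rwa [Ps b2])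
  · obtain ⟨⟨⟨b1, b2⟩, m1⟩, m2⟩ := this
    by_cases s : b + 1 ≤ cnt A (a + 1)
    · have : cnt A (a + 1) ≤ cnt A a + 1 := by
        simp only [cnt, Finset.sum_range_succ]; split_ifs <;> omega
      rcases m2 with rfl | m2
      · omega
      · exact pos m2.2 (vs1 _ _) ((Ps (by omega)).2 (by omega))
    · exact neg m1 (vs1 _ _) (by rwa [Ps (by omega)])
  · exact pos this (vs1 _ _) ((Ps (by omega)).2 h8)
  · obtain ⟨⟨⟨⟨⟨a1, b1⟩, x1⟩, y1⟩, z1⟩, ⟨⟨⟨⟨⟨n1, n2⟩, n3⟩, m1⟩, m2⟩, m3⟩⟩ := this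
    by_cases s1 : T a b x
    · by_cases s2 : T a b y
      · exact neg m3 (vt1 _ _ _) (by rw [Pt sT a1 b1 z1]; exact h0 a b x y z x1 y1 z1 n1 n2 n3 s1 s2)
      · exact neg m2 (vt1 _ _ _) (by rwa [Pt sT a1 b1 y1])
    · exact neg m1 (vt1 _ _ _) (by rwa [Pt sT a1 b1 x1])
  · obtain ⟨⟨⟨⟨⟨a1, b1⟩, x1⟩, y1⟩, z1⟩, ⟨⟨⟨n1, m1⟩, m2⟩, m3⟩⟩ := this
    by_cases s1 : T a b x
    · by_cases s2 : T a b y
      · exact pos m3 (vh1 _ _) ((Ph sA x1 y1).2 (h1 a b x y x1 y1 n1 s1 s2))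
      · exact neg m2 (vt1 _ _ _) (by rwa [Pt sT a1 b1 y1])
    · exact neg m1 (vt1 _ _ _) (by rwa [Pt sT a1 b1 x1])
  · obtain ⟨⟨⟨⟨⟨a1, b1⟩, x1⟩, y1⟩, z1⟩, m1, m2⟩ := this
    by_cases s1 : T a b x
    · obtain ⟨w, w1, w2, w3, w4, w5⟩ := h2 a b x x1 s1
      exact pos ((m2 w w1).resolve_left (by omega)) (vt1 a b w) ((Pt sT a1 b1 w1).2 w5)
    · exact neg m1 (vt1 _ _ _) (by rwa [Pt sT a1 b1 x1])
  · obtain ⟨⟨⟨⟨⟨a1, b1⟩, x1⟩, y1⟩, z1⟩, m1, m2⟩ := this
    by_cases s1 : A a b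
    · obtain ⟨w, w1, w2, w3, w5⟩ := h3 a b s1
      exact pos ((m2 w w1).resolve_left (by omega)) (vt1 a b w) ((Pt sT a1 b1 w1).2 w5)
    · exact neg m1 (vh1 _ _) (by rwa [Ph sA a1 b1])
  · obtain ⟨⟨⟨⟨⟨a1, b1⟩, x1⟩, y1⟩, z1⟩, ⟨⟨⟨⟨n1, m1⟩, m2⟩, m3⟩, m4⟩⟩ := this
    by_cases s1 : A a b
    · by_cases s2 : A a x
      · rcases h4 a b x b1 x1 n1 s1 s2 with h | h
        · exact pos m3 (vt1 _ _ _) ((Pt sT a1 b1 x1).2 h)
        · exact pos m4 (vt1 _ _ _) ((Pt sT a1 x1 b1).2 h)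
      · exact neg m2 (vh1 _ _) (by rwa [Ph sA a1 x1])
    · exact neg m1 (vh1 _ _) (by rwa [Ph sA a1 b1])
  · obtain ⟨⟨⟨⟨⟨a1, b1⟩, x1⟩, y1⟩, z1⟩, ⟨n1, n2⟩, m1⟩ := this
    exact pos m1 (vh1 _ _) ((Ph sA (by omega) a1).2 (h5 a n1 n2))

end H11.Ps
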