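import Mathlib

namespace Pool.Agent.H11.RainbowCycle

open Finset

lemma add_self' {k : ℕ} (g : Fin k → ZMod 2) : g + g = 0 := by
  funext i
  exact CharTwo.add_self_eq_zero (g i)

lemma sum_all {k : ℕ} (hk : 2 ≤ k) : ∑ g : Fin k → ZMod 2, g = 0 := by
  funext i
  rw [Finset.sum_apply]
  obtain ⟨j, hj⟩ : ∃ j : Fin k, j ≠ i := by
    have : Nontrivial (Fin k) := Fin.nontrivial_iff_two_le.2 hk
    exact exists_ne i
  apply Finset.sum_ninvolution (fun g => g + Pi.single j 1)
  · intro g
    simp [Pi.single_eq_of_ne hj.symm, CharTwo.add_self_eq_zero]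
  · intro g _ h
    have := congrFun h j
    simp at this
  · intro g; exact Finset.mem_univ _
  · intro g
    rw [add_assoc, add_self', add_zero]

lemma walk_sum {V : Type} {k : ℕ} (e : V → Fin k → ZMod 2) (d : Sym2 V → Fin k → ZMod 2)
    (hd : ∀ u v, d s(u, v) = e u + e v) {G : SimpleGraph V} {u v : V} (w : G.Walk u v) :
    (w.edges.map d).sum = e u + e v := by
  induction w with
  | nil => simp [add_self']
  | @cons a b c h p ih =>
    simp only [SimpleGraph.Walk.edges_cons, List.map_cons, List.sum_cons, ih, hd]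
    rw [add_assoc, ← add_assoc (e b), add_self', zero_add]

theorem main (k : ℕ) (hk : 3 ≤ k) : ∃ c : Sym2 (Fin (2 ^ k)) → Fin (2 ^ k - 1),
    (∀ u v w : Fin (2 ^ k), u ≠ v → u ≠ w → v ≠ w → c s(u, v) ≠ c s(u, w)) ∧
    ∀ (v : Fin (2 ^ k)) (w : (⊤ : SimpleGraph (Fin (2 ^ k))).Walk v v), w.IsCycle →
      w.length = 2 ^ k - 2 → ¬ (w.edges.map c).Nodup := by
  classical
  have hc : Fintype.card (Fin k → ZMod 2) = 2 ^ k := by simp
  have h8 : 8 ≤ 2 ^ k := by
    calc 8 = 2 ^ 3 := by norm_num
      _ ≤ 2 ^ k := Nat.pow_le_pow_right (by norm_num) hk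
  let e : Fin (2 ^ k) ≃ (Fin k → ZMod 2) := (Fintype.equivFinOfCardEq hc).symm
  have hc2 : Fintype.card {g : Fin k → ZMod 2 // g ≠ 0} = 2 ^ k - 1 := by
    simp [Fintype.card_subtype_compl]
  let f := Fintype.equivFinOfCardEq hc2
  let d : Sym2 (Fin (2 ^ k)) → Fin k → ZMod 2 :=
    Sym2.lift ⟨fun u v => e u + e v, fun u v => add_comm _ _⟩
  have hd : ∀ u v, d s(u, v) = e u + e v := fun u v => rfl
  have hne : ∀ u v, u ≠ v → e u + e v ≠ 0 := by
    intro u v huv h
    apply huv
    apply e.injective
    have : e u + e v + e v = e v := by rw [h, zero_add]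
    rwa [add_assoc, add_self', add_zero] at this
  let g : (Fin k → ZMod 2) → Fin (2 ^ k - 1) := fun x =>
    if h : x ≠ 0 then f ⟨x, h⟩ else ⟨0, by omega⟩
  refine ⟨fun s => g (d s), ?_, ?_⟩
  · intro u v w huv huw hvw h
    simp only [hd, g, dif_pos (hne u v huv), dif_pos (hne u w huw)] at h
    have := congrArg Subtype.val (f.injective h)
    exact hvw (e.injective (add_left_cancel this))
  · intro v w _ hlen hnd
    have h1 : (w.edges.map d).Nodup := by
      have : w.edges.map (fun s => g (d s)) = (w.edges.map d).map g := by simp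
      rw [this] at hnd
      exact hnd.of_map _
    have h2 := walk_sum e d hd w
    rw [add_self'] at h2
    have h3 : ∑ x ∈ (w.edges.map d).toFinset, x = 0 := by
      have := List.sum_toFinset id h1
      simp only [id, List.map_id] at this
      rw [this, h2]
    have h4 : (w.edges.map d).toFinset ⊆ Finset.univ.erase 0 := by
      intro x hx
      rw [List.mem_toFinset, List.mem_map] at hx
      obtain ⟨s, hs, rfl⟩ := hx
      induction s using Sym2.ind with
      | _ a b =>
        have := w.adj_of_mem_edges hs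
        exact Finset.mem_erase.2 ⟨hne a b this.ne, Finset.mem_univ _⟩
    have h5 : (Finset.univ.erase 0 \ (w.edges.map d).toFinset).card = 1 := by
      rw [Finset.card_sdiff_of_subset h4, Finset.card_erase_of_mem (Finset.mem_univ _),
        List.toFinset_card_of_nodup h1, List.length_map, SimpleGraph.Walk.length_edges, hlen,
        Finset.card_univ, hc]
      omega
    obtain ⟨a, ha⟩ := Finset.card_eq_one.1 h5
    have h6 := Finset.sum_sdiff (f := fun x => x) h4
    rw [ha, h3, Finset.sum_singleton, add_zero, Finset.sum_erase (f := fun x => x) _ rfl, sum_all (by omega)] at h6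
    have h7 : a ∈ Finset.univ.erase 0 \ (w.edges.map d).toFinset := by rw [ha]; simp
    exact (Finset.mem_erase.1 (Finset.mem_sdiff.1 h7).1).1 h6

end Pool.Agent.H11.RainbowCycle
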