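import Mathlib

set_option autoImplicit false

namespace H11.Shad

/-- deletion shadow of a family of words of length `n+1`; letter `j ∈ [r]` is `j-1 : Fin r` -/
def shadow {r n : ℕ} (F : Finset (Fin (n + 1) → Fin r)) : Finset (Fin n → Fin r) :=
  F.biUnion (fun w => Finset.univ.image (fun i : Fin (n + 1) => i.removeNth w))

/-- `c_x(w)`: number of positions of `w` carrying the letter `x ∈ [r] = {1,…,r}` -/
def cnt {r m : ℕ} (x : ℕ) (w : Fin m → Fin r) : ℕ :=
  (Finset.univ.filter (fun i => (w i : ℕ) + 1 = x)).card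

/-- the family `F_{s,k,l}` inside `[r]^m` -/
def Fam (r m s k l : ℕ) : Finset (Fin m → Fin r) :=
  Finset.univ.filter (fun w => (∀ i, (w i : ℕ) + 1 ≤ s) ∧
    (cnt s w ≤ k ∨ (cnt s w = k + 1 ∧ cnt (s - 1) w ≤ l)))

/-- the signature `(c_r(w), …, c_1(w))` -/
def sig {r m : ℕ} (w : Fin m → Fin r) : Fin r → ℕ := fun i => cnt (r - i) w

/-- lexicographic order `≤_L` -/
def LexLe {r : ℕ} (p q : Fin r → ℕ) : Prop := p = q ∨ ∃ i, p i < q i ∧ ∀ j < i, p j = q j

instance {r : ℕ} (p q : Fin r → ℕ) : Decidable (LexLe p q) := by unfold LexLe; infer_instance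

/-- the family `F_s` -/
def FamL (r m : ℕ) (s : Fin r → ℕ) : Finset (Fin m → Fin r) :=
  Finset.univ.filter (fun w => LexLe (sig w) s)

def G0 : Finset (Fin 4 → Fin 3) :=
  Finset.univ.filter (fun w => (∀ i, w i ≠ 1) ∨ (∀ i, w i ≠ 0) ∨ w = ![2, 2, 0, 1])

theorem G0_card : G0.card = 32 := by decide +kernel
theorem G0_sh : (shadow G0).card = 16 := by decide +kernel
theorem F_card : (Fam 3 4 3 0 1).card = 32 := by decide +kernel
theorem F_sh : (shadow (Fam 3 4 3 0 1)).card = 17 := by decide +kernel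
theorem FL_card : (FamL 3 4 ![1, 1, 2]).card = 32 := by decide +kernel
theorem FL_sh : (shadow (FamL 3 4 ![1, 1, 2])).card = 17 := by decide +kernel

end H11.Shad
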