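import Mathlib

namespace Pool.Agent.H11.Simsun

open Finset

abbrev F := ℕ → ℕ → ℕ → ℤ

def nx (f : F) (m j k : ℕ) : ℤ := if k < m then f (m - 1) (j + 1) k else f (m + 1) j (k + 1)

lemma nx_add (f g : F) (m j k : ℕ) : nx (f + g) m j k = nx f m j k + nx g m j k := by
  unfold nx; split_ifs <;> rfl

lemma nx_smul (a : ℤ) (f : F) (m j k : ℕ) : nx (a • f) m j k = a * nx f m j k := by
  unfold nx; split_ifs <;> rfl

lemma nx_mono {f g : F} (h : f ≤ g) (m j k : ℕ) : nx f m j k ≤ nx g m j k := by
  unfold nx; split_ifs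
  · exact h _ _ _
  · exact h _ _ _

lemma nx_congr {f g : F} {D : ℕ} (h : ∀ m j c, m + 2 * j = D + 1 → f m j c = g m j c)
    (m j k : ℕ) (hd : m + 2 * j = D) : nx f m j k = nx g m j k := by
  unfold nx; split_ifs
  · exact h _ _ _ (by omega)
  · exact h _ _ _ (by omega)

/-- sum over the allowed actions -/
def Op (P : ℕ → ℕ → Bool) : F →ₗ[ℤ] F where
  toFun f := fun m j c => ∑ k ∈ range (m + j), if P k c then nx f m j k else 0
  map_add' f g := by
    funext m j c
    simp only [Pi.add_apply, ← Finset.sum_add_distrib, nx_add]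
    refine Finset.sum_congr rfl (fun k _ => ?_)
    split_ifs <;> simp
  map_smul' a f := by
    funext m j c
    simp only [Pi.smul_apply, smul_eq_mul, Finset.mul_sum, nx_smul, RingHom.id_apply]
    refine Finset.sum_congr rfl (fun k _ => ?_)
    split_ifs <;> simp

lemma Op_apply (P : ℕ → ℕ → Bool) (f : F) (m j c : ℕ) :
    Op P f m j c = ∑ k ∈ range (m + j), if P k c then nx f m j k else 0 := rfl

lemma Op_mono (P : ℕ → ℕ → Bool) {f g : F} (h : f ≤ g) : Op P f ≤ Op P g := by
  intro m j c
  simp only [Op_apply]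
  refine Finset.sum_le_sum (fun k _ => ?_)
  split_ifs
  · exact nx_mono h _ _ _
  · exact le_rfl

lemma Op_congr (P : ℕ → ℕ → Bool) {f g : F} {D : ℕ}
    (h : ∀ m j c, m + 2 * j = D + 1 → f m j c = g m j c) :
    ∀ m j c, m + 2 * j = D → Op P f m j c = Op P g m j c := by
  intro m j c hd
  simp only [Op_apply, nx_congr h m j _ hd]

def Asc : F →ₗ[ℤ] F := Op (fun k c => decide (k < c))
def Des : F →ₗ[ℤ] F := Op (fun k c => !decide (k < c))
def All : F →ₗ[ℤ] F := Op (fun _ _ => true)

lemma All_eq (f : F) : All f = Asc f + Des f := by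
  funext m j c
  simp only [All, Asc, Des, Op_apply, Pi.add_apply, ← Finset.sum_add_distrib]
  refine Finset.sum_congr rfl (fun k _ => ?_)
  by_cases h : k < c <;> simp [h]

lemma Op_nonneg (P : ℕ → ℕ → Bool) {f : F} (h : 0 ≤ f) : 0 ≤ Op P f := by
  have := Op_mono P h
  rwa [map_zero] at this

lemma Asc_le {f : F} (h : 0 ≤ f) : Asc f ≤ All f := by
  rw [All_eq]; exact le_add_of_nonneg_right (Op_nonneg _ h)

lemma Des_le {f : F} (h : 0 ≤ f) : Des f ≤ All f := by
  rw [All_eq]; exact le_add_of_nonneg_left (Op_nonneg _ h)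

def ev : F →ₗ[ℤ] ℤ where
  toFun f := f 0 1 0
  map_add' _ _ := rfl
  map_smul' _ _ := rfl

def L : ℕ → F →ₗ[ℤ] ℤ
  | 0 => ev
  | n + 1 => (L n).comp (Des.comp Asc)

def M : ℕ → F →ₗ[ℤ] ℤ
  | 0 => ev
  | n + 1 => (M n).comp All

lemma L_succ (n : ℕ) (f : F) : L (n + 1) f = L n (Des (Asc f)) := rfl
lemma M_succ (n : ℕ) (f : F) : M (n + 1) f = M n (All f) := rfl

lemma M_mono (n : ℕ) : ∀ {f g : F}, f ≤ g → M n f ≤ M n g := by
  induction n with
  | zero => intro f g h; exact h _ _ _
  | succ n ih => intro f g h; exact ih (Op_mono _ h)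

lemma L_le (n : ℕ) : ∀ {f : F}, 0 ≤ f → L n f ≤ M (2 * n) f := by
  induction n with
  | zero => intro f _; exact le_rfl
  | succ n ih =>
    intro f h
    have h1 : 0 ≤ Asc f := Op_nonneg _ h
    calc L (n + 1) f = L n (Des (Asc f)) := rfl
      _ ≤ M (2 * n) (Des (Asc f)) := ih (Op_nonneg _ h1)
      _ ≤ M (2 * n) (All (All f)) := M_mono _ ((Des_le h1).trans (Op_mono _ (Asc_le h)))
      _ = M (2 * (n + 1)) f := rfl

lemma L_congr (n : ℕ) : ∀ {f g : F}, (∀ m j c, m + 2 * j = 2 * n + 2 → f m j c = g m j c) →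
    L n f = L n g := by
  induction n with
  | zero => intro f g h; exact h 0 1 0 rfl
  | succ n ih =>
    intro f g h
    exact ih (Op_congr _ (Op_congr _ (fun m j c hd => h m j c (by omega))))

lemma M_congr (n : ℕ) : ∀ {f g : F}, (∀ m j c, m + 2 * j = n + 2 → f m j c = g m j c) →
    M n f = M n g := by
  induction n with
  | zero => intro f g h; exact h 0 1 0 rfl
  | succ n ih =>
    intro f g h
    exact ih (Op_congr _ (fun m j c hd => h m j c (by omega)))

lemma Asc_zero (f : F) (m j : ℕ) : Asc f m j 0 = 0 := by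
  simp [Asc, Op_apply]

lemma Asc_succ (f : F) (m j c : ℕ) (h : c < m + j) :
    Asc f m j (c + 1) = Asc f m j c + nx f m j c := by
  simp only [Asc, Op_apply, decide_eq_true_eq]
  have : ∀ k ∈ range (m + j), (if k < c + 1 then nx f m j k else 0) =
      (if k < c then nx f m j k else 0) + (if k = c then nx f m j k else 0) := by
    intro k _
    split_ifs <;> first | omega | simp
  rw [Finset.sum_congr rfl this, Finset.sum_add_distrib, Finset.sum_ite_eq']
  simp [h]

lemma All_eq_Asc (f : F) (m j c : ℕ) : All f m j c = Asc f m j (m + j) := by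
  simp only [All, Asc, Op_apply, decide_eq_true_eq, if_true]
  exact Finset.sum_congr rfl (fun k hk => by rw [if_pos (Finset.mem_range.mp hk)])

lemma L_rec (n : ℕ) : ∀ f : F, L (n + 1) f =
    ∑ t ∈ range (n + 1), (-1) ^ t * L (n - t) (All (Asc^[2 * t + 1] f)) := by
  have key : ∀ n f, L (n + 1) f = L n (All (Asc f)) - L n (Asc (Asc f)) := by
    intro n f
    rw [L_succ, All_eq, map_add]; ring
  induction n with
  | zero =>
    intro f
    rw [key]
    have : L 0 (Asc (Asc f)) = 0 := Asc_zero _ _ _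
    simp [this]
  | succ n ih =>
    intro f
    rw [key, ih (Asc (Asc f)), Finset.sum_range_succ' _ (n + 1)]
    simp only [pow_zero, one_mul, Nat.sub_zero, mul_zero, zero_add, Function.iterate_one]
    rw [sub_eq_neg_add, ← Finset.sum_neg_distrib]
    congr 1
    refine Finset.sum_congr rfl (fun t _ => ?_)
    have e1 : n + 1 - (t + 1) = n - t := by omega
    have e2 : Asc^[2 * (t + 1) + 1] f = Asc^[2 * t + 1] (Asc (Asc f)) := by
      rw [show 2 * (t + 1) + 1 = (2 * t + 1) + 1 + 1 by ring, Function.iterate_succ_apply,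
        Function.iterate_succ_apply]
    rw [e1, e2]; ring

def dl (i : ℕ) : F := fun _ j _ => if j = i then 1 else 0

lemma closed (i k : ℕ) :
    (∀ m j c, c ≤ m → Asc^[k] (dl i) m j c = if j + k = i then (c.choose k : ℤ) else 0) ∧
    ∀ m j d, d ≤ j → Asc^[k] (dl i) m j (m + d) =
      if j ≤ i ∧ i ≤ j + k then
        ((d.choose (j + k - i) * (m + (j + k - i)).choose (i - j) : ℕ) : ℤ) else 0 := by
  induction k with
  | zero =>
    constructor
    · intro m j c _; simp [dl]
    · intro m j d _
      by_cases h : j = i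
      · subst h; simp [dl]
      · rw [if_neg (by omega)]; simp [dl, h]
  | succ k ih =>
    have h1 : ∀ m j c, c ≤ m →
        Asc^[k + 1] (dl i) m j c = if j + (k + 1) = i then (c.choose (k + 1) : ℤ) else 0 := by
      intro m j c
      rw [Function.iterate_succ_apply']
      induction c with
      | zero => intro _; rw [Asc_zero]; simp
      | succ c ihc =>
        intro hc
        rw [Asc_succ _ _ _ _ (by omega), ihc (by omega), nx, if_pos (show c < m by omega),
          ih.1 _ _ _ (by omega)]
        by_cases h : j + (k + 1) = i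
        · rw [if_pos h, if_pos h, if_pos (by omega), Nat.choose_succ_succ']
          push_cast; ring
        · rw [if_neg h, if_neg h, if_neg (by omega)]; simp
    refine ⟨h1, fun m j d => ?_⟩
    induction d with
    | zero =>
      intro _
      rw [h1 m j _ (by omega)]
      by_cases h : j + (k + 1) = i
      · rw [if_pos h, if_pos (by omega), show j + (k + 1) - i = 0 by omega,
          show i - j = k + 1 by omega]
        simp
      · rw [if_neg h]
        split_ifs with h2
        · rw [Nat.choose_eq_zero_of_lt (by omega)]; simp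
        · rfl
    | succ d ihd =>
      intro hd
      have e := ihd (by omega)
      rw [Function.iterate_succ_apply'] at e ⊢
      rw [← add_assoc, Asc_succ _ _ _ _ (by omega), e, nx, if_neg (show ¬ m + d < m by omega),
        show m + d + 1 = (m + 1) + d by ring, ih.2 _ _ _ (by omega)]
      by_cases h : j ≤ i ∧ i ≤ j + k
      · rw [if_pos h, if_pos (by omega), if_pos (by omega),
          show j + (k + 1) - i = (j + k - i) + 1 by omega, Nat.choose_succ_succ',
          show m + 1 + (j + k - i) = m + (j + k - i + 1) by ring]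
        push_cast; ring
      · rw [if_neg h]
        split_ifs with h2
        · rw [show j + (k + 1) - i = 0 by omega]; simp
        · simp

def coef (N i r j : ℕ) : ℤ :=
  if i ≤ j + 2 * r then ((j.choose (j + 2 * r - i) * (2 * N - j - i).choose (i - j) : ℕ) : ℤ) else 0

lemma L_dl_rec (n i : ℕ) : L (n + 1) (dl i) =
    ∑ t ∈ range (n + 1), (-1) ^ t *
      ∑ j ∈ range (i + 1), coef (n + 2) i (t + 1) j * L (n - t) (dl j) := by
  rw [L_rec]
  refine Finset.sum_congr rfl (fun t ht => ?_)
  have ht' := Finset.mem_range.mp ht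
  congr 1
  have : ∑ j ∈ range (i + 1), coef (n + 2) i (t + 1) j * L (n - t) (dl j) =
      L (n - t) (∑ j ∈ range (i + 1), coef (n + 2) i (t + 1) j • dl j) := by
    rw [map_sum]
    exact Finset.sum_congr rfl (fun j _ => by rw [map_smul, smul_eq_mul])
  rw [this]
  refine L_congr _ (fun m j c hd => ?_)
  rw [All_eq_Asc, ← Function.iterate_succ_apply' Asc, (closed i _).2 m j j le_rfl]
  simp only [Finset.sum_apply, Pi.smul_apply, dl, smul_eq_mul, mul_ite, mul_one, mul_zero,
    Finset.sum_ite_eq, Finset.mem_range, coef, Nat.succ_eq_add_one]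
  by_cases h1 : j ≤ i
  · rw [if_pos (show j < i + 1 by omega)]
    by_cases h2 : i ≤ j + 2 * (t + 1)
    · rw [if_pos h2, if_pos (by omega), show j + (2 * t + 1 + 1) - i = j + 2 * (t + 1) - i by omega,
        show m + (j + 2 * (t + 1) - i) = 2 * (n + 2) - j - i by omega]
    · rw [if_neg h2, if_neg (by omega)]
  · rw [if_neg (by omega), if_neg (by omega)]

lemma coef_zero {N i r j : ℕ} (h : i < 2 * r) : coef N i r j = 0 := by
  unfold coef
  rw [if_pos (by omega), Nat.choose_eq_zero_of_lt (by omega)]; simp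

lemma L_big (n i : ℕ) (h : n + 1 < i) : L n (dl i) = 0 := by
  rw [← map_zero (L n)]
  refine L_congr _ (fun m j c hd => ?_)
  simp only [dl, Pi.zero_apply]
  rw [if_neg (by omega)]

lemma L_small (n i : ℕ) (h : i < 2) : L (n + 1) (dl i) = 0 := by
  rw [L_dl_rec]
  refine Finset.sum_eq_zero (fun t _ => ?_)
  rw [Finset.sum_eq_zero (fun j _ => by rw [coef_zero (by omega), zero_mul]), mul_zero]

lemma L_zero (j : ℕ) : L 0 (dl j) = if 1 = j then 1 else 0 := rfl

lemma L_two (n : ℕ) : L (n + 1) (dl 2) = 1 := by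
  induction n with
  | zero =>
    rw [L_dl_rec]
    simp [Finset.sum_range_succ, L_zero, coef]
  | succ n ih =>
    rw [L_dl_rec, Finset.sum_range_succ', Finset.sum_eq_zero (fun t _ => by
      rw [Finset.sum_eq_zero (fun j _ => by rw [coef_zero (by omega), zero_mul]), mul_zero])]
    simp only [Finset.sum_range_succ, Nat.sub_zero, L_small n 0 (by omega), L_small n 1 (by omega),
      ih]
    simp [coef]

lemma b_eq (b : ℕ → ℕ → ℤ) (h2 : ∀ n : ℕ, 2 ≤ n → b 2 n = 1)
    (h0 : ∀ i n : ℕ, ¬ (2 ≤ i ∧ i ≤ n) → b i n = 0)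
    (hr : ∀ i n : ℕ, 3 ≤ i → i ≤ n →
        b i n = ∑ k ∈ Finset.range (i + 1),
          ((Nat.choose (2 * n - 2 * i + k) k : ℕ) : ℤ) *
            ∑ r ∈ Finset.Icc 1 (i / 2),
              (-1 : ℤ) ^ (r - 1) * ((Nat.choose (i - k) (i - 2 * r) : ℕ) : ℤ) * b (i - k) (n - r)) :
    ∀ n i, b i (n + 2) = L (n + 1) (dl i) := by
  intro n
  induction n using Nat.strong_induction_on with
  | _ n ih =>
  intro i
  by_cases c1 : i < 2
  · rw [h0 _ _ (by omega), L_small _ _ c1]
  by_cases c2 : n + 2 < i
  · rw [h0 _ _ (by omega), L_big _ _ c2]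
  by_cases c3 : i = 2
  · subst c3; rw [h2 _ (by omega), L_two]
  rw [hr i (n + 2) (by omega) (by omega), L_dl_rec]
  simp only [Finset.mul_sum]
  rw [Finset.sum_comm (s := range (n + 1)), ← Finset.sum_range_reflect]
  refine Finset.sum_congr rfl (fun j hj => ?_)
  have hj' := Finset.mem_range.mp hj
  have hsub : range (i / 2) ⊆ range (n + 1) := Finset.range_mono (by omega)
  rw [← Finset.sum_subset hsub (fun t _ ht => by
    rw [coef_zero (by simp only [Finset.mem_range] at ht; omega)]; simp)]
  rw [← Finset.Ico_add_one_right_eq_Icc, Finset.sum_Ico_eq_sum_range, Nat.add_sub_cancel]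
  refine Finset.sum_congr rfl (fun t ht => ?_)
  have ht' := Finset.mem_range.mp ht
  rw [show i + 1 - 1 - j = i - j by omega, show i - (i - j) = j by omega,
    show 1 + t - 1 = t by omega, show n + 2 - (1 + t) = (n - t - 1) + 2 by omega,
    ih (n - t - 1) (by omega), show n - t - 1 + 1 = n - t by omega,
    show 2 * (n + 2) - 2 * i + (i - j) = 2 * (n + 2) - j - i by omega, coef]
  by_cases h : i ≤ j + 2 * (t + 1)
  · rw [if_pos h, ← Nat.choose_symm (show i - 2 * (1 + t) ≤ j by omega),
      show j - (i - 2 * (1 + t)) = j + 2 * (t + 1) - i by omega]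
    push_cast; ring
  · rw [if_neg h, Nat.choose_eq_zero_of_lt (show j < i - 2 * (1 + t) by omega)]
    simp

lemma a_eq (a : ℕ → ℕ → ℤ) (h1 : a 1 2 = 1) (h0 : ∀ n : ℕ, 1 < n → a 0 n = 0)
    (hz : ∀ i n : ℕ, n < 2 * i → a i n = 0)
    (hr : ∀ i n : ℕ, 1 ≤ i → 1 ≤ n →
        a i (n + 1) = (i : ℤ) * a i n + ((n : ℤ) - 2 * (i : ℤ) + 2) * a (i - 1) n) :
    ∀ n i, a i (n + 2) = M n (dl i) := by
  have hAll : ∀ i m j c, All (dl i) m j c =
      m * (if j + 1 = i then 1 else 0) + j * (if j = i then 1 else 0) := by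
    intro i m j c
    simp only [All, Op_apply, if_true]
    have e1 : ∑ k ∈ range m, nx (dl i) m j k = ∑ _k ∈ range m, if j + 1 = i then (1 : ℤ) else 0 :=
      Finset.sum_congr rfl (fun k hk => by rw [nx, if_pos (Finset.mem_range.mp hk)]; rfl)
    have e2 : ∑ k ∈ range j, nx (dl i) m j (m + k) = ∑ _k ∈ range j, if j = i then (1 : ℤ) else 0 :=
      Finset.sum_congr rfl (fun k _ => by rw [nx, if_neg (show ¬ m + k < m by omega)]; rfl)
    rw [Finset.sum_range_add, e1, e2]
    simp
  intro n
  induction n with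
  | zero =>
    intro i
    show a i 2 = if 1 = i then 1 else 0
    split_ifs with h
    · rw [← h, h1]
    · by_cases h' : i = 0
      · rw [h', h0 _ (by omega)]
      · exact hz _ _ (by omega)
  | succ n ih =>
    intro i
    rw [M_succ]
    cases i with
    | zero =>
      rw [h0 _ (by omega), ← map_zero (M n)]
      refine M_congr _ (fun m j c _ => ?_)
      rw [hAll]
      by_cases h : j = 0 <;> simp [h]
    | succ i =>
      rw [show n + 1 + 2 = (n + 2) + 1 by ring, hr _ _ (by omega) (by omega), ih, Nat.add_sub_cancel,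
        ih, ← smul_eq_mul, ← smul_eq_mul, ← map_smul, ← map_smul, ← map_add]
      refine M_congr _ (fun m j c hd => ?_)
      rw [hAll]
      simp only [Pi.add_apply, Pi.smul_apply, dl, smul_eq_mul]
      by_cases e1 : j = i
      · subst e1
        simp only [if_true]
        rw [if_neg (by omega)]
        push_cast
        have : (m : ℤ) + 2 * j = n + 2 := by exact_mod_cast hd
        linarith
      · by_cases e2 : j = i + 1
        · subst e2; simp
        · simp [e1, e2]

end Pool.Agent.H11.Simsun
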