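import Mathlib

namespace Pool.Agent.H11.Split

open Finsupp

variable (F : Type) [Field F]

/-- the first summand -/
def V1 : Submodule F (ℕ →₀ F) where
  carrier := {x | ∀ n, x (2 * n) + x (2 * n + 1) = 0}
  add_mem' := fun {x y} hx hy n => by
    simp only [coe_add, Pi.add_apply]; linear_combination hx n + hy n
  zero_mem' := fun n => by simp
  smul_mem' := fun a x hx n => by
    simp only [coe_smul, Pi.smul_apply, smul_eq_mul]; linear_combination a * hx n

/-- the second summand -/
def V2 : Submodule F (ℕ →₀ F) where
  carrier := {x | x 1 = 0 ∧ ∀ n, x (2 * n + 3) = x (2 * n) + x (2 * n + 1)}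
  add_mem' := fun {x y} hx hy => by
    simp only [Set.mem_setOf_eq, coe_add, Pi.add_apply]
    exact ⟨by linear_combination hx.1 + hy.1, fun n => by linear_combination hx.2 n + hy.2 n⟩
  zero_mem' := by simp
  smul_mem' := fun a x hx => by
    simp only [Set.mem_setOf_eq, coe_smul, Pi.smul_apply, smul_eq_mul]
    exact ⟨by linear_combination a * hx.1, fun n => by linear_combination a * hx.2 n⟩

noncomputable def d (n : ℕ) : ℕ →₀ F := single (2 * n) 1 - single (2 * n + 1) 1

noncomputable def v (n : ℕ) : ℕ →₀ F :=
  single (2 * n) 1 - single (2 * n + 2) 1 + single (2 * n + 3) 1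

lemma d_mem (m : ℕ) : d F m ∈ V1 F := by
  intro n
  simp only [d, coe_sub, Pi.sub_apply, single_apply]
  split_ifs <;> first | omega | simp

lemma v_mem (m : ℕ) : v F m ∈ V2 F := by
  constructor
  · simp only [v, coe_add, coe_sub, Pi.add_apply, Pi.sub_apply, single_apply]
    split_ifs <;> first | omega | simp
  · intro n
    simp only [v, coe_add, coe_sub, Pi.add_apply, Pi.sub_apply, single_apply]
    split_ifs <;> first | omega | simp

lemma compl : IsCompl (V1 F) (V2 F) := by
  constructor
  · rw [Submodule.disjoint_def]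
    intro x a h2
    obtain ⟨b0, b⟩ := h2
    have odd : ∀ n, x (2 * n + 1) = 0 := by
      intro n
      cases n with
      | zero => exact b0
      | succ n => exact (b n).trans (a n)
    ext k
    rcases Nat.even_or_odd' k with ⟨m, rfl | rfl⟩
    · have := a m
      rw [odd m] at this
      simpa using this
    · exact odd m
  · rw [codisjoint_iff, eq_top_iff, ← (Finsupp.basisSingleOne (ι := ℕ) (R := F)).span_eq,
      Submodule.span_le]
    rintro _ ⟨k, rfl⟩
    have he : ∀ m, single (2 * m) (1 : F) ∈ V1 F ⊔ V2 F := by
      intro m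
      have : single (2 * m) (1 : F) = d F (m + 1) + v F m := by
        simp only [d, v, show 2 * (m + 1) = 2 * m + 2 by ring]
        abel
      rw [this]
      exact Submodule.add_mem_sup (d_mem F _) (v_mem F _)
    rw [Finsupp.coe_basisSingleOne]
    rcases Nat.even_or_odd' k with ⟨m, rfl | rfl⟩
    · exact he m
    · have : single (2 * m + 1) (1 : F) = single (2 * m) 1 - d F m := by
        simp only [d]; abel
      show single (2 * m + 1) (1 : F) ∈ V1 F ⊔ V2 F
      rw [this]
      exact Submodule.sub_mem _ (he m) (Submodule.mem_sup_left (d_mem F m))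

lemma no_split (S : Set ℕ)
    (h1 : IsCompl (V1 F) (Submodule.span F ((fun k => single k (1 : F)) '' S)))
    (h2 : IsCompl (V2 F) (Submodule.span F ((fun k => single k (1 : F)) '' Sᶜ))) : False := by
  rw [← Finsupp.supported_eq_span_single] at h1 h2
  have hS : ∀ n, 2 * n ∈ S ∨ 2 * n + 1 ∈ S := by
    intro n
    by_contra hc
    push Not at hc
    have : single (2 * n) (1 : F) ∈ V1 F ⊔ supported F F S := by
      rw [h1.sup_eq_top]; trivial
    obtain ⟨a, ha, b, hb, hab⟩ := Submodule.mem_sup.mp this
    have e1 := DFunLike.congr_fun hab (2 * n)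
    have e2 := DFunLike.congr_fun hab (2 * n + 1)
    rw [mem_supported'] at hb
    simp only [coe_add, Pi.add_apply, hb _ hc.1, hb _ hc.2, single_apply] at e1 e2
    rw [if_neg (by omega)] at e2
    have := ha n
    simp only [if_true] at e1
    have h01 : (1 : F) = 0 := by linear_combination this - e1 - e2
    exact one_ne_zero h01
  have : d F 0 ∈ V2 F ⊔ supported F F Sᶜ := by
    rw [h2.sup_eq_top]; trivial
  obtain ⟨y, hy, z, hz, hyz⟩ := Submodule.mem_sup.mp this
  rw [mem_supported'] at hz
  have e : ∀ k, y k + z k = d F 0 k := fun k => DFunLike.congr_fun hyz k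
  have key : ∀ n, z (2 * n + 1) ≠ 0 → z (2 * n) = 0 := by
    intro n hn
    rcases hS n with h | h
    · exact hz _ (fun h' => h' h)
    · exact absurd (hz _ (fun h' => h' h)) hn
  have hone : ∀ n, y (2 * n + 3) = 1 := by
    intro n
    induction n with
    | zero =>
      have e0 := e 0
      have e1 := e 1
      simp only [d, coe_sub, Pi.sub_apply, single_apply] at e0 e1
      norm_num at e0 e1
      have hy1 := hy.1
      have z0 := key 0 (by
        intro h
        have h' : z 1 = 0 := h
        have : (1 : F) = 0 := by linear_combination e1 - hy1 - h'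
        exact one_ne_zero this)
      have z0' : z 0 = 0 := z0
      have := hy.2 0
      simp only [mul_zero, zero_add] at this ⊢
      linear_combination this + e0 - z0' + hy1
    | succ n ih =>
      have e0 := e (2 * (n + 1))
      have e1 := e (2 * (n + 1) + 1)
      simp only [d, coe_sub, Pi.sub_apply, single_apply] at e0 e1
      rw [if_neg (by omega), if_neg (by omega)] at e0 e1
      have ih' : y (2 * (n + 1) + 1) = 1 := ih
      have z0 := key (n + 1) (by
        intro h
        have : (1 : F) = 0 := by linear_combination e1 - ih' - h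
        exact one_ne_zero this)
      have := hy.2 (n + 1)
      linear_combination this + e0 - z0 + ih'
  have hm : 2 * (y.support.sup id) + 3 ∈ y.support := by
    rw [mem_support_iff, hone]; exact one_ne_zero
  have := Finset.le_sup (f := id) hm
  simp only [id] at this
  omega

theorem main : ∃ W1 W2 : Submodule F (ℕ →₀ F),
    (∀ x, x ∈ W1 ↔ ∀ n, x (2 * n) + x (2 * n + 1) = 0) ∧
    (∀ x, x ∈ W2 ↔ x 1 = 0 ∧ ∀ n, x (2 * n + 3) = x (2 * n) + x (2 * n + 1)) ∧
    IsCompl W1 W2 ∧
    ∀ S : Set ℕ, ¬ (IsCompl W1 (Submodule.span F ((fun k => single k (1 : F)) '' S)) ∧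
      IsCompl W2 (Submodule.span F ((fun k => single k (1 : F)) '' Sᶜ))) :=
  ⟨V1 F, V2 F, fun _ => Iff.rfl, fun _ => Iff.rfl, compl F, fun S h => no_split F S h.1 h.2⟩

end Pool.Agent.H11.Split
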