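import Mathlib

namespace H11.Str
open Finset

/-- twice the signed area of the ordered triple -/
def det (a b c : ℝ × ℝ) : ℝ := (b.1 - a.1) * (c.2 - a.2) - (b.2 - a.2) * (c.1 - a.1)

/-- orientation of an ordered triple -/
noncomputable def orient (a b c : ℝ × ℝ) : SignType := SignType.sign (det a b c)

/-- `c` lies above the (non-vertical) line through `a` and `b` -/
def Above (a b c : ℝ × ℝ) : Prop := a.2 + (b.2 - a.2) / (b.1 - a.1) * (c.1 - a.1) < c.2

/-- `S` has the order type of `STRETCH(T)` for `T = g '' S`; `h p` is the new height of `g p`. -/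
def Stretched (S : Finset (ℝ × ℝ)) : Prop :=
  ∃ (g : ℝ × ℝ → ℝ × ℝ) (h : ℝ × ℝ → ℝ),
    (∀ a ∈ S, ∀ b ∈ S, (g a).1 = (g b).1 → a = b) ∧
    (∀ a ∈ S, ∀ b ∈ S, (g a).2 = (g b).2 → a = b) ∧
    (∀ a ∈ S, ∀ c ∈ S, (g a).2 < (g c).2 → h a < h c) ∧
    (∀ a ∈ S, ∀ b ∈ S, ∀ c ∈ S, a ≠ b → (g a).2 < (g c).2 → (g b).2 < (g c).2 →
      Above ((g a).1, h a) ((g b).1, h b) ((g c).1, h c)) ∧
    ∀ a ∈ S, ∀ b ∈ S, ∀ c ∈ S,
      orient a b c = orient ((g a).1, h a) ((g b).1, h b) ((g c).1, h c)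

lemma det_cyc (a b c : ℝ × ℝ) : det b c a = det a b c := by unfold det; ring
lemma det_swap (a b c : ℝ × ℝ) : det b a c = - det a b c := by unfold det; ring
lemma det_four (a b c q : ℝ × ℝ) : det a b c = det a b q + det b c q + det c a q := by
  unfold det; ring
lemma det_self (a c : ℝ × ℝ) : det a a c = 0 := by unfold det; ring

lemma above_pos {a b c : ℝ × ℝ} (h : a.1 < b.1) : Above a b c ↔ 0 < det a b c := by
  unfold Above det
  have h1 : 0 < b.1 - a.1 := by linarith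
  rw [← sub_pos, show c.2 - (a.2 + (b.2 - a.2) / (b.1 - a.1) * (c.1 - a.1))
    = ((b.1 - a.1) * (c.2 - a.2) - (b.2 - a.2) * (c.1 - a.1)) / (b.1 - a.1) by
      field_simp; ring, div_pos_iff_of_pos_right h1]

lemma above_neg {a b c : ℝ × ℝ} (h : b.1 < a.1) : Above a b c ↔ det a b c < 0 := by
  unfold Above det
  have h1 : 0 < a.1 - b.1 := by linarith
  have h2 : b.1 - a.1 ≠ 0 := by linarith
  rw [← sub_pos, show c.2 - (a.2 + (b.2 - a.2) / (b.1 - a.1) * (c.1 - a.1))
    = (-((b.1 - a.1) * (c.2 - a.2) - (b.2 - a.2) * (c.1 - a.1))) / (a.1 - b.1) by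
      field_simp; ring, div_pos_iff_of_pos_right h1]
  constructor <;> intro <;> linarith

/-- small obstruction to `q` being the top point -/
def Bad (q : ℝ × ℝ) (B : Finset (ℝ × ℝ)) : Prop :=
  q ∉ B ∧ B.card ≤ 6 ∧
  ((∃ a ∈ insert q B, ∃ b ∈ insert q B, ∃ c ∈ insert q B, a ≠ b ∧ a ≠ c ∧ b ≠ c ∧ det a b c = 0) ∨
   (∃ a ∈ B, ∃ b ∈ B, ∃ c ∈ B, 0 < det a b q ∧ 0 < det b c q ∧ 0 < det c a q) ∨
   (B.Nonempty ∧ ∀ p ∈ B, ∃ a ∈ B, ∃ b ∈ B, 0 < det a b q ∧ det a b p < 0))

lemma nec {S : Finset (ℝ × ℝ)} (hS : Stretched S) (hne : S.Nonempty) :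
    ∃ q ∈ S, ∀ B ⊆ S, ¬ Bad q B := by
  obtain ⟨g, h, gx, gy, -, hab, hor⟩ := hS
  -- basic fact
  have pos : ∀ a ∈ S, ∀ b ∈ S, ∀ c ∈ S, (g a).1 < (g b).1 → (g a).2 < (g c).2 →
      (g b).2 < (g c).2 → 0 < det a b c := by
    intro a ha b hb c hc h1 h2 h3
    have hne : a ≠ b := fun e => by rw [e] at h1; exact lt_irrefl _ h1
    have := (above_pos (a := ((g a).1, h a)) (b := ((g b).1, h b)) h1).1
      (hab a ha b hb c hc hne h2 h3)
    have o := hor a ha b hb c hc
    unfold orient at o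
    rw [sign_pos this] at o
    exact sign_eq_one_iff.1 o
  have xlt : ∀ a ∈ S, ∀ b ∈ S, ∀ c ∈ S, (g a).2 < (g c).2 → (g b).2 < (g c).2 →
      0 ≤ det a b c → a ≠ b → (g a).1 < (g b).1 := by
    intro a ha b hb c hc h2 h3 h4 hne
    rcases lt_trichotomy (g a).1 (g b).1 with h1 | h1 | h1
    · exact h1
    · exact absurd (gx a ha b hb h1) hne
    · have := pos b hb a ha c hc h1 h3 h2
      rw [det_swap] at this; linarith
  have nz : ∀ a ∈ S, ∀ b ∈ S, ∀ c ∈ S, (g a).2 < (g c).2 → (g b).2 < (g c).2 → a ≠ b →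
      det a b c ≠ 0 := by
    intro a ha b hb c hc h2 h3 hne h0
    exact (pos a ha b hb c hc (xlt a ha b hb c hc h2 h3 h0.ge hne) h2 h3).ne' h0
  obtain ⟨q, hq, hmax⟩ := S.exists_max_image (fun p => (g p).2) hne
  refine ⟨q, hq, fun B hB ⟨hqB, _, hbad⟩ => ?_⟩
  have top : ∀ a ∈ B, (g a).2 < (g q).2 := fun a ha =>
    lt_of_le_of_ne (hmax a (hB ha)) fun e => hqB (gy a (hB ha) q hq e ▸ ha)
  have dne : ∀ a b c : ℝ × ℝ, det a b c ≠ 0 → a ≠ b := fun a b c h0 e => h0 (e ▸ det_self a c)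
  rcases hbad with ⟨a, ha, b, hb, c, hc, h1, h2, h3, h0⟩ | ⟨a, ha, b, hb, c, hc, h1, h2, h3⟩ |
    ⟨hBne, hst⟩
  · have sub : insert q B ⊆ S := insert_subset hq hB
    have ha := sub ha; have hb := sub hb; have hc := sub hc
    have n1 : (g a).2 ≠ (g b).2 := fun e => h1 (gy a ha b hb e)
    have n2 : (g a).2 ≠ (g c).2 := fun e => h2 (gy a ha c hc e)
    have n3 : (g b).2 ≠ (g c).2 := fun e => h3 (gy b hb c hc e)
    rcases lt_or_gt_of_ne n1 with l1 | l1 <;> rcases lt_or_gt_of_ne n2 with l2 | l2 <;>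
      rcases lt_or_gt_of_ne n3 with l3 | l3
    · exact nz a ha b hb c hc l2 l3 h1 h0
    · exact nz c hc a ha b hb l3 l1 h2.symm (by rw [← det_cyc]; exact h0)
    · linarith
    · exact nz c hc a ha b hb l3 l1 h2.symm (by rw [← det_cyc]; exact h0)
    · exact nz a ha b hb c hc l2 l3 h1 h0
    · linarith
    · exact nz b hb c hc a ha l1 l2 h3 (by rw [det_cyc]; exact h0)
    · exact nz b hb c hc a ha l1 l2 h3 (by rw [det_cyc]; exact h0)
  · have e1 := xlt a (hB ha) b (hB hb) q hq (top a ha) (top b hb) h1.le (dne _ _ _ h1.ne')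
    have e2 := xlt b (hB hb) c (hB hc) q hq (top b hb) (top c hc) h2.le (dne _ _ _ h2.ne')
    have e3 := xlt c (hB hc) a (hB ha) q hq (top c hc) (top a ha) h3.le (dne _ _ _ h3.ne')
    linarith
  · obtain ⟨p, hp, hpm⟩ := B.exists_max_image (fun p => (g p).2) hBne
    obtain ⟨a, ha, b, hb, h1, h2⟩ := hst p hp
    have e1 := xlt a (hB ha) b (hB hb) q hq (top a ha) (top b hb) h1.le (dne _ _ _ h1.ne')
    have n1 : a ≠ p := by
      intro e; rw [e, ← det_cyc, ← det_cyc, det_self] at h2; exact lt_irrefl _ h2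
    have n2 : b ≠ p := by
      intro e; rw [e, ← det_cyc, det_self] at h2; exact lt_irrefl _ h2
    have := pos a (hB ha) b (hB hb) p (hB hp) e1
      (lt_of_le_of_ne (hpm a ha) fun e => n1 (gy a (hB ha) p (hB hp) e))
      (lt_of_le_of_ne (hpm b hb) fun e => n2 (gy b (hB hb) p (hB hp) e))
    linarith

lemma heights (S : Finset (ℝ × ℝ)) (x : ℝ × ℝ → ℝ)
    (free : ∀ B ⊆ S, B.Nonempty → ∃ p ∈ B, ∀ a ∈ B, ∀ b ∈ B, a ≠ p → b ≠ p → x a < x b →
      0 < det a b p) :
    ∀ B ⊆ S, ∃ h : ℝ × ℝ → ℝ, (∀ a ∈ B, ∀ b ∈ B, h a = h b → a = b) ∧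
      ∀ a ∈ B, ∀ b ∈ B, ∀ c ∈ B, x a < x b → h a < h c → h b < h c →
        0 < det a b c ∧ 0 < det (x a, h a) (x b, h b) (x c, h c) := by
  classical
  intro B
  induction B using Finset.strongInduction with
  | H B ih =>
    intro hB
    rcases B.eq_empty_or_nonempty with rfl | hne
    · exact ⟨fun _ => 0, by simp, by simp⟩
    obtain ⟨p, hp, hfree⟩ := free B hB hne
    obtain ⟨h, hinj, hh⟩ := ih (B.erase p) (erase_ssubset hp) ((erase_subset _ _).trans hB)
    obtain ⟨Y1, hY1⟩ := (B.image h).bddAbove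
    obtain ⟨Y2, hY2⟩ := ((B ×ˢ B).image fun e : (ℝ × ℝ) × (ℝ × ℝ) =>
      h e.1 + (h e.2 - h e.1) / (x e.2 - x e.1) * (x p - x e.1)).bddAbove
    set Y := max Y1 Y2 + 1 with hY
    have y1 : ∀ a ∈ B, h a < Y := fun a ha =>
      lt_of_le_of_lt (hY1 (mem_coe.2 (mem_image_of_mem _ ha))) (by
        have := le_max_left Y1 Y2; linarith)
    have y2 : ∀ a ∈ B, ∀ b ∈ B, h a + (h b - h a) / (x b - x a) * (x p - x a) < Y :=
      fun a ha b hb => lt_of_le_of_lt (hY2 (mem_coe.2 (mem_image.2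
        ⟨(a, b), mem_product.2 ⟨ha, hb⟩, rfl⟩))) (by have := le_max_right Y1 Y2; linarith)
    refine ⟨fun a => if a = p then Y else h a, ?_, ?_⟩
    · intro a ha b hb e
      dsimp only at e
      by_cases c1 : a = p <;> by_cases c2 : b = p
      · rw [c1, c2]
      · rw [if_pos c1, if_neg c2] at e; exact absurd e (y1 b hb).ne'
      · rw [if_neg c1, if_pos c2] at e; exact absurd e (y1 a ha).ne
      · rw [if_neg c1, if_neg c2] at e
        exact hinj a (mem_erase.2 ⟨c1, ha⟩) b (mem_erase.2 ⟨c2, hb⟩) e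
    · intro a ha b hb c hc hx h1 h2
      dsimp only at h1 h2 ⊢
      have le : (if c = p then Y else h c) ≤ Y := by
        split_ifs; exacts [le_rfl, (y1 c hc).le]
      have c1 : a ≠ p := fun e => by rw [if_pos e] at h1; linarith
      have c2 : b ≠ p := fun e => by rw [if_pos e] at h2; linarith
      rw [if_neg c1] at h1 ⊢
      rw [if_neg c2] at h2 ⊢
      by_cases c3 : c = p
      · rw [if_pos c3, c3]
        exact ⟨hfree a ha b hb c1 c2 hx,
          (above_pos (a := (x a, h a)) (b := (x b, h b)) (c := (x p, Y)) hx).1 (y2 a ha b hb)⟩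
      · rw [if_neg c3] at h1 h2 ⊢
        exact hh a (mem_erase.2 ⟨c1, ha⟩) b (mem_erase.2 ⟨c2, hb⟩) c (mem_erase.2 ⟨c3, hc⟩) hx h1 h2

lemma build (S : Finset (ℝ × ℝ)) (x : ℝ × ℝ → ℝ) (hx : ∀ a ∈ S, ∀ b ∈ S, x a = x b → a = b)
    (free : ∀ B ⊆ S, B.Nonempty → ∃ p ∈ B, ∀ a ∈ B, ∀ b ∈ B, a ≠ p → b ≠ p → x a < x b →
      0 < det a b p) : Stretched S := by
  obtain ⟨h, hinj, hh⟩ := heights S x free S Subset.rfl
  have key : ∀ a ∈ S, ∀ b ∈ S, ∀ c ∈ S, h a < h c → h b < h c →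
      orient a b c = orient (x a, h a) (x b, h b) (x c, h c) := by
    intro a ha b hb c hc h1 h2
    unfold orient
    rcases lt_trichotomy (x a) (x b) with l | l | l
    · obtain ⟨p1, p2⟩ := hh a ha b hb c hc l h1 h2
      rw [sign_pos p1, sign_pos p2]
    · rw [hx a ha b hb l, det_self, det_self]
    · obtain ⟨p1, p2⟩ := hh b hb a ha c hc l h2 h1
      rw [det_swap] at p1 p2
      rw [sign_neg (by linarith), sign_neg (by linarith)]
  have cyc : ∀ a b c, orient b c a = orient a b c := fun a b c => by unfold orient; rw [det_cyc]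
  have slf : ∀ a c, orient a a c = 0 := fun a c => by unfold orient; rw [det_self, sign_zero]
  refine ⟨fun a => (x a, h a), h, hx, hinj, fun _ _ _ _ l => l, ?_, ?_⟩
  · intro a ha b hb c hc hne h1 h2
    rcases lt_trichotomy (x a) (x b) with l | l | l
    · exact (above_pos (a := (x a, h a)) (b := (x b, h b)) l).2 (hh a ha b hb c hc l h1 h2).2
    · exact absurd (hx a ha b hb l) hne
    · have := (hh b hb a ha c hc l h2 h1).2
      rw [det_swap] at this
      exact (above_neg (a := (x a, h a)) (b := (x b, h b)) l).2 (by linarith)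
  · intro a ha b hb c hc
    dsimp only
    by_cases n1 : a = b
    · rw [n1, slf, slf]
    by_cases n2 : a = c
    · rw [n2, cyc, slf, cyc, slf]
    by_cases n3 : b = c
    · rw [n3, ← cyc, slf, ← cyc, slf]
    have m1 : h a ≠ h b := fun e => n1 (hinj a ha b hb e)
    have m2 : h a ≠ h c := fun e => n2 (hinj a ha c hc e)
    have m3 : h b ≠ h c := fun e => n3 (hinj b hb c hc e)
    rcases lt_or_gt_of_ne m1 with l1 | l1 <;> rcases lt_or_gt_of_ne m2 with l2 | l2 <;>
      rcases lt_or_gt_of_ne m3 with l3 | l3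
    · exact key a ha b hb c hc l2 l3
    · rw [cyc c a b, cyc (x c, h c)]; exact key c hc a ha b hb l3 l1
    · linarith
    · rw [cyc c a b, cyc (x c, h c)]; exact key c hc a ha b hb l3 l1
    · exact key a ha b hb c hc l2 l3
    · linarith
    · rw [← cyc a b c, ← cyc (x a, h a)]; exact key b hb c hc a ha l1 l2
    · rw [← cyc a b c, ← cyc (x a, h a)]; exact key b hb c hc a ha l1 l2

lemma suff {S : Finset (ℝ × ℝ)} {q : ℝ × ℝ} (hq : q ∈ S) (hb : ∀ B ⊆ S, ¬ Bad q B) :
    Stretched S := by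
  classical
  have gp : ∀ a ∈ S, ∀ b ∈ S, ∀ c ∈ S, a ≠ b → a ≠ c → b ≠ c → det a b c ≠ 0 := by
    intro a ha b hb' c hc h1 h2 h3 h0
    refine hb (({a, b, c} : Finset _).erase q) ?_ ⟨notMem_erase _ _, ?_, Or.inl ⟨a, ?_, b, ?_, c, ?_,
      h1, h2, h3, h0⟩⟩
    · refine (erase_subset _ _).trans ?_
      intro z hz; simp only [mem_insert, mem_singleton] at hz
      rcases hz with rfl | rfl | rfl <;> assumption
    · exact (card_erase_le).trans (card_le_three.trans (by norm_num))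
    all_goals (simp only [mem_insert, mem_erase, mem_singleton]; tauto)
  have dq1 : ∀ a b, 0 < det a b q → a ≠ q := fun a b h e => by
    rw [e, ← det_cyc, ← det_cyc, det_self] at h; exact lt_irrefl _ h
  have dq2 : ∀ a b, 0 < det a b q → b ≠ q := fun a b h e => by
    rw [e, ← det_cyc, det_self] at h; exact lt_irrefl _ h
  have tr : ∀ a ∈ S, ∀ b ∈ S, ∀ c ∈ S, 0 < det a b q → 0 < det b c q → 0 < det a c q := by
    intro a ha b hb' c hc h1 h2
    by_contra h3
    have hac : a ≠ c := fun e => by rw [← e, det_swap] at h2; linarith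
    have h4 := gp a ha c hc q hq hac (dq1 _ _ h1) (dq2 _ _ h2)
    have h5 : 0 < det c a q := by
      rw [det_swap]; rcases lt_or_gt_of_ne h4 with l | l
      · linarith
      · exact absurd l h3
    refine hb {a, b, c} ?_ ⟨?_, card_le_three.trans (by norm_num), Or.inr (Or.inl
      ⟨a, by simp, b, by simp, c, by simp, h1, h2, h5⟩)⟩
    · intro z hz; simp only [mem_insert, mem_singleton] at hz
      rcases hz with rfl | rfl | rfl <;> assumption
    · simp only [mem_insert, mem_singleton, not_or]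
      exact ⟨(dq1 _ _ h1).symm, (dq2 _ _ h1).symm, (dq2 _ _ h2).symm⟩
  set x : ℝ × ℝ → ℝ := fun p => if p = q then -1 else ((S.filter fun a => 0 < det a p q).card : ℝ)
    with hxdef
  have mono : ∀ a ∈ S, ∀ b ∈ S, 0 < det a b q → x a < x b := by
    intro a ha b hb' h
    simp only [hxdef, if_neg (dq1 _ _ h), if_neg (dq2 _ _ h)]
    have : (S.filter fun z => 0 < det z a q) ⊂ (S.filter fun z => 0 < det z b q) := by
      refine ⟨fun z hz => ?_, fun hsub => ?_⟩
      · rw [mem_filter] at hz ⊢; exact ⟨hz.1, tr z hz.1 a ha b hb' hz.2 h⟩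
      · have := hsub (mem_filter.2 ⟨ha, h⟩)
        rw [mem_filter, det_self] at this; exact lt_irrefl _ this.2
    exact_mod_cast card_lt_card this
  have conv : ∀ a ∈ S, ∀ b ∈ S, a ≠ q → b ≠ q → a ≠ b → x a ≤ x b → 0 < det a b q := by
    intro a ha b hb' h1 h2 h3 h4
    rcases lt_or_gt_of_ne (gp a ha b hb' q hq h3 h1 h2) with l | l
    · have := mono b hb' a ha (by rw [det_swap]; linarith); linarith
    · exact l
  refine build S x ?_ ?_
  · intro a ha b hb' e
    by_contra hne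
    by_cases c1 : a = q
    · have c2 : b ≠ q := fun e2 => hne (c1.trans e2.symm)
      simp only [hxdef, if_pos c1, if_neg c2] at e
      have : (0:ℝ) ≤ ((S.filter fun a => 0 < det a b q).card : ℝ) := Nat.cast_nonneg _
      linarith
    by_cases c2 : b = q
    · simp only [hxdef, if_pos c2, if_neg c1] at e
      have : (0:ℝ) ≤ ((S.filter fun z => 0 < det z a q).card : ℝ) := Nat.cast_nonneg _
      linarith
    exact (mono a ha b hb' (conv a ha b hb' c1 c2 hne e.le)).ne e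
  · intro B hB hne
    by_cases hqB : q ∈ B
    · exact ⟨q, hqB, fun a ha b hb' h1 h2 h3 => conv a (hB ha) b (hB hb') h1 h2
        (fun e => by rw [e] at h3; exact lt_irrefl _ h3) h3.le⟩
    have nq : ∀ a ∈ B, a ≠ q := fun a ha e => hqB (e ▸ ha)
    by_contra hcon
    push Not at hcon
    have wit : ∀ p ∈ B, ∃ a ∈ B, ∃ b ∈ B, 0 < det a b q ∧ det a b p < 0 ∧ a ≠ b := by
      intro p hp
      obtain ⟨a, ha, b, hb', h1, h2, h3, h4⟩ := hcon p hp
      have hab : a ≠ b := fun e => by rw [e] at h3; exact lt_irrefl _ h3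
      exact ⟨a, ha, b, hb', conv a (hB ha) b (hB hb') (nq a ha) (nq b hb') hab h3.le,
        lt_of_le_of_ne h4 (gp a (hB ha) b (hB hb') p (hB hp) hab h1 h2), hab⟩
    obtain ⟨a, ha, hmin⟩ := B.exists_min_image x hne
    have left : ∀ p ∈ B, p ≠ a → 0 < det a p q := fun p hp h =>
      conv a (hB ha) p (hB hp) (nq a ha) (nq p hp) h.symm (hmin p hp)
    obtain ⟨a1, ha1, a2, ha2, w1, w2, w3⟩ := wit a ha
    have hne2 : (B.erase a).Nonempty := by
      by_cases c : a1 = a
      · exact ⟨a2, mem_erase.2 ⟨fun e => w3 (c.trans e.symm), ha2⟩⟩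
      · exact ⟨a1, mem_erase.2 ⟨c, ha1⟩⟩
    obtain ⟨t, ht, hmax⟩ := (B.erase a).exists_max_image
      (fun p => ((p.1 - a.1) * (q.1 - a.1) + (p.2 - a.2) * (q.2 - a.2)) / det a p q) hne2
    have hta := (mem_erase.1 ht).1
    have htB := (mem_erase.1 ht).2
    have below : ∀ p ∈ B, p ≠ a → p ≠ t → det a t p < 0 := by
      intro p hp h1 h2
      have m := hmax p (mem_erase.2 ⟨h1, hp⟩)
      have l1 := left p hp h1
      have l2 := left t htB hta
      rw [div_le_div_iff₀ l1 l2] at m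
      have id : det a t p * ((q.1 - a.1)^2 + (q.2 - a.2)^2)
          = ((p.1 - a.1) * (q.1 - a.1) + (p.2 - a.2) * (q.2 - a.2)) * det a t q
            - ((t.1 - a.1) * (q.1 - a.1) + (t.2 - a.2) * (q.2 - a.2)) * det a p q := by
        unfold det; ring
      have nz := gp a (hB ha) t (hB htB) p (hB hp) hta.symm h1.symm h2.symm
      rcases lt_or_gt_of_ne nz with l | l
      · exact l
      · exfalso
        have hs : 0 < (q.1 - a.1)^2 + (q.2 - a.2)^2 := by
          by_contra h0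
          have e1 : q.1 - a.1 = 0 := by nlinarith [sq_nonneg (q.1 - a.1), sq_nonneg (q.2 - a.2)]
          have e2 : q.2 - a.2 = 0 := by nlinarith [sq_nonneg (q.1 - a.1), sq_nonneg (q.2 - a.2)]
          exact nq a ha (Prod.ext (by linarith) (by linarith))
        have := mul_pos l hs
        linarith
    obtain ⟨t1, ht1, t2, ht2, v1, v2, -⟩ := wit t htB
    have sub : ({a, t, a1, a2, t1, t2} : Finset (ℝ × ℝ)) ⊆ B := by
      intro z hz; simp only [mem_insert, mem_singleton] at hz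
      rcases hz with rfl | rfl | rfl | rfl | rfl | rfl <;> assumption
    refine hb {a, t, a1, a2, t1, t2} (sub.trans hB) ⟨fun h => hqB (sub h), card_le_six,
      Or.inr (Or.inr ⟨by simp, fun p hp => ?_⟩)⟩
    by_cases c1 : p = a
    · exact ⟨a1, by simp, a2, by simp, w1, c1 ▸ w2⟩
    by_cases c2 : p = t
    · exact ⟨t1, by simp, t2, by simp, v1, c2 ▸ v2⟩
    exact ⟨a, by simp, t, by simp, left t htB hta, below p (sub hp) c1 c2⟩

end H11.Str
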