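import Pool.Agent.H11.StrD

namespace H11.StrC
open Pool.Agent.H5.CanR

def vo (k a b : ℕ) : ℕ := 3 + 400 * k + 20 * a + b
def cd (a b c : ℕ) : ℕ := 1603 + 400 * a + 20 * b + c
def vp (a b c : ℕ) : ℕ :=
  if a ≤ b ∧ a ≤ c then cd a b c else if b ≤ c ∧ b ≤ a then cd b c a else cd c a b

section
variable (o : ℕ → ℕ → ℝ) (P : ℕ → ℕ → ℕ → Prop) (s : ℕ → Prop)

def val (v : ℕ) : Prop :=
  if v < 3 then s v
  else if v < 1603 then o ((v - 3) / 400) ((v - 3) / 20 % 20) < o ((v - 3) / 400) ((v - 3) % 20)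
  else P ((v - 1603) / 400) ((v - 1603) / 20 % 20) ((v - 1603) % 20)

def L (l : ℕ) : Prop := 2 ≤ l ∧ if l % 2 = 0 then val o P s (l / 2) else ¬ val o P s (l / 2)

theorem good : Good (L o P s) := by
  refine ⟨fun h => by have := h.1; omega, fun h => by have := h.1; omega, fun l h1 h2 => ?_⟩
  have e1 : (l ^^^ 1) / 2 = l / 2 := by simp [Nat.xor_div_two]
  have e2 : (l ^^^ 1) % 2 = (l + 1) % 2 := by simp [Nat.xor_mod_two_eq]
  obtain ⟨-, h1⟩ := h1
  obtain ⟨-, h2⟩ := h2
  rw [e1, e2] at h2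
  by_cases h : l % 2 = 0
  · rw [if_pos h] at h1; rw [if_neg (by omega)] at h2; exact h2 h1
  · rw [if_neg h] at h1; rw [if_pos (by omega)] at h2; exact h1 h2

theorem Lp {v : ℕ} (hv : 1 ≤ v) : L o P s (2 * v) ↔ val o P s v := by
  unfold L
  rw [if_pos (by omega), show 2 * v / 2 = v by omega]
  exact ⟨fun h => h.2, fun h => ⟨by omega, h⟩⟩

theorem Ln {v : ℕ} (hv : 1 ≤ v) : L o P s (2 * v + 1) ↔ ¬ val o P s v := by
  unfold L
  rw [if_neg (by omega), show (2 * v + 1) / 2 = v by omega]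
  exact ⟨fun h => h.2, fun h => ⟨by omega, h⟩⟩

theorem valo {k a b : ℕ} (hk : k < 4) (ha : a < 20) (hb : b < 20) :
    val o P s (vo k a b) ↔ o k a < o k b := by
  unfold val vo
  rw [if_neg (by omega), if_pos (by omega), show (3 + 400 * k + 20 * a + b - 3) / 400 = k by omega,
    show (3 + 400 * k + 20 * a + b - 3) / 20 % 20 = a by omega,
    show (3 + 400 * k + 20 * a + b - 3) % 20 = b by omega]

theorem valc {a b c : ℕ} (hb : b < 20) (hc : c < 20) : val o P s (cd a b c) ↔ P a b c := by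
  unfold val cd
  rw [if_neg (by omega), if_neg (by omega),
    show (1603 + 400 * a + 20 * b + c - 1603) / 400 = a by omega,
    show (1603 + 400 * a + 20 * b + c - 1603) / 20 % 20 = b by omega,
    show (1603 + 400 * a + 20 * b + c - 1603) % 20 = c by omega]

theorem valp (cyc : ∀ a b c, P a b c → P b c a) {a b c : ℕ} (ha : a < 20) (hb : b < 20)
    (hc : c < 20) : val o P s (vp a b c) ↔ P a b c := by
  unfold vp
  split_ifs
  · exact valc o P s hb hc
  · rw [valc o P s hc ha]; exact ⟨fun h => cyc _ _ _ (cyc _ _ _ h), cyc _ _ _⟩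
  · rw [valc o P s ha hb]; exact ⟨cyc _ _ _, fun h => cyc _ _ _ (cyc _ _ _ h)⟩

theorem vals {v : ℕ} (hv : v < 3) : val o P s v ↔ s v := by unfold val; rw [if_pos hv]

end

theorem vo1 (k a b : ℕ) : 1 ≤ vo k a b := by unfold vo; omega
theorem vp1 (a b c : ℕ) : 1 ≤ vp a b c := by unfold vp cd; split_ifs <;> omega

def m (c l : ℕ) : Bool := (List.range 8).any fun k => sl c k == l

def mk (t a b c d : ℕ) : List ℕ :=
  if t = 0 then [2 * vo a b c + 1, 2 * vo a c b + 1]
  else if t = 1 then [2 * vo a b d + 1, 2 * vo a b c, 2 * vo a c d]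
  else if t = 2 then [2 * vo a c d + 1, 2 * vo b c d, 2 * vo b d c]
  else if t = 3 then [2 * vo 1 a c + 1, 2 * vo 1 b c + 1, 2 * vo 0 a b + 1, 2 * vp a b c]
  else if t = 4 then [2 * vp a b c + 1, 2 * vp b a c + 1]
  else if t = 5 then [2 * vp b c (2 * a - 2) + 1, 2 * vo a b d + 1, 2 * vo a c d + 1, 2 * vp b c d]
  else if t = 6 then [2 * vo 1 0 a + 1]
  else if t = 7 then [2 * vo a (2 * a - 2) b + 1]
  else if t = 8 then [2 * vo 0 b (2 * a - 2) + 1, 2 * vo 1 b (2 * a - 2) + 1]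
  else if t = 9 then [2 * vo 1 (b + 1) b]
  else if t = 10 then [2 * vo 0 a (a + 1)]
  else if t = 13 then [2 * a + 1, 2 * vp (6 * a - 1 + b) (6 * a - 1 + (b + 1) % 3) (2 * a - 1)]
  else if t = 14 then
    (if b = 0 then [2 * a, 2 * vp (6 * a + 1) (6 * a + 2) (2 * a - 1)]
     else if b = 1 then [2 * a, 2 * vp (6 * a + 2) (6 * a + 1) (6 * a - 1)]
     else if b = 2 then [2 * a, 2 * vp (6 * a + 3) (6 * a + 4) (2 * a - 1)]
     else if b = 3 then [2 * a, 2 * vp (6 * a + 4) (6 * a + 3) (6 * a)]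
     else [2 * a, 2 * vp (6 * a - 1) (6 * a) (2 * a - 1)])
  else if t = 15 then [2 * a, if c = 0 then 2 * vo 1 b (6 * a - 1) + 1 else 2 * vo 1 (6 * a - 1) b + 1,
    if d = 0 then 2 * vo 1 b (6 * a) + 1 else 2 * vo 1 (6 * a) b + 1, 2 * vp (6 * a) (6 * a - 1) b]
  else [2 * vp a b c + 1, 2 * vo 1 a b, 2 * vo 1 b a]

def gd (t a b : ℕ) : Bool :=
  if t ≤ 1 then decide (a < 4)
  else if t = 2 then decide (a < 4) && decide (b < 4)
  else if t = 5 ∨ t = 7 ∨ t = 8 then (a == 2 || a == 3)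
  else if t = 9 then decide (b < 4)
  else if t = 10 then (a == 1 || a == 3)
  else if t = 13 then (a == 1 || a == 2) && decide (b < 3)
  else if t = 14 then (a == 1 || a == 2)
  else if t = 15 then (a == 1 || a == 2) && decide (6 * a + 1 ≤ b) && decide (b ≤ 6 * a + 4)
  else true

def ok' (cl t a b c d : ℕ) : Bool :=
  decide (a < 20) && decide (b < 20) && decide (c < 20) && decide (d < 20) && gd t a b &&
    (mk t a b c d).all (m cl)

def ok (c p : ℕ) : Bool :=
  ok' c (p % 32) (p / 32 % 32) (p / 1024 % 32) (p / 32768 % 32) (p / 1048576 % 32)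

theorem chk : allR (fun i => ok (StrD.db.get i) (StrD.par.get i)) 11 0 1675 = true := by
  decide +kernel

theorem core (o : ℕ → ℕ → ℝ) (P : ℕ → ℕ → ℕ → Prop) (s : ℕ → Prop)
    (cyc : ∀ a b c, P a b c → P b c a)
    (h2 : ∀ k l a b, o k a < o k b → o l a < o l b ∨ o l b < o l a)
    (h3 : ∀ a b c, o 1 a < o 1 c → o 1 b < o 1 c → o 0 a < o 0 b → P a b c)
    (h4 : ∀ a b c, P a b c → ¬ P b a c)
    (h5 : ∀ k, k = 2 ∨ k = 3 → ∀ a b c, P a b (2 * k - 2) → o k a < o k c → o k b < o k c →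
      P a b c)
    (h6 : ∀ a, ¬ o 1 0 < o 1 a)
    (h7 : ∀ k, k = 2 ∨ k = 3 → ∀ a, ¬ o k (2 * k - 2) < o k a)
    (h8 : ∀ k, k = 2 ∨ k = 3 → ∀ a, o 0 a < o 0 (2 * k - 2) → ¬ o 1 a < o 1 (2 * k - 2))
    (h9 : ∀ b < 4, o 1 (b + 1) < o 1 b)
    (h10 : ∀ a, a = 1 ∨ a = 3 → o 0 a < o 0 (a + 1))
    (h13 : ∀ a, a = 1 ∨ a = 2 → s a → ∀ b < 3,
      P (6 * a - 1 + b) (6 * a - 1 + (b + 1) % 3) (2 * a - 1))
    (h14 : ∀ a, a = 1 ∨ a = 2 → ¬ s a → P (6 * a + 1) (6 * a + 2) (2 * a - 1) ∧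
      P (6 * a + 2) (6 * a + 1) (6 * a - 1) ∧ P (6 * a + 3) (6 * a + 4) (2 * a - 1) ∧
      P (6 * a + 4) (6 * a + 3) (6 * a) ∧ P (6 * a - 1) (6 * a) (2 * a - 1) ∧
      ∀ b, 6 * a + 1 ≤ b → b ≤ 6 * a + 4 → o 1 b ≠ o 1 (6 * a - 1) → o 1 b ≠ o 1 (6 * a) →
        P (6 * a) (6 * a - 1) b)
    (h16 : ∀ a b c, P a b c → o 1 a < o 1 b ∨ o 1 b < o 1 a) : False := by
  refine StrD.unsat (L o P s) (good o P s) fun i hi => ?_
  have := allR_sound chk (by norm_num) i (by omega) hi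
  unfold ok at this
  generalize StrD.db.get i = cl at this ⊢
  generalize StrD.par.get i % 32 = t at this
  generalize StrD.par.get i / 32 % 32 = a at this
  generalize StrD.par.get i / 1024 % 32 = b at this
  generalize StrD.par.get i / 32768 % 32 = c at this
  generalize StrD.par.get i / 1048576 % 32 = d at this
  unfold ok' at this
  simp only [Bool.and_eq_true, decide_eq_true_eq, List.all_eq_true] at this
  obtain ⟨⟨⟨⟨⟨ha, hb⟩, hc⟩, hd⟩, hg⟩, hm⟩ := this
  suffices h : ∃ l ∈ mk t a b c d, L o P s l by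
    obtain ⟨l, h1, h2⟩ := h
    have := hm l h1
    simp only [m, List.any_eq_true, beq_iff_eq] at this
    obtain ⟨k, -, e⟩ := this
    exact ⟨k, e ▸ h2⟩
  clear hm
  by_contra hcon
  simp only [not_exists, not_and] at hcon
  have po : ∀ k a b, k < 4 → a < 20 → b < 20 → 2 * vo k a b ∈ mk t a b c d ∨ True := by simp
  clear po
  have O1 : ∀ k x y, 2 * vo k x y ∈ mk t a b c d → k < 4 → x < 20 → y < 20 → ¬ o k x < o k y :=
    fun k x y h h1 h2 h3 => by
      have := hcon _ h; rwa [Lp o P s (vo1 _ _ _), valo o P s h1 h2 h3] at this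
  have O2 : ∀ k x y, 2 * vo k x y + 1 ∈ mk t a b c d → k < 4 → x < 20 → y < 20 → o k x < o k y :=
    fun k x y h h1 h2 h3 => by
      have := hcon _ h; rwa [Ln o P s (vo1 _ _ _), valo o P s h1 h2 h3, not_not] at this
  have P1 : ∀ x y z, 2 * vp x y z ∈ mk t a b c d → x < 20 → y < 20 → z < 20 → ¬ P x y z :=
    fun x y z h h1 h2 h3 => by
      have := hcon _ h; rwa [Lp o P s (vp1 _ _ _), valp o P s cyc h1 h2 h3] at this
  have P2 : ∀ x y z, 2 * vp x y z + 1 ∈ mk t a b c d → x < 20 → y < 20 → z < 20 → P x y z :=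
    fun x y z h h1 h2 h3 => by
      have := hcon _ h; rwa [Ln o P s (vp1 _ _ _), valp o P s cyc h1 h2 h3, not_not] at this
  have S1 : ∀ x, 2 * x ∈ mk t a b c d → 1 ≤ x → x < 3 → ¬ s x :=
    fun x h h1 h2 => by have := hcon _ h; rwa [Lp o P s h1, vals o P s h2] at this
  have S2 : ∀ x, 2 * x + 1 ∈ mk t a b c d → 1 ≤ x → x < 3 → s x :=
    fun x h h1 h2 => by have := hcon _ h; rwa [Ln o P s h1, vals o P s h2, not_not] at this
  clear hcon
  unfold gd at hg
  by_cases t0 : t = 0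
  · subst t0
    simp at hg
    exact lt_asymm (O2 a b c (by simp [mk]) hg hb hc) (O2 a c b (by simp [mk]) hg hc hb)
  by_cases t1 : t = 1
  · subst t1
    simp at hg
    have q1 := O2 a b d (by simp [mk]) hg hb hd
    have q2 := O1 a b c (by simp [mk]) hg hb hc
    have q3 := O1 a c d (by simp [mk]) hg hc hd
    push Not at q2 q3; linarith
  by_cases t2 : t = 2
  · subst t2
    simp at hg
    rcases h2 a b c d (O2 a c d (by simp [mk]) hg.1 hc hd) with h | h
    · exact O1 b c d (by simp [mk]) hg.2 hc hd h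
    · exact O1 b d c (by simp [mk]) hg.2 hd hc h
  by_cases t3 : t = 3
  · subst t3
    exact P1 a b c (by simp [mk]) ha hb hc (h3 a b c (O2 1 a c (by simp [mk]) (by omega) ha hc)
      (O2 1 b c (by simp [mk]) (by omega) hb hc) (O2 0 a b (by simp [mk]) (by omega) ha hb))
  by_cases t4 : t = 4
  · subst t4
    exact h4 a b c (P2 a b c (by simp [mk]) ha hb hc) (P2 b a c (by simp [mk]) hb ha hc)
  by_cases t5 : t = 5
  · subst t5
    simp at hg
    exact P1 b c d (by simp [mk]) hb hc hd (h5 a hg b c d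
      (P2 b c (2 * a - 2) (by simp [mk]) hb hc (by omega))
      (O2 a b d (by simp [mk]) (by omega) hb hd) (O2 a c d (by simp [mk]) (by omega) hc hd))
  by_cases t6 : t = 6
  · subst t6
    exact h6 a (O2 1 0 a (by simp [mk]) (by omega) (by omega) ha)
  by_cases t7 : t = 7
  · subst t7
    simp at hg
    exact h7 a hg b (O2 a (2 * a - 2) b (by simp [mk]) (by omega) (by omega) hb)
  by_cases t8 : t = 8
  · subst t8
    simp at hg
    exact h8 a hg b (O2 0 b (2 * a - 2) (by simp [mk]) (by omega) hb (by omega))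
      (O2 1 b (2 * a - 2) (by simp [mk]) (by omega) hb (by omega))
  by_cases t9 : t = 9
  · subst t9
    simp at hg
    exact O1 1 (b + 1) b (by simp [mk]) (by omega) (by omega) hb (h9 b hg)
  by_cases t10 : t = 10
  · subst t10
    simp at hg
    exact O1 0 a (a + 1) (by simp [mk]) (by omega) ha (by omega) (h10 a hg)
  by_cases t13 : t = 13
  · subst t13
    simp at hg
    exact P1 (6 * a - 1 + b) (6 * a - 1 + (b + 1) % 3) (2 * a - 1) (by simp [mk]) (by omega)
      (by omega) (by omega) (h13 a hg.1 (S2 a (by simp [mk]) (by omega) (by omega)) b hg.2)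
  by_cases t14 : t = 14
  · subst t14
    simp at hg
    have hs : ¬ s a := S1 a (by simp only [mk]; simp; split_ifs <;> simp) (by omega) (by omega)
    obtain ⟨q0, q1, q2, q3, q4, -⟩ := h14 a hg hs
    by_cases b0 : b = 0
    · exact P1 _ _ _ (by simp [mk, b0]) (by omega) (by omega) (by omega) q0
    by_cases b1 : b = 1
    · exact P1 _ _ _ (by simp [mk, b1]) (by omega) (by omega) (by omega) q1
    by_cases b2 : b = 2
    · exact P1 _ _ _ (by simp [mk, b2]) (by omega) (by omega) (by omega) q2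
    by_cases b3 : b = 3
    · exact P1 _ _ _ (by simp [mk, b3]) (by omega) (by omega) (by omega) q3
    · exact P1 _ _ _ (by simp [mk, b0, b1, b2, b3]) (by omega) (by omega) (by omega) q4
  by_cases t15 : t = 15
  · subst t15
    simp at hg
    have hs : ¬ s a := S1 a (by simp [mk]) (by omega) (by omega)
    obtain ⟨-, -, -, -, -, q⟩ := h14 a hg.1.1 hs
    refine P1 _ _ _ (by simp [mk]) (by omega) (by omega) hb (q b hg.1.2 hg.2 ?_ ?_)
    · by_cases c0 : c = 0
      · exact (O2 1 b (6 * a - 1) (by simp [mk, c0]) (by omega) hb (by omega)).ne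
      · exact (O2 1 (6 * a - 1) b (by simp [mk, c0]) (by omega) (by omega) hb).ne'
    · by_cases c0 : d = 0
      · exact (O2 1 b (6 * a) (by simp [mk, c0]) (by omega) hb (by omega)).ne
      · exact (O2 1 (6 * a) b (by simp [mk, c0]) (by omega) (by omega) hb).ne'
  · have e : mk t a b c d = [2 * vp a b c + 1, 2 * vo 1 a b, 2 * vo 1 b a] := by
      simp [mk, t0, t1, t2, t3, t4, t5, t6, t7, t8, t9, t10, t13, t14, t15]
    rcases h16 a b c (P2 a b c (by simp [e]) ha hb hc) with h | h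
    · exact O1 1 a b (by simp [e]) (by omega) ha hb h
    · exact O1 1 b a (by simp [e]) (by omega) hb ha h

end H11.StrC
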