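import Pool.Agent.H11.StrC
import Pool.Agent.H11.Str1

namespace H11.StrK
open Finset H11.Str

def TriD {α : Type*} (D : α → α → α → Prop) (q : α) (r : ℕ → α) : Prop :=
  D (r 0) (r 1) q ∧ D (r 1) (r 2) q ∧ D (r 2) (r 0) q

def StkD {α : Type*} (D : α → α → α → Prop) (q : α) (r : ℕ → α) : Prop :=
  D (r 2) (r 3) q ∧ D (r 3) (r 2) (r 0) ∧ D (r 4) (r 5) q ∧ D (r 5) (r 4) (r 1) ∧
    D (r 0) (r 1) q ∧ ∀ i, 2 ≤ i → i ≤ 5 → r i ≠ r 0 → r i ≠ r 1 → D (r 1) (r 0) (r i)

def BlkD {α : Type*} (D : α → α → α → Prop) (q : α) (r : ℕ → α) : Prop := TriD D q r ∨ StkD D q r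

lemma blk_swap {α : Type*} {D : α → α → α → Prop} {q : α} {r : ℕ → α} (h : BlkD D q r) :
    ∃ r' : ℕ → α, (∀ i < 6, ∃ j < 6, r' i = r j) ∧ BlkD (fun a b c => D b a c) q r' := by
  rcases h with ⟨h1, h2, h3⟩ | ⟨h1, h2, h3, h4, h5, h6⟩
  · refine ⟨fun i => if i = 0 then r 1 else if i = 1 then r 0 else r 2, fun i _ => ?_,
      Or.inl ⟨h1, h3, h2⟩⟩
    dsimp only; split_ifs
    exacts [⟨1, by omega, rfl⟩, ⟨0, by omega, rfl⟩, ⟨2, by omega, rfl⟩]
  · refine ⟨fun i => if i = 0 then r 1 else if i = 1 then r 0 else r (7 - i), fun i hi => ?_,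
      Or.inr ⟨by simpa using h3, by simpa using h4, by simpa using h1, by simpa using h2, h5,
        fun i a b c d => ?_⟩⟩
    · dsimp only; split_ifs
      exacts [⟨1, by omega, rfl⟩, ⟨0, by omega, rfl⟩, ⟨7 - i, by omega, rfl⟩]
    · simp only [if_neg (show i ≠ 0 by omega), if_neg (show i ≠ 1 by omega)] at c d ⊢
      exact h6 (7 - i) (by omega) (by omega) d c

lemma key {α : Type*} (T : Set α) (D : α → α → α → Prop) (x h hu hv : α → ℝ)
    (q w0 w1 w2 w3 : α) (r0 r2 : ℕ → α)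
    (cyc : ∀ a b c, D a b c → D b c a) (asym : ∀ a b c, D a b c → ¬ D b a c)
    (ix : Set.InjOn x T) (ih : Set.InjOn h T) (iu : Set.InjOn hu T) (iv : Set.InjOn hv T)
    (m0 : q ∈ T) (m1 : w0 ∈ T) (m2 : w1 ∈ T) (m3 : w2 ∈ T) (m4 : w3 ∈ T)
    (m5 : ∀ i < 6, r0 i ∈ T) (m6 : ∀ i < 6, r2 i ∈ T)
    (h3 : ∀ a ∈ T, ∀ b ∈ T, ∀ c ∈ T, h a < h c → h b < h c → x a < x b → D a b c)
    (u5 : ∀ a ∈ T, ∀ b ∈ T, ∀ c ∈ T, D a b w1 → hu a < hu c → hu b < hu c → D a b c)
    (v5 : ∀ a ∈ T, ∀ b ∈ T, ∀ c ∈ T, D a b w3 → hv a < hv c → hv b < hv c → D a b c)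
    (top : ∀ a ∈ T, h a ≤ h q) (utop : ∀ a ∈ T, hu a ≤ hu w1) (vtop : ∀ a ∈ T, hv a ≤ hv w3)
    (lr1 : ∀ a ∈ T, x a < x w1 → ¬ h a < h w1) (lr3 : ∀ a ∈ T, x a < x w3 → ¬ h a < h w3)
    (o0 : h w0 < h q) (o1 : h w1 < h w0) (o2 : h w2 < h w1) (o3 : h w3 < h w2)
    (x0 : x w0 < x w1) (x2 : x w2 < x w3) (B0 : BlkD D w0 r0) (B2 : BlkD D w2 r2) : False := by
  set f : ℕ → α := fun i => if i = 0 then q else if i = 1 then w0 else if i = 2 then w1
    else if i = 3 then w2 else if i = 4 then w3 else if i < 11 then r0 (i - 5)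
    else if i < 17 then r2 (i - 11) else q with hf
  have fm : ∀ i, f i ∈ T := by
    intro i; simp only [hf]; split_ifs <;> first | assumption | exact m5 _ (by omega) | exact m6 _ (by omega)
  set g : ℕ → α → ℝ := fun k => if k = 0 then x else if k = 1 then h else if k = 2 then hu else hv
    with hg
  have gi : ∀ k, Set.InjOn (g k) T := by intro k; simp only [hg]; split_ifs <;> assumption
  have f5 : ∀ i < 6, f (5 + i) = r0 i := by
    intro i hi; simp only [hf]
    rw [if_neg (by omega), if_neg (by omega), if_neg (by omega), if_neg (by omega),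
      if_neg (by omega), if_pos (by omega)]; congr 1; omega
  have f11 : ∀ i < 6, f (11 + i) = r2 i := by
    intro i hi; simp only [hf]
    rw [if_neg (by omega), if_neg (by omega), if_neg (by omega), if_neg (by omega),
      if_neg (by omega), if_neg (by omega), if_pos (by omega)]; congr 1; omega
  refine StrC.core (fun k a => g k (f a)) (fun a b c => D (f a) (f b) (f c))
    (fun a => if a = 1 then TriD D w0 r0 else TriD D w2 r2) (fun a b c => cyc _ _ _)
    ?_ (fun a b c => h3 _ (fm a) _ (fm b) _ (fm c)) (fun a b c => asym _ _ _) ?_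
    (fun a => not_lt.2 (top _ (fm a))) ?_ ?_ ?_ ?_ ?_ ?_ ?_
  · intro k l a b hab
    refine lt_or_gt_of_ne fun e => ?_
    have := gi l (fm a) (fm b) e
    rw [this] at hab; exact lt_irrefl _ hab
  · rintro k (rfl | rfl) a b c
    · exact u5 _ (fm a) _ (fm b) _ (fm c)
    · exact v5 _ (fm a) _ (fm b) _ (fm c)
  · rintro k (rfl | rfl) a
    · exact not_lt.2 (utop _ (fm a))
    · exact not_lt.2 (vtop _ (fm a))
  · rintro k (rfl | rfl) a
    · exact lr1 _ (fm a)
    · exact lr3 _ (fm a)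
  · intro b hb
    interval_cases b
    exacts [o0, o1, o2, o3]
  · rintro a (rfl | rfl)
    exacts [x0, x2]
  · rintro a (rfl | rfl) hs b hb
    · obtain ⟨a1, a2, a3⟩ : TriD D w0 r0 := hs
      interval_cases b
      exacts [a1, a2, a3]
    · obtain ⟨a1, a2, a3⟩ : TriD D w2 r2 := hs
      interval_cases b
      exacts [a1, a2, a3]
  · rintro a (rfl | rfl) hs
    · obtain ⟨a1, a2, a3, a4, a5, a6⟩ := B0.resolve_left hs
      refine ⟨a1, a2, a3, a4, a5, fun b b1 b2 c1 c2 => ?_⟩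
      obtain ⟨i, rfl⟩ : ∃ i, b = 5 + i := ⟨b - 5, by omega⟩
      have e := f5 i (by omega)
      simp only [e] at c1 c2 ⊢
      exact a6 i (by omega) (by omega) (fun e => c1 (by rw [e]; rfl)) (fun e => c2 (by rw [e]; rfl))
    · obtain ⟨a1, a2, a3, a4, a5, a6⟩ := B2.resolve_left hs
      refine ⟨a1, a2, a3, a4, a5, fun b b1 b2 c1 c2 => ?_⟩
      obtain ⟨i, rfl⟩ : ∃ i, b = 11 + i := ⟨b - 11, by omega⟩
      have e := f11 i (by omega)
      simp only [e] at c1 c2 ⊢
      exact a6 i (by omega) (by omega) (fun e => c1 (by rw [e]; rfl)) (fun e => c2 (by rw [e]; rfl))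
  · intro a b c hD
    refine lt_or_gt_of_ne fun e => ?_
    have := ih (fm a) (fm b) e
    rw [this] at hD; exact asym _ _ _ hD hD

/-- no three points are collinear -/
def GenPos (S : Finset (ℝ × ℝ)) : Prop :=
  ∀ a ∈ S, ∀ b ∈ S, ∀ c ∈ S, a ≠ b → a ≠ c → b ≠ c → det a b c ≠ 0

def Pos (a b c : ℝ × ℝ) : Prop := 0 < det a b c

def Unb (K : Finset (ℝ × ℝ)) (q : ℝ × ℝ) : Prop :=
  ∀ r : ℕ → ℝ × ℝ, (∀ i < 6, r i ∈ K) → ¬ BlkD Pos q r

lemma dq1 {a b q : ℝ × ℝ} (h : 0 < det a b q) : a ≠ q := fun e => by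
  rw [e, ← det_cyc, ← det_cyc, det_self] at h; exact lt_irrefl _ h
lemma dq2 {a b q : ℝ × ℝ} (h : 0 < det a b q) : b ≠ q := fun e => by
  rw [e, ← det_cyc, det_self] at h; exact lt_irrefl _ h
lemma dq3 {a b q : ℝ × ℝ} (h : 0 < det a b q) : a ≠ b := fun e => by
  rw [e, det_self] at h; exact lt_irrefl _ h

lemma coords {S : Finset (ℝ × ℝ)} {q : ℝ × ℝ} (gp : GenPos S) (hq : q ∈ S) (hb : Unb S q) :
    ∃ x h : ℝ × ℝ → ℝ, Set.InjOn x S ∧ Set.InjOn h S ∧ (∀ a ∈ S, h a ≤ h q) ∧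
      ∀ a ∈ S, ∀ b ∈ S, ∀ c ∈ S, h a < h c → h b < h c → x a < x b → 0 < det a b c := by
  classical
  have tr : ∀ a ∈ S, ∀ b ∈ S, ∀ c ∈ S, 0 < det a b q → 0 < det b c q → 0 < det a c q := by
    intro a ha b hb' c hc h1 h2
    by_contra h3
    have hac : a ≠ c := fun e => by rw [← e, det_swap] at h2; linarith
    have h4 := gp a ha c hc q hq hac (dq1 h1) (dq2 h2)
    have h5 : 0 < det c a q := by
      rw [det_swap]; rcases lt_or_gt_of_ne h4 with l | l
      · linarith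
      · exact absurd l h3
    refine hb (fun i => if i = 0 then a else if i = 1 then b else c) (fun i _ => ?_)
      (Or.inl ⟨h1, h2, h5⟩)
    split_ifs <;> assumption
  set x : ℝ × ℝ → ℝ := fun p => if p = q then -1 else ((S.filter fun a => 0 < det a p q).card : ℝ)
    with hxdef
  have mono : ∀ a ∈ S, ∀ b ∈ S, 0 < det a b q → x a < x b := by
    intro a ha b hb' h
    simp only [hxdef, if_neg (dq1 h), if_neg (dq2 h)]
    have : (S.filter fun z => 0 < det z a q) ⊂ (S.filter fun z => 0 < det z b q) := by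
      refine ⟨fun z hz => ?_, fun hsub => ?_⟩
      · rw [mem_filter] at hz ⊢; exact ⟨hz.1, tr z hz.1 a ha b hb' hz.2 h⟩
      · have := hsub (mem_filter.2 ⟨ha, h⟩)
        rw [mem_filter, det_self] at this; exact lt_irrefl _ this.2
    exact_mod_cast card_lt_card this
  have conv : ∀ a ∈ S, ∀ b ∈ S, a ≠ q → b ≠ q → a ≠ b → x a ≤ x b → 0 < det a b q := by
    intro a ha b hb' h1 h2 h3 h4
    rcases lt_or_gt_of_ne (gp a ha b hb' q hq h3 h1 h2) with l | l
    · have := mono b hb' a ha (by rw [det_swap]; linarith); linarith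
    · exact l
  have xinj : Set.InjOn x S := by
    intro a ha b hb' e
    by_contra hne
    by_cases c1 : a = q
    · have c2 : b ≠ q := fun e2 => hne (c1.trans e2.symm)
      simp only [hxdef, if_pos c1, if_neg c2] at e
      have : (0:ℝ) ≤ ((S.filter fun a => 0 < det a b q).card : ℝ) := Nat.cast_nonneg _
      linarith
    by_cases c2 : b = q
    · simp only [hxdef, if_pos c2, if_neg c1] at e
      have : (0:ℝ) ≤ ((S.filter fun z => 0 < det z a q).card : ℝ) := Nat.cast_nonneg _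
      linarith
    exact (mono a ha b hb' (conv a ha b hb' c1 c2 hne e.le)).ne e
  have free : ∀ B ⊆ S.erase q, B.Nonempty → ∃ p ∈ B, ∀ a ∈ B, ∀ b ∈ B, a ≠ p → b ≠ p →
      x a < x b → 0 < det a b p := by
    intro B hB' hne
    have hB : B ⊆ S := hB'.trans (erase_subset _ _)
    have nq : ∀ a ∈ B, a ≠ q := fun a ha => (mem_erase.1 (hB' ha)).1
    by_contra hcon
    push Not at hcon
    have wit : ∀ p ∈ B, ∃ a ∈ B, ∃ b ∈ B, 0 < det a b q ∧ 0 < det b a p ∧ a ≠ b := by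
      intro p hp
      obtain ⟨a, ha, b, hb', h1, h2, h3, h4⟩ := hcon p hp
      have hab : a ≠ b := fun e => by rw [e] at h3; exact lt_irrefl _ h3
      have := lt_of_le_of_ne h4 (gp a (hB ha) b (hB hb') p (hB hp) hab h1 h2)
      exact ⟨a, ha, b, hb', conv a (hB ha) b (hB hb') (nq a ha) (nq b hb') hab h3.le,
        by rw [det_swap]; linarith, hab⟩
    obtain ⟨a, ha, hmin⟩ := B.exists_min_image x hne
    have left : ∀ p ∈ B, p ≠ a → 0 < det a p q := fun p hp h =>
      conv a (hB ha) p (hB hp) (nq a ha) (nq p hp) h.symm (hmin p hp)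
    obtain ⟨a1, ha1, a2, ha2, w1, w2, w3⟩ := wit a ha
    have hne2 : (B.erase a).Nonempty := by
      by_cases c : a1 = a
      · exact ⟨a2, mem_erase.2 ⟨fun e => w3 (c.trans e.symm), ha2⟩⟩
      · exact ⟨a1, mem_erase.2 ⟨c, ha1⟩⟩
    obtain ⟨t, ht, hmax⟩ := (B.erase a).exists_max_image
      (fun p => ((p.1 - a.1) * (q.1 - a.1) + (p.2 - a.2) * (q.2 - a.2)) / det a p q) hne2
    have hta := (mem_erase.1 ht).1
    have htB := (mem_erase.1 ht).2
    have below : ∀ p ∈ B, p ≠ a → p ≠ t → 0 < det t a p := by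
      intro p hp h1 h2
      have m := hmax p (mem_erase.2 ⟨h1, hp⟩)
      have l1 := left p hp h1
      have l2 := left t htB hta
      rw [div_le_div_iff₀ l1 l2] at m
      have id : det a t p * ((q.1 - a.1)^2 + (q.2 - a.2)^2)
          = ((p.1 - a.1) * (q.1 - a.1) + (p.2 - a.2) * (q.2 - a.2)) * det a t q
            - ((t.1 - a.1) * (q.1 - a.1) + (t.2 - a.2) * (q.2 - a.2)) * det a p q := by
        unfold det; ring
      have nz := gp a (hB ha) t (hB htB) p (hB hp) hta.symm h1.symm h2.symm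
      rcases lt_or_gt_of_ne nz with l | l
      · rw [det_swap]; linarith
      · exfalso
        have hs : 0 < (q.1 - a.1)^2 + (q.2 - a.2)^2 := by
          by_contra h0
          have e1 : q.1 - a.1 = 0 := by nlinarith [sq_nonneg (q.1 - a.1), sq_nonneg (q.2 - a.2)]
          have e2 : q.2 - a.2 = 0 := by nlinarith [sq_nonneg (q.1 - a.1), sq_nonneg (q.2 - a.2)]
          exact nq a ha (Prod.ext (by linarith) (by linarith))
        have := mul_pos l hs
        linarith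
    obtain ⟨t1, ht1, t2, ht2, v1, v2, -⟩ := wit t htB
    set r : ℕ → ℝ × ℝ := fun i => if i = 0 then a else if i = 1 then t else if i = 2 then a1
      else if i = 3 then a2 else if i = 4 then t1 else t2 with hr
    have rm : ∀ i, r i ∈ B := by intro i; simp only [hr]; split_ifs <;> assumption
    exact hb r (fun i _ => hB (rm i)) (Or.inr ⟨w1, w2, v1, v2, left t htB hta,
      fun i _ _ c1 c2 => below _ (rm i) c1 c2⟩)
  obtain ⟨h, hinj, hh⟩ := heights (S.erase q) x free _ Subset.rfl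
  obtain ⟨Y1, hY1⟩ := (S.image h).bddAbove
  have y1 : ∀ a ∈ S, h a < Y1 + 1 := fun a ha =>
    lt_of_le_of_lt (hY1 (mem_coe.2 (mem_image_of_mem _ ha))) (by linarith)
  refine ⟨x, fun a => if a = q then Y1 + 1 else h a, xinj, ?_, ?_, ?_⟩
  · intro a ha b hb' e
    dsimp only at e
    by_cases c1 : a = q <;> by_cases c2 : b = q
    · rw [c1, c2]
    · rw [if_pos c1, if_neg c2] at e; exact absurd e (y1 b hb').ne'
    · rw [if_neg c1, if_pos c2] at e; exact absurd e (y1 a ha).ne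
    · rw [if_neg c1, if_neg c2] at e
      exact hinj a (mem_erase.2 ⟨c1, ha⟩) b (mem_erase.2 ⟨c2, hb'⟩) e
  · intro a ha
    dsimp only
    rw [if_pos rfl]; split_ifs; exacts [le_rfl, (y1 a ha).le]
  · intro a ha b hb' c hc h1 h2 hx
    dsimp only at h1 h2
    have le : (if c = q then Y1 + 1 else h c) ≤ Y1 + 1 := by
      split_ifs; exacts [le_rfl, (y1 c hc).le]
    have c1 : a ≠ q := fun e => by rw [if_pos e] at h1; linarith
    have c2 : b ≠ q := fun e => by rw [if_pos e] at h2; linarith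
    rw [if_neg c1] at h1
    rw [if_neg c2] at h2
    by_cases c3 : c = q
    · rw [c3]; exact conv a ha b hb' c1 c2 (fun e => by rw [e] at hx; exact lt_irrefl _ hx) hx.le
    · rw [if_neg c3] at h1 h2
      exact (hh a (mem_erase.2 ⟨c1, ha⟩) b (mem_erase.2 ⟨c2, hb'⟩) c (mem_erase.2 ⟨c3, hc⟩)
        hx h1 h2).1

/-- heights seen from the top point -/
lemma coords' {S : Finset (ℝ × ℝ)} {q : ℝ × ℝ} (gp : GenPos S) (hq : q ∈ S) (hb : Unb S q) :
    ∃ h : ℝ × ℝ → ℝ, Set.InjOn h S ∧ (∀ a ∈ S, h a ≤ h q) ∧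
      ∀ a ∈ S, ∀ b ∈ S, ∀ c ∈ S, 0 < det a b q → h a < h c → h b < h c → 0 < det a b c := by
  obtain ⟨x, h, h1, h2, h3, h4⟩ := coords gp hq hb
  refine ⟨h, h2, h3, fun a ha b hb' c hc d1 l1 l2 => h4 a ha b hb' c hc l1 l2 ?_⟩
  rcases lt_trichotomy (x a) (x b) with l | l | l
  · exact l
  · exact absurd (h1 ha hb' l) (dq3 d1)
  · have := h4 b hb' a ha q hq (lt_of_le_of_ne (h3 b hb') fun e => dq2 d1 (h2 hb' hq e))
      (lt_of_le_of_ne (h3 a ha) fun e => dq1 d1 (h2 ha hq e)) l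
    rw [det_swap] at this; linarith

lemma indep {α : Type*} [DecidableEq α] (f : α → Finset α) (hf : ∀ a, (f a).card ≤ 7) (k : ℕ) :
    ∀ S : Finset α, 15 * k ≤ S.card →
      ∃ I ⊆ S, I.card = k ∧ ∀ i ∈ I, ∀ j ∈ I, i ≠ j → i ∉ f j := by
  induction k with
  | zero => intro S _; exact ⟨∅, empty_subset _, rfl, by simp⟩
  | succ k ih =>
    intro S hS
    have hne : S.Nonempty := card_pos.1 (by omega)
    have s1 : ∑ y ∈ S, (S.filter fun j => y ∈ f j).card ≤ ∑ _y ∈ S, 7 := by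
      simp only [card_filter]
      rw [sum_comm]
      refine sum_le_sum fun j _ => ?_
      rw [← card_filter]
      exact (card_le_card fun y hy => (mem_filter.1 hy).2).trans (hf j)
    obtain ⟨y, hy, hy7⟩ := exists_le_of_sum_le hne s1
    set R := insert y (f y ∪ S.filter fun j => y ∈ f j) with hR
    have hRc : R.card ≤ 15 := by
      have a1 := card_insert_le y (f y ∪ S.filter fun j => y ∈ f j)
      have a2 := card_union_le (f y) (S.filter fun j => y ∈ f j)
      have a3 := hf y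
      rw [hR]
      omega
    obtain ⟨I, hI, hc, hind⟩ := ih (S \ R) (by have := le_card_sdiff R S; omega)
    have hyI : y ∉ I := fun h => (mem_sdiff.1 (hI h)).2 (mem_insert_self _ _)
    refine ⟨insert y I, insert_subset hy (hI.trans sdiff_subset), by rw [card_insert_of_notMem hyI, hc],
      fun i hi j hj hij => ?_⟩
    rcases mem_insert.1 hi with e1 | hi' <;> rcases mem_insert.1 hj with e2 | hj'
    · exact absurd (e1.trans e2.symm) hij
    · intro h
      have := mem_sdiff.1 (hI hj')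
      exact this.2 (mem_insert_of_mem (mem_union_right _ (mem_filter.2 ⟨this.1, e1 ▸ h⟩)))
    · intro h
      exact (mem_sdiff.1 (hI hi')).2 (mem_insert_of_mem (mem_union_left _ (e2 ▸ h)))
    · exact hind i hi' j hj' hij

lemma four {α : Type*} (J : Finset α) (hJ : 4 ≤ J.card) (g : α → ℝ) (hg : Set.InjOn g J) :
    ∃ y0 ∈ J, ∃ y1 ∈ J, ∃ y2 ∈ J, ∃ y3 ∈ J, g y1 < g y0 ∧ g y2 < g y1 ∧ g y3 < g y2 := by
  classical
  have h4 : 4 ≤ (J.image g).card := by rwa [card_image_of_injOn hg]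
  have m := fun i => mem_image.1 (orderEmbOfCardLe_mem (J.image g) h4 i)
  obtain ⟨y0, a0, e0⟩ := m 3
  obtain ⟨y1, a1, e1⟩ := m 2
  obtain ⟨y2, a2, e2⟩ := m 1
  obtain ⟨y3, a3, e3⟩ := m 0
  refine ⟨y0, a0, y1, a1, y2, a2, y3, a3, ?_, ?_, ?_⟩
  · rw [e0, e1]; exact (orderEmbOfCardLe _ h4).strictMono (by decide)
  · rw [e1, e2]; exact (orderEmbOfCardLe _ h4).strictMono (by decide)
  · rw [e2, e3]; exact (orderEmbOfCardLe _ h4).strictMono (by decide)

end H11.StrK
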