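import Mathlib

set_option autoImplicit false

namespace H11.Sub

/-- `G` is the nim-sequence of the subtraction game with subtraction set `S`:
`G n` is the least natural number that is not `G (n - s)` for any `s ∈ S`, `s ≤ n`. -/
def IsNimSeq (S : Finset ℕ) (G : ℕ → ℕ) : Prop :=
  ∀ n, IsLeast {m : ℕ | ∀ s ∈ S, s ≤ n → G (n - s) ≠ m} (G n)

/-- the period is `2` and from some point on the values alternate `0,1,0,1,…` -/
def UltBipartite (G : ℕ → ℕ) : Prop :=
  IsLeast {p : ℕ | 1 ≤ p ∧ ∃ n₀, ∀ n, n₀ ≤ n → G (n + p) = G n} 2 ∧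
    ∃ n₀, ∀ m, G (n₀ + 2 * m) = 0 ∧ G (n₀ + 2 * m + 1) = 1

/-- the expansion `S^{ex}` -/
def Sex (G : ℕ → ℕ) : Set ℕ := {s | 0 < s ∧ ∀ n, G (n + s) ≠ G n}

/-- `S^{*p}` -/
def Sstar (S : Finset ℕ) (p : ℕ) : Set ℕ := {t | ∃ s ∈ S, ∃ m, t = s + m * p}

def L : List ℕ := [0, 0, 0, 1, 1, 1, 0, 0, 0, 1, 1, 1, 2, 2, 0, 3, 3, 1, 2, 2, 0, 3, 3, 1, 0, 2]

def G0 (n : ℕ) : ℕ := if n < 26 then L.getD n 0 else n % 2

theorem G0_big (n : ℕ) (h : 26 ≤ n) : G0 n = n % 2 := by
  unfold G0; rw [if_neg (by omega)]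

theorem nim : IsNimSeq {3, 11, 15} G0 := by
  intro n
  have key : (∀ s ∈ ({3, 11, 15} : Finset ℕ), s ≤ n → G0 (n - s) ≠ G0 n) ∧
      ∀ m < G0 n, ∃ s ∈ ({3, 11, 15} : Finset ℕ), s ≤ n ∧ G0 (n - s) = m := by
    by_cases hn : n < 41
    · revert n; decide
    · constructor
      · intro s hs _
        simp only [Finset.mem_insert, Finset.mem_singleton] at hs
        rw [G0_big n (by omega), G0_big (n - s) (by omega)]
        omega
      · intro m hm
        rw [G0_big n (by omega)] at hm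
        refine ⟨3, by simp, by omega, ?_⟩
        rw [G0_big (n - 3) (by omega)]
        omega
  refine ⟨key.1, fun m hm => ?_⟩
  by_contra hlt
  obtain ⟨s, hs, h1, h2⟩ := key.2 m (by omega)
  exact hm s hs h1 h2

theorem ult : UltBipartite G0 := by
  refine ⟨⟨⟨by norm_num, 26, fun n hn => ?_⟩, ?_⟩, 26, fun m => ?_⟩
  · rw [G0_big n hn, G0_big _ (by omega)]; omega
  · rintro p ⟨hp, n₀, h⟩
    by_contra hlt
    have hp1 : p = 1 := by omega
    subst hp1
    have := h (n₀ + 26) (by omega)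
    rw [G0_big _ (by omega), G0_big _ (by omega)] at this
    omega
  · rw [G0_big _ (by omega), G0_big _ (by omega)]; omega

theorem nine : 9 ∈ Sex G0 := by
  refine ⟨by norm_num, fun n => ?_⟩
  by_cases hn : n < 26
  · revert n; decide
  · rw [G0_big _ (by omega), G0_big _ (by omega)]; omega

theorem five : 5 ∉ Sex G0 := fun h => h.2 4 (by decide)

end H11.Sub
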