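import Mathlib

set_option autoImplicit false

namespace H11.Sum

open Filter

/-- the counting function `B(N) = |B ∩ [N]|` -/
noncomputable def cnt (B : Set ℕ) (N : ℕ) : ℕ := (B ∩ Set.Icc 1 N).ncard

theorem fin (B : Set ℕ) (N : ℕ) : (B ∩ Set.Icc 1 N).Finite :=
  (Set.finite_Icc 1 N).subset Set.inter_subset_right

theorem cnt_mono {B C : Set ℕ} (h : B ⊆ C) (N : ℕ) : cnt B N ≤ cnt C N :=
  Set.ncard_le_ncard (Set.inter_subset_inter_left _ h) (fin _ _)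

theorem cnt_union (B C : Set ℕ) (N : ℕ) : cnt (B ∪ C) N ≤ cnt B N + cnt C N := by
  unfold cnt; rw [Set.union_inter_distrib_right]; exact Set.ncard_union_le _ _

def Small (H : ℕ → ℕ) (X : Set ℕ) : Prop := ∃ K, ∀ᶠ N in atTop, cnt X N ≤ K * (H N + 1)

def F (H : ℕ → ℕ) : Filter ℕ where
  sets := {Y | Small H Yᶜ}
  univ_sets := ⟨0, by simp [cnt]⟩
  sets_of_superset := by
    rintro X Y ⟨K, hK⟩ h
    exact ⟨K, hK.mono fun N hN => (cnt_mono (Set.compl_subset_compl.mpr h) N).trans hN⟩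
  inter_sets := by
    rintro X Y ⟨K, hK⟩ ⟨K', hK'⟩
    refine ⟨K + K', (hK.and hK').mono fun N hN => ?_⟩
    rw [Set.compl_inter]
    have := cnt_union Xᶜ Yᶜ N
    rw [add_mul]; omega

theorem exists_ultra (H : ℕ → ℕ) (hH : ∀ K, ∃ᶠ N in atTop, K * H N < N) :
    ∃ p : Ultrafilter ℕ, ∀ X ∈ p, ¬ Small H X := by
  have hne : (F H).NeBot := by
    rw [← Filter.forall_mem_nonempty_iff_neBot]
    intro s hs
    by_contra hs'
    rw [Set.not_nonempty_iff_eq_empty] at hs'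
    subst hs'
    obtain ⟨K, hK⟩ := hs
    obtain ⟨N, h1, h2, h3⟩ := ((hH (2 * K)).and_eventually (hK.and (eventually_ge_atTop (2 * K)))).exists
    simp only [cnt, Set.compl_empty, Set.univ_inter, Set.ncard_Icc_nat] at h2
    have : 2 * K * H N = 2 * (K * H N) := by ring
    rw [mul_add] at h2
    omega
  refine ⟨Ultrafilter.of (F H), fun X hX hs => ?_⟩
  have : Xᶜ ∈ F H := by
    change Small H Xᶜᶜ
    rwa [compl_compl]
  exact (Ultrafilter.compl_mem_iff_notMem.mp (Ultrafilter.of_le _ this)) hX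

def Inv (p : Ultrafilter ℕ) (A : Set ℕ) (B C : Set ℕ) : Prop :=
  B.Finite ∧ C.Finite ∧ 0 ∉ B ∧ 0 ∉ C ∧ (∀ x ∈ B, {y | x + y ∈ A} ∈ p) ∧
    (∀ x ∈ C, {y | x + y ∈ A} ∈ p) ∧ ∀ b ∈ B, ∀ c ∈ C, b + c ∈ A

theorem Inv.symm {p : Ultrafilter ℕ} {A B C : Set ℕ} (h : Inv p A B C) : Inv p A C B :=
  ⟨h.2.1, h.1, h.2.2.2.1, h.2.2.1, h.2.2.2.2.2.1, h.2.2.2.2.1,
    fun c hc b hb => add_comm b c ▸ h.2.2.2.2.2.2 b hb c hc⟩

theorem step {H : ℕ → ℕ} {p : Ultrafilter ℕ} (hp : ∀ X ∈ p, ¬ Small H X) {A : Set ℕ}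
    (hA : {x | {y | x + y ∈ A} ∈ p} ∈ p) {B C : Set ℕ} (h : Inv p A B C) (k : ℕ) :
    ∃ B', B ⊆ B' ∧ Inv p A B' C ∧ ∃ N, k ≤ N ∧ (k + 1) * (H N + 1) < cnt B' N := by
  obtain ⟨h1, h2, h3, h4, h5, h6, h7⟩ := h
  let X : Set ℕ := {x | {y | x + y ∈ A} ∈ p} ∩ ⋂ c ∈ C, {y | c + y ∈ A}
  have hX : X ∈ p := inter_mem hA ((biInter_mem h2).mpr h6)
  have := hp X hX
  unfold Small at this
  push Not at this
  obtain ⟨N, hN, hk⟩ := ((this (k + 1)).and_eventually (eventually_ge_atTop k)).exists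
  refine ⟨B ∪ (X ∩ Set.Icc 1 N), Set.subset_union_left, ⟨h1.union (fin _ _), h2, ?_, h4, ?_, h6, ?_⟩,
    N, hk, lt_of_lt_of_le hN ?_⟩
  · rintro (h | h)
    · exact h3 h
    · simpa using h.2
  · rintro x (h | h)
    · exact h5 x h
    · exact h.1.1
  · rintro b (h | h) c hc
    · exact h7 b h c hc
    · have := Set.mem_iInter₂.mp h.1.2 c hc
      rwa [add_comm]
  · apply Set.ncard_le_ncard _ (fin _ _)
    exact fun x hx => ⟨Or.inr hx, hx.2⟩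

theorem big_of {H : ℕ → ℕ} (B : Set ℕ) (h : ∀ k, ∃ N, k ≤ N ∧ (k + 1) * (H N + 1) < cnt B N) :
    B.Infinite ∧ ∃ᶠ N in atTop, H N ≤ cnt B N := by
  constructor
  · intro hB
    obtain ⟨N, -, hN⟩ := h B.ncard
    have : cnt B N ≤ B.ncard := Set.ncard_le_ncard Set.inter_subset_left hB
    nlinarith
  · rw [frequently_atTop]
    intro k
    obtain ⟨N, h1, h2⟩ := h k
    exact ⟨N, h1, by nlinarith⟩

theorem build {H : ℕ → ℕ} {p : Ultrafilter ℕ} (hp : ∀ X ∈ p, ¬ Small H X) {A : Set ℕ}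
    (hA : {x | {y | x + y ∈ A} ∈ p} ∈ p) :
    ∃ B C : Set ℕ, 0 ∉ B ∧ 0 ∉ C ∧ B.Infinite ∧ C.Infinite ∧ (∀ b ∈ B, ∀ c ∈ C, b + c ∈ A) ∧
      (∃ᶠ N in atTop, H N ≤ cnt B N) ∧ ∃ᶠ N in atTop, H N ≤ cnt C N := by
  have two : ∀ (s : {s : Set ℕ × Set ℕ // Inv p A s.1 s.2}) (k : ℕ),
      ∃ t : {s : Set ℕ × Set ℕ // Inv p A s.1 s.2}, s.1.1 ⊆ t.1.1 ∧ s.1.2 ⊆ t.1.2 ∧
        (∃ N, k ≤ N ∧ (k + 1) * (H N + 1) < cnt t.1.1 N) ∧
        ∃ N, k ≤ N ∧ (k + 1) * (H N + 1) < cnt t.1.2 N := by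
    rintro ⟨⟨B, C⟩, h⟩ k
    obtain ⟨B', a1, a2, a3⟩ := step hp hA h k
    obtain ⟨C', b1, b2, b3⟩ := step hp hA a2.symm k
    exact ⟨⟨(B', C'), b2.symm⟩, a1, b1, a3, b3⟩
  choose f f1 f2 f3 f4 using two
  let s : ℕ → {s : Set ℕ × Set ℕ // Inv p A s.1 s.2} := fun k =>
    Nat.rec ⟨(∅, ∅), by simp [Inv]⟩ (fun k t => f t k) k
  have hs : ∀ k, s (k + 1) = f (s k) k := fun k => rfl
  have m1 : Monotone fun k => (s k).1.1 := monotone_nat_of_le_succ fun k => f1 (s k) k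
  have m2 : Monotone fun k => (s k).1.2 := monotone_nat_of_le_succ fun k => f2 (s k) k
  have g1 := big_of (H := H) (⋃ k, (s k).1.1) fun k => by
    obtain ⟨N, a, b⟩ := f3 (s k) k
    exact ⟨N, a, lt_of_lt_of_le b (cnt_mono (Set.subset_iUnion (fun k => (s k).1.1) (k + 1)) N)⟩
  have g2 := big_of (H := H) (⋃ k, (s k).1.2) fun k => by
    obtain ⟨N, a, b⟩ := f4 (s k) k
    exact ⟨N, a, lt_of_lt_of_le b (cnt_mono (Set.subset_iUnion (fun k => (s k).1.2) (k + 1)) N)⟩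
  refine ⟨⋃ k, (s k).1.1, ⋃ k, (s k).1.2, ?_, ?_, g1.1, g2.1, ?_, g1.2, g2.2⟩
  · intro h
    obtain ⟨k, hk⟩ := Set.mem_iUnion.mp h
    exact (s k).2.2.2.1 hk
  · intro h
    obtain ⟨k, hk⟩ := Set.mem_iUnion.mp h
    exact (s k).2.2.2.2.1 hk
  · intro b hb c hc
    obtain ⟨k, hk⟩ := Set.mem_iUnion.mp hb
    obtain ⟨l, hl⟩ := Set.mem_iUnion.mp hc
    exact (s (max k l)).2.2.2.2.2.2.2 b (m1 (le_max_left k l) hk) c (m2 (le_max_right k l) hl)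

theorem main (H : ℕ → ℕ) (hH : ∀ K, ∃ᶠ N in atTop, K * H N < N) (χ : ℕ → Bool) :
    ∃ (B C : Set ℕ) (i : Bool), 0 ∉ B ∧ 0 ∉ C ∧ B.Infinite ∧ C.Infinite ∧
      (∀ b ∈ B, ∀ c ∈ C, χ (b + c) = i) ∧
      (∃ᶠ N in atTop, H N ≤ cnt B N) ∧ ∃ᶠ N in atTop, H N ≤ cnt C N := by
  obtain ⟨p, hp⟩ := exists_ultra H hH
  by_cases h : {x | {y | x + y ∈ {z | χ z = true}} ∈ p} ∈ p
  · obtain ⟨B, C, h⟩ := build hp h
    exact ⟨B, C, true, h⟩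
  · have h' : {x | {y | x + y ∈ {z | χ z = false}} ∈ p} ∈ p := by
      refine mem_of_superset (Ultrafilter.compl_mem_iff_notMem.mpr h) fun x hx => ?_
      refine mem_of_superset (Ultrafilter.compl_mem_iff_notMem.mpr hx) fun y hy => ?_
      simpa using hy
    obtain ⟨B, C, h⟩ := build hp h'
    exact ⟨B, C, false, h⟩

end H11.Sum
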