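import Mathlib

set_option autoImplicit false

namespace H11.ZF

open SimpleGraph

/-- the hypercube `Q_d` -/
def Q (d : ℕ) : SimpleGraph (Fin d → Bool) where
  Adj x y := (Finset.univ.filter (fun i => x i ≠ y i)).card = 1
  symm := ⟨fun x y h => by simpa [ne_comm] using h⟩
  loopless := ⟨fun x h => by simp at h⟩

/-- vertices that get filled from `S` by repeated use of the colour change rule -/
inductive Filled {V : Type} (G : SimpleGraph V) (S : Set V) : V → Prop
  | base {v : V} : v ∈ S → Filled G S v
  | force {v w : V} : Filled G S v → G.Adj v w → (∀ u, G.Adj v u → u ≠ w → Filled G S u) →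
      Filled G S w

/-- zero forcing set -/
def IsZFS {V : Type} (G : SimpleGraph V) (S : Finset V) : Prop := ∀ v, Filled G (S : Set V) v

/-- minimum zero forcing set -/
def IsMinZFS {V : Type} (G : SimpleGraph V) (S : Finset V) : Prop :=
  IsZFS G S ∧ ∀ T : Finset V, IsZFS G T → S.card ≤ T.card

/-- one round of simultaneous forces -/
def step {V : Type} (G : SimpleGraph V) (S : Set V) : Set V :=
  S ∪ {w | w ∉ S ∧ ∃ v ∈ S, G.Adj v w ∧ ∀ u, G.Adj v u → u ∉ S → u = w}

/-- propagation time `pt(G,S)` -/
noncomputable def pt {V : Type} (G : SimpleGraph V) (S : Finset V) : ℕ :=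
  sInf {t | (step G)^[t] (S : Set V) = Set.univ}

/-- maximum propagation time `PT(G)` -/
noncomputable def PT {V : Type} (G : SimpleGraph V) : ℕ :=
  sSup {t | ∃ S : Finset V, IsMinZFS G S ∧ pt G S = t}

theorem filled_iter {V : Type} (G : SimpleGraph V) (S : Set V) (t : ℕ) :
    ∀ v ∈ (step G)^[t] S, Filled G S v := by
  induction t with
  | zero => intro v hv; exact Filled.base hv
  | succ t ih =>
    intro w hw
    rw [Function.iterate_succ_apply'] at hw
    rcases hw with hw | ⟨-, v, hv, hvw, h⟩
    · exact ih w hw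
    · refine Filled.force (ih v hv) hvw fun u hu hne => ih u ?_
      by_contra hn
      exact hne (h u hu hn)

def flip {d : ℕ} (i : Fin d) (x : Fin d → Bool) : Fin d → Bool :=
  fun j => if j = i then !x j else x j

theorem adj_iff {d : ℕ} (x y : Fin d → Bool) : (Q d).Adj x y ↔ ∃ i, y = flip i x := by
  change (Finset.univ.filter (fun i => x i ≠ y i)).card = 1 ↔ _
  rw [Finset.card_eq_one]
  constructor
  · rintro ⟨i, hi⟩
    refine ⟨i, funext fun j => ?_⟩
    have := Finset.ext_iff.mp hi j
    simp only [Finset.mem_filter, Finset.mem_univ, true_and, Finset.mem_singleton] at this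
    unfold flip
    split_ifs with h
    · have h2 := this.mpr h
      revert h2; cases x j <;> cases y j <;> simp
    · have h2 := mt this.mp h
      simp only [ne_eq, not_not] at h2
      exact h2.symm
  · rintro ⟨i, rfl⟩
    refine ⟨i, Finset.ext fun j => ?_⟩
    simp only [Finset.mem_filter, Finset.mem_univ, true_and, Finset.mem_singleton, flip]
    split_ifs with h <;> simp [h]

theorem flip_flip {d : ℕ} (i : Fin d) (x : Fin d → Bool) : flip i (flip i x) = x := by
  funext j; unfold flip; split_ifs <;> simp

theorem flip_comm {d : ℕ} (i j : Fin d) (x : Fin d → Bool) :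
    flip i (flip j x) = flip j (flip i x) := by
  funext k; unfold flip; split_ifs <;> simp

theorem flip_inj {d : ℕ} (x : Fin d → Bool) (i j : Fin d) (h : flip i x = flip j x) : i = j := by
  have := congrFun h i
  unfold flip at this
  by_contra hne
  simp [hne] at this

/-- adjacency operator mod 2 -/
def op (x : (Fin 6 → Bool) → ZMod 2) (v : Fin 6 → Bool) : ZMod 2 := ∑ i, x (flip i v)

theorem op_op (x : (Fin 6 → Bool) → ZMod 2) (v : Fin 6 → Bool) : op (op x) v = 0 := by
  unfold op
  have h2 : ∀ a : ZMod 2, a + a = 0 := by decide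
  have hsym : ∀ (n : ℕ) (f : Fin n → Fin n → ZMod 2), (∀ i j, f i j = f j i) →
      ∑ i, ∑ j, f i j = ∑ i, f i i := by
    intro n
    induction n with
    | zero => intro f _; simp
    | succ n ih =>
      intro f hf
      rw [Fin.sum_univ_succ, Fin.sum_univ_succ, Fin.sum_univ_succ]
      simp only [Fin.sum_univ_succ (fun j => f (Fin.succ _) j)]
      rw [Finset.sum_add_distrib, ih (fun i j => f i.succ j.succ) (fun i j => hf _ _)]
      have : ∑ i : Fin n, f i.succ 0 = ∑ i : Fin n, f 0 i.succ :=
        Finset.sum_congr rfl fun i _ => hf _ _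
      rw [this]
      linear_combination h2 (∑ i : Fin n, f 0 i.succ)
  rw [hsym 6 (fun i j => x (flip j (flip i v))) (fun i j => by rw [flip_comm])]
  simp only [flip_flip, Finset.sum_const, Finset.card_univ, Fintype.card_fin]
  have : ∀ a : ZMod 2, 6 • a = 0 := by decide
  exact this _

theorem vanish (S : Set (Fin 6 → Bool)) (x : (Fin 6 → Bool) → ZMod 2) (hx : ∀ v, op x v = 0)
    (hS : ∀ v ∈ S, x v = 0) (v : Fin 6 → Bool) (hv : Filled (Q 6) S v) : x v = 0 := by
  induction hv with
  | base h => exact hS _ h
  | @force v w _ hvw _ _ ih =>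
    obtain ⟨i, rfl⟩ := (adj_iff _ _).mp hvw
    have := hx v
    unfold op at this
    rw [Finset.sum_eq_single i] at this
    · exact this
    · intro j _ hj
      exact ih _ ((adj_iff _ _).mpr ⟨j, rfl⟩) (fun h => hj (flip_inj _ _ _ h))
    · simp

theorem lower (T : Finset (Fin 6 → Bool)) (hT : IsZFS (Q 6) T) : 32 ≤ T.card := by
  let ext : ((Fin 5 → Bool) → ZMod 2) → ((Fin 6 → Bool) → ZMod 2) :=
    fun y v => if v 0 = true then 0 else y (Fin.tail v)
  let F : ((Fin 5 → Bool) → ZMod 2) → (T → ZMod 2) := fun y v => op (ext y) v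
  have hop : ∀ y w, op (ext y) (Fin.cons true w) = y w := by
    intro y w
    unfold op
    rw [Finset.sum_eq_single 0]
    · have h0 : flip 0 (Fin.cons true w : Fin 6 → Bool) 0 = false := by simp [flip]
      have h1 : Fin.tail (flip 0 (Fin.cons true w : Fin 6 → Bool)) = w := by
        funext j; simp [Fin.tail, flip]
      simp only [ext, h0, h1]; simp
    · intro j _ hj
      have h0 : flip j (Fin.cons true w : Fin 6 → Bool) 0 = true := by
        simp [flip, hj.symm]
      simp only [ext, h0]; simp
    · simp
  have hF : Function.Injective F := by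
    intro y y' h
    have key : ∀ v, op (ext y) v - op (ext y') v = 0 := by
      intro v
      refine vanish (T : Set _) (fun v => op (ext y) v - op (ext y') v) ?_ ?_ v (hT v)
      · intro u
        have h1 := op_op (ext y) u
        have h2 := op_op (ext y') u
        unfold op at h1 h2 ⊢
        rw [Finset.sum_sub_distrib, h1, h2, sub_zero]
      · intro u hu
        exact sub_eq_zero.mpr (congrFun h ⟨u, hu⟩)
    funext w
    have := key (Fin.cons true w)
    rwa [hop, hop, sub_eq_zero] at this
  have := Fintype.card_le_of_injective F hF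
  simp only [Fintype.card_pi, ZMod.card, Finset.prod_const, Finset.card_univ, Fintype.card_bool,
    Fintype.card_fin, Fintype.card_coe] at this
  exact (Nat.pow_le_pow_iff_right (by norm_num)).mp this

def enc (v : Fin 6 → Bool) : ℕ :=
  (v 0).toNat + 2 * (v 1).toNat + 4 * (v 2).toNat + 8 * (v 3).toNat + 16 * (v 4).toNat +
    32 * (v 5).toNat

def M : List ℕ := [1232578265587818552, 3538421274801512504, 3538421275069947960, 8150107293497335864, 8150107293497352248, 8150107293501546552, 8150107293501612088, 8150107293501612090, 8150107293501612218, 8150107293501614266, 8726568045805037754, 8726568080164776122, 8726568634215557310, 17987095367996139966, 17987095368004528574, 17996102567259531774, 18158232222564346366, 18446744073692773374, 18446744073709551615]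

def mem (t : ℕ) (v : Fin 6 → Bool) : Bool := (M.getD t 0).testBit (enc v)

def chk (t : ℕ) (w : Fin 6 → Bool) : Prop :=
  mem (t + 1) w = true ↔ (mem t w = true ∨ ∃ i, mem t (flip i w) = true ∧
    ∀ j, mem t (flip j (flip i w)) = false → j = i)

instance (t : ℕ) (w : Fin 6 → Bool) : Decidable (chk t w) := by unfold chk; infer_instance

theorem all6 (P : (Fin 6 → Bool) → Prop) (h : ∀ a b c d e f : Bool, P ![a, b, c, d, e, f])
    (w : Fin 6 → Bool) : P w := by
  have : w = ![w 0, w 1, w 2, w 3, w 4, w 5] := by
    funext i; fin_cases i <;> rfl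
  rw [this]; exact h _ _ _ _ _ _

theorem chk_all : ∀ t < 18, ∀ a b c d e f : Bool, chk t ![a, b, c, d, e, f] := by
  decide +kernel

theorem step_mem (t : ℕ) (ht : t < 18) :
    step (Q 6) {v | mem t v = true} = {v | mem (t + 1) v = true} := by
  ext w
  have h := all6 (chk t) (chk_all t ht) w
  unfold chk at h
  simp only [step, Set.mem_union, Set.mem_setOf_eq]
  rw [h]
  constructor
  · rintro (h1 | ⟨-, v, hv, hvw, h2⟩)
    · exact Or.inl h1
    · obtain ⟨i, rfl⟩ := (adj_iff _ _).mp hvw
      refine Or.inr ⟨i, by rwa [flip_flip], fun j hj => ?_⟩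
      rw [flip_flip] at hj
      exact flip_inj v _ _ (h2 _ ((adj_iff _ _).mpr ⟨j, rfl⟩) (by simp [hj]))
  · rintro (h1 | ⟨i, h1, h2⟩)
    · exact Or.inl h1
    · by_cases hw : mem t w = true
      · exact Or.inl hw
      refine Or.inr ⟨hw, flip i w, h1, (adj_iff _ _).mpr ⟨i, (flip_flip _ _).symm⟩, ?_⟩
      intro u hu hn
      obtain ⟨j, rfl⟩ := (adj_iff _ _).mp hu
      rw [h2 j (by simpa using hn), flip_flip]

def S0 : Finset (Fin 6 → Bool) := Finset.univ.filter (fun v => mem 0 v = true)

theorem iter_eq (t : ℕ) (ht : t ≤ 18) :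
    (step (Q 6))^[t] (S0 : Set (Fin 6 → Bool)) = {v | mem t v = true} := by
  induction t with
  | zero => ext v; simp [S0]
  | succ t ih => rw [Function.iterate_succ_apply', ih (by omega), step_mem t (by omega)]

theorem full : (step (Q 6))^[18] (S0 : Set (Fin 6 → Bool)) = Set.univ := by
  rw [iter_eq 18 le_rfl]
  apply Set.eq_univ_of_forall
  apply all6
  simp only [Set.mem_setOf_eq]
  decide +kernel

theorem S0_card : S0.card = 32 := by decide +kernel

theorem S0_min : IsMinZFS (Q 6) S0 :=
  ⟨fun v => filled_iter _ _ 18 v (by rw [full]; trivial), fun T hT => S0_card ▸ lower T hT⟩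

theorem S0_pt : pt (Q 6) S0 = 18 := by
  apply le_antisymm (Nat.sInf_le full)
  apply le_csInf ⟨18, full⟩
  intro t ht
  by_contra hlt
  have h1 : (step (Q 6))^[t] (S0 : Set (Fin 6 → Bool)) = Set.univ := ht
  rw [iter_eq t (by omega)] at h1
  have h2 : mem t (![false, false, false, false, false, false] : Fin 6 → Bool) = true := by
    have : (![false, false, false, false, false, false] : Fin 6 → Bool) ∈ {v | mem t v = true} := by rw [h1]; trivial
    exact this
  have key : ∀ t < 18, mem t (![false, false, false, false, false, false] : Fin 6 → Bool) = false := by decide +kernel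
  rw [key t (by omega)] at h2
  exact absurd h2 (by simp)

theorem PT_ge : 18 ≤ PT (Q 6) := by
  apply le_csSup
  · exact Set.Finite.bddAbove ((Set.finite_range (pt (Q 6))).subset
      (by rintro t ⟨S, -, rfl⟩; exact ⟨S, rfl⟩))
  · exact ⟨S0, S0_min, S0_pt⟩

end H11.ZF
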